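import Mathlib

/-!
A checker for proofs about words in order automorphisms of a linear order.
-/

set_option autoImplicit false

namespace Pool.Agent.Helper31.RING

/-- A word; the letter `2 k` stands for the label `k`, the letter `2 k + 1` for its inverse. -/
abbrev Word := List ℕ

/-- The inverse letter. -/
def opp (a : ℕ) : ℕ := if a % 2 = 0 then a + 1 else a - 1

/-- A letter in front of a word. -/
def push (a : ℕ) : Word → Word
  | [] => [a]
  | b :: t => if b = opp a then t else a :: b :: t

/-- The product of two words. -/
def mulW (u w : Word) : Word := u.foldr push w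

/-- The inverse word. -/
def invW : Word → Word
  | [] => []
  | a :: t => invW t ++ [opp a]

/-- A statement about a point. -/
inductive Lit
  | ord (st : Bool) (u v : Word)
  | walk (pos up : Bool) (i l : ℕ) (g : Word)

/-- The negation. -/
def Lit.neg : Lit → Lit
  | .ord st u v => .ord (!st) v u
  | .walk pos up i l g => .walk (!pos) up i l g

/-- The statement about another point. -/
def Lit.shift (g : Word) : Lit → Lit
  | .ord st u v => .ord st (mulW u g) (mulW v g)
  | .walk pos up i l h => .walk pos up i l (mulW h g)

/-- A chain of inequalities. -/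
def chain (Γ : List Lit) : Word → Bool → List ℕ → Option (Word × Bool)
  | w, s, [] => some (w, s)
  | w, s, k :: ks =>
    match Γ[k]? with
    | some (.ord st u v) => chain Γ (mulW (mulW w (invW u)) v) (s || st) ks
    | _ => none

/-- Does the chain lead back to its start? -/
def closes (Γ : List Lit) (w : Word) (ks : List ℕ) : Bool :=
  match chain Γ w false ks with
  | some (w', true) => w' == w
  | _ => false

/-- Two opposite statements. -/
def clashes (Γ : List Lit) (i j : ℕ) : Bool :=
  match Γ[i]?, Γ[j]? with
  | some (.walk true up a b g), some (.walk false up' a' b' g') =>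
    up == up' && a == a' && b == b' && g == g'
  | _, _ => false

/-- A step of a proof. -/
inductive Cmd (R : Type)
  | use (r : R)
  | lem (n : ℕ) (g : Word)
  | cut (l : Lit)
  | close (w : Word) (ks : List ℕ)
  | clash (i j : ℕ)

/-- All cases of the list of open cases are refuted. -/
def check {R : Type} (cl : R → List Lit) (lems : List (List Lit)) :
    List (Cmd R) → List (List Lit) → Bool
  | [], [] => true
  | [], _ :: _ => false
  | _ :: _, [] => false
  | .use r :: cs, Γ :: S => check cl lems cs ((cl r).map (fun l => Γ ++ [l]) ++ S)
  | .lem n g :: cs, Γ :: S =>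
    match lems[n]? with
    | some L => check cl lems cs ((L.map (Lit.shift g)).map (fun l => Γ ++ [l]) ++ S)
    | none => false
  | .cut l :: cs, Γ :: S => check cl lems cs ((Γ ++ [l]) :: (Γ ++ [l.neg]) :: S)
  | .close w ks :: cs, Γ :: S => closes Γ w ks && check cl lems cs S
  | .clash i j :: cs, Γ :: S => clashes Γ i j && check cl lems cs S

/-- A list of proofs. -/
def checkAll {R : Type} (cl : R → List Lit) :
    List (List Lit) → List (List Lit × List (Cmd R)) → Bool
  | _, [] => true
  | lems, (L, cs) :: rest => check cl lems cs [L.map Lit.neg] && checkAll cl (lems ++ [L]) rest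

section act

variable {Ω : Type*} [LinearOrder Ω] (f : ℕ → Ω ≃o Ω)

/-- The action of a letter. -/
def letter (a : ℕ) : Ω ≃o Ω := if a % 2 = 0 then f (a / 2) else (f (a / 2)).symm

/-- The action of a word. -/
def act : Word → Ω → Ω
  | [], z => z
  | a :: w, z => letter f a (act w z)

lemma letter_opp (a : ℕ) (z : Ω) : letter f (opp a) (letter f a z) = z := by
  unfold opp letter
  rcases Nat.even_or_odd' a with ⟨c, rfl | rfl⟩
  · have h1 : 2 * c % 2 = 0 := by omega
    have h2 : (2 * c + 1) % 2 = 1 := by omega
    have h3 : 2 * c / 2 = c := by omega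
    have h4 : (2 * c + 1) / 2 = c := by omega
    simp [h1, h2, h3, h4]
  · have h2 : (2 * c + 1) % 2 = 1 := by omega
    have h1 : (2 * c + 1 - 1) % 2 = 0 := by omega
    have h4 : (2 * c + 1) / 2 = c := by omega
    have h3 : (2 * c + 1 - 1) / 2 = c := by omega
    simp [h2, h4]

lemma opp_opp (a : ℕ) : opp (opp a) = a := by
  unfold opp
  split_ifs <;> omega

lemma letter_opp' (a : ℕ) (z : Ω) : letter f a (letter f (opp a) z) = z := by
  have h := letter_opp f (opp a) z
  rwa [opp_opp] at h

lemma act_push (a : ℕ) (w : Word) (z : Ω) : act f (push a w) z = letter f a (act f w z) := by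
  cases w with
  | nil => rfl
  | cons b t =>
    change act f (if b = opp a then t else a :: b :: t) z = _
    split_ifs with h
    · subst h
      change _ = letter f a (letter f (opp a) (act f t z))
      rw [letter_opp']
    · rfl

lemma act_mul (u w : Word) (z : Ω) : act f (mulW u w) z = act f u (act f w z) := by
  induction u with
  | nil => rfl
  | cons a t ih =>
    change act f (push a (mulW t w)) z = letter f a (act f t (act f w z))
    rw [act_push, ih]

lemma act_append (u w : Word) (z : Ω) : act f (u ++ w) z = act f u (act f w z) := by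
  induction u with
  | nil => rfl
  | cons a t ih =>
    change letter f a (act f (t ++ w) z) = letter f a (act f t (act f w z))
    rw [ih]

lemma act_inv (u : Word) (z : Ω) : act f (invW u) (act f u z) = z := by
  induction u with
  | nil => rfl
  | cons a t ih =>
    change act f (invW t ++ [opp a]) (letter f a (act f t z)) = z
    rw [act_append]
    change act f (invW t) (letter f (opp a) (letter f a (act f t z))) = z
    rw [letter_opp, ih]

lemma act_lt (u : Word) {x y : Ω} (h : x < y) : act f u x < act f u y := by
  induction u with
  | nil => exact h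
  | cons a t ih => exact (letter f a).strictMono ih

lemma act_le (u : Word) {x y : Ω} (h : x ≤ y) : act f u x ≤ act f u y := by
  induction u with
  | nil => exact h
  | cons a t ih => exact (letter f a).monotone ih

variable (Wk : Bool → ℕ → ℕ → Ω → Prop)

/-- The statement holds at the point `z`. -/
def Lit.holds (z : Ω) : Lit → Prop
  | .ord true u v => act f u z < act f v z
  | .ord false u v => act f u z ≤ act f v z
  | .walk true up i l g => Wk up i l (act f g z)
  | .walk false up i l g => ¬ Wk up i l (act f g z)

lemma holds_or_neg (z : Ω) (l : Lit) : l.holds f Wk z ∨ l.neg.holds f Wk z := by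
  cases l with
  | ord st u v =>
    cases st
    · exact le_or_gt _ _
    · exact lt_or_ge _ _
  | walk pos up i l g =>
    cases pos
    · exact (em _).symm
    · exact em _

lemma holds_neg {z : Ω} {l : Lit} (h : ¬ l.neg.holds f Wk z) : l.holds f Wk z :=
  (holds_or_neg f Wk z l).resolve_right h

lemma holds_shift (z : Ω) (g : Word) (l : Lit) :
    (l.shift g).holds f Wk z ↔ l.holds f Wk (act f g z) := by
  cases l with
  | ord st u v => cases st <;> simp [Lit.shift, Lit.holds, act_mul]
  | walk pos up i l h => cases pos <;> simp [Lit.shift, Lit.holds, act_mul]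

lemma chain_sound {Γ : List Lit} {z : Ω} (hΓ : ∀ l ∈ Γ, l.holds f Wk z) (ks : List ℕ) :
    ∀ (w : Word) (s : Bool) (x : Ω) (w' : Word) (s' : Bool),
      (if s then x < act f w z else x ≤ act f w z) → chain Γ w s ks = some (w', s') →
      if s' then x < act f w' z else x ≤ act f w' z := by
  induction ks with
  | nil =>
    intro w s x w' s' h1 h2
    simp only [chain, Option.some.injEq, Prod.mk.injEq] at h2
    obtain ⟨rfl, rfl⟩ := h2
    exact h1
  | cons k ks ih =>
    intro w s x w' s' h1 h2
    unfold chain at h2
    split at h2
    · rename_i st u v hk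
      refine ih _ _ x w' s' ?_ h2
      have hm := hΓ _ (List.mem_of_getElem? hk)
      have e1 : act f w z = act f (mulW w (invW u)) (act f u z) := by
        rw [act_mul, act_inv]
      rw [act_mul]
      cases st
      · have h3 : act f w z ≤ act f (mulW w (invW u)) (act f v z) := by
          rw [e1]
          exact act_le f _ hm
        cases s
        · exact h1.trans h3
        · exact lt_of_lt_of_le h1 h3
      · have h3 : act f w z < act f (mulW w (invW u)) (act f v z) := by
          rw [e1]
          exact act_lt f _ hm
        cases s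
        · exact lt_of_le_of_lt h1 h3
        · exact lt_trans h1 h3
    · exact absurd h2 (by simp)

lemma closes_sound {Γ : List Lit} {z : Ω} {w : Word} {ks : List ℕ} (h : closes Γ w ks = true) :
    ¬ ∀ l ∈ Γ, l.holds f Wk z := by
  intro hΓ
  unfold closes at h
  split at h
  · rename_i w' hc
    have h1 := chain_sound f Wk hΓ ks w false (act f w z) w' true (le_refl _) hc
    rw [eq_of_beq h] at h1
    exact absurd h1 (lt_irrefl _)
  · exact absurd h (by simp)

lemma clashes_sound {Γ : List Lit} {z : Ω} {i j : ℕ} (h : clashes Γ i j = true) :
    ¬ ∀ l ∈ Γ, l.holds f Wk z := by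
  intro hΓ
  unfold clashes at h
  split at h
  · rename_i up a b g up' a' b' g' h1 h2
    simp only [Bool.and_eq_true, beq_iff_eq] at h
    obtain ⟨⟨⟨rfl, rfl⟩, rfl⟩, rfl⟩ := h
    exact hΓ _ (List.mem_of_getElem? h2) (hΓ _ (List.mem_of_getElem? h1))
  · exact absurd h (by simp)

lemma cons_of {Γ : List Lit} {z : Ω} {l : Lit} (hΓ : ∀ l ∈ Γ, l.holds f Wk z)
    (hl : l.holds f Wk z) : ∀ k ∈ Γ ++ [l], k.holds f Wk z := by
  intro k hk
  rcases List.mem_append.mp hk with h | h
  · exact hΓ k h
  · rw [List.mem_singleton.mp h]
    exact hl

theorem check_sound {R : Type} {cl : R → List Lit} {lems : List (List Lit)} {U : Ω → Prop}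
    (hU : ∀ w z, U z → U (act f w z))
    (hcl : ∀ r z, U z → ∃ l ∈ cl r, l.holds f Wk z)
    (hlems : ∀ L ∈ lems, ∀ z, U z → ∃ l ∈ L, l.holds f Wk z) (cs : List (Cmd R)) :
    ∀ S : List (List Lit), check cl lems cs S = true → ∀ Γ ∈ S, ∀ z, U z →
      ¬ ∀ l ∈ Γ, l.holds f Wk z := by
  induction cs with
  | nil =>
    intro S h
    cases S with
    | nil => simp
    | cons Γ S => simp [check] at h
  | cons c cs ih =>
    intro S h
    cases S with
    | nil => simp [check] at h
    | cons Γ S =>
      cases c with
      | use r =>
        have h1 := ih _ h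
        intro Δ hΔ z hz hn
        rcases List.mem_cons.mp hΔ with rfl | hΔ
        · obtain ⟨l, hl, hl2⟩ := hcl r z hz
          exact h1 _ (List.mem_append_left _ (List.mem_map_of_mem hl)) z hz
            (cons_of f Wk hn hl2)
        · exact h1 _ (List.mem_append_right _ hΔ) z hz hn
      | lem n g =>
        unfold check at h
        split at h
        · rename_i L hL
          have h1 := ih _ h
          intro Δ hΔ z hz hn
          rcases List.mem_cons.mp hΔ with rfl | hΔ
          · obtain ⟨l, hl, hl2⟩ := hlems L (List.mem_of_getElem? hL) _ (hU g z hz)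
            exact h1 _ (List.mem_append_left _ (List.mem_map_of_mem
              (List.mem_map_of_mem hl))) z hz (cons_of f Wk hn ((holds_shift f Wk z g l).mpr hl2))
          · exact h1 _ (List.mem_append_right _ hΔ) z hz hn
        · exact absurd h (by simp)
      | cut l =>
        have h1 := ih _ h
        intro Δ hΔ z hz hn
        rcases List.mem_cons.mp hΔ with rfl | hΔ
        · rcases holds_or_neg f Wk z l with h2 | h2
          · exact h1 _ List.mem_cons_self z hz (cons_of f Wk hn h2)
          · exact h1 _ (List.mem_cons_of_mem _ List.mem_cons_self) z hz (cons_of f Wk hn h2)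
        · exact h1 _ (List.mem_cons_of_mem _ (List.mem_cons_of_mem _ hΔ)) z hz hn
      | close w ks =>
        have h2 : closes Γ w ks = true ∧ check cl lems cs S = true := by
          simpa [check] using h
        intro Δ hΔ z hz hn
        rcases List.mem_cons.mp hΔ with rfl | hΔ
        · exact closes_sound f Wk h2.1 hn
        · exact ih _ h2.2 _ hΔ z hz hn
      | clash i j =>
        have h2 : clashes Γ i j = true ∧ check cl lems cs S = true := by
          simpa [check] using h
        intro Δ hΔ z hz hn
        rcases List.mem_cons.mp hΔ with rfl | hΔ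
        · exact clashes_sound f Wk h2.1 hn
        · exact ih _ h2.2 _ hΔ z hz hn

theorem checkAll_sound {R : Type} {cl : R → List Lit} {U : Ω → Prop}
    (hU : ∀ w z, U z → U (act f w z))
    (hcl : ∀ r z, U z → ∃ l ∈ cl r, l.holds f Wk z) (ps : List (List Lit × List (Cmd R))) :
    ∀ lems : List (List Lit), (∀ L ∈ lems, ∀ z, U z → ∃ l ∈ L, l.holds f Wk z) →
      checkAll cl lems ps = true → ∀ p ∈ ps, ∀ z, U z → ∃ l ∈ p.1, l.holds f Wk z := by
  induction ps with
  | nil => simp
  | cons p ps ih =>
    obtain ⟨L, cs⟩ := p
    intro lems hlems h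
    have h2 : check cl lems cs [L.map Lit.neg] = true ∧ checkAll cl (lems ++ [L]) ps = true := by
      simpa [checkAll] using h
    have hL : ∀ z, U z → ∃ l ∈ L, l.holds f Wk z := by
      intro z hz
      by_contra hn
      push Not at hn
      refine check_sound f Wk hU hcl hlems cs _ h2.1 _ (List.mem_singleton.mpr rfl) z hz ?_
      intro l hl
      obtain ⟨k, hk, rfl⟩ := List.mem_map.mp hl
      exact (holds_or_neg f Wk z k).resolve_left (hn k hk)
    intro p hp z hz
    rcases List.mem_cons.mp hp with rfl | hp
    · exact hL z hz
    · refine ih (lems ++ [L]) ?_ h2.2 p hp z hz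
      intro L' hL' z hz
      rcases List.mem_append.mp hL' with h3 | h3
      · exact hlems L' h3 z hz
      · rw [List.mem_singleton.mp h3]
        exact hL z hz

end act

end Pool.Agent.Helper31.RING
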