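import Mathlib
import Pool.Agent.Helper31.RING.Check

/-!
The rules for the corners of a polygon with legs.
-/

set_option autoImplicit false

namespace Pool.Agent.Helper31.RING

/-- Two pairs alternate. -/
def inter (i l j k : ℕ) : Bool :=
  i != j && i != k && l != j && l != k &&
    (decide (min i l < j ∧ j < max i l) != decide (min i l < k ∧ k < max i l))

/-- The face at the side `k`; two sides at a corner without a leg have the same face. -/
def fc (m : ℕ) (lam : ℕ → ℕ) : ℕ → ℕ → ℕ
  | 0, j => j
  | t + 1, j => if lam ((j + 1) % m) = 0 then fc m lam t ((j + 1) % m) else j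

/-- The rules. -/
inductive Rule
  | F (dual : Bool) (i : ℕ) (g : Word)
  | Z (dual : Bool) (i n : ℕ) (g : Word)
  | FY (dual : Bool) (i : ℕ) (g : Word)
  | G (dual : Bool) (k : ℕ) (g : Word)
  | N (up : Bool) (i : ℕ) (g : Word)
  | W (up : Bool) (i l n : ℕ) (g : Word)
  | M (dual : Bool) (i : ℕ) (g : Word)
  | C (st up : Bool) (i l : ℕ) (g : Word) (up' : Bool) (j k : ℕ) (h : Word)

/-- An inequality or its dual. -/
def sw (dual st : Bool) (u v : Word) : Lit := if dual then .ord st v u else .ord st u v

/-- A power of the translation along a leg. -/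
def turns (m i : ℕ) : ℕ → Word → Word
  | 0, g => g
  | n + 1, g => turns m i n (push (2 * i) (push (2 * (m + i) + 1) g))

/-- A power of the translation along a leg. -/
def turns' (m i : ℕ) : ℕ → Word → Word
  | 0, g => g
  | n + 1, g => turns' m i n (push (2 * (m + i) + 1) (push (2 * i) g))

section clauses

variable (m : ℕ) (lam : ℕ → ℕ)

/-- Another corner is before the corner `i`, or `c`. -/
def clA (dual : Bool) (i : ℕ) (g : Word) (c : Lit) : List Lit :=
  ((List.range m).filter (fun j => j != i)).map
    (fun j => sw dual true (push (2 * j + 1) g) (push (2 * i + 1) g)) ++ [c]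

/-- A clause. -/
def clF (dual : Bool) (i : ℕ) (g : Word) : List Lit :=
  if i < m ∧ lam i ≠ 0 then
    clA m dual i g (sw dual false (push (2 * ((i + 1) % m) + 1) g) (push (2 * (m + i) + 1)
      (turns m i (lam i - 1) (push (2 * ((i + m - 1) % m)) (push (2 * i + 1) g)))))
  else [.ord false [] []]

/-- A clause. -/
def clZ (dual : Bool) (i n : ℕ) (g : Word) : List Lit :=
  if i < m ∧ lam i = 0 then
    clA m dual i g (sw dual false
      (push (2 * (if n = 0 then (i + 1) % m else (i + m - 1) % m) + 1) g) (push (2 * i + 1) g))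
  else [.ord false [] []]

/-- A clause. -/
def clFY (dual : Bool) (i : ℕ) (g : Word) : List Lit :=
  if i < m then
    clA m dual i g (sw dual false
      (push (2 * (2 * m + fc m lam m i)) (push (2 * ((i + 1) % m) + 1) g))
      (push (2 * (2 * m + fc m lam m ((i + m - 1) % m)))
        (push (2 * i + 1) (push (2 * ((i + m - 1) % m)) (push (2 * i + 1) g)))))
  else [.ord false [] []]

/-- A clause. -/
def clG (dual : Bool) (k : ℕ) (g : Word) : List Lit :=
  if k < m ∧ lam k ≠ 0 then
    [sw dual true (push (2 * (2 * m + fc m lam m k) + 1) g)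
        (push (2 * (2 * m + fc m lam m ((k + m - 1) % m)) + 1) g),
      sw dual false (push (2 * (2 * m + fc m lam m k) + 1) g)
        (turns' m k (lam k) (push (2 * (2 * m + fc m lam m ((k + m - 1) % m)) + 1) g))]
  else [.ord false [] []]

/-- A clause. -/
def clN (up : Bool) (i : ℕ) (g : Word) : List Lit :=
  if i < m ∧ lam i ≠ 0 then
    sw up false (push (2 * i) g) (push (2 * (m + i)) g) ::
      ((List.range m).filter (fun j => lam j != 0 && j != i)).map (fun l => .walk true up i l g)
  else [.ord false [] []]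

/-- A clause. -/
def clW (up : Bool) (i l n : ℕ) (g : Word) : List Lit :=
  if i < m ∧ l < m then
    [.walk false up i l g, if n = 0 then sw up true (push (2 * l) g) (push (2 * (m + l)) g)
        else sw up false (push (2 * (m + l)) g) (push (2 * (m + i)) g)]
  else [.ord false [] []]

/-- A clause. -/
def clM (dual : Bool) (i : ℕ) (g : Word) : List Lit :=
  if i < m ∧ lam i ≠ 0 then
    ((List.range m).filter (fun j => lam j != 0)).map
      (fun j => sw dual true (push (2 * (m + i)) g) (push (2 * j) g))
  else [.ord false [] []]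

/-- A clause. -/
def clC (st up : Bool) (i l : ℕ) (g : Word) (up' : Bool) (j k : ℕ) (h : Word) : List Lit :=
  if (i < m ∧ l < m ∧ j < m ∧ k < m) ∧ inter i l j k = true then
    [.walk false up i l g, .walk false up' j k h, .ord (!st) h g,
      .ord st (push (2 * (m + if up then i else l)) g)
        (push (2 * (m + if up' then k else j)) h)]
  else [.ord false [] []]

/-- The clause of a rule. -/
def cl : Rule → List Lit
  | .F dual i g => clF m lam dual i g
  | .Z dual i n g => clZ m lam dual i n g
  | .FY dual i g => clFY m lam dual i g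
  | .G dual k g => clG m lam dual k g
  | .N up i g => clN m lam up i g
  | .W up i l n g => clW m up i l n g
  | .M dual i g => clM m lam dual i g
  | .C st up i l g up' j k h => clC m st up i l g up' j k h

end clauses

/-- The rules for the labels `X` of the corners, the labels `I` of the inner ends of the legs, the
labels `Y` of the faces and the walks. -/
structure Ring {Ω : Type*} [LinearOrder Ω] (m : ℕ) (lam : ℕ → ℕ) (U : Ω → Prop)
    (X I Y : ℕ → Ω ≃o Ω) (Wk : Bool → ℕ → ℕ → Ω → Prop) : Prop where
  uX : ∀ k z, U z → U (X k z)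
  uX' : ∀ k z, U z → U ((X k).symm z)
  uI : ∀ k z, U z → U (I k z)
  uI' : ∀ k z, U z → U ((I k).symm z)
  uY : ∀ k z, U z → U (Y k z)
  uY' : ∀ k z, U z → U ((Y k).symm z)
  first : ∀ i < m, lam i ≠ 0 → ∀ y, U y → (∀ k < m, (X i).symm y ≤ (X k).symm y) →
    (X ((i + 1) % m)).symm y ≤ (I i).symm ((fun x => X i ((I i).symm x))^[lam i - 1]
      (X ((i + m - 1) % m) ((X i).symm y)))
  last : ∀ i < m, lam i ≠ 0 → ∀ y, U y → (∀ k < m, (X k).symm y ≤ (X i).symm y) →
    (I i).symm ((fun x => X i ((I i).symm x))^[lam i - 1]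
      (X ((i + m - 1) % m) ((X i).symm y))) ≤ (X ((i + 1) % m)).symm y
  first0 : ∀ i < m, lam i = 0 → ∀ y, U y → (∀ k < m, (X i).symm y ≤ (X k).symm y) →
    (X ((i + 1) % m)).symm y ≤ (X i).symm y ∧ (X ((i + m - 1) % m)).symm y ≤ (X i).symm y
  last0 : ∀ i < m, lam i = 0 → ∀ y, U y → (∀ k < m, (X k).symm y ≤ (X i).symm y) →
    (X i).symm y ≤ (X ((i + 1) % m)).symm y ∧ (X i).symm y ≤ (X ((i + m - 1) % m)).symm y
  firstY : ∀ i < m, ∀ y, U y → (∀ k < m, (X i).symm y ≤ (X k).symm y) →
    Y (fc m lam m i) ((X ((i + 1) % m)).symm y) ≤ Y (fc m lam m ((i + m - 1) % m))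
      ((X i).symm (X ((i + m - 1) % m) ((X i).symm y)))
  lastY : ∀ i < m, ∀ y, U y → (∀ k < m, (X k).symm y ≤ (X i).symm y) →
    Y (fc m lam m ((i + m - 1) % m)) ((X i).symm (X ((i + m - 1) % m) ((X i).symm y))) ≤
      Y (fc m lam m i) ((X ((i + 1) % m)).symm y)
  gap : ∀ k < m, lam k ≠ 0 → ∀ p, U p →
    (Y (fc m lam m ((k + m - 1) % m))).symm p ≤ (Y (fc m lam m k)).symm p →
    (Y (fc m lam m k)).symm p ≤ (fun x => (I k).symm (X k x))^[lam k]
      ((Y (fc m lam m ((k + m - 1) % m))).symm p)
  gap' : ∀ k < m, lam k ≠ 0 → ∀ p, U p →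
    (Y (fc m lam m k)).symm p ≤ (Y (fc m lam m ((k + m - 1) % m))).symm p →
    (fun x => (I k).symm (X k x))^[lam k] ((Y (fc m lam m ((k + m - 1) % m))).symm p) ≤
      (Y (fc m lam m k)).symm p
  net : ∀ i < m, lam i ≠ 0 → ∀ z, U z → I i z < X i z →
    ∃ l < m, lam l ≠ 0 ∧ l ≠ i ∧ Wk false i l z
  net' : ∀ i < m, lam i ≠ 0 → ∀ z, U z → X i z < I i z →
    ∃ l < m, lam l ≠ 0 ∧ l ≠ i ∧ Wk true i l z
  walk : ∀ i l z, Wk false i l z → X l z < I l z ∧ I l z ≤ I i z
  walk' : ∀ i l z, Wk true i l z → I l z < X l z ∧ I i z ≤ I l z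
  bound : ∀ i < m, lam i ≠ 0 → ∀ z, U z → ∃ j < m, lam j ≠ 0 ∧ I i z < X j z
  bound' : ∀ i < m, lam i ≠ 0 → ∀ z, U z → ∃ j < m, lam j ≠ 0 ∧ X j z < I i z
  cross : ∀ up i l z up' j k w, inter i l j k = true → Wk up i l z → Wk up' j k w →
    ∃ e : Ω ≃o Ω, I (if up then i else l) z ≤ e z ∧ e w ≤ I (if up' then k else j) w

variable {Ω : Type*} [LinearOrder Ω]

/-- All labels. -/
def lab (m : ℕ) (X I Y : ℕ → Ω ≃o Ω) (n : ℕ) : Ω ≃o Ω :=
  if n < m then X n else if n < 2 * m then I (n - m) else Y (n - 2 * m)

lemma letter_even (f : ℕ → Ω ≃o Ω) (k : ℕ) : letter f (2 * k) = f k := by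
  unfold letter
  rw [if_pos (by omega), show 2 * k / 2 = k by omega]

lemma letter_odd (f : ℕ → Ω ≃o Ω) (k : ℕ) : letter f (2 * k + 1) = (f k).symm := by
  unfold letter
  rw [if_neg (by omega), show (2 * k + 1) / 2 = k by omega]

lemma act_even (f : ℕ → Ω ≃o Ω) (k : ℕ) (w : Word) (z : Ω) :
    act f (push (2 * k) w) z = f k (act f w z) := by
  rw [act_push, letter_even]

lemma act_odd (f : ℕ → Ω ≃o Ω) (k : ℕ) (w : Word) (z : Ω) :
    act f (push (2 * k + 1) w) z = (f k).symm (act f w z) := by
  rw [act_push, letter_odd]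

section lab

variable {m : ℕ} (X I Y : ℕ → Ω ≃o Ω)

lemma lab_X {k : ℕ} (h : k < m) : lab m X I Y k = X k := if_pos h

lemma lab_I {k : ℕ} (h : k < m) : lab m X I Y (m + k) = I k := by
  unfold lab
  rw [if_neg (by omega), if_pos (by omega), Nat.add_sub_cancel_left]

lemma lab_Y (k : ℕ) : lab m X I Y (2 * m + k) = Y k := by
  unfold lab
  rw [if_neg (by omega), if_neg (by omega), Nat.add_sub_cancel_left]

lemma act_turns {i : ℕ} (h : i < m) (n : ℕ) (g : Word) (z : Ω) :
    act (lab m X I Y) (turns m i n g) z =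
      (fun x => X i ((I i).symm x))^[n] (act (lab m X I Y) g z) := by
  induction n generalizing g with
  | zero => rfl
  | succ n ih =>
    rw [turns, ih, act_even, act_odd, lab_X X I Y h, lab_I X I Y h]
    rfl

lemma act_turns' {i : ℕ} (h : i < m) (n : ℕ) (g : Word) (z : Ω) :
    act (lab m X I Y) (turns' m i n g) z =
      (fun x => (I i).symm (X i x))^[n] (act (lab m X I Y) g z) := by
  induction n generalizing g with
  | zero => rfl
  | succ n ih =>
    rw [turns', ih, act_odd, act_even, lab_X X I Y h, lab_I X I Y h]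
    rfl

end lab

section valid

variable {m : ℕ} {lam : ℕ → ℕ} {U : Ω → Prop} {X I Y : ℕ → Ω ≃o Ω}
  {Wk : Bool → ℕ → ℕ → Ω → Prop}

lemma Ring.act_U (R : Ring m lam U X I Y Wk) (w : Word) (z : Ω) (hz : U z) :
    U (act (lab m X I Y) w z) := by
  induction w with
  | nil => exact hz
  | cons a t ih =>
    change U (letter (lab m X I Y) a (act (lab m X I Y) t z))
    rcases Nat.even_or_odd' a with ⟨c, rfl | rfl⟩
    · rw [letter_even]
      unfold lab
      split_ifs
      · exact R.uX _ _ ih
      · exact R.uI _ _ ih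
      · exact R.uY _ _ ih
    · rw [letter_odd]
      unfold lab
      split_ifs
      · exact R.uX' _ _ ih
      · exact R.uI' _ _ ih
      · exact R.uY' _ _ ih

lemma holds_triv (f : ℕ → Ω ≃o Ω) (z : Ω) :
    ∃ l ∈ [Lit.ord false [] []], l.holds f Wk z :=
  ⟨_, List.mem_singleton.mpr rfl, le_refl _⟩

/-- A corner is first or another one is before it. -/
lemma first_or {i : ℕ} (y : Ω) :
    (∀ k < m, (X i).symm y ≤ (X k).symm y) ∨ ∃ k < m, k ≠ i ∧ (X k).symm y < (X i).symm y := by
  by_cases h : ∀ k < m, (X i).symm y ≤ (X k).symm y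
  · exact Or.inl h
  · push Not at h
    obtain ⟨k, h1, h2⟩ := h
    refine Or.inr ⟨k, h1, ?_, h2⟩
    rintro rfl
    exact absurd h2 (lt_irrefl _)

lemma last_or {i : ℕ} (y : Ω) :
    (∀ k < m, (X k).symm y ≤ (X i).symm y) ∨ ∃ k < m, k ≠ i ∧ (X i).symm y < (X k).symm y := by
  by_cases h : ∀ k < m, (X k).symm y ≤ (X i).symm y
  · exact Or.inl h
  · push Not at h
    obtain ⟨k, h1, h2⟩ := h
    refine Or.inr ⟨k, h1, ?_, h2⟩
    rintro rfl
    exact absurd h2 (lt_irrefl _)

/-- The clauses which start with the order of the corners. -/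
lemma clause_first {dual : Bool} {i : ℕ} (hi : i < m) (g : Word) (z : Ω) (c : Lit)
    (h0 : dual = false → (∀ k < m, (X i).symm (act (lab m X I Y) g z) ≤
      (X k).symm (act (lab m X I Y) g z)) → c.holds (lab m X I Y) Wk z)
    (h1 : dual = true → (∀ k < m, (X k).symm (act (lab m X I Y) g z) ≤
      (X i).symm (act (lab m X I Y) g z)) → c.holds (lab m X I Y) Wk z) :
    ∃ l ∈ clA m dual i g c, l.holds (lab m X I Y) Wk z := by
  unfold clA
  cases dual
  · rcases first_or (X := X) (m := m) (i := i) (act (lab m X I Y) g z) with h | ⟨k, hk, hki, h⟩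
    · exact ⟨c, by simp, h0 rfl h⟩
    · refine ⟨_, List.mem_append_left _ (List.mem_map_of_mem (a := k) ?_), ?_⟩
      · simp [hk, hki]
      · simpa [sw, Lit.holds, act_odd, lab_X X I Y hk, lab_X X I Y hi] using h
  · rcases last_or (X := X) (m := m) (i := i) (act (lab m X I Y) g z) with h | ⟨k, hk, hki, h⟩
    · exact ⟨c, by simp, h1 rfl h⟩
    · refine ⟨_, List.mem_append_left _ (List.mem_map_of_mem (a := k) ?_), ?_⟩
      · simp [hk, hki]
      · simpa [sw, Lit.holds, act_odd, lab_X X I Y hk, lab_X X I Y hi] using h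

theorem Ring.valid (R : Ring m lam U X I Y Wk) (r : Rule) (z : Ω) (hz : U z) :
    ∃ l ∈ cl m lam r, l.holds (lab m X I Y) Wk z := by
  have hg : ∀ g, U (act (lab m X I Y) g z) := fun g => R.act_U g z hz
  cases r with
  | F dual i g =>
    change ∃ l ∈ clF m lam dual i g, _
    unfold clF
    split_ifs with h
    · have hm1 : (i + 1) % m < m := Nat.mod_lt _ (by omega)
      have hm2 : (i + m - 1) % m < m := Nat.mod_lt _ (by omega)
      apply clause_first h.1
      · rintro rfl hf
        simpa [sw, Lit.holds, act_odd, act_even, act_turns X I Y h.1, lab_X X I Y h.1,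
          lab_X X I Y hm1, lab_X X I Y hm2, lab_I X I Y h.1] using R.first i h.1 h.2 _ (hg g) hf
      · rintro rfl hf
        simpa [sw, Lit.holds, act_odd, act_even, act_turns X I Y h.1, lab_X X I Y h.1,
          lab_X X I Y hm1, lab_X X I Y hm2, lab_I X I Y h.1] using R.last i h.1 h.2 _ (hg g) hf
    · exact holds_triv _ z
  | Z dual i n g =>
    change ∃ l ∈ clZ m lam dual i n g, _
    unfold clZ
    split_ifs with h hn
    · have hm1 : (i + 1) % m < m := Nat.mod_lt _ (by omega)
      apply clause_first h.1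
      · rintro rfl hf
        simpa [sw, Lit.holds, act_odd, lab_X X I Y h.1, lab_X X I Y hm1] using
          (R.first0 i h.1 h.2 _ (hg g) hf).1
      · rintro rfl hf
        simpa [sw, Lit.holds, act_odd, lab_X X I Y h.1, lab_X X I Y hm1] using
          (R.last0 i h.1 h.2 _ (hg g) hf).1
    · have hm1 : (i + m - 1) % m < m := Nat.mod_lt _ (by omega)
      apply clause_first h.1
      · rintro rfl hf
        simpa [sw, Lit.holds, act_odd, lab_X X I Y h.1, lab_X X I Y hm1] using
          (R.first0 i h.1 h.2 _ (hg g) hf).2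
      · rintro rfl hf
        simpa [sw, Lit.holds, act_odd, lab_X X I Y h.1, lab_X X I Y hm1] using
          (R.last0 i h.1 h.2 _ (hg g) hf).2
    · exact holds_triv _ z
  | FY dual i g =>
    change ∃ l ∈ clFY m lam dual i g, _
    unfold clFY
    split_ifs with h
    · have hm1 : (i + 1) % m < m := Nat.mod_lt _ (by omega)
      have hm2 : (i + m - 1) % m < m := Nat.mod_lt _ (by omega)
      apply clause_first h
      · rintro rfl hf
        simpa [sw, Lit.holds, act_odd, act_even, lab_X X I Y h,
          lab_X X I Y hm1, lab_X X I Y hm2, lab_Y] using R.firstY i h _ (hg g) hf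
      · rintro rfl hf
        simpa [sw, Lit.holds, act_odd, act_even, lab_X X I Y h,
          lab_X X I Y hm1, lab_X X I Y hm2, lab_Y] using R.lastY i h _ (hg g) hf
    · exact holds_triv _ z
  | G dual k g =>
    change ∃ l ∈ clG m lam dual k g, _
    unfold clG
    split_ifs with h
    · cases dual
      · rcases lt_or_ge ((Y (fc m lam m k)).symm (act (lab m X I Y) g z))
          ((Y (fc m lam m ((k + m - 1) % m))).symm (act (lab m X I Y) g z)) with h1 | h1
        · exact ⟨_, List.mem_cons_self, by
            simpa [sw, Lit.holds, act_odd, lab_Y] using h1⟩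
        · refine ⟨_, List.mem_cons_of_mem _ List.mem_cons_self, ?_⟩
          simpa [sw, Lit.holds, act_odd, lab_Y, act_turns' X I Y h.1] using
            R.gap k h.1 h.2 _ (hg g) h1
      · rcases lt_or_ge ((Y (fc m lam m ((k + m - 1) % m))).symm (act (lab m X I Y) g z))
          ((Y (fc m lam m k)).symm (act (lab m X I Y) g z)) with h1 | h1
        · exact ⟨_, List.mem_cons_self, by
            simpa [sw, Lit.holds, act_odd, lab_Y] using h1⟩
        · refine ⟨_, List.mem_cons_of_mem _ List.mem_cons_self, ?_⟩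
          simpa [sw, Lit.holds, act_odd, lab_Y, act_turns' X I Y h.1] using
            R.gap' k h.1 h.2 _ (hg g) h1
    · exact holds_triv _ z
  | N up i g =>
    change ∃ l ∈ clN m lam up i g, _
    unfold clN
    split_ifs with h
    · cases up
      · rcases le_or_gt (X i (act (lab m X I Y) g z)) (I i (act (lab m X I Y) g z)) with h1 | h1
        · exact ⟨_, List.mem_cons_self, by
            simpa [sw, Lit.holds, act_even, lab_X X I Y h.1, lab_I X I Y h.1] using h1⟩
        · obtain ⟨l, h2, h3, h4, h5⟩ := R.net i h.1 h.2 _ (hg g) h1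
          exact ⟨_, List.mem_cons_of_mem _ (List.mem_map_of_mem (a := l) (by simp [h2, h3, h4])),
            h5⟩
      · rcases le_or_gt (I i (act (lab m X I Y) g z)) (X i (act (lab m X I Y) g z)) with h1 | h1
        · exact ⟨_, List.mem_cons_self, by
            simpa [sw, Lit.holds, act_even, lab_X X I Y h.1, lab_I X I Y h.1] using h1⟩
        · obtain ⟨l, h2, h3, h4, h5⟩ := R.net' i h.1 h.2 _ (hg g) h1
          exact ⟨_, List.mem_cons_of_mem _ (List.mem_map_of_mem (a := l) (by simp [h2, h3, h4])),
            h5⟩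
    · exact holds_triv _ z
  | W up i l n g =>
    change ∃ k ∈ clW m up i l n g, _
    unfold clW
    by_cases h : i < m ∧ l < m
    · rw [if_pos h]
      by_cases hw : Wk up i l (act (lab m X I Y) g z)
      · refine ⟨_, List.mem_cons_of_mem _ List.mem_cons_self, ?_⟩
        cases up
        · obtain ⟨h1, h2⟩ := R.walk i l _ hw
          split_ifs
          · simpa [sw, Lit.holds, act_even, lab_X X I Y h.2, lab_I X I Y h.2] using h1
          · simpa [sw, Lit.holds, act_even, lab_I X I Y h.1, lab_I X I Y h.2] using h2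
        · obtain ⟨h1, h2⟩ := R.walk' i l _ hw
          split_ifs
          · simpa [sw, Lit.holds, act_even, lab_X X I Y h.2, lab_I X I Y h.2] using h1
          · simpa [sw, Lit.holds, act_even, lab_I X I Y h.1, lab_I X I Y h.2] using h2
      · exact ⟨_, List.mem_cons_self, hw⟩
    · rw [if_neg h]
      exact holds_triv _ z
  | M dual i g =>
    change ∃ k ∈ clM m lam dual i g, _
    unfold clM
    split_ifs with h
    · cases dual
      · obtain ⟨j, h1, h2, h3⟩ := R.bound i h.1 h.2 _ (hg g)
        refine ⟨_, List.mem_map_of_mem (a := j) (by simp [h1, h2]), ?_⟩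
        simpa [sw, Lit.holds, act_even, lab_X X I Y h1, lab_I X I Y h.1] using h3
      · obtain ⟨j, h1, h2, h3⟩ := R.bound' i h.1 h.2 _ (hg g)
        refine ⟨_, List.mem_map_of_mem (a := j) (by simp [h1, h2]), ?_⟩
        simpa [sw, Lit.holds, act_even, lab_X X I Y h1, lab_I X I Y h.1] using h3
    · exact holds_triv _ z
  | C st up i l g up' j k h =>
    change ∃ n ∈ clC m st up i l g up' j k h, _
    unfold clC
    by_cases hc : (i < m ∧ l < m ∧ j < m ∧ k < m) ∧ inter i l j k = true
    · rw [if_pos hc]
      by_cases hw : Wk up i l (act (lab m X I Y) g z)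
      · by_cases hw' : Wk up' j k (act (lab m X I Y) h z)
        · obtain ⟨e, e1, e2⟩ := R.cross up i l _ up' j k _ hc.2 hw hw'
          have ha : (if up then i else l) < m := by
            split_ifs
            · exact hc.1.1
            · exact hc.1.2.1
          have hb : (if up' then k else j) < m := by
            split_ifs
            · exact hc.1.2.2.2
            · exact hc.1.2.2.1
          cases st
          · rcases lt_or_ge (act (lab m X I Y) h z) (act (lab m X I Y) g z) with h1 | h1
            · exact ⟨_, List.mem_cons_of_mem _ (List.mem_cons_of_mem _ List.mem_cons_self), h1⟩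
            · refine ⟨_, List.mem_cons_of_mem _ (List.mem_cons_of_mem _ (List.mem_cons_of_mem _
                List.mem_cons_self)), ?_⟩
              simpa [Lit.holds, act_even, lab_I X I Y ha, lab_I X I Y hb] using
                e1.trans ((e.monotone h1).trans e2)
          · rcases le_or_gt (act (lab m X I Y) h z) (act (lab m X I Y) g z) with h1 | h1
            · exact ⟨_, List.mem_cons_of_mem _ (List.mem_cons_of_mem _ List.mem_cons_self), h1⟩
            · refine ⟨_, List.mem_cons_of_mem _ (List.mem_cons_of_mem _ (List.mem_cons_of_mem _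
                List.mem_cons_self)), ?_⟩
              simpa [Lit.holds, act_even, lab_I X I Y ha, lab_I X I Y hb] using
                e1.trans_lt ((e.strictMono h1).trans_le e2)
        · exact ⟨_, List.mem_cons_of_mem _ List.mem_cons_self, hw'⟩
      · exact ⟨_, List.mem_cons_self, hw⟩
    · rw [if_neg hc]
      exact holds_triv _ z

/-- The main tool: the proofs in the list are checked by computation. -/
theorem Ring.run (R : Ring m lam U X I Y Wk) (ps : List (List Lit × List (Cmd Rule)))
    (h : checkAll (cl m lam) [] ps = true) (h0 : ([] : List Lit) ∈ ps.map Prod.fst) (z : Ω) :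
    ¬ U z := by
  intro hz
  obtain ⟨p, hp, hp0⟩ := List.mem_map.mp h0
  obtain ⟨l, hl, -⟩ := checkAll_sound (lab m X I Y) Wk (cl := cl m lam) (U := U)
    (fun w z hz => R.act_U w z hz) (fun r z hz => R.valid r z hz) ps []
    (fun L hL => absurd hL List.not_mem_nil) h p hp z hz
  rw [hp0] at hl
  exact absurd hl List.not_mem_nil

end valid

end Pool.Agent.Helper31.RING
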