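import Mathlib
import Pool.Agent.Helper31.RING.Ring

/-!
A certificate.
-/

set_option autoImplicit false

namespace Pool.Agent.Helper31.RING

/-- A lemma and its proof. -/
def c1113_0 : List Lit × List (Cmd Rule) :=
  ([.ord true [3] [1], .ord true [7] [5], .walk false false 0 1 [3], .ord false [] [8, 3]], [
    .use (.W false 0 1 0 [3]), .clash 2 4, .use (.W false 0 1 1 [3]), .clash 2 5,
    .close [10, 3] [5, 3, 4]])

/-- A lemma and its proof. -/
def c1113_1 : List Lit × List (Cmd Rule) :=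
  ([.ord true [3] [1], .ord true [7] [5], .walk false false 2 1 [13, 2, 5], .ord false [7] [5], .ord true [13, 2, 5] [7]], [
    .use (.W false 2 1 0 [13, 2, 5]), .clash 2 5, .use (.W false 2 1 1 [13, 2, 5]), .clash 2 6,
    .close [10, 13, 2, 5] [6, 3, 4, 5]])

/-- A lemma and its proof. -/
def c1113_2 : List Lit × List (Cmd Rule) :=
  ([.ord true [3] [1], .ord true [7] [5], .walk false true 1 0 [5], .ord true [5] [11, 0, 3], .ord false [3] [5]], [
    .use (.W true 1 0 0 [5]), .clash 2 5, .use (.W true 1 0 1 [5]), .clash 2 6,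
    .close [10, 5] [6, 5, 4, 3]])

/-- A lemma and its proof. -/
def c1113_3 : List Lit × List (Cmd Rule) :=
  ([.ord true [3] [1], .ord true [7] [5], .walk false true 1 2 [5], .ord true [5] [11, 0, 3]], [
    .use (.W true 1 2 0 [5]), .clash 2 4, .use (.W true 1 2 1 [5]), .clash 2 5,
    .close [10, 5] [5, 4, 0, 3]])

/-- A lemma and its proof. -/
def c1113_4 : List Lit × List (Cmd Rule) :=
  ([.ord true [3] [1], .ord true [7] [5], .ord true [6, 3] [14, 3], .ord true [3] [15, 6, 15, 6, 15, 4, 7], .ord false [7] [3]], [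
    .close [3] [4, 1, 3, 2, 2, 2]])

/-- A lemma and its proof. -/
def c1113_5 : List Lit × List (Cmd Rule) :=
  ([.ord true [3] [1], .ord true [7] [5], .walk false false 2 3 [13, 2, 5], .ord true [13, 2, 5] [7], .ord false [3] [5]], [
    .use (.W false 2 3 0 [13, 2, 5]), .clash 2 5, .use (.W false 2 3 1 [13, 2, 5]), .clash 2 6,
    .close [14, 13, 2, 5] [6, 4, 3, 5]])

/-- A lemma and its proof. -/
def c1113_6 : List Lit × List (Cmd Rule) :=
  ([.ord true [3] [1], .ord true [7] [5], .ord false [7] [3], .ord false [3] [9, 6, 1], .ord false [3] [5]], [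
    .use (.F false 0 []), .close [3] [5, 0], .use (.F false 2 []), .close [1] [6, 5],
    .close [3] [6, 4], .close [7] [6, 1], .lem 1 [], .close [3] [7, 0], .close [7] [7, 1],
    .lem 5 [], .close [3] [8, 0], .close [7] [8, 1], .use (.N false 2 [13, 2, 5]),
    .close [4, 13, 2, 5] [9, 4, 4, 2, 6], .use (.W false 2 0 0 [13, 2, 5]), .clash 9 10,
    .use (.W false 2 0 1 [13, 2, 5]), .clash 9 11, .close [8, 13, 2, 5] [11, 4, 0, 2, 6, 10],
    .clash 9 7, .clash 9 8, .close [13, 2, 5] [8, 6], .close [3] [8, 4], .close [7] [7, 4, 2],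
    .close [13, 2, 5] [7, 6], .close [7] [5, 0, 2], .close [3] [5, 3]])

/-- A lemma and its proof. -/
def c1113_7 : List Lit × List (Cmd Rule) :=
  ([.ord true [3] [1], .ord true [7] [5], .ord true [5] [11, 0, 3], .ord false [3] [5]], [
    .lem 3 [], .close [3] [4, 0], .close [7] [4, 1], .lem 2 [], .close [3] [5, 0],
    .close [7] [5, 1], .use (.N true 1 [5]), .close [10, 5] [6, 3, 0, 2], .clash 6 5, .clash 6 4,
    .use (.W true 1 3 0 [5]), .clash 6 7, .use (.W true 1 3 1 [5]), .clash 6 8,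
    .close [10, 5] [8, 7, 1, 0, 2], .close [5] [5, 2], .close [3] [5, 3], .close [5] [4, 2]])

/-- A lemma and its proof. -/
def c1113_8 : List Lit × List (Cmd Rule) :=
  ([.ord true [3] [1], .ord true [7] [5], .ord false [3] [5]], [
    .lem 7 [], .close [3] [3, 0], .close [7] [3, 1], .use (.F true 1 []), .close [3] [4, 0],
    .close [3] [4, 2], .lem 6 [], .close [3] [5, 0], .close [7] [5, 1], .close [7] [5, 4],
    .use (.M true 0 [3]), .close [0, 3] [6, 5, 0, 4, 0], .close [] [6, 5, 0, 4],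
    .close [4, 3] [6, 5, 0, 4, 2], .close [6, 3] [6, 5, 0], .close [3] [5, 2],
    .close [11, 0, 3] [4, 3], .close [3] [3, 2]])

/-- A lemma and its proof. -/
def c1113_9 : List Lit × List (Cmd Rule) :=
  ([.ord true [3] [1], .ord true [7] [5], .ord true [6, 1] [14, 1]], [
    .lem 8 [], .close [3] [3, 0], .close [7] [3, 1], .use (.F false 0 []), .close [3] [4, 0],
    .close [5] [4, 0, 3], .close [7] [4, 0, 3, 1], .use (.F true 3 []), .close [7] [5, 0, 3, 1],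
    .close [7] [5, 3, 1], .close [7] [5, 1], .use (.M true 0 [3]),
    .close [0, 3] [6, 4, 0, 3, 1, 0], .close [] [6, 4, 0, 3, 1],
    .close [4, 3] [6, 4, 0, 3, 1, 1, 1, 5, 2, 2, 2, 2, 0, 3, 1, 1, 5, 2, 2, 0],
    .close [6, 3] [6, 4, 0]])

/-- A lemma and its proof. -/
def c1113_10 : List Lit × List (Cmd Rule) :=
  ([.ord true [3] [1], .ord true [7] [5]], [
    .lem 8 [], .close [3] [2, 0], .close [7] [2, 1], .use (.F false 0 []), .close [3] [3, 0],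
    .close [5] [3, 0, 2], .close [7] [3, 0, 2, 1], .use (.M true 0 [3]),
    .close [0, 3] [4, 3, 0, 2, 1, 0], .close [] [4, 3, 0, 2, 1], .lem 9 [], .close [3] [5, 0],
    .close [7] [5, 1], .use (.W false 0 3 1 [3]), .use (.W true 3 0 1 [1]), .lem 0 [],
    .close [3] [8, 0], .close [7] [8, 1], .use (.N false 0 [3]),
    .close [0, 3] [9, 3, 0, 4, 3, 0, 2, 1, 1, 0], .clash 9 8, .use (.W false 0 2 1 [3]),
    .clash 9 10, .use (.W true 3 2 1 [1]), .use (.N true 3 [1]), .close [14, 1] [12, 5],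
    .clash 12 7, .use (.C false true 3 1 [1] false 0 2 [3]), .clash 12 13, .clash 9 13,
    .close [3] [13, 0], .close [14, 1] [13, 3, 5], .clash 12 11, .close [14, 1] [11, 0, 10, 3, 5],
    .clash 9 6, .close [] [8, 3, 0, 4, 3, 0, 2, 1, 1], .close [14, 1] [7, 0, 3, 5],
    .close [14, 3] [6, 3, 5, 0], .close [6, 3] [4, 3, 0]])

/-- A lemma and its proof. -/
def c1113_11 : List Lit × List (Cmd Rule) :=
  ([.ord true [5] [3], .ord true [3] [7], .walk false true 0 3 [3], .ord true [3] [9, 6, 1], .ord false [1] [3]], [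
    .use (.W true 0 3 0 [3]), .clash 2 5, .use (.W true 0 3 1 [3]), .clash 2 6,
    .close [8, 3] [6, 5, 4, 3]])

/-- A lemma and its proof. -/
def c1113_12 : List Lit × List (Cmd Rule) :=
  ([.ord true [5] [3], .ord true [3] [7], .ord false [1] [3], .walk true true 0 1 [3], .ord true [3] [9, 6, 1], .ord false [1] [7]], [
    .lem 11 [], .close [5] [6, 0], .close [3] [6, 1], .use (.N true 0 [3]),
    .close [8, 3] [7, 2, 1, 2, 4], .clash 7 3, .use (.W true 0 2 0 [3]), .clash 7 8,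
    .use (.W true 0 2 1 [3]), .clash 7 9, .close [8, 3] [9, 8, 0, 1, 2, 4], .clash 7 6,
    .close [3] [6, 4], .close [1] [6, 2]])

/-- A lemma and its proof. -/
def c1113_13 : List Lit × List (Cmd Rule) :=
  ([.ord true [5] [3], .ord true [3] [7], .walk false true 2 1 [7], .ord false [5] [7], .ord true [12, 7] [2, 5]], [
    .use (.W true 2 1 0 [7]), .clash 2 5, .use (.W true 2 1 1 [7]), .clash 2 6,
    .close [12, 7] [6, 5, 3, 4]])

/-- A lemma and its proof. -/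
def c1113_14 : List Lit × List (Cmd Rule) :=
  ([.ord true [5] [3], .ord true [3] [7], .walk false true 2 3 [7], .ord true [12, 7] [2, 5]], [
    .use (.W true 2 3 0 [7]), .clash 2 4, .use (.W true 2 3 1 [7]), .clash 2 5,
    .close [12, 7] [5, 4, 0, 3]])

/-- A lemma and its proof. -/
def c1113_15 : List Lit × List (Cmd Rule) :=
  ([.ord true [5] [3], .ord true [3] [7], .ord false [5] [7], .ord true [12, 7] [2, 5]], [
    .lem 14 [], .close [5] [4, 0], .close [3] [4, 1], .lem 13 [], .close [5] [5, 0],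
    .close [3] [5, 1], .use (.N true 2 [7]), .close [12, 7] [6, 2, 0, 3], .use (.W true 2 0 0 [7]),
    .clash 6 7, .use (.W true 2 0 1 [7]), .clash 6 8, .use (.F false 0 []),
    .close [3] [9, 0, 3, 8, 7, 1], .close [5] [9, 0, 3, 8, 7, 2], .close [7] [9, 0, 3, 8, 7],
    .close [3] [9, 0, 3, 8, 7, 0, 3, 8, 1], .clash 6 5, .clash 6 4, .close [5] [5, 2],
    .close [12, 7] [5, 3], .close [12, 7] [4, 3]])

/-- A lemma and its proof. -/
def c1113_16 : List Lit × List (Cmd Rule) :=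
  ([.ord true [5] [3], .ord true [3] [7], .ord true [7] [5]], [
    .lem 10 [], .use (.F true 0 []), .close [1] [4, 3], .close [1] [4, 2, 1, 3],
    .close [1] [4, 1, 3], .lem 12 [], .close [5] [5, 0], .close [3] [5, 1], .close [1] [5, 3],
    .use (.W true 0 1 0 [3]), .clash 5 6, .use (.W true 0 1 1 [3]), .clash 5 7,
    .close [8, 3] [7, 6, 1, 3, 4], .close [3] [5, 4], .close [1] [5, 1, 3], .close [7] [3, 2]])

/-- A lemma and its proof. -/
def c1113_17 : List Lit × List (Cmd Rule) :=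
  ([.ord true [5] [3], .ord true [3] [7]], [
    .lem 16 [], .close [5] [2, 0], .close [3] [2, 1], .lem 15 [], .close [5] [3, 0],
    .close [3] [3, 1], .close [5] [3, 2], .use (.F true 2 []), .use (.F true 0 []),
    .close [1] [5, 0, 4], .close [1] [5, 4], .close [1] [5, 2, 4], .lem 12 [], .close [5] [6, 0],
    .close [3] [6, 1], .close [1] [6, 0, 4], .use (.W true 0 1 0 [3]), .clash 6 7,
    .use (.W true 0 1 1 [3]), .clash 6 8, .close [8, 3] [8, 7, 2, 4, 5], .close [3] [6, 5],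
    .close [1] [6, 2, 4], .close [5] [4, 0], .close [5] [4, 1, 0], .close [13, 2, 5] [4, 3]])

/-- A lemma and its proof. -/
def c1113_18 : List Lit × List (Cmd Rule) :=
  ([.ord true [7] [1], .ord true [3] [7], .walk false false 0 1 [3]], [
    .lem 10 [], .close [3] [3, 0, 1], .use (.W false 0 1 0 [3]), .clash 2 4,
    .use (.W false 0 1 1 [3]), .clash 2 5, .use (.F false 0 []), .close [3] [6, 0, 1],
    .close [5] [6, 0, 3], .close [7] [6, 0], .close [3] [6, 0, 4, 5]])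

/-- A lemma and its proof. -/
def c1113_19 : List Lit × List (Cmd Rule) :=
  ([.ord true [7] [1], .ord true [3] [7], .walk false false 0 2 [3]], [
    .lem 10 [], .close [3] [3, 0, 1], .lem 17 [], .use (.W false 0 2 0 [3]), .clash 2 5,
    .use (.W false 0 2 1 [3]), .clash 2 6, .use (.F false 0 []), .close [3] [7, 0, 1],
    .close [5] [7, 0, 3], .close [7] [7, 0], .close [3] [7, 0, 4, 5, 6], .close [3] [4, 1]])

/-- A lemma and its proof. -/
def c1113_20 : List Lit × List (Cmd Rule) :=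
  ([.ord true [7] [1], .ord true [3] [7]], [
    .lem 10 [], .close [3] [2, 0, 1], .lem 17 [], .use (.F false 0 []), .close [3] [4, 0, 1],
    .close [5] [4, 0, 2], .close [7] [4, 0], .lem 18 [], .close [7] [5, 0], .close [3] [5, 1],
    .lem 19 [], .close [7] [6, 0], .close [3] [6, 1], .use (.N false 0 [3]),
    .close [0, 3] [7, 4, 0, 0, 2, 3], .clash 7 5, .clash 7 6, .use (.W false 0 3 0 [3]),
    .clash 7 8, .use (.W false 0 3 1 [3]), .clash 7 9, .close [14, 3] [9, 4, 0, 2, 3, 8],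
    .close [3] [3, 1]])

/-- A lemma and its proof. -/
def c1113_21 : List Lit × List (Cmd Rule) :=
  ([.ord true [1] [3], .ord true [5] [7], .walk false false 1 3 [5], .ord true [0, 3] [10, 5]], [
    .use (.W false 1 3 0 [5]), .clash 2 4, .use (.W false 1 3 1 [5]), .clash 2 5,
    .close [14, 5] [5, 3, 0, 1, 4]])

/-- A lemma and its proof. -/
def c1113_22 : List Lit × List (Cmd Rule) :=
  ([.ord true [1] [3], .ord true [5] [7], .walk false false 1 2 [5], .ord true [0, 3] [10, 5]], [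
    .use (.W false 1 2 0 [5]), .clash 2 4, .use (.W false 1 2 1 [5]), .clash 2 5,
    .close [12, 5] [5, 3, 0, 4]])

/-- A lemma and its proof. -/
def c1113_23 : List Lit × List (Cmd Rule) :=
  ([.ord true [1] [3], .ord true [5] [7], .walk false true 0 1 [3], .ord false [6, 1] [], .ord true [8, 3] [6, 1]], [
    .use (.W true 0 1 0 [3]), .clash 2 5, .use (.W true 0 1 1 [3]), .clash 2 6,
    .close [8, 3] [6, 5, 3, 4]])

/-- A lemma and its proof. -/
def c1113_24 : List Lit × List (Cmd Rule) :=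
  ([.ord true [1] [3], .ord true [5] [7], .ord false [6, 1] [], .ord false [6, 1] [14, 1], .ord true [8, 3] [6, 1]], [
    .use (.W false 3 0 1 [1]), .use (.W true 0 3 1 [3]), .lem 23 [], .close [1] [7, 0],
    .close [5] [7, 1], .use (.N true 0 [3]), .close [8, 3] [8, 0, 2, 4], .clash 8 7,
    .use (.W true 0 2 1 [3]), .clash 8 9, .use (.W false 3 2 1 [1]), .use (.N false 3 [1]),
    .close [6, 1] [11, 3], .clash 11 5, .use (.C false true 0 2 [3] false 3 1 [1]), .clash 8 12,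
    .clash 11 12, .close [1] [12, 0], .close [8, 3] [12, 3, 4], .clash 11 10,
    .close [12, 1] [10, 3, 4, 9, 0], .clash 8 6, .close [6, 1] [7, 2], .close [8, 3] [7, 4],
    .close [8, 3] [6, 0, 3, 4], .close [8, 1] [5, 3, 4, 0]])

/-- A lemma and its proof. -/
def c1113_25 : List Lit × List (Cmd Rule) :=
  ([.ord true [1] [3], .ord true [5] [7], .ord true [5] [3]], [
    .lem 17 [], .close [5] [3, 2], .use (.F false 1 []), .close [1] [4, 0], .close [5] [4, 2],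
    .close [7] [4, 3], .lem 21 [], .close [1] [5, 0], .close [5] [5, 1], .lem 22 [],
    .close [1] [6, 0], .close [5] [6, 1], .use (.N false 1 [5]), .close [2, 5] [7, 4, 0, 3, 1],
    .use (.W false 1 0 0 [5]), .clash 7 8, .use (.W false 1 0 1 [5]), .clash 7 9,
    .close [8, 5] [9, 4, 3, 1, 8], .clash 7 6, .clash 7 5, .close [0, 3] [6, 4],
    .close [0, 3] [5, 4]])

/-- A lemma and its proof. -/
def c1113_26 : List Lit × List (Cmd Rule) :=
  ([.ord true [1] [3], .ord true [5] [7]], [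
    .lem 25 [], .close [1] [2, 0], .close [5] [2, 1], .use (.F true 0 []), .close [1] [3, 0],
    .close [1] [3, 2, 0], .close [1] [3, 1, 2, 0], .use (.F false 3 []), .close [1] [4, 1, 2, 0],
    .close [3] [4, 1, 2], .close [5] [4, 1], .lem 24 [], .close [1] [5, 0], .close [5] [5, 1],
    .close [6, 1] [5, 1, 2, 0], .close [15, 6, 15, 6, 15, 4, 7] [1, 1, 2, 0, 5, 5, 5, 4],
    .close [8, 3] [5, 3]])

/-- A lemma and its proof. -/
def c1113_27 : List Lit × List (Cmd Rule) :=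
  ([.ord true [7] [1], .ord true [3] [5], .walk false false 2 3 [7], .ord true [13, 2, 5] [7]], [
    .use (.W false 2 3 0 [7]), .clash 2 4, .use (.W false 2 3 1 [7]), .clash 2 5,
    .close [14, 7] [5, 3, 1, 4]])

/-- A lemma and its proof. -/
def c1113_28 : List Lit × List (Cmd Rule) :=
  ([.ord true [7] [1], .ord true [3] [5], .walk false false 2 0 [7], .ord true [13, 2, 5] [7]], [
    .use (.W false 2 0 0 [7]), .clash 2 4, .use (.W false 2 0 1 [7]), .clash 2 5,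
    .close [8, 7] [5, 3, 1, 0, 4]])

/-- A lemma and its proof. -/
def c1113_29 : List Lit × List (Cmd Rule) :=
  ([.ord true [7] [1], .ord true [3] [5]], [
    .lem 20 [], .close [7] [2, 0], .lem 10 [], .use (.F false 2 []), .close [1] [4, 1, 3],
    .close [3] [4, 1], .close [7] [4, 1, 2], .lem 27 [], .close [7] [5, 0], .close [3] [5, 1],
    .lem 28 [], .close [7] [6, 0], .close [3] [6, 1], .use (.N false 2 [7]),
    .close [4, 7] [7, 4, 1, 1, 2], .clash 7 6, .use (.W false 2 1 0 [7]), .clash 7 8,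
    .use (.W false 2 1 1 [7]), .clash 7 9, .close [10, 7] [9, 4, 1, 2, 8], .clash 7 5,
    .close [13, 2, 5] [6, 4], .close [13, 2, 5] [5, 4], .close [7] [3, 1, 2]])

/-- A lemma and its proof. -/
def c1113_30 : List Lit × List (Cmd Rule) :=
  ([.ord true [1] [7], .ord true [7] [3], .walk false false 2 1 [13, 2, 5], .ord true [13, 2, 5] [7]], [
    .lem 26 [], .close [1] [4, 1, 0], .use (.W false 2 1 0 [13, 2, 5]), .clash 2 5,
    .use (.W false 2 1 1 [13, 2, 5]), .clash 2 6, .close [10, 13, 2, 5] [6, 4, 3, 5]])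

/-- A lemma and its proof. -/
def c1113_31 : List Lit × List (Cmd Rule) :=
  ([.ord true [1] [7], .ord true [7] [3]], [
    .lem 26 [], .close [1] [2, 1, 0], .use (.F true 0 []), .close [1] [3, 1, 0],
    .close [1] [3, 2, 0], .close [1] [3, 0], .use (.M false 0 [3]), .close [8, 3] [4, 1, 0, 0, 3],
    .close [8, 3] [4, 0, 3], .use (.F false 2 []), .close [1] [5, 2, 0], .close [3] [5, 0, 3, 4],
    .close [7] [5, 2], .use (.W false 2 0 1 [13, 2, 5]), .lem 30 [], .close [1] [7, 0],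
    .close [7] [7, 1], .use (.N false 2 [13, 2, 5]),
    .close [4, 13, 2, 5] [8, 0, 3, 4, 0, 3, 4, 1, 5], .clash 8 6, .clash 8 7,
    .use (.W false 2 3 0 [13, 2, 5]), .clash 8 9, .use (.W false 2 3 1 [13, 2, 5]), .clash 8 10,
    .close [14, 13, 2, 5] [10, 0, 3, 4, 5, 9], .close [13, 2, 5] [7, 5],
    .close [8, 13, 2, 5] [6, 0, 3, 4, 0, 3, 1, 5], .close [8, 3] [4, 1, 0, 3]])

/-- A lemma and its proof. -/
def c1113_32 : List Lit × List (Cmd Rule) :=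
  ([.ord true [2] [0], .ord true [6] [4], .ord false [0] [6]], [
    .use (.F true 2 [4]), .close [] [3, 1, 2], .close [] [3, 1, 2, 0], .close [] [3, 1],
    .use (.M false 2 []), .close [12] [4, 0, 3, 1], .close [12] [4, 3, 1],
    .close [12] [4, 1, 2, 0, 3, 1], .close [12] [4, 2, 0, 3, 1]])

/-- A lemma and its proof. -/
def c1113_33 : List Lit × List (Cmd Rule) :=
  ([.ord true [2] [0], .ord true [6] [4]], [
    .lem 26 [2], .close [1, 2] [2, 0], .lem 32 [], .close [2] [3, 0], .close [6] [3, 1],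
    .lem 31 [6], .close [1, 6] [4, 3], .use (.F true 0 [0]), .close [] [5, 0],
    .close [] [5, 0, 2, 4], .close [] [5, 3], .use (.M false 0 []), .close [8] [6, 0, 4, 5, 0],
    .close [8] [6, 4, 5, 0], .close [8] [6, 1, 5, 0], .close [8] [6, 5, 0]])

/-- A lemma and its proof. -/
def c1113_34 : List Lit × List (Cmd Rule) :=
  ([.ord true [6] [2], .ord true [4] [6], .walk false false 2 1 [], .ord true [13, 2] [7, 4]], [
    .use (.W false 2 1 0 []), .clash 2 4, .use (.W false 2 1 1 []), .clash 2 5,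
    .close [10] [5, 1, 3, 4]])

/-- A lemma and its proof. -/
def c1113_35 : List Lit × List (Cmd Rule) :=
  ([.ord true [6] [2], .ord true [4] [6], .ord true [] [3, 4]], [
    .lem 17 [4], .close [] [3, 2], .close [3, 4] [3, 2, 0, 0, 1]])

/-- A lemma and its proof. -/
def c1113_36 : List Lit × List (Cmd Rule) :=
  ([.ord true [6] [2], .ord true [4] [6], .walk true false 2 0 []], [
    .lem 10 [4], .use (.F false 2 [4]), .close [1, 4] [4, 0, 1, 3], .close [3, 4] [4, 0, 1],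
    .close [7, 4] [4, 1], .lem 35 [], .close [6] [5, 0], .close [4] [5, 1], .lem 34 [],
    .close [6] [6, 0], .close [4] [6, 1], .use (.N false 2 []), .close [4] [7, 1, 4, 5],
    .clash 7 2, .clash 7 6, .use (.W false 2 3 0 []), .clash 7 8, .use (.W false 2 3 1 []),
    .clash 7 9, .close [14] [9, 1, 4, 0, 8], .close [13, 2] [6, 4], .close [7, 4] [3, 1]])

/-- A lemma and its proof. -/
def c1113_37 : List Lit × List (Cmd Rule) :=
  ([.ord true [6] [2], .ord true [4] [6]], [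
    .lem 10 [4], .use (.F false 2 [4]), .close [1, 4] [3, 0, 1, 2], .close [3, 4] [3, 0, 1],
    .close [7, 4] [3, 1], .lem 36 [], .close [6] [4, 0], .close [4] [4, 1],
    .use (.W false 2 0 0 []), .clash 4 5, .use (.W false 2 0 1 []), .clash 4 6,
    .use (.F true 0 [0]), .close [] [7, 5, 6, 1, 3], .close [] [7, 0, 1, 2],
    .close [] [7, 5, 6, 1, 3, 0], .close [9, 6] [7, 5, 6, 1, 3, 6, 1, 3, 0], .close [7, 4] [2, 1]])

/-- A lemma and its proof. -/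
def c1113_38 : List Lit × List (Cmd Rule) :=
  ([.ord true [4] [2], .ord true [2] [6]], [
    .lem 29 [2], .lem 31 [2], .close [1, 2] [3, 2], .close [7, 2] [3, 1], .close [] [2, 0]])

/-- A lemma and its proof. -/
def c1113_39 : List Lit × List (Cmd Rule) :=
  ([.ord true [6] [0], .ord true [4] [6]], [
    .lem 37 [], .lem 31 [6], .close [1, 6] [3, 0], .close [] [3, 2], .close [4] [2, 1]])

/-- A lemma and its proof. -/
def c1113_40 : List Lit × List (Cmd Rule) :=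
  ([.ord true [6] [0], .ord true [2] [4]], [
    .lem 39 [], .close [6] [2, 0], .lem 33 [], .lem 17 [2], .close [5, 2] [4, 1],
    .close [] [4, 3, 0], .close [6] [3, 2]])

/-- A lemma and its proof. -/
def c1113_41 : List Lit × List (Cmd Rule) :=
  ([.ord true [0] [6], .ord true [6] [4], .walk false false 0 3 []], [
    .lem 33 [], .use (.W false 0 3 0 []), .clash 2 4, .use (.W false 0 3 1 []), .clash 2 5,
    .use (.F false 0 [0]), .close [3, 0] [6, 3], .close [5, 0] [6, 1, 0], .close [7, 0] [6, 0],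
    .close [3, 0] [6, 4, 5, 3], .close [6] [3, 1]])

/-- A lemma and its proof. -/
def c1113_42 : List Lit × List (Cmd Rule) :=
  ([.ord true [0] [6], .ord true [6] [4]], [
    .lem 33 [], .lem 20 [6], .close [] [3, 0], .use (.F false 0 [0]), .close [3, 0] [4, 2],
    .close [5, 0] [4, 1, 0], .close [7, 0] [4, 0], .use (.F true 2 [4]), .close [] [5, 1, 0],
    .close [] [5, 1, 3], .close [] [5, 1], .use (.W false 0 2 1 []), .lem 41 [], .close [0] [7, 0],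
    .close [6] [7, 1], .use (.N false 0 []), .close [0] [8, 2, 4, 3, 2], .use (.W false 0 1 0 []),
    .clash 8 9, .use (.W false 0 1 1 []), .clash 8 10, .close [10] [10, 2, 4, 3, 9], .clash 8 6,
    .clash 8 7, .close [12] [6, 2, 4, 3, 5, 1], .close [6] [2, 1]])

/-- A lemma and its proof. -/
def c1113_43 : List Lit × List (Cmd Rule) :=
  ([.ord true [0] [2], .ord true [4] [6]], [
    .lem 37 [], .lem 10 [0], .close [3, 0] [3, 0], .use (.F false 0 [0]), .close [3, 0] [4, 0],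
    .close [5, 0] [4, 2, 0, 3], .close [7, 0] [4, 2, 0], .use (.M true 0 []),
    .close [0] [5, 0, 4, 2, 0], .close [2] [5, 0, 4, 2], .close [4] [5, 0, 4, 1],
    .close [6] [5, 0, 4], .close [4] [2, 1]])

/-- A lemma and its proof. -/
def c1113_44 : List Lit × List (Cmd Rule) :=
  ([.ord true [7] [3], .ord true [5] [7]], [
    .lem 26 [], .lem 42 [3], .close [0, 3] [3, 0, 2], .lem 43 [3], .close [0, 3] [4, 2],
    .close [4, 3] [4, 3], .close [5] [2, 1]])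

/-- A lemma and its proof. -/
def c1113_45 : List Lit × List (Cmd Rule) :=
  ([.ord true [3] [7], .ord true [7] [5]], [
    .lem 37 [7], .close [] [2, 0], .close [4, 7] [2, 1]])

/-- A lemma and its proof. -/
def c1113_46 : List Lit × List (Cmd Rule) :=
  ([.ord true [2] [4], .walk false false 1 2 []], [
    .lem 40 [], .lem 42 [], .close [0] [3, 2], .use (.W false 1 2 0 []), .clash 1 4,
    .use (.W false 1 2 1 []), .clash 1 5, .lem 40 [3, 4], .lem 42 [3, 4], .close [0, 3, 4] [7, 6],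
    .lem 43 [3, 4], .use (.F false 1 [4]), .close [1, 4] [9, 8], .close [] [9, 0],
    .close [7, 4] [9, 0, 3], .close [] [9, 8, 4, 5], .close [4, 3, 4] [8, 7], .close [4] [6, 0],
    .close [2] [2, 0]])

/-- A lemma and its proof. -/
def c1113_47 : List Lit × List (Cmd Rule) :=
  ([.ord true [2] [4], .walk false false 1 0 []], [
    .lem 40 [], .lem 42 [], .close [0] [3, 2], .lem 38 [], .use (.W false 1 0 0 []), .clash 1 5,
    .use (.W false 1 0 1 []), .clash 1 6, .lem 40 [3, 4], .lem 42 [3, 4], .close [0, 3, 4] [8, 7],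
    .lem 43 [3, 4], .use (.F false 1 [4]), .close [1, 4] [10, 9], .close [] [10, 0],
    .close [7, 4] [10, 0, 3], .close [] [10, 4, 5, 6], .close [4, 3, 4] [9, 8], .close [4] [7, 0],
    .close [2] [4, 3, 0], .close [2] [2, 0]])

/-- A lemma and its proof. -/
def c1113_48 : List Lit × List (Cmd Rule) :=
  ([.ord true [2] [4], .walk false false 1 2 [7, 0]], [
    .lem 40 [], .lem 42 [7, 0], .close [0, 7, 0] [3, 2], .lem 10 [4, 7, 0], .lem 45 [4, 7, 0],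
    .use (.W false 1 2 0 [7, 0]), .clash 1 6, .use (.W false 1 2 1 [7, 0]), .clash 1 7,
    .lem 38 [3, 4, 7, 0], .use (.F false 1 [4, 7, 0]), .close [1, 4, 7, 0] [9, 4],
    .close [7, 0] [9, 8], .close [7, 4, 7, 0] [9, 5], .close [7, 0] [9, 4, 6, 7],
    .close [4, 7, 0] [8, 5], .close [7, 4, 7, 0] [5, 3], .close [7, 4, 7, 0] [4, 3],
    .close [2] [2, 0]])

/-- A lemma and its proof. -/
def c1113_49 : List Lit × List (Cmd Rule) :=
  ([.ord true [2] [4], .walk false false 1 0 [7, 0]], [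
    .lem 40 [], .lem 42 [7, 0], .close [0, 7, 0] [3, 2], .lem 10 [4, 7, 0], .lem 45 [4, 7, 0],
    .use (.W false 1 0 0 [7, 0]), .clash 1 6, .use (.W false 1 0 1 [7, 0]), .clash 1 7,
    .lem 38 [3, 4, 7, 0], .use (.F false 1 [4, 7, 0]), .close [1, 4, 7, 0] [9, 4],
    .close [7, 0] [9, 8], .close [7, 4, 7, 0] [9, 5], .close [7, 0] [9, 8, 6, 7],
    .close [4, 7, 0] [8, 5], .close [7, 4, 7, 0] [5, 3], .close [7, 4, 7, 0] [4, 3],
    .close [2] [2, 0]])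

/-- A lemma and its proof. -/
def c1113_50 : List Lit × List (Cmd Rule) :=
  ([.ord true [2] [4], .walk false false 1 2 [15, 0], .ord false [4, 15, 0] [0, 3, 4, 15, 0], .ord true [0, 3, 4, 15, 0] [10, 15, 0]], [
    .use (.W false 1 2 0 [15, 0]), .clash 1 4, .use (.W false 1 2 1 [15, 0]), .clash 1 5,
    .close [12, 15, 0] [5, 3, 2, 4]])

/-- A lemma and its proof. -/
def c1113_51 : List Lit × List (Cmd Rule) :=
  ([.ord true [2] [4], .walk false false 1 0 [15, 4, 15, 2], .ord false [0, 15, 4, 15, 2] [10, 15, 4, 15, 2]], [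
    .use (.W false 1 0 0 [15, 4, 15, 2]), .clash 1 3, .use (.W false 1 0 1 [15, 4, 15, 2]),
    .clash 1 4, .close [8, 15, 4, 15, 2] [4, 2, 3]])

/-- A lemma and its proof. -/
def c1113_52 : List Lit × List (Cmd Rule) :=
  ([.ord true [2] [4], .walk false false 2 0 [15, 4, 15, 2], .ord false [0, 15, 4, 15, 2] [12, 15, 4, 15, 2]], [
    .use (.W false 2 0 0 [15, 4, 15, 2]), .clash 1 3, .use (.W false 2 0 1 [15, 4, 15, 2]),
    .clash 1 4, .close [8, 15, 4, 15, 2] [4, 2, 3]])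

/-- A lemma and its proof. -/
def c1113_53 : List Lit × List (Cmd Rule) :=
  ([.ord true [2] [4], .walk false false 1 0 [15, 2], .ord false [2] [10, 15, 2], .ord false [2, 15, 2] [4, 15, 2], .ord false [4, 15, 2] [2], .ord true [7, 4, 15, 2] [3, 4, 15, 2]], [
    .use (.W false 1 0 0 [15, 2]), .clash 1 6, .use (.W false 1 0 1 [15, 2]), .clash 1 7,
    .use (.F false 1 [4, 15, 2]), .close [1, 4, 15, 2] [8, 3, 6, 7, 2, 4], .close [15, 2] [8, 3],
    .close [7, 4, 15, 2] [8, 5], .close [15, 2] [8, 3, 6, 7]])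

/-- A lemma and its proof. -/
def c1113_54 : List Lit × List (Cmd Rule) :=
  ([.ord true [2] [4], .ord false [2] [10, 15, 2], .ord false [2, 15, 2] [4, 15, 2], .ord false [4, 15, 2] [2], .ord true [7, 4, 15, 2] [3, 4, 15, 2]], [
    .use (.W false 1 3 1 [15, 2]), .lem 53 [], .close [2] [6, 0], .use (.N false 1 [15, 2]),
    .close [2, 15, 2] [7, 1, 0, 3], .clash 7 6, .use (.W false 1 2 0 [15, 2]), .clash 7 8,
    .use (.W false 1 2 1 [15, 2]), .clash 7 9, .close [12, 15, 2] [9, 1, 3, 8], .clash 7 5,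
    .close [2] [6, 1], .close [2, 15, 2] [6, 2], .close [4, 15, 2] [6, 3],
    .close [7, 4, 15, 2] [6, 4], .close [2] [5, 1]])

/-- A lemma and its proof. -/
def c1113_55 : List Lit × List (Cmd Rule) :=
  ([.ord true [2] [4], .ord false [14] [8]], [
    .lem 40 [], .lem 42 [], .close [0] [3, 2], .lem 38 [], .lem 43 [], .use (.W false 0 3 1 []),
    .lem 40 [3, 4], .lem 42 [3, 4], .close [0, 3, 4] [8, 7], .lem 43 [3, 4], .use (.F false 1 [4]),
    .close [1, 4] [10, 9], .close [] [10, 0], .close [7, 4] [10, 0, 3], .use (.W false 0 1 0 []),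
    .lem 46 [], .close [2] [12, 0], .lem 47 [], .close [2] [13, 0], .use (.N false 1 []),
    .close [2] [14, 10, 4, 5], .clash 14 13, .clash 14 12, .use (.W false 1 3 1 []), .clash 14 15,
    .use (.N false 0 []), .close [0] [16, 1, 15, 10, 4], .clash 16 11, .use (.W false 0 2 0 []),
    .clash 16 17, .use (.W false 0 2 1 []), .clash 16 18, .close [12] [18, 1, 15, 10, 9, 17],
    .clash 16 6, .close [2] [11, 10, 4, 5], .close [4, 3, 4] [9, 8], .close [4] [7, 0],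
    .close [14] [6, 1], .close [4] [5, 3], .close [2] [4, 3, 0], .close [2] [2, 0]])

/-- A lemma and its proof. -/
def c1113_56 : List Lit × List (Cmd Rule) :=
  ([.ord true [2] [4], .walk false false 1 0 [15, 6, 15, 4, 7, 14], .ord true [11, 0, 3, 4, 15, 6, 15, 4, 7, 14] [15, 6, 15, 4, 7, 14], .ord false [15, 6, 15, 4, 7, 14] [3, 4, 15, 6, 15, 4, 7, 14]], [
    .use (.W false 1 0 0 [15, 6, 15, 4, 7, 14]), .clash 1 4,
    .use (.W false 1 0 1 [15, 6, 15, 4, 7, 14]), .clash 1 5,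
    .close [8, 15, 6, 15, 4, 7, 14] [5, 2, 3, 4]])

/-- A lemma and its proof. -/
def c1113_57 : List Lit × List (Cmd Rule) :=
  ([.ord true [2] [4], .ord true [7, 4, 15, 6, 15, 4, 7, 14] [15, 6, 15, 4, 7, 14], .ord false [15, 6, 15, 4, 7, 14] [11, 0, 3, 4, 15, 6, 15, 4, 7, 14], .ord false [15, 6, 15, 4, 7, 14] [3, 4, 15, 6, 15, 4, 7, 14]], [
    .lem 10 [4, 15, 6, 15, 4, 7, 14], .use (.F false 1 [4, 15, 6, 15, 4, 7, 14]),
    .close [1, 4, 15, 6, 15, 4, 7, 14] [5, 4], .close [15, 6, 15, 4, 7, 14] [5, 3],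
    .close [7, 4, 15, 6, 15, 4, 7, 14] [5, 3, 1], .close [15, 6, 15, 4, 7, 14] [5, 2],
    .close [7, 4, 15, 6, 15, 4, 7, 14] [4, 1]])

/-- A lemma and its proof. -/
def c1113_58 : List Lit × List (Cmd Rule) :=
  ([.ord true [2] [4], .ord false [4, 15, 2] [12, 15, 4, 15, 2], .ord false [15, 4, 15, 2] [3, 4, 15, 4, 15, 2], .ord false [15, 4, 15, 2] [1, 4, 15, 2], .ord true [4, 15, 2] [2]], [
    .use (.W false 2 3 1 [15, 4, 15, 2]), .lem 52 [], .close [2] [6, 0],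
    .use (.N false 2 [15, 4, 15, 2]), .close [4, 15, 4, 15, 2] [7, 1, 4], .clash 7 6,
    .use (.W false 2 1 0 [15, 4, 15, 2]), .clash 7 8, .use (.W false 2 1 1 [15, 4, 15, 2]),
    .clash 7 9, .close [10, 15, 4, 15, 2] [9, 1, 4, 2, 8], .clash 7 5,
    .close [0, 15, 4, 15, 2] [6, 1, 3], .close [4, 15, 2] [5, 1]])

/-- A lemma and its proof. -/
def c1113_59 : List Lit × List (Cmd Rule) :=
  ([.ord true [2] [4], .ord true [7, 4, 15, 2] [15, 4, 15, 2], .ord true [1, 4, 15, 2] [15, 4, 15, 2], .ord false [4, 15, 2] [2], .ord true [2, 15, 4, 15, 2] [4, 15, 2], .ord false [15, 4, 15, 2] [3, 4, 15, 2]], [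
    .lem 38 [15, 4, 15, 2], .use (.F false 1 [4, 15, 4, 15, 2]),
    .close [1, 4, 15, 4, 15, 2] [7, 6, 2, 3], .close [15, 4, 15, 2] [7, 6],
    .close [7, 4, 15, 4, 15, 2] [7, 6, 1, 3], .use (.W false 1 3 1 [15, 4, 15, 2]), .lem 51 [],
    .close [2] [9, 0], .use (.N false 1 [15, 4, 15, 2]), .close [2, 15, 4, 15, 2] [10, 7, 6, 2, 5],
    .clash 10 9, .use (.W false 1 2 0 [15, 4, 15, 2]), .clash 10 11,
    .use (.W false 1 2 1 [15, 4, 15, 2]), .clash 10 12,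
    .close [12, 15, 4, 15, 2] [12, 7, 6, 2, 3, 11], .clash 10 8,
    .close [0, 15, 4, 15, 2] [9, 7, 6], .close [4, 15, 2] [8, 7, 6, 2],
    .close [2, 15, 4, 15, 2] [6, 1, 4]])

/-- A lemma and its proof. -/
def c1113_60 : List Lit × List (Cmd Rule) :=
  ([.ord true [2] [4], .ord true [5, 6, 21, 22, 15, 6, 15, 4, 7, 14] [1, 6, 5, 6, 21, 22, 15, 6, 15, 4, 7, 14], .ord false [15, 6, 15, 4, 7, 14] [1, 6, 5, 6, 21, 22, 15, 6, 15, 4, 7, 14]], [
    .lem 20 [6, 5, 6, 21, 22, 15, 6, 15, 4, 7, 14],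
    .close [5, 6, 21, 22, 15, 6, 15, 4, 7, 14] [3, 1],
    .lem 44 [6, 5, 6, 21, 22, 15, 6, 15, 4, 7, 14],
    .close [5, 6, 21, 22, 15, 6, 15, 4, 7, 14] [4, 3],
    .use (.FY true 3 [6, 5, 6, 21, 22, 15, 6, 15, 4, 7, 14]),
    .close [5, 6, 21, 22, 15, 6, 15, 4, 7, 14] [5, 1],
    .close [5, 6, 21, 22, 15, 6, 15, 4, 7, 14] [5, 3],
    .close [5, 6, 21, 22, 15, 6, 15, 4, 7, 14] [5, 4], .close [22, 15, 6, 15, 4, 7, 14] [5, 2]])

/-- A lemma and its proof. -/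
def c1113_61 : List Lit × List (Cmd Rule) :=
  ([.ord true [2] [4], .ord false [2] [4], .ord true [10, 15, 0] [0], .ord false [2] [10], .ord true [] [15, 6, 15, 6, 15, 4, 7, 0], .ord false [4, 7, 0] [0, 3, 4, 7, 0], .ord false [6, 15, 2] [2], .ord true [10, 7, 0] [14, 7, 0], .ord true [0, 3, 4] [10], .ord true [10] [14], .ord true [0, 3, 4, 15, 0] [10, 15, 0], .ord true [11, 0, 3, 4, 7, 0] [7, 0]], [
    .close [7, 0] [11, 5, 4, 8, 1, 2, 4, 9, 3, 6, 6, 2, 10, 7]])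

/-- A lemma and its proof. -/
def c1113_62 : List Lit × List (Cmd Rule) :=
  ([.ord true [2] [4], .ord false [19, 22, 1, 14] [11, 2, 17, 22, 1, 14], .ord false [4, 15, 2] [6, 15, 4, 15, 2], .ord false [2, 15, 2] [4, 15, 2], .ord false [4, 15, 2] [2], .ord true [10, 15, 0] [0], .ord true [13, 4, 19, 22, 1, 14] [21, 22, 1, 14], .ord true [0, 3, 4, 15, 0] [10, 15, 0], .ord true [12, 15, 4, 15, 2] [4, 15, 2], .ord true [9, 14] [17, 22, 1, 14], .ord false [15, 6, 15, 4, 7, 14] [3, 4, 15, 6, 15, 4, 7, 14], .ord true [10, 15, 6, 15, 4, 7, 14] [6, 15, 4, 7, 14]], [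
    .lem 40 [], .lem 42 [], .close [0] [13, 12], .lem 38 [], .lem 43 [], .lem 40 [3, 4],
    .lem 42 [3, 4], .close [0, 3, 4] [17, 16], .lem 43 [3, 4], .lem 42 [7, 0],
    .close [0, 7, 0] [19, 12], .lem 10 [4, 7, 0], .lem 45 [4, 7, 0], .lem 38 [3, 4, 7, 0],
    .use (.G false 1 [22, 1, 14]), .use (.F false 1 [4]), .close [1, 4] [24, 18],
    .close [] [24, 0], .close [7, 4] [24, 0, 13], .use (.F false 1 [4, 7, 0]),
    .close [1, 4, 7, 0] [25, 20], .close [7, 0] [25, 22], .close [7, 4, 7, 0] [25, 21],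
    .use (.F true 3 [0]), .close [7, 0] [26, 12], .close [7, 0] [26, 15, 12],
    .close [7, 0] [26, 19], .lem 46 [], .close [2] [27, 0], .lem 47 [], .close [2] [28, 0],
    .use (.N false 1 []), .close [2] [29, 24, 14, 15], .clash 29 28, .clash 29 27,
    .use (.W false 1 3 0 []), .clash 29 30, .use (.W false 1 3 1 []), .clash 29 31, .lem 10 [14],
    .lem 38 [1, 14], .lem 42 [1, 14], .close [14] [34, 14, 5, 7, 30], .lem 10 [4, 1, 14],
    .use (.F false 1 [4, 1, 14]), .close [1, 4, 1, 14] [36, 35], .close [1, 14] [36, 33],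
    .close [7, 4, 1, 14] [36, 33, 34], .use (.FY true 3 [14]), .close [7, 14] [37, 14, 5, 7, 30],
    .close [7, 14] [37, 0, 4, 30], .close [7, 14] [37, 31, 24, 18, 30], .lem 48 [],
    .close [2] [38, 0], .lem 49 [], .close [2] [39, 0], .use (.N false 1 [7, 0]),
    .close [2, 7, 0] [40, 25, 20, 22], .clash 40 39, .clash 40 38, .use (.W false 1 3 1 [7, 0]),
    .clash 40 41, .lem 55 [], .close [2] [42, 0], .lem 10 [4, 15, 6, 15, 4, 7, 14],
    .use (.G true 3 [22, 15, 6, 15, 4, 7, 14]),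
    .close [21, 22, 15, 6, 15, 4, 7, 14] [44, 14, 5, 7, 26, 31, 24, 18, 30, 37, 36, 33, 37, 6, 23, 9, 42, 0, 4, 8, 2, 5, 7, 41, 25, 20, 26, 11],
    .use (.F false 1 [4, 15, 6, 15, 4, 7, 14]), .close [1, 4, 15, 6, 15, 4, 7, 14] [45, 43],
    .close [15, 6, 15, 4, 7, 14] [45, 10],
    .close [7, 4, 15, 6, 15, 4, 7, 14] [45, 10, 14, 5, 7, 26, 31, 24, 18, 37, 6, 23, 9, 42, 0, 4, 8, 2, 5, 7, 41, 25, 20, 26],
    .lem 60 [], .close [2] [46, 0],
    .close [5, 6, 21, 22, 15, 6, 15, 4, 7, 14] [46, 44, 37, 6, 23, 9, 42, 0, 4, 8, 5, 7, 41, 25, 20, 26, 11, 45, 10, 14, 5, 7, 26, 37, 36, 33, 37, 6, 23, 9, 42, 0, 4, 8, 2, 5, 7, 41, 25, 20, 26, 11],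
    .close [15, 6, 15, 4, 7, 14] [46, 44, 37, 6, 23, 9, 42, 0, 4, 8, 5, 7, 41, 25, 20, 26, 11, 45, 10],
    .close [7, 4, 15, 6, 15, 4, 7, 14] [43, 14, 5, 7, 26, 31, 24, 18, 37, 6, 23, 9, 42, 0, 4, 8, 2, 5, 7, 41, 25, 20, 26],
    .close [7, 4, 1, 14] [35, 34], .close [2, 1, 14] [33, 14, 5, 7, 30, 32],
    .close [7, 14] [32, 31, 24, 18, 30], .close [19, 22, 1, 14] [23, 1], .close [4, 7, 0] [22, 21],
    .close [7, 4, 7, 0] [21, 19], .close [7, 4, 7, 0] [20, 19], .close [4, 3, 4] [18, 17],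
    .close [4] [16, 0], .close [4] [15, 13], .close [2] [14, 13, 0], .close [2] [12, 0]])

/-- A lemma and its proof. -/
def c1113_63 : List Lit × List (Cmd Rule) :=
  ([.ord true [2] [4], .ord false [4, 15, 2] [6, 15, 4, 15, 2], .ord true [12, 15, 4, 15, 2] [4, 15, 2], .ord true [9, 14] [17, 22, 1, 14], .ord true [10, 15, 2] [2], .ord true [13, 4, 19, 22, 1, 14] [21, 22, 1, 14], .ord true [0, 3, 4, 15, 0] [10, 15, 0], .ord true [10, 15, 0] [0], .ord true [10, 15, 6, 15, 4, 7, 14] [6, 15, 4, 7, 14], .ord false [15, 6, 15, 4, 7, 14] [3, 4, 15, 6, 15, 4, 7, 14], .ord false [2, 15, 2] [4, 15, 2], .ord false [4, 15, 2] [2]], [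
    .lem 40 [], .lem 42 [], .close [0] [13, 12], .lem 38 [], .lem 43 [], .lem 40 [3, 4],
    .lem 42 [3, 4], .close [0, 3, 4] [17, 16], .lem 43 [3, 4], .lem 42 [7, 0],
    .close [0, 7, 0] [19, 12], .lem 10 [4, 7, 0], .lem 45 [4, 7, 0], .lem 38 [3, 4, 7, 0],
    .use (.F false 1 [4]), .close [1, 4] [23, 18], .close [] [23, 0], .close [7, 4] [23, 0, 13],
    .use (.F false 1 [4, 7, 0]), .close [1, 4, 7, 0] [24, 20], .close [7, 0] [24, 22],
    .close [7, 4, 7, 0] [24, 21], .use (.F true 3 [0]), .close [7, 0] [25, 12],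
    .close [7, 0] [25, 15, 12], .close [7, 0] [25, 19], .lem 46 [], .close [2] [26, 0], .lem 47 [],
    .close [2] [27, 0], .use (.N false 1 []), .close [2] [28, 23, 14, 15], .clash 28 27,
    .clash 28 26, .use (.W false 1 3 0 []), .clash 28 29, .use (.W false 1 3 1 []), .clash 28 30,
    .lem 10 [14], .lem 38 [1, 14], .lem 42 [1, 14], .close [14] [33, 14, 7, 6, 29],
    .lem 10 [4, 1, 14], .use (.F false 1 [4, 1, 14]), .close [1, 4, 1, 14] [35, 34],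
    .close [1, 14] [35, 32], .close [7, 4, 1, 14] [35, 32, 33], .use (.FY true 3 [14]),
    .close [7, 14] [36, 14, 7, 6, 29], .close [7, 14] [36, 0, 11, 29],
    .close [7, 14] [36, 30, 23, 18, 29], .lem 48 [], .close [2] [37, 0], .lem 49 [],
    .close [2] [38, 0], .use (.N false 1 [7, 0]), .close [2, 7, 0] [39, 24, 20, 22], .clash 39 38,
    .clash 39 37, .use (.W false 1 3 1 [7, 0]), .clash 39 40, .lem 55 [], .close [2] [41, 0],
    .lem 62 [], .close [2] [42, 0], .lem 10 [4, 15, 6, 15, 4, 7, 14],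
    .use (.G true 3 [22, 15, 6, 15, 4, 7, 14]),
    .close [21, 22, 15, 6, 15, 4, 7, 14] [44, 14, 7, 6, 25, 30, 23, 18, 29, 36, 35, 32, 36, 5, 42, 3, 41, 4, 2, 1, 7, 6, 40, 24, 20, 25, 8],
    .use (.F false 1 [4, 15, 6, 15, 4, 7, 14]), .close [1, 4, 15, 6, 15, 4, 7, 14] [45, 43],
    .close [15, 6, 15, 4, 7, 14] [45, 9],
    .close [7, 4, 15, 6, 15, 4, 7, 14] [45, 9, 14, 7, 6, 25, 30, 23, 18, 36, 5, 42, 3, 41, 4, 2, 1, 7, 6, 40, 24, 20, 25],
    .lem 60 [], .close [2] [46, 0],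
    .close [5, 6, 21, 22, 15, 6, 15, 4, 7, 14] [46, 44, 36, 5, 42, 3, 41, 4, 2, 7, 6, 40, 24, 20, 25, 8, 45, 9, 14, 7, 6, 25, 36, 35, 32, 36, 5, 42, 3, 41, 4, 2, 1, 7, 6, 40, 24, 20, 25, 8],
    .close [15, 6, 15, 4, 7, 14] [46, 44, 36, 5, 42, 3, 41, 4, 2, 7, 6, 40, 24, 20, 25, 8, 45, 9],
    .close [7, 4, 15, 6, 15, 4, 7, 14] [43, 14, 7, 6, 25, 30, 23, 18, 36, 5, 42, 3, 41, 4, 2, 1, 7, 6, 40, 24, 20, 25],
    .close [4, 15, 2] [42, 1], .close [2, 15, 2] [42, 10], .close [4, 15, 2] [42, 11],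
    .close [10, 15, 0] [42, 7], .close [13, 4, 19, 22, 1, 14] [42, 5],
    .close [0, 3, 4, 15, 0] [42, 6], .close [12, 15, 4, 15, 2] [42, 2], .close [9, 14] [42, 3],
    .close [15, 6, 15, 4, 7, 14] [42, 9], .close [10, 15, 6, 15, 4, 7, 14] [42, 8],
    .close [7, 4, 1, 14] [34, 33], .close [2, 1, 14] [32, 14, 7, 6, 29, 31],
    .close [7, 14] [31, 30, 23, 18, 29], .close [4, 7, 0] [22, 21], .close [7, 4, 7, 0] [21, 19],
    .close [7, 4, 7, 0] [20, 19], .close [4, 3, 4] [18, 17], .close [4] [16, 0],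
    .close [4] [15, 13], .close [2] [14, 13, 0], .close [2] [12, 0]])

/-- A lemma and its proof. -/
def c1113_64 : List Lit × List (Cmd Rule) :=
  ([.ord true [2] [4], .ord true [6, 15, 4, 15, 2] [4, 15, 2], .ord true [10, 15, 6, 15, 4, 7, 14] [6, 15, 4, 7, 14], .ord false [15, 6, 15, 4, 7, 14] [3, 4, 15, 6, 15, 4, 7, 14], .ord true [10, 15, 0] [0], .ord false [4, 15, 2] [2], .ord true [0, 3, 4, 15, 0] [10, 15, 0], .ord false [4, 15, 0] [0, 3, 4, 15, 0], .ord true [2, 15, 4, 15, 2] [4, 15, 2], .ord false [15, 4, 15, 2] [3, 4, 15, 2]], [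
    .lem 40 [], .lem 42 [], .close [0] [11, 10], .lem 38 [], .lem 43 [], .lem 40 [3, 4],
    .lem 42 [3, 4], .close [0, 3, 4] [15, 14], .lem 43 [3, 4], .lem 42 [7, 0],
    .close [0, 7, 0] [17, 10], .lem 10 [4, 7, 0], .lem 45 [4, 7, 0], .lem 38 [3, 4, 7, 0],
    .use (.F false 1 [4]), .close [1, 4] [21, 16], .close [] [21, 0], .close [7, 4] [21, 0, 11],
    .use (.F false 1 [4, 7, 0]), .close [1, 4, 7, 0] [22, 18], .close [7, 0] [22, 20],
    .close [7, 4, 7, 0] [22, 19], .use (.F true 3 [0]), .close [7, 0] [23, 10],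
    .close [7, 0] [23, 13, 10], .close [7, 0] [23, 17], .lem 46 [], .close [2] [24, 0], .lem 47 [],
    .close [2] [25, 0], .use (.N false 1 []), .close [2] [26, 21, 12, 13], .clash 26 25,
    .clash 26 24, .use (.W false 1 3 0 []), .clash 26 27, .use (.W false 1 3 1 []), .clash 26 28,
    .use (.FY true 3 [14]), .close [7, 14] [29, 12, 4, 6, 27], .close [7, 14] [29, 0, 5, 27],
    .close [7, 14] [29, 28, 21, 16, 27], .lem 48 [], .close [2] [30, 0], .lem 49 [],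
    .close [2] [31, 0], .use (.N false 1 [7, 0]), .close [2, 7, 0] [32, 22, 18, 20], .clash 32 31,
    .clash 32 30, .use (.W false 1 3 1 [7, 0]), .clash 32 33, .lem 10 [4, 15, 6, 15, 4, 7, 14],
    .use (.G true 3 [22, 15, 6, 15, 4, 7, 14]),
    .close [21, 22, 15, 6, 15, 4, 7, 14] [35, 12, 4, 6, 23, 28, 21, 16, 27, 29, 12, 4, 6, 12, 4, 6, 23, 12, 4, 6, 13, 5, 1, 1, 4, 6, 33, 22, 18, 23],
    .use (.F false 1 [4, 15, 6, 15, 4, 7, 14]), .close [1, 4, 15, 6, 15, 4, 7, 14] [36, 34],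
    .close [15, 6, 15, 4, 7, 14] [36, 3],
    .close [7, 4, 15, 6, 15, 4, 7, 14] [36, 12, 4, 6, 23, 12, 4, 6, 20, 4, 6, 7, 23, 12, 4, 6, 13, 5, 1, 1, 4, 6, 33, 22, 18, 23],
    .lem 60 [], .close [2] [37, 0],
    .close [5, 6, 21, 22, 15, 6, 15, 4, 7, 14] [37, 35, 12, 4, 6, 23, 12, 4, 6, 13, 5, 1, 1, 1, 4, 6, 33, 22, 18, 23, 2, 36, 3, 12, 4, 6, 23, 29, 12, 4, 6, 12, 4, 6, 23, 12, 4, 6, 13, 5, 1, 1, 4, 6, 33, 22, 18, 23],
    .close [15, 6, 15, 4, 7, 14] [37, 35, 12, 4, 6, 23, 12, 4, 6, 13, 5, 1, 1, 1, 4, 6, 33, 22, 18, 23, 2, 36, 3],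
    .close [7, 4, 15, 6, 15, 4, 7, 14] [34, 12, 4, 6, 23, 0, 5, 4, 6, 23, 12, 4, 6, 13, 5, 1, 1, 4, 6, 33, 22, 18, 23],
    .close [4, 7, 0] [20, 19], .close [7, 4, 7, 0] [19, 17], .close [7, 4, 7, 0] [18, 17],
    .close [4, 3, 4] [16, 15], .close [4] [14, 0], .close [4] [13, 11], .close [2] [12, 11, 0],
    .close [2] [10, 0]])

/-- A lemma and its proof. -/
def c1113_65 : List Lit × List (Cmd Rule) :=
  ([.ord true [2] [4], .ord true [9, 14] [17, 22, 1, 14], .ord false [4, 15, 2] [6, 15, 4, 15, 2], .ord true [10, 15, 0] [0], .ord true [0, 3, 4, 15, 0] [10, 15, 0], .ord false [4, 15, 2] [2], .ord true [12, 15, 4, 15, 2] [4, 15, 2], .ord true [10, 15, 6, 15, 4, 7, 14] [6, 15, 4, 7, 14], .ord false [15, 6, 15, 4, 7, 14] [3, 4, 15, 6, 15, 4, 7, 14], .ord false [2, 15, 2] [4, 15, 2]], [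
    .lem 40 [], .lem 42 [], .close [0] [11, 10], .lem 38 [], .lem 43 [], .lem 40 [3, 4],
    .lem 42 [3, 4], .close [0, 3, 4] [15, 14], .lem 43 [3, 4], .lem 42 [7, 0],
    .close [0, 7, 0] [17, 10], .lem 10 [4, 7, 0], .lem 45 [4, 7, 0], .lem 38 [3, 4, 7, 0],
    .use (.F false 1 [4]), .close [1, 4] [21, 16], .close [] [21, 0], .close [7, 4] [21, 0, 11],
    .use (.F false 1 [4, 7, 0]), .close [1, 4, 7, 0] [22, 18], .close [7, 0] [22, 20],
    .close [7, 4, 7, 0] [22, 19], .use (.F true 3 [0]), .close [7, 0] [23, 10],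
    .close [7, 0] [23, 13, 10], .close [7, 0] [23, 17], .lem 46 [], .close [2] [24, 0], .lem 47 [],
    .close [2] [25, 0], .use (.N false 1 []), .close [2] [26, 21, 12, 13], .clash 26 25,
    .clash 26 24, .use (.W false 1 3 0 []), .clash 26 27, .use (.W false 1 3 1 []), .clash 26 28,
    .use (.FY true 3 [14]), .close [7, 14] [29, 12, 3, 4, 27], .close [7, 14] [29, 0, 5, 27],
    .close [7, 14] [29, 28, 21, 16, 27], .lem 48 [], .close [2] [30, 0], .lem 49 [],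
    .close [2] [31, 0], .use (.N false 1 [7, 0]), .close [2, 7, 0] [32, 22, 18, 20], .clash 32 31,
    .clash 32 30, .use (.W false 1 3 1 [7, 0]), .clash 32 33, .lem 55 [], .close [2] [34, 0],
    .lem 54 [], .close [2] [35, 0], .lem 61 [], .close [2] [36, 0], .close [2] [36, 12],
    .close [10, 15, 0] [36, 3], .close [2] [36, 21, 12, 13], .close [] [36, 23],
    .close [4, 7, 0] [36, 18], .lem 63 [], .close [2] [37, 0], .close [4, 15, 2] [37, 2],
    .close [12, 15, 4, 15, 2] [37, 6], .close [9, 14] [37, 1], .close [10, 15, 2] [37, 35],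
    .use (.G false 2 [22, 1, 14]), .use (.G false 1 [22, 1, 14]),
    .close [19, 22, 1, 14] [39, 1, 34, 11, 27, 29, 38],
    .close [19, 22, 1, 14] [39, 1, 34, 35, 36, 3, 4, 33, 22, 18, 23, 29, 38],
    .close [21, 22, 1, 14] [38, 37], .close [0, 3, 4, 15, 0] [37, 4], .close [10, 15, 0] [37, 3],
    .close [10, 15, 6, 15, 4, 7, 14] [37, 7], .close [15, 6, 15, 4, 7, 14] [37, 8],
    .close [2, 15, 2] [37, 9], .close [4, 15, 2] [37, 5], .close [10, 7, 0] [36, 33],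
    .close [0, 3, 4] [36, 21], .close [10] [36, 28], .close [0, 3, 4, 15, 0] [36, 4],
    .close [11, 0, 3, 4, 7, 0] [36, 22], .close [2, 15, 2] [35, 9], .close [4, 15, 2] [35, 5],
    .close [7, 4, 15, 2] [35, 9, 5, 2], .close [4, 7, 0] [20, 19], .close [7, 4, 7, 0] [19, 17],
    .close [7, 4, 7, 0] [18, 17], .close [4, 3, 4] [16, 15], .close [4] [14, 0],
    .close [4] [13, 11], .close [2] [12, 11, 0], .close [2] [10, 0]])

/-- A lemma and its proof. -/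
def c1113_66 : List Lit × List (Cmd Rule) :=
  ([.ord true [2] [4], .ord false [19, 22, 1, 14] [21, 22, 1, 14], .ord false [1, 14] [17, 22, 1, 14], .ord true [2, 15, 2] [4, 15, 2], .ord true [7, 4, 15, 2] [3, 4, 15, 2], .ord true [10, 15, 0] [0], .ord false [4, 15, 2] [2], .ord true [0, 3, 4, 15, 0] [10, 15, 0], .ord true [10, 15, 2] [2]], [
    .lem 40 [], .lem 42 [], .close [0] [10, 9], .lem 38 [], .lem 43 [], .lem 40 [3, 4],
    .lem 42 [3, 4], .close [0, 3, 4] [14, 13], .lem 43 [3, 4], .lem 42 [7, 0],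
    .close [0, 7, 0] [16, 9], .lem 10 [4, 7, 0], .lem 45 [4, 7, 0], .lem 38 [3, 4, 7, 0],
    .use (.F false 1 [4]), .close [1, 4] [20, 15], .close [] [20, 0], .close [7, 4] [20, 0, 10],
    .use (.F false 1 [4, 7, 0]), .close [1, 4, 7, 0] [21, 17], .close [7, 0] [21, 19],
    .close [7, 4, 7, 0] [21, 18], .use (.F true 3 [0]), .close [7, 0] [22, 9],
    .close [7, 0] [22, 12, 9], .close [7, 0] [22, 16], .lem 46 [], .close [2] [23, 0], .lem 47 [],
    .close [2] [24, 0], .use (.N false 1 []), .close [2] [25, 20, 11, 12], .clash 25 24,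
    .clash 25 23, .use (.W false 1 3 0 []), .clash 25 26, .use (.W false 1 3 1 []), .clash 25 27,
    .use (.FY true 3 [14]), .close [7, 14] [28, 11, 5, 7, 26], .close [7, 14] [28, 0, 6, 26],
    .close [7, 14] [28, 27, 20, 15, 26], .use (.G false 1 [22, 1, 14]),
    .close [19, 22, 1, 14] [29, 2, 0, 5, 7, 10, 26, 28, 1], .lem 48 [], .close [2] [30, 0],
    .lem 49 [], .close [2] [31, 0], .use (.N false 1 [7, 0]), .close [2, 7, 0] [32, 21, 17, 19],
    .clash 32 31, .clash 32 30, .use (.W false 1 3 1 [7, 0]), .clash 32 33,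
    .close [4, 15, 0] [33, 21, 17, 22, 28, 1, 29, 2, 0, 5, 7, 8, 5, 7, 33, 21, 17, 22, 11, 5, 7, 22, 27, 20, 15, 26, 28, 1, 29, 2, 0, 5, 7, 8, 5, 7],
    .close [4, 7, 0] [19, 18], .close [7, 4, 7, 0] [18, 16], .close [7, 4, 7, 0] [17, 16],
    .close [4, 3, 4] [15, 14], .close [4] [13, 0], .close [4] [12, 10], .close [2] [11, 10, 0],
    .close [2] [9, 0]])

/-- A lemma and its proof. -/
def c1113_67 : List Lit × List (Cmd Rule) :=
  ([.ord true [2] [4], .ord true [11, 2, 17, 22, 1, 14] [19, 22, 1, 14], .ord true [1, 6, 5, 6, 21, 22, 15, 6, 15, 4, 7, 14] [15, 6, 15, 4, 7, 14], .ord false [15, 6, 15, 4, 7, 14] [3, 4, 15, 6, 15, 4, 7, 14], .ord true [10, 15, 6, 15, 4, 7, 14] [6, 15, 4, 7, 14], .ord true [11, 0, 3, 4, 15, 6, 15, 4, 7, 14] [15, 6, 15, 4, 7, 14], .ord false [1, 14] [17, 22, 1, 14], .ord true [10, 15, 0] [0], .ord true [10, 15, 2] [2], .ord true [13, 4, 19, 22, 1, 14] [21, 22, 1, 14], .ord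 true [0, 3, 4, 15, 0] [10, 15, 0], .ord true [12, 15, 4, 15, 2] [4, 15, 2], .ord false [4, 15, 2] [6, 15, 4, 15, 2]], [
    .lem 40 [], .lem 42 [], .close [0] [14, 13], .lem 38 [], .lem 43 [], .lem 40 [3, 4],
    .lem 42 [3, 4], .close [0, 3, 4] [18, 17], .lem 43 [3, 4], .lem 42 [7, 0],
    .close [0, 7, 0] [20, 13], .lem 10 [4, 7, 0], .lem 45 [4, 7, 0], .lem 38 [3, 4, 7, 0],
    .use (.F false 1 [4]), .close [1, 4] [24, 19], .close [] [24, 0], .close [7, 4] [24, 0, 14],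
    .use (.F false 1 [4, 7, 0]), .close [1, 4, 7, 0] [25, 21], .close [7, 0] [25, 23],
    .close [7, 4, 7, 0] [25, 22], .use (.F true 3 [0]), .close [7, 0] [26, 13],
    .close [7, 0] [26, 16, 13], .close [7, 0] [26, 20], .lem 46 [], .close [2] [27, 0], .lem 47 [],
    .close [2] [28, 0], .use (.N false 1 []), .close [2] [29, 24, 15, 16], .clash 29 28,
    .clash 29 27, .use (.W false 1 3 0 []), .clash 29 30, .use (.W false 1 3 1 []), .clash 29 31,
    .use (.FY true 3 [14]), .close [7, 14] [32, 15, 7, 10, 30],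
    .close [7, 14] [32, 15, 7, 10, 16, 30], .close [7, 14] [32, 31, 24, 19, 30], .lem 48 [],
    .close [2] [33, 0], .lem 49 [], .close [2] [34, 0], .use (.N false 1 [7, 0]),
    .close [2, 7, 0] [35, 25, 21, 23], .clash 35 34, .clash 35 33, .use (.W false 1 3 1 [7, 0]),
    .clash 35 36, .use (.G true 3 [22, 15, 6, 15, 4, 7, 14]),
    .close [21, 22, 15, 6, 15, 4, 7, 14] [37, 15, 7, 10, 26, 31, 24, 19, 30, 32, 15, 7, 10, 32, 9, 1, 6, 0, 7, 10, 8, 11, 12, 7, 10, 36, 25, 21, 26],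
    .close [15, 6, 15, 6, 15, 6, 21, 22, 15, 6, 15, 4, 7, 14] [37, 32, 9, 1, 6, 0, 7, 10, 8, 11, 7, 10, 36, 25, 21, 26, 4, 5, 3, 2],
    .close [4, 7, 0] [23, 22], .close [7, 4, 7, 0] [22, 20], .close [7, 4, 7, 0] [21, 20],
    .close [4, 3, 4] [19, 18], .close [4] [17, 0], .close [4] [16, 14], .close [2] [15, 14, 0],
    .close [2] [13, 0]])

/-- A lemma and its proof. -/
def c1113_68 : List Lit × List (Cmd Rule) :=
  ([.ord true [2] [4], .ord true [1, 6, 5, 6, 21, 22, 15, 6, 15, 4, 7, 14] [15, 6, 15, 4, 7, 14], .ord true [11, 0, 3, 4, 15, 6, 15, 4, 7, 14] [15, 6, 15, 4, 7, 14], .ord false [1, 14] [17, 22, 1, 14], .ord true [10, 15, 0] [0], .ord false [15, 6, 15, 4, 7, 14] [3, 4, 15, 6, 15, 4, 7, 14], .ord true [10, 15, 2] [2], .ord true [13, 4, 19, 22, 1, 14] [21, 22, 1, 14], .ord true [10, 15, 6, 15, 4, 7, 14] [6, 15, 4, 7, 14], .ord true [0, 3, 4, 15, 0] [10, 15, 0], .ord true [12, 15, 4, 15, 2]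 [4, 15, 2], .ord false [4, 15, 2] [6, 15, 4, 15, 2]], [
    .lem 40 [], .lem 42 [], .close [0] [13, 12], .lem 38 [], .lem 43 [], .lem 40 [3, 4],
    .lem 42 [3, 4], .close [0, 3, 4] [17, 16], .lem 43 [3, 4], .lem 42 [7, 0],
    .close [0, 7, 0] [19, 12], .lem 10 [4, 7, 0], .lem 45 [4, 7, 0], .lem 38 [3, 4, 7, 0],
    .use (.F false 1 [4]), .close [1, 4] [23, 18], .close [] [23, 0], .close [7, 4] [23, 0, 13],
    .use (.F false 1 [4, 7, 0]), .close [1, 4, 7, 0] [24, 20], .close [7, 0] [24, 22],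
    .close [7, 4, 7, 0] [24, 21], .use (.F true 3 [0]), .close [7, 0] [25, 12],
    .close [7, 0] [25, 15, 12], .close [7, 0] [25, 19], .lem 46 [], .close [2] [26, 0], .lem 47 [],
    .close [2] [27, 0], .use (.N false 1 []), .close [2] [28, 23, 14, 15], .clash 28 27,
    .clash 28 26, .use (.W false 1 3 0 []), .clash 28 29, .use (.W false 1 3 1 []), .clash 28 30,
    .use (.FY true 3 [14]), .close [7, 14] [31, 14, 4, 9, 29],
    .close [7, 14] [31, 14, 4, 9, 15, 29], .close [7, 14] [31, 30, 23, 18, 29], .lem 48 [],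
    .close [2] [32, 0], .lem 49 [], .close [2] [33, 0], .use (.N false 1 [7, 0]),
    .close [2, 7, 0] [34, 24, 20, 22], .clash 34 33, .clash 34 32, .use (.W false 1 3 1 [7, 0]),
    .clash 34 35, .lem 67 [], .close [2] [36, 0], .use (.G false 1 [22, 1, 14]),
    .use (.G true 3 [22, 15, 6, 15, 4, 7, 14]),
    .close [21, 22, 15, 6, 15, 4, 7, 14] [38, 14, 4, 9, 25, 30, 23, 18, 29, 31, 31, 7, 37, 3, 0, 4, 9, 0, 4, 9, 15, 10, 11, 4, 9, 35, 24, 20, 25, 8, 2, 5],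
    .close [15, 6, 15, 6, 15, 6, 21, 22, 15, 6, 15, 4, 7, 14] [38, 31, 7, 37, 3, 0, 4, 9, 0, 4, 9, 15, 10, 4, 9, 35, 24, 20, 25, 8, 2, 5, 1],
    .close [19, 22, 1, 14] [37, 36], .close [1, 6, 5, 6, 21, 22, 15, 6, 15, 4, 7, 14] [36, 1],
    .close [15, 6, 15, 4, 7, 14] [36, 5], .close [10, 15, 6, 15, 4, 7, 14] [36, 8],
    .close [11, 0, 3, 4, 15, 6, 15, 4, 7, 14] [36, 2], .close [1, 14] [36, 3],
    .close [10, 15, 0] [36, 4], .close [10, 15, 2] [36, 6], .close [13, 4, 19, 22, 1, 14] [36, 7],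
    .close [0, 3, 4, 15, 0] [36, 9], .close [12, 15, 4, 15, 2] [36, 10],
    .close [4, 15, 2] [36, 11], .close [4, 7, 0] [22, 21], .close [7, 4, 7, 0] [21, 19],
    .close [7, 4, 7, 0] [20, 19], .close [4, 3, 4] [18, 17], .close [4] [16, 0],
    .close [4] [15, 13], .close [2] [14, 13, 0], .close [2] [12, 0]])

/-- A lemma and its proof. -/
def c1113_69 : List Lit × List (Cmd Rule) :=
  ([.ord true [2] [4], .ord true [11, 0, 3, 4, 15, 6, 15, 4, 7, 14] [15, 6, 15, 4, 7, 14], .ord false [4, 15, 2] [6, 15, 4, 15, 2], .ord true [10, 15, 2] [2], .ord true [10, 15, 0] [0], .ord false [1, 14] [17, 22, 1, 14], .ord true [13, 4, 19, 22, 1, 14] [21, 22, 1, 14], .ord true [0, 3, 4, 15, 0] [10, 15, 0], .ord true [12, 15, 4, 15, 2] [4, 15, 2], .ord false [15, 6, 15, 4, 7, 14] [3, 4, 15, 6, 15, 4, 7, 14], .ord true [10, 15, 6, 15, 4, 7, 14] [6, 15, 4, 7, 14]], [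
    .lem 40 [], .lem 42 [], .close [0] [12, 11], .lem 38 [], .lem 43 [], .lem 40 [3, 4],
    .lem 42 [3, 4], .close [0, 3, 4] [16, 15], .lem 43 [3, 4], .lem 42 [7, 0],
    .close [0, 7, 0] [18, 11], .lem 10 [4, 7, 0], .lem 45 [4, 7, 0], .lem 38 [3, 4, 7, 0],
    .use (.F false 1 [4]), .close [1, 4] [22, 17], .close [] [22, 0], .close [7, 4] [22, 0, 12],
    .use (.F false 1 [4, 7, 0]), .close [1, 4, 7, 0] [23, 19], .close [7, 0] [23, 21],
    .close [7, 4, 7, 0] [23, 20], .use (.F true 3 [0]), .close [7, 0] [24, 11],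
    .close [7, 0] [24, 14, 11], .close [7, 0] [24, 18], .lem 46 [], .close [2] [25, 0], .lem 47 [],
    .close [2] [26, 0], .use (.N false 1 []), .close [2] [27, 22, 13, 14], .clash 27 26,
    .clash 27 25, .use (.W false 1 3 0 []), .clash 27 28, .use (.W false 1 3 1 []), .clash 27 29,
    .use (.FY true 3 [14]), .close [7, 14] [30, 13, 4, 7, 28],
    .close [7, 14] [30, 13, 4, 7, 14, 28], .close [7, 14] [30, 29, 22, 17, 28], .lem 48 [],
    .close [2] [31, 0], .lem 49 [], .close [2] [32, 0], .use (.N false 1 [7, 0]),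
    .close [2, 7, 0] [33, 23, 19, 21], .clash 33 32, .clash 33 31, .use (.W false 1 3 1 [7, 0]),
    .clash 33 34, .lem 68 [], .close [2] [35, 0], .lem 60 [], .close [2] [36, 0],
    .use (.G false 1 [22, 1, 14]),
    .close [19, 22, 1, 14] [37, 5, 0, 4, 7, 0, 4, 7, 14, 8, 2, 4, 7, 34, 23, 19, 24, 10, 1, 9, 36, 35, 13, 4, 7, 24, 30, 30, 6],
    .close [19, 22, 1, 14] [37, 5, 0, 4, 7, 3, 8, 2, 4, 7, 34, 23, 19, 24, 10, 1, 9, 36, 35, 13, 4, 7, 24, 30, 30, 6],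
    .close [15, 6, 15, 4, 7, 14] [36, 35], .close [11, 0, 3, 4, 15, 6, 15, 4, 7, 14] [35, 1],
    .close [1, 14] [35, 5], .close [10, 15, 0] [35, 4], .close [15, 6, 15, 4, 7, 14] [35, 9],
    .close [10, 15, 2] [35, 3], .close [13, 4, 19, 22, 1, 14] [35, 6],
    .close [10, 15, 6, 15, 4, 7, 14] [35, 10], .close [0, 3, 4, 15, 0] [35, 7],
    .close [12, 15, 4, 15, 2] [35, 8], .close [4, 15, 2] [35, 2], .close [4, 7, 0] [21, 20],
    .close [7, 4, 7, 0] [20, 18], .close [7, 4, 7, 0] [19, 18], .close [4, 3, 4] [17, 16],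
    .close [4] [15, 0], .close [4] [14, 12], .close [2] [13, 12, 0], .close [2] [11, 0]])

/-- A lemma and its proof. -/
def c1113_70 : List Lit × List (Cmd Rule) :=
  ([.ord true [2] [4], .ord true [10, 15, 6, 15, 4, 7, 14] [6, 15, 4, 7, 14], .ord false [15, 6, 15, 4, 7, 14] [3, 4, 15, 6, 15, 4, 7, 14], .ord true [0, 3, 4, 15, 0] [10, 15, 0], .ord true [10, 15, 0] [0], .ord true [7, 4, 15, 2] [3, 4, 15, 2], .ord false [2, 15, 2] [4, 15, 2], .ord false [4, 15, 0] [0, 3, 4, 15, 0]], [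
    .lem 40 [], .lem 42 [], .close [0] [9, 8], .lem 38 [], .lem 43 [], .lem 40 [3, 4],
    .lem 42 [3, 4], .close [0, 3, 4] [13, 12], .lem 43 [3, 4], .lem 42 [7, 0],
    .close [0, 7, 0] [15, 8], .lem 10 [4, 7, 0], .lem 45 [4, 7, 0], .lem 38 [3, 4, 7, 0],
    .use (.F false 1 [4]), .close [1, 4] [19, 14], .close [] [19, 0], .close [7, 4] [19, 0, 9],
    .use (.F false 1 [4, 7, 0]), .close [1, 4, 7, 0] [20, 16], .close [7, 0] [20, 18],
    .close [7, 4, 7, 0] [20, 17], .use (.F true 3 [0]), .close [7, 0] [21, 8],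
    .close [7, 0] [21, 11, 8], .close [7, 0] [21, 15], .lem 46 [], .close [2] [22, 0], .lem 47 [],
    .close [2] [23, 0], .use (.N false 1 []), .close [2] [24, 19, 10, 11], .clash 24 23,
    .clash 24 22, .use (.W false 1 3 0 []), .clash 24 25, .use (.W false 1 3 1 []), .clash 24 26,
    .use (.FY true 3 [14]), .close [7, 14] [27, 10, 4, 3, 25],
    .close [7, 14] [27, 10, 4, 3, 11, 25], .close [7, 14] [27, 26, 19, 14, 25], .lem 48 [],
    .close [2] [28, 0], .lem 49 [], .close [2] [29, 0], .use (.N false 1 [7, 0]),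
    .close [2, 7, 0] [30, 20, 16, 18], .clash 30 29, .clash 30 28, .use (.W false 1 3 1 [7, 0]),
    .clash 30 31, .lem 54 [], .close [2] [32, 0], .lem 64 [], .close [2] [33, 0],
    .lem 38 [15, 4, 15, 2], .lem 59 [], .close [2] [35, 0], .close [7, 4, 15, 2] [35, 33],
    .lem 58 [], .close [2] [36, 0], .lem 65 [], .close [2] [37, 0], .use (.G false 0 [22, 1, 14]),
    .lem 66 [], .close [2] [39, 0], .use (.G false 2 [22, 1, 14]), .close [21, 22, 1, 14] [40, 39],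
    .lem 69 [], .close [2] [41, 0], .lem 57 [], .close [2] [42, 0], .use (.G false 1 [22, 1, 14]),
    .close [19, 22, 1, 14] [43, 38, 0, 4, 3, 10, 4, 3, 11, 36, 33, 4, 3, 31, 20, 16, 21, 42, 10, 4, 3, 21, 26, 19, 14, 27, 40],
    .close [19, 22, 1, 14] [43, 38, 10, 4, 3, 32, 36, 33, 4, 3, 31, 20, 16, 21, 42, 10, 4, 3, 21, 26, 19, 14, 27, 40],
    .close [15, 6, 15, 4, 7, 14] [42, 41], .close [15, 6, 15, 4, 7, 14] [42, 2],
    .close [4, 15, 2] [41, 33], .close [10, 15, 2] [41, 32], .close [10, 15, 0] [41, 4],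
    .close [1, 14] [41, 38], .close [13, 4, 19, 22, 1, 14] [41, 40],
    .close [0, 3, 4, 15, 0] [41, 3], .close [12, 15, 4, 15, 2] [41, 36],
    .close [15, 6, 15, 4, 7, 14] [41, 2], .close [10, 15, 6, 15, 4, 7, 14] [41, 1],
    .close [1, 14] [39, 38], .close [2, 15, 2] [39, 6], .close [7, 4, 15, 2] [39, 5],
    .close [10, 15, 0] [39, 4], .close [4, 15, 2] [39, 4, 3, 11], .close [0, 3, 4, 15, 0] [39, 3],
    .close [10, 15, 2] [39, 32], .close [17, 22, 1, 14] [38, 37], .close [4, 15, 2] [37, 33],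
    .close [10, 15, 0] [37, 4], .close [0, 3, 4, 15, 0] [37, 3], .close [4, 15, 2] [37, 4, 3, 11],
    .close [12, 15, 4, 15, 2] [37, 36], .close [10, 15, 6, 15, 4, 7, 14] [37, 1],
    .close [15, 6, 15, 4, 7, 14] [37, 2], .close [2, 15, 2] [37, 6],
    .close [15, 4, 15, 2] [36, 34], .close [15, 4, 15, 2] [36, 35],
    .close [4, 15, 2] [36, 4, 3, 11], .close [4, 15, 2] [35, 4, 3, 11],
    .close [2, 15, 4, 15, 2] [35, 6, 4, 3, 11], .close [15, 4, 15, 2] [35, 6, 4, 3, 11],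
    .close [2, 15, 4, 15, 2] [34, 33, 6, 4, 3, 11], .close [10, 15, 6, 15, 4, 7, 14] [33, 1],
    .close [15, 6, 15, 4, 7, 14] [33, 2], .close [10, 15, 0] [33, 4],
    .close [4, 15, 2] [33, 4, 3, 11], .close [0, 3, 4, 15, 0] [33, 3], .close [4, 15, 0] [33, 7],
    .close [2, 15, 4, 15, 2] [33, 6, 4, 3, 11], .close [15, 4, 15, 2] [33, 6, 4, 3, 11],
    .close [2, 15, 2] [32, 6], .close [4, 15, 2] [32, 4, 3, 11], .close [7, 4, 15, 2] [32, 5],
    .close [4, 7, 0] [18, 17], .close [7, 4, 7, 0] [17, 15], .close [7, 4, 7, 0] [16, 15],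
    .close [4, 3, 4] [14, 13], .close [4] [12, 0], .close [4] [11, 9], .close [2] [10, 9, 0],
    .close [2] [8, 0]])

/-- A lemma and its proof. -/
def c1113_71 : List Lit × List (Cmd Rule) :=
  ([.ord true [2] [4], .ord false [17, 22, 1, 14] [19, 22, 1, 14], .ord true [13, 4, 19, 22, 1, 14] [21, 22, 1, 14], .ord true [10, 15, 2] [2], .ord false [4, 15, 2] [6, 15, 4, 15, 2], .ord false [15, 6, 15, 4, 7, 14] [7, 4, 15, 6, 15, 4, 7, 14], .ord true [10, 15, 0] [0], .ord true [0, 3, 4, 15, 0] [10, 15, 0], .ord true [12, 15, 4, 15, 2] [4, 15, 2], .ord false [2, 15, 2] [4, 15, 2], .ord false [4, 15, 2] [2], .ord true [15, 6, 15, 4, 7, 14] [7, 4, 15, 6, 15, 4, 7, 14]], [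
    .lem 40 [], .lem 42 [], .close [0] [13, 12], .lem 38 [], .lem 43 [], .lem 40 [3, 4],
    .lem 42 [3, 4], .close [0, 3, 4] [17, 16], .lem 43 [3, 4], .lem 42 [7, 0],
    .close [0, 7, 0] [19, 12], .lem 10 [4, 7, 0], .lem 45 [4, 7, 0], .lem 38 [3, 4, 7, 0],
    .use (.F false 1 [4]), .close [1, 4] [23, 18], .close [] [23, 0], .close [7, 4] [23, 0, 13],
    .use (.F false 1 [4, 7, 0]), .close [1, 4, 7, 0] [24, 20], .close [7, 0] [24, 22],
    .close [7, 4, 7, 0] [24, 21], .use (.F true 3 [0]), .close [7, 0] [25, 12],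
    .close [7, 0] [25, 15, 12], .close [7, 0] [25, 19], .lem 46 [], .close [2] [26, 0], .lem 47 [],
    .close [2] [27, 0], .use (.N false 1 []), .close [2] [28, 23, 14, 15], .clash 28 27,
    .clash 28 26, .use (.W false 1 3 0 []), .clash 28 29, .use (.W false 1 3 1 []), .clash 28 30,
    .use (.FY true 3 [14]), .close [7, 14] [31, 14, 6, 7, 29], .close [7, 14] [31, 0, 10, 29],
    .close [7, 14] [31, 30, 23, 18, 29], .lem 48 [], .close [2] [32, 0], .lem 49 [],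
    .close [2] [33, 0], .use (.N false 1 [7, 0]), .close [2, 7, 0] [34, 24, 20, 22], .clash 34 33,
    .clash 34 32, .use (.W false 1 3 1 [7, 0]), .clash 34 35, .use (.G false 0 [22, 1, 14]),
    .close [17, 22, 1, 14] [36, 0, 6, 7, 0, 10, 8, 4, 6, 7, 35, 24, 20, 25, 5, 14, 6, 7, 25, 30, 23, 18, 31, 2, 1],
    .lem 55 [], .close [2] [37, 0],
    .close [14] [37, 0, 10, 8, 4, 6, 7, 35, 24, 20, 25, 5, 14, 6, 7, 25, 30, 23, 18, 31, 2, 1, 36],
    .close [4, 7, 0] [22, 21], .close [7, 4, 7, 0] [21, 19], .close [7, 4, 7, 0] [20, 19],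
    .close [4, 3, 4] [18, 17], .close [4] [16, 0], .close [4] [15, 13], .close [2] [14, 13, 0],
    .close [2] [12, 0]])

/-- A lemma and its proof. -/
def c1113_72 : List Lit × List (Cmd Rule) :=
  ([.ord true [2] [4], .ord false [15, 6, 15, 4, 7, 14] [11, 0, 3, 4, 15, 6, 15, 4, 7, 14], .ord false [15, 6, 15, 4, 7, 14] [3, 4, 15, 6, 15, 4, 7, 14], .ord true [13, 4, 19, 22, 1, 14] [21, 22, 1, 14], .ord true [10, 15, 0] [0], .ord true [0, 3, 4, 15, 0] [10, 15, 0], .ord false [4, 15, 2] [6, 15, 4, 15, 2], .ord false [2, 15, 2] [4, 15, 2], .ord false [4, 15, 2] [2], .ord true [12, 15, 4, 15, 2] [4, 15, 2], .ord true [10, 15, 2] [2]], [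
    .lem 40 [], .lem 42 [], .close [0] [12, 11], .lem 38 [], .lem 43 [], .lem 40 [3, 4],
    .lem 42 [3, 4], .close [0, 3, 4] [16, 15], .lem 43 [3, 4], .lem 42 [7, 0],
    .close [0, 7, 0] [18, 11], .lem 10 [4, 7, 0], .lem 45 [4, 7, 0], .lem 38 [3, 4, 7, 0],
    .use (.F false 1 [4]), .close [1, 4] [22, 17], .close [] [22, 0], .close [7, 4] [22, 0, 12],
    .use (.F false 1 [4, 7, 0]), .close [1, 4, 7, 0] [23, 19], .close [7, 0] [23, 21],
    .close [7, 4, 7, 0] [23, 20], .use (.F true 3 [0]), .close [7, 0] [24, 11],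
    .close [7, 0] [24, 14, 11], .close [7, 0] [24, 18], .lem 46 [], .close [2] [25, 0], .lem 47 [],
    .close [2] [26, 0], .use (.N false 1 []), .close [2] [27, 22, 13, 14], .clash 27 26,
    .clash 27 25, .use (.W false 1 3 0 []), .clash 27 28, .use (.W false 1 3 1 []), .clash 27 29,
    .use (.FY true 3 [14]), .close [7, 14] [30, 13, 4, 5, 28], .close [7, 14] [30, 0, 8, 28],
    .close [7, 14] [30, 29, 22, 17, 28], .lem 48 [], .close [2] [31, 0], .lem 49 [],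
    .close [2] [32, 0], .use (.N false 1 [7, 0]), .close [2, 7, 0] [33, 23, 19, 21], .clash 33 32,
    .clash 33 31, .use (.W false 1 3 1 [7, 0]), .clash 33 34, .lem 55 [], .close [2] [35, 0],
    .lem 57 [], .close [2] [36, 0], .lem 71 [], .close [2] [37, 0], .use (.G false 1 [22, 1, 14]),
    .close [19, 22, 1, 14] [38, 37], .use (.G false 0 [22, 1, 14]),
    .close [17, 22, 1, 14] [39, 13, 4, 5, 10, 9, 6, 4, 5, 34, 23, 19, 24, 36, 13, 4, 5, 24, 29, 22, 17, 30, 3, 38],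
    .close [17, 22, 1, 14] [39, 35, 10, 9, 6, 4, 5, 34, 23, 19, 24, 36, 13, 4, 5, 24, 29, 22, 17, 30, 3, 38],
    .close [13, 4, 19, 22, 1, 14] [37, 3], .close [10, 15, 2] [37, 10], .close [4, 15, 2] [37, 6],
    .close [15, 6, 15, 4, 7, 14] [37, 36], .close [10, 15, 0] [37, 4],
    .close [0, 3, 4, 15, 0] [37, 5], .close [12, 15, 4, 15, 2] [37, 9], .close [2, 15, 2] [37, 7],
    .close [4, 15, 2] [37, 8], .close [15, 6, 15, 4, 7, 14] [37, 36],
    .close [15, 6, 15, 4, 7, 14] [36, 1], .close [15, 6, 15, 4, 7, 14] [36, 2],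
    .close [4, 7, 0] [21, 20], .close [7, 4, 7, 0] [20, 18], .close [7, 4, 7, 0] [19, 18],
    .close [4, 3, 4] [17, 16], .close [4] [15, 0], .close [4] [14, 12], .close [2] [13, 12, 0],
    .close [2] [11, 0]])

/-- A lemma and its proof. -/
def c1113_73 : List Lit × List (Cmd Rule) :=
  ([.ord true [2] [4], .ord true [9, 14] [17, 22, 1, 14], .ord false [6, 15, 4, 7, 14] [10, 15, 6, 15, 4, 7, 14], .ord true [10, 15, 0] [0], .ord true [10, 15, 2] [2], .ord true [13, 4, 19, 22, 1, 14] [21, 22, 1, 14], .ord true [11, 2, 17, 22, 1, 14] [19, 22, 1, 14], .ord true [0, 3, 4, 15, 0] [10, 15, 0], .ord true [12, 15, 4, 15, 2] [4, 15, 2], .ord false [4, 15, 2] [6, 15, 4, 15, 2], .ord false [2, 15, 2] [4, 15, 2], .ord false [4, 15, 2] [2]], [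
    .lem 40 [], .lem 42 [], .close [0] [13, 12], .lem 38 [], .lem 43 [], .lem 40 [3, 4],
    .lem 42 [3, 4], .close [0, 3, 4] [17, 16], .lem 43 [3, 4],
    .use (.W false 1 3 1 [15, 6, 15, 4, 7, 14]), .lem 42 [7, 0], .close [0, 7, 0] [20, 12],
    .lem 10 [4, 7, 0], .lem 45 [4, 7, 0], .lem 38 [3, 4, 7, 0], .use (.F false 1 [4]),
    .close [1, 4] [24, 18], .close [] [24, 0], .close [7, 4] [24, 0, 13],
    .use (.F false 1 [4, 7, 0]), .close [1, 4, 7, 0] [25, 21], .close [7, 0] [25, 23],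
    .close [7, 4, 7, 0] [25, 22], .use (.F true 3 [0]), .close [7, 0] [26, 12],
    .close [7, 0] [26, 15, 12], .close [7, 0] [26, 20], .lem 46 [], .close [2] [27, 0], .lem 47 [],
    .close [2] [28, 0], .use (.N false 1 []), .close [2] [29, 24, 14, 15], .clash 29 28,
    .clash 29 27, .use (.W false 1 3 0 []), .clash 29 30, .use (.W false 1 3 1 []), .clash 29 31,
    .use (.FY true 3 [14]), .close [7, 14] [32, 14, 3, 7, 30], .close [7, 14] [32, 0, 11, 30],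
    .close [7, 14] [32, 31, 24, 18, 30], .lem 48 [], .close [2] [33, 0], .lem 49 [],
    .close [2] [34, 0], .use (.N false 1 [7, 0]), .close [2, 7, 0] [35, 25, 21, 23], .clash 35 34,
    .clash 35 33, .use (.W false 1 3 1 [7, 0]), .clash 35 36, .lem 55 [], .close [2] [37, 0],
    .lem 10 [4, 15, 6, 15, 4, 7, 14], .lem 38 [15, 6, 15, 4, 7, 14],
    .use (.F false 1 [4, 15, 6, 15, 4, 7, 14]), .close [1, 4, 15, 6, 15, 4, 7, 14] [40, 38],
    .close [15, 6, 15, 4, 7, 14] [40, 39],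
    .close [7, 4, 15, 6, 15, 4, 7, 14] [40, 14, 3, 7, 26, 14, 3, 7, 23, 15, 3, 7, 26, 32, 5, 6, 1, 37, 4, 8, 9, 3, 7, 36, 25, 21, 26, 32, 5, 6, 1, 37, 4, 8, 3, 7, 36, 25, 21, 26],
    .lem 56 [], .close [2] [41, 0], .use (.N false 1 [15, 6, 15, 4, 7, 14]),
    .close [2, 15, 6, 15, 4, 7, 14] [42, 2, 14, 3, 7, 26, 32, 5, 6, 1, 37, 4, 8, 9, 32, 5, 6, 1, 37, 4, 8, 9, 3, 7, 36, 25, 21, 26],
    .clash 42 41, .use (.W false 1 2 0 [15, 6, 15, 4, 7, 14]), .clash 42 43,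
    .use (.W false 1 2 1 [15, 6, 15, 4, 7, 14]), .clash 42 44,
    .close [12, 15, 6, 15, 4, 7, 14] [44, 2, 14, 3, 7, 26, 32, 5, 6, 1, 37, 4, 8, 9, 3, 7, 26, 32, 5, 6, 1, 37, 4, 8, 9, 3, 7, 36, 25, 21, 26, 32, 5, 6, 1, 37, 4, 8, 3, 7, 36, 25, 21, 26, 43],
    .clash 42 19, .close [11, 0, 3, 4, 15, 6, 15, 4, 7, 14] [41, 40],
    .close [15, 6, 15, 4, 7, 14] [41, 39],
    .close [2, 15, 6, 15, 4, 7, 14] [39, 14, 3, 7, 26, 0, 11, 32, 5, 6, 1, 37, 4, 8, 9, 3, 7, 36, 25, 21, 26],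
    .close [7, 4, 15, 6, 15, 4, 7, 14] [38, 14, 3, 7, 26, 31, 24, 18, 32, 5, 6, 1, 37, 4, 8, 9, 3, 7, 36, 25, 21, 26],
    .close [4, 7, 0] [23, 22], .close [7, 4, 7, 0] [22, 20], .close [7, 4, 7, 0] [21, 20],
    .close [6, 15, 4, 7, 14] [19, 2], .close [4, 3, 4] [18, 17], .close [4] [16, 0],
    .close [4] [15, 13], .close [2] [14, 13, 0], .close [2] [12, 0]])

/-- A lemma and its proof. -/
def c1113_74 : List Lit × List (Cmd Rule) :=
  ([.ord true [2] [4], .ord false [6, 15, 4, 7, 14] [10, 15, 6, 15, 4, 7, 14], .ord true [11, 2, 17, 22, 1, 14] [19, 22, 1, 14], .ord true [10, 15, 0] [0], .ord true [0, 3, 4, 15, 0] [10, 15, 0], .ord false [4, 15, 2] [6, 15, 4, 15, 2], .ord false [2, 15, 2] [4, 15, 2], .ord false [4, 15, 2] [2], .ord true [12, 15, 4, 15, 2] [4, 15, 2], .ord true [10, 15, 2] [2], .ord true [13, 4, 19, 22, 1, 14] [21, 22, 1, 14]], [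
    .lem 40 [], .lem 42 [], .close [0] [12, 11], .lem 38 [], .lem 43 [], .lem 40 [3, 4],
    .lem 42 [3, 4], .close [0, 3, 4] [16, 15], .lem 43 [3, 4],
    .use (.W false 1 3 1 [15, 6, 15, 4, 7, 14]), .lem 42 [7, 0], .close [0, 7, 0] [19, 11],
    .lem 10 [4, 7, 0], .lem 45 [4, 7, 0], .lem 38 [3, 4, 7, 0], .use (.F false 1 [4]),
    .close [1, 4] [23, 17], .close [] [23, 0], .close [7, 4] [23, 0, 12],
    .use (.F false 1 [4, 7, 0]), .close [1, 4, 7, 0] [24, 20], .close [7, 0] [24, 22],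
    .close [7, 4, 7, 0] [24, 21], .use (.F true 3 [0]), .close [7, 0] [25, 11],
    .close [7, 0] [25, 14, 11], .close [7, 0] [25, 19], .lem 46 [], .close [2] [26, 0], .lem 47 [],
    .close [2] [27, 0], .use (.N false 1 []), .close [2] [28, 23, 13, 14], .clash 28 27,
    .clash 28 26, .use (.W false 1 3 0 []), .clash 28 29, .use (.W false 1 3 1 []), .clash 28 30,
    .use (.FY true 3 [14]), .close [7, 14] [31, 13, 3, 4, 29], .close [7, 14] [31, 0, 7, 29],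
    .close [7, 14] [31, 30, 23, 17, 29], .lem 48 [], .close [2] [32, 0], .lem 49 [],
    .close [2] [33, 0], .use (.N false 1 [7, 0]), .close [2, 7, 0] [34, 24, 20, 22], .clash 34 33,
    .clash 34 32, .use (.W false 1 3 1 [7, 0]), .clash 34 35, .lem 73 [], .close [2] [36, 0],
    .use (.G false 0 [22, 1, 14]), .lem 10 [4, 15, 6, 15, 4, 7, 14], .lem 38 [15, 6, 15, 4, 7, 14],
    .use (.F false 1 [4, 15, 6, 15, 4, 7, 14]), .close [1, 4, 15, 6, 15, 4, 7, 14] [40, 38],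
    .close [15, 6, 15, 4, 7, 14] [40, 39],
    .close [7, 4, 15, 6, 15, 4, 7, 14] [40, 13, 3, 4, 25, 13, 3, 4, 22, 14, 3, 4, 25, 31, 10, 2, 37, 13, 3, 4, 9, 8, 5, 3, 4, 35, 24, 20, 25, 31, 10, 2, 37, 13, 3, 4, 9, 8, 3, 4, 35, 24, 20, 25],
    .lem 56 [], .close [2] [41, 0], .use (.N false 1 [15, 6, 15, 4, 7, 14]),
    .close [2, 15, 6, 15, 4, 7, 14] [42, 1, 13, 3, 4, 25, 31, 10, 2, 37, 13, 3, 4, 9, 8, 5, 31, 10, 2, 37, 13, 3, 4, 9, 8, 5, 3, 4, 35, 24, 20, 25],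
    .clash 42 41, .use (.W false 1 2 0 [15, 6, 15, 4, 7, 14]), .clash 42 43,
    .use (.W false 1 2 1 [15, 6, 15, 4, 7, 14]), .clash 42 44,
    .close [12, 15, 6, 15, 4, 7, 14] [44, 1, 13, 3, 4, 25, 31, 10, 2, 37, 13, 3, 4, 9, 8, 5, 3, 4, 25, 31, 10, 2, 37, 13, 3, 4, 9, 8, 5, 3, 4, 35, 24, 20, 25, 31, 10, 2, 37, 13, 3, 4, 9, 8, 3, 4, 35, 24, 20, 25, 43],
    .clash 42 18, .close [11, 0, 3, 4, 15, 6, 15, 4, 7, 14] [41, 40],
    .close [15, 6, 15, 4, 7, 14] [41, 39],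
    .close [2, 15, 6, 15, 4, 7, 14] [39, 13, 3, 4, 25, 0, 7, 31, 10, 2, 37, 13, 3, 4, 9, 8, 5, 3, 4, 35, 24, 20, 25],
    .close [7, 4, 15, 6, 15, 4, 7, 14] [38, 13, 3, 4, 25, 30, 23, 17, 31, 10, 2, 37, 13, 3, 4, 9, 8, 5, 3, 4, 35, 24, 20, 25],
    .close [17, 22, 1, 14] [37, 36], .close [6, 15, 4, 7, 14] [36, 1], .close [10, 15, 0] [36, 3],
    .close [10, 15, 2] [36, 9], .close [13, 4, 19, 22, 1, 14] [36, 10],
    .close [11, 2, 17, 22, 1, 14] [36, 2], .close [0, 3, 4, 15, 0] [36, 4],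
    .close [12, 15, 4, 15, 2] [36, 8], .close [4, 15, 2] [36, 5], .close [2, 15, 2] [36, 6],
    .close [4, 15, 2] [36, 7], .close [4, 7, 0] [22, 21], .close [7, 4, 7, 0] [21, 19],
    .close [7, 4, 7, 0] [20, 19], .close [6, 15, 4, 7, 14] [18, 1], .close [4, 3, 4] [17, 16],
    .close [4] [15, 0], .close [4] [14, 12], .close [2] [13, 12, 0], .close [2] [11, 0]])

/-- A lemma and its proof. -/
def c1113_75 : List Lit × List (Cmd Rule) :=
  ([.ord true [2] [4], .ord true [11, 2, 17, 22, 1, 14] [19, 22, 1, 14], .ord false [4, 15, 2] [6, 15, 4, 15, 2], .ord false [2, 15, 2] [4, 15, 2], .ord false [4, 15, 2] [2], .ord true [10, 15, 0] [0], .ord true [13, 4, 19, 22, 1, 14] [21, 22, 1, 14], .ord true [0, 3, 4, 15, 0] [10, 15, 0], .ord true [12, 15, 4, 15, 2] [4, 15, 2], .ord true [7, 4, 15, 2] [3, 4, 15, 2], .ord false [4, 15, 0] [0, 3, 4, 15, 0]], [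
    .lem 40 [], .lem 42 [], .close [0] [12, 11], .lem 38 [], .lem 43 [], .lem 40 [3, 4],
    .lem 42 [3, 4], .close [0, 3, 4] [16, 15], .lem 43 [3, 4], .lem 42 [7, 0],
    .close [0, 7, 0] [18, 11], .lem 10 [4, 7, 0], .lem 45 [4, 7, 0], .lem 38 [3, 4, 7, 0],
    .use (.F false 1 [4]), .close [1, 4] [22, 17], .close [] [22, 0], .close [7, 4] [22, 0, 12],
    .use (.F false 1 [4, 7, 0]), .close [1, 4, 7, 0] [23, 19], .close [7, 0] [23, 21],
    .close [7, 4, 7, 0] [23, 20], .use (.F true 3 [0]), .close [7, 0] [24, 11],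
    .close [7, 0] [24, 14, 11], .close [7, 0] [24, 18], .lem 46 [], .close [2] [25, 0], .lem 47 [],
    .close [2] [26, 0], .use (.N false 1 []), .close [2] [27, 22, 13, 14], .clash 27 26,
    .clash 27 25, .use (.W false 1 3 0 []), .clash 27 28, .use (.W false 1 3 1 []), .clash 27 29,
    .use (.FY true 3 [14]), .close [7, 14] [30, 13, 5, 7, 28], .close [7, 14] [30, 0, 4, 28],
    .close [7, 14] [30, 29, 22, 17, 28], .lem 48 [], .close [2] [31, 0], .lem 49 [],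
    .close [2] [32, 0], .use (.N false 1 [7, 0]), .close [2, 7, 0] [33, 23, 19, 21], .clash 33 32,
    .clash 33 31, .use (.W false 1 3 1 [7, 0]), .clash 33 34, .lem 55 [], .close [2] [35, 0],
    .lem 54 [], .close [2] [36, 0], .lem 74 [], .close [2] [37, 0], .lem 70 [], .close [2] [38, 0],
    .close [10, 15, 6, 15, 4, 7, 14] [38, 37], .lem 38 [15, 6, 15, 4, 7, 14],
    .close [4, 15, 6, 15, 4, 7, 14] [39, 38], .use (.G false 0 [22, 1, 14]),
    .close [17, 22, 1, 14] [40, 13, 5, 7, 36, 8, 2, 5, 7, 34, 23, 19, 24, 39, 13, 5, 7, 24, 0, 4, 30, 6, 1],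
    .close [17, 22, 1, 14] [40, 35, 36, 8, 2, 5, 7, 34, 23, 19, 24, 39, 13, 5, 7, 24, 0, 4, 30, 6, 1],
    .close [0, 3, 4, 15, 0] [38, 7], .close [10, 15, 0] [38, 5],
    .close [7, 4, 15, 2] [38, 3, 4, 2], .close [2, 15, 2] [38, 3], .close [4, 15, 0] [38, 10],
    .close [11, 2, 17, 22, 1, 14] [37, 1], .close [10, 15, 0] [37, 5],
    .close [0, 3, 4, 15, 0] [37, 7], .close [4, 15, 2] [37, 2], .close [2, 15, 2] [37, 3],
    .close [4, 15, 2] [37, 4], .close [12, 15, 4, 15, 2] [37, 8], .close [10, 15, 2] [37, 36],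
    .close [13, 4, 19, 22, 1, 14] [37, 6], .close [2, 15, 2] [36, 3], .close [4, 15, 2] [36, 4],
    .close [7, 4, 15, 2] [36, 3, 4, 2], .close [4, 7, 0] [21, 20], .close [7, 4, 7, 0] [20, 18],
    .close [7, 4, 7, 0] [19, 18], .close [4, 3, 4] [17, 16], .close [4] [15, 0],
    .close [4] [14, 12], .close [2] [13, 12, 0], .close [2] [11, 0]])

/-- A lemma and its proof. -/
def c1113_76 : List Lit × List (Cmd Rule) :=
  ([.ord true [2] [4], .ord false [6, 15, 6, 15, 4, 7, 14] [2, 15, 6, 15, 4, 7, 14], .ord false [4, 15, 2] [6, 15, 4, 15, 2], .ord true [10, 15, 0] [0], .ord true [10, 15, 2] [2], .ord true [13, 4, 19, 22, 1, 14] [21, 22, 1, 14], .ord true [0, 3, 4, 15, 0] [10, 15, 0], .ord true [12, 15, 4, 15, 2] [4, 15, 2], .ord false [2, 15, 2] [4, 15, 2], .ord false [4, 15, 2] [2], .ord false [19, 22, 1, 14] [11, 2, 17, 22, 1, 14]], [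
    .lem 40 [], .lem 42 [], .close [0] [12, 11], .lem 38 [], .lem 43 [], .lem 40 [3, 4],
    .lem 42 [3, 4], .close [0, 3, 4] [16, 15], .lem 43 [3, 4], .lem 42 [7, 0],
    .close [0, 7, 0] [18, 11], .lem 10 [4, 7, 0], .lem 45 [4, 7, 0], .lem 38 [3, 4, 7, 0],
    .use (.G false 1 [22, 1, 14]), .use (.F false 1 [4]), .close [1, 4] [23, 17],
    .close [] [23, 0], .close [7, 4] [23, 0, 12], .use (.F false 1 [4, 7, 0]),
    .close [1, 4, 7, 0] [24, 19], .close [7, 0] [24, 21], .close [7, 4, 7, 0] [24, 20],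
    .use (.F true 3 [0]), .close [7, 0] [25, 11], .close [7, 0] [25, 14, 11],
    .close [7, 0] [25, 18], .lem 46 [], .close [2] [26, 0], .lem 47 [], .close [2] [27, 0],
    .use (.N false 1 []), .close [2] [28, 23, 13, 14], .clash 28 27, .clash 28 26,
    .use (.W false 1 3 0 []), .clash 28 29, .use (.W false 1 3 1 []), .clash 28 30,
    .use (.FY true 3 [14]), .close [7, 14] [31, 13, 3, 6, 29], .close [7, 14] [31, 0, 9, 29],
    .close [7, 14] [31, 30, 23, 17, 29], .lem 48 [], .close [2] [32, 0], .lem 49 [],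
    .close [2] [33, 0], .use (.N false 1 [7, 0]), .close [2, 7, 0] [34, 24, 19, 21], .clash 34 33,
    .clash 34 32, .use (.W false 1 3 1 [7, 0]), .clash 34 35, .use (.G false 0 [22, 1, 14]),
    .close [17, 22, 1, 14] [36, 0, 3, 6, 0, 9, 7, 2, 3, 6, 35, 24, 19, 25, 1, 13, 3, 6, 25, 0, 9, 31, 5, 22],
    .lem 55 [], .close [2] [37, 0],
    .close [14] [37, 0, 9, 7, 2, 3, 6, 35, 24, 19, 25, 1, 13, 3, 6, 25, 0, 9, 31, 5, 22, 36],
    .close [19, 22, 1, 14] [22, 10], .close [4, 7, 0] [21, 20], .close [7, 4, 7, 0] [20, 18],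
    .close [7, 4, 7, 0] [19, 18], .close [4, 3, 4] [17, 16], .close [4] [15, 0],
    .close [4] [14, 12], .close [2] [13, 12, 0], .close [2] [11, 0]])

/-- A lemma and its proof. -/
def c1113_77 : List Lit × List (Cmd Rule) :=
  ([.ord true [2] [4], .ord false [1, 14] [17, 22, 1, 14], .ord false [4, 15, 2] [6, 15, 4, 15, 2], .ord true [10, 15, 2] [2], .ord true [13, 4, 19, 22, 1, 14] [21, 22, 1, 14], .ord true [10, 15, 0] [0], .ord false [17, 22, 1, 14] [19, 22, 1, 14], .ord false [6, 15, 4, 7, 14] [10, 15, 6, 15, 4, 7, 14], .ord true [0, 3, 4, 15, 0] [10, 15, 0], .ord true [12, 15, 4, 15, 2] [4, 15, 2], .walk true false 1 0 [15, 6, 15, 4, 7, 14]], [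
    .lem 40 [], .lem 42 [], .close [0] [12, 11], .lem 38 [], .lem 43 [], .lem 40 [3, 4],
    .lem 42 [3, 4], .close [0, 3, 4] [16, 15], .lem 43 [3, 4],
    .use (.W false 1 3 1 [15, 6, 15, 4, 7, 14]), .lem 42 [7, 0], .close [0, 7, 0] [19, 11],
    .lem 10 [4, 7, 0], .lem 45 [4, 7, 0], .lem 38 [3, 4, 7, 0], .use (.F false 1 [4]),
    .close [1, 4] [23, 17], .close [] [23, 0], .close [7, 4] [23, 0, 12],
    .use (.F false 1 [4, 7, 0]), .close [1, 4, 7, 0] [24, 20], .close [7, 0] [24, 22],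
    .close [7, 4, 7, 0] [24, 21], .use (.F true 3 [0]), .close [7, 0] [25, 11],
    .close [7, 0] [25, 14, 11], .close [7, 0] [25, 19], .lem 46 [], .close [2] [26, 0], .lem 47 [],
    .close [2] [27, 0], .use (.N false 1 []), .close [2] [28, 23, 13, 14], .clash 28 27,
    .clash 28 26, .use (.W false 1 3 0 []), .clash 28 29, .use (.W false 1 3 1 []), .clash 28 30,
    .use (.FY true 3 [14]), .close [7, 14] [31, 13, 5, 8, 29],
    .close [7, 14] [31, 13, 5, 8, 14, 29], .close [7, 14] [31, 30, 23, 17, 29], .lem 48 [],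
    .close [2] [32, 0], .lem 49 [], .close [2] [33, 0], .use (.N false 1 [7, 0]),
    .close [2, 7, 0] [34, 24, 20, 22], .clash 34 33, .clash 34 32, .use (.W false 1 3 1 [7, 0]),
    .clash 34 35, .use (.N false 1 [15, 6, 15, 4, 7, 14]),
    .close [2, 15, 6, 15, 4, 7, 14] [36, 7, 13, 5, 8, 25, 31, 4, 6, 1, 0, 5, 8, 0, 5, 8, 14, 9, 2, 31, 4, 6, 1, 0, 5, 8, 0, 5, 8, 14, 9, 2, 5, 8, 35, 24, 20, 25],
    .clash 36 10, .use (.W false 1 2 0 [15, 6, 15, 4, 7, 14]), .clash 36 37,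
    .use (.W false 1 2 1 [15, 6, 15, 4, 7, 14]), .clash 36 38,
    .close [12, 15, 6, 15, 4, 7, 14] [38, 7, 13, 5, 8, 25, 31, 4, 6, 1, 0, 5, 8, 0, 5, 8, 14, 9, 2, 5, 8, 25, 31, 4, 6, 1, 0, 5, 8, 0, 5, 8, 14, 9, 2, 5, 8, 35, 24, 20, 25, 31, 4, 6, 1, 0, 5, 8, 0, 5, 8, 14, 9, 5, 8, 35, 24, 20, 25, 37],
    .clash 36 18, .close [4, 7, 0] [22, 21], .close [7, 4, 7, 0] [21, 19],
    .close [7, 4, 7, 0] [20, 19], .close [6, 15, 4, 7, 14] [18, 7], .close [4, 3, 4] [17, 16],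
    .close [4] [15, 0], .close [4] [14, 12], .close [2] [13, 12, 0], .close [2] [11, 0]])

/-- A lemma and its proof. -/
def c1113_78 : List Lit × List (Cmd Rule) :=
  ([.ord true [2] [4], .ord false [4, 15, 2] [6, 15, 4, 15, 2], .ord true [12, 15, 4, 15, 2] [4, 15, 2], .ord false [2, 15, 2] [4, 15, 2], .ord true [10, 15, 0] [0], .ord true [13, 4, 19, 22, 1, 14] [21, 22, 1, 14], .ord true [0, 3, 4, 15, 0] [10, 15, 0], .ord false [4, 15, 2] [2], .ord true [7, 4, 15, 2] [3, 4, 15, 2], .ord false [4, 15, 0] [0, 3, 4, 15, 0]], [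
    .lem 40 [], .lem 42 [], .close [0] [11, 10], .lem 38 [], .lem 43 [], .lem 40 [3, 4],
    .lem 42 [3, 4], .close [0, 3, 4] [15, 14], .lem 43 [3, 4], .lem 42 [7, 0],
    .close [0, 7, 0] [17, 10], .lem 10 [4, 7, 0], .lem 45 [4, 7, 0], .lem 38 [3, 4, 7, 0],
    .use (.F false 1 [4]), .close [1, 4] [21, 16], .close [] [21, 0], .close [7, 4] [21, 0, 11],
    .use (.F false 1 [4, 7, 0]), .close [1, 4, 7, 0] [22, 18], .close [7, 0] [22, 20],
    .close [7, 4, 7, 0] [22, 19], .use (.F true 3 [0]), .close [7, 0] [23, 10],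
    .close [7, 0] [23, 13, 10], .close [7, 0] [23, 17], .lem 46 [], .close [2] [24, 0], .lem 47 [],
    .close [2] [25, 0], .use (.N false 1 []), .close [2] [26, 21, 12, 13], .clash 26 25,
    .clash 26 24, .use (.W false 1 3 0 []), .clash 26 27, .use (.W false 1 3 1 []), .clash 26 28,
    .use (.FY true 3 [14]), .close [7, 14] [29, 12, 4, 6, 27], .close [7, 14] [29, 0, 7, 27],
    .close [7, 14] [29, 28, 21, 16, 27], .lem 48 [], .close [2] [30, 0], .lem 49 [],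
    .close [2] [31, 0], .use (.N false 1 [7, 0]), .close [2, 7, 0] [32, 22, 18, 20], .clash 32 31,
    .clash 32 30, .use (.W false 1 3 1 [7, 0]), .clash 32 33, .lem 54 [], .close [2] [34, 0],
    .lem 55 [], .close [2] [35, 0], .lem 75 [], .close [2] [36, 0], .use (.G false 1 [22, 1, 14]),
    .lem 76 [], .close [2] [38, 0], .lem 38 [15, 6, 15, 4, 7, 14], .lem 70 [], .close [2] [40, 0],
    .use (.W false 1 3 1 [15, 6, 15, 4, 7, 14]), .lem 72 [], .close [2] [42, 0], .lem 56 [],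
    .close [2] [43, 0], .lem 77 [], .close [2] [44, 0], .use (.G false 0 [22, 1, 14]),
    .close [17, 22, 1, 14] [45, 44], .use (.N false 1 [15, 6, 15, 4, 7, 14]),
    .close [2, 15, 6, 15, 4, 7, 14] [46, 40, 12, 4, 6, 23, 29, 5, 37, 45, 35, 0, 7, 2, 1, 29, 5, 37, 45, 35, 0, 7, 2, 1, 4, 6, 33, 22, 18, 23],
    .clash 46 43, .use (.W false 1 2 0 [15, 6, 15, 4, 7, 14]), .clash 46 47,
    .use (.W false 1 2 1 [15, 6, 15, 4, 7, 14]), .clash 46 48,
    .close [12, 15, 6, 15, 4, 7, 14] [48, 40, 12, 4, 6, 23, 29, 5, 37, 45, 35, 0, 7, 2, 1, 4, 6, 23, 29, 5, 37, 45, 35, 0, 7, 2, 1, 4, 6, 33, 22, 18, 23, 29, 5, 37, 45, 35, 0, 7, 2, 4, 6, 33, 22, 18, 23, 47],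
    .clash 46 41, .close [4, 15, 2] [44, 1], .close [10, 15, 2] [44, 34],
    .close [13, 4, 19, 22, 1, 14] [44, 5], .close [10, 15, 0] [44, 4],
    .close [17, 22, 1, 14] [44, 37], .close [6, 15, 4, 7, 14] [44, 40],
    .close [0, 3, 4, 15, 0] [44, 6], .close [12, 15, 4, 15, 2] [44, 2], .clash 44 43,
    .close [11, 0, 3, 4, 15, 6, 15, 4, 7, 14] [43, 42], .close [15, 6, 15, 4, 7, 14] [43, 39],
    .close [15, 6, 15, 4, 7, 14] [42, 39], .close [13, 4, 19, 22, 1, 14] [42, 5],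
    .close [10, 15, 0] [42, 4], .close [0, 3, 4, 15, 0] [42, 6], .close [4, 15, 2] [42, 1],
    .close [2, 15, 2] [42, 3], .close [4, 15, 2] [42, 7], .close [12, 15, 4, 15, 2] [42, 2],
    .close [10, 15, 2] [42, 34], .close [6, 15, 4, 7, 14] [41, 40],
    .close [15, 6, 15, 4, 7, 14] [40, 39], .close [0, 3, 4, 15, 0] [40, 6],
    .close [10, 15, 0] [40, 4], .close [7, 4, 15, 2] [40, 3, 7, 1], .close [2, 15, 2] [40, 3],
    .close [4, 15, 0] [40, 9], .close [2, 15, 6, 15, 4, 7, 14] [39, 38], .close [4, 15, 2] [38, 1],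
    .close [10, 15, 0] [38, 4], .close [10, 15, 2] [38, 34], .close [13, 4, 19, 22, 1, 14] [38, 5],
    .close [0, 3, 4, 15, 0] [38, 6], .close [12, 15, 4, 15, 2] [38, 2], .close [2, 15, 2] [38, 3],
    .close [4, 15, 2] [38, 7], .close [19, 22, 1, 14] [38, 36], .close [19, 22, 1, 14] [37, 36],
    .close [4, 15, 2] [36, 1], .close [2, 15, 2] [36, 3], .close [4, 15, 2] [36, 7],
    .close [10, 15, 0] [36, 4], .close [13, 4, 19, 22, 1, 14] [36, 5],
    .close [0, 3, 4, 15, 0] [36, 6], .close [12, 15, 4, 15, 2] [36, 2],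
    .close [7, 4, 15, 2] [36, 3, 7, 1], .close [4, 15, 0] [36, 9], .close [2, 15, 2] [34, 3],
    .close [4, 15, 2] [34, 7], .close [7, 4, 15, 2] [34, 3, 7, 1], .close [4, 7, 0] [20, 19],
    .close [7, 4, 7, 0] [19, 17], .close [7, 4, 7, 0] [18, 17], .close [4, 3, 4] [16, 15],
    .close [4] [14, 0], .close [4] [13, 11], .close [2] [12, 11, 0], .close [2] [10, 0]])

/-- A lemma and its proof. -/
def c1113_79 : List Lit × List (Cmd Rule) :=
  ([.ord true [2] [4], .ord true [6, 15, 4, 15, 2] [4, 15, 2], .ord true [10, 15, 0] [0], .ord true [0, 3, 4, 15, 0] [10, 15, 0], .ord true [7, 4, 15, 2] [3, 4, 15, 2], .ord false [2, 15, 2] [4, 15, 2], .ord false [4, 15, 0] [0, 3, 4, 15, 0], .ord false [15, 0] [3, 4, 15, 0], .ord true [2, 15, 4, 15, 2] [4, 15, 2]], [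
    .lem 40 [], .lem 42 [], .close [0] [10, 9], .lem 43 [], .lem 42 [7, 0],
    .close [0, 7, 0] [12, 9], .lem 10 [4, 7, 0], .lem 45 [4, 7, 0], .lem 38 [3, 4, 7, 0],
    .use (.F false 1 [4, 7, 0]), .close [1, 4, 7, 0] [16, 13], .close [7, 0] [16, 15],
    .close [7, 4, 7, 0] [16, 14], .use (.F true 3 [0]), .close [7, 0] [17, 9],
    .close [7, 0] [17, 11, 9], .close [7, 0] [17, 12], .lem 48 [], .close [2] [18, 0], .lem 49 [],
    .close [2] [19, 0], .use (.N false 1 [7, 0]), .close [2, 7, 0] [20, 16, 13, 15], .clash 20 19,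
    .clash 20 18, .use (.W false 1 3 1 [7, 0]), .clash 20 21, .lem 10 [4, 15, 6, 15, 4, 7, 14],
    .lem 38 [15, 6, 15, 4, 7, 14], .use (.F false 1 [4, 15, 6, 15, 4, 7, 14]),
    .close [1, 4, 15, 6, 15, 4, 7, 14] [24, 22], .close [15, 6, 15, 4, 7, 14] [24, 23],
    .close [7, 4, 15, 6, 15, 4, 7, 14] [24, 2, 3, 7, 17, 2, 3, 7, 15, 2, 3, 6, 17, 2, 3, 7, 2, 3, 6, 11, 1, 1, 2, 3, 21, 16, 13, 17],
    .lem 56 [], .close [2] [25, 0], .lem 70 [], .close [2] [26, 0],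
    .use (.W false 1 3 1 [15, 6, 15, 4, 7, 14]), .use (.N false 1 [15, 6, 15, 4, 7, 14]),
    .close [2, 15, 6, 15, 4, 7, 14] [28, 26, 2, 3, 7, 17, 2, 3, 7, 17, 2, 3, 7, 2, 3, 6, 11, 1, 1, 2, 3, 7, 17, 2, 3, 7, 2, 3, 6, 11, 1, 1, 2, 3, 21, 16, 13, 17],
    .clash 28 25, .use (.W false 1 2 0 [15, 6, 15, 4, 7, 14]), .clash 28 29,
    .use (.W false 1 2 1 [15, 6, 15, 4, 7, 14]), .clash 28 30,
    .close [12, 15, 6, 15, 4, 7, 14] [30, 26, 2, 3, 7, 17, 2, 3, 7, 17, 2, 3, 7, 2, 3, 6, 11, 1, 1, 2, 3, 17, 2, 3, 7, 2, 3, 6, 11, 1, 1, 2, 3, 21, 16, 13, 17, 29],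
    .clash 28 27, .close [6, 15, 4, 7, 14] [27, 26], .close [15, 6, 15, 4, 7, 14] [26, 23],
    .close [0, 3, 4, 15, 0] [26, 3], .close [10, 15, 0] [26, 2], .close [7, 4, 15, 2] [26, 4],
    .close [2, 15, 2] [26, 5], .close [4, 15, 0] [26, 6],
    .close [11, 0, 3, 4, 15, 6, 15, 4, 7, 14] [25, 24], .close [15, 6, 15, 4, 7, 14] [25, 23],
    .close [2, 15, 6, 15, 4, 7, 14] [23, 2, 3, 7, 17, 0, 2, 3, 2, 3, 6, 7, 17, 2, 3, 7, 2, 3, 6, 11, 1, 1, 2, 3, 21, 16, 13, 17],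
    .close [7, 4, 15, 6, 15, 4, 7, 14] [22, 2, 3, 7, 17, 0, 2, 3, 2, 3, 6, 17, 2, 3, 7, 2, 3, 6, 11, 1, 1, 2, 3, 21, 16, 13, 17],
    .close [4, 7, 0] [15, 14], .close [7, 4, 7, 0] [14, 12], .close [7, 4, 7, 0] [13, 12],
    .close [4] [11, 10], .close [2] [9, 0]])

/-- A lemma and its proof. -/
def c1113_80 : List Lit × List (Cmd Rule) :=
  ([.ord true [2] [4], .ord true [10, 15, 0] [0], .ord true [0, 3, 4, 15, 0] [10, 15, 0]], [
    .lem 40 [], .lem 42 [], .close [0] [4, 3], .lem 38 [], .lem 43 [], .lem 40 [3, 4],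
    .lem 42 [3, 4], .close [0, 3, 4] [8, 7], .lem 43 [3, 4], .lem 42 [7, 0],
    .close [0, 7, 0] [10, 3], .lem 10 [4, 7, 0], .lem 45 [4, 7, 0], .lem 38 [3, 4, 7, 0],
    .use (.F false 1 [4]), .close [1, 4] [14, 9], .close [] [14, 0], .close [7, 4] [14, 0, 4],
    .use (.F false 1 [4, 7, 0]), .close [1, 4, 7, 0] [15, 11], .close [7, 0] [15, 13],
    .close [7, 4, 7, 0] [15, 12], .use (.F true 3 [0]), .close [7, 0] [16, 3],
    .close [7, 0] [16, 6, 3], .close [7, 0] [16, 10], .lem 46 [], .close [2] [17, 0], .lem 47 [],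
    .close [2] [18, 0], .use (.N false 1 []), .close [2] [19, 14, 5, 6], .clash 19 18,
    .clash 19 17, .use (.W false 1 3 0 []), .clash 19 20, .use (.W false 1 3 1 []), .clash 19 21,
    .use (.FY true 3 [14]), .close [7, 14] [22, 5, 1, 2, 20], .close [7, 14] [22, 5, 1, 2, 6, 20],
    .close [7, 14] [22, 21, 14, 9, 20], .lem 48 [], .close [2] [23, 0], .lem 49 [],
    .close [2] [24, 0], .use (.N false 1 [7, 0]), .close [2, 7, 0] [25, 15, 11, 13], .clash 25 24,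
    .clash 25 23, .use (.W false 1 3 0 [7, 0]), .clash 25 26, .use (.W false 1 3 1 [7, 0]),
    .clash 25 27, .lem 38 [15, 0], .lem 43 [3, 4, 15, 0], .lem 55 [], .close [2] [30, 0],
    .lem 61 [], .close [2] [31, 0], .close [2] [31, 5], .close [10, 15, 0] [31, 1],
    .close [2] [31, 14, 5, 6], .close [] [31, 16], .close [4, 7, 0] [31, 11], .lem 38 [15, 2],
    .lem 54 [], .close [2] [33, 0], .lem 79 [], .close [2] [34, 0], .lem 38 [15, 4, 15, 2],
    .lem 59 [], .close [2] [36, 0], .close [7, 4, 15, 2] [36, 34], .lem 58 [], .close [2] [37, 0],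
    .lem 78 [], .close [2] [38, 0], .close [4, 15, 2] [38, 34], .close [12, 15, 4, 15, 2] [38, 37],
    .close [2, 15, 2] [38, 32], .close [10, 15, 0] [38, 1], .use (.G false 2 [22, 1, 14]),
    .lem 66 [], .close [2] [40, 0], .close [19, 22, 1, 14] [40, 39], .use (.G false 0 [22, 1, 14]),
    .close [17, 22, 1, 14] [41, 40], .use (.G false 1 [22, 1, 14]),
    .close [19, 22, 1, 14] [42, 41, 30, 4, 20, 22, 39],
    .close [19, 22, 1, 14] [42, 41, 30, 33, 31, 1, 2, 27, 15, 11, 16, 22, 39],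
    .close [2, 15, 2] [40, 32], .close [7, 4, 15, 2] [40, 32, 31, 1, 2, 6],
    .close [10, 15, 0] [40, 1], .close [4, 15, 2] [40, 1, 2, 6], .close [0, 3, 4, 15, 0] [40, 2],
    .close [10, 15, 2] [40, 33], .close [21, 22, 1, 14] [39, 38], .close [0, 3, 4, 15, 0] [38, 2],
    .close [4, 15, 2] [38, 1, 2, 6], .close [7, 4, 15, 2] [38, 32, 31, 1, 2, 6],
    .close [4, 15, 0] [38, 29], .close [15, 4, 15, 2] [37, 35], .close [15, 4, 15, 2] [37, 36],
    .close [4, 15, 2] [37, 1, 2, 6], .close [4, 15, 2] [36, 1, 2, 6],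
    .close [2, 15, 4, 15, 2] [36, 32, 1, 2, 6], .close [15, 4, 15, 2] [36, 32, 1, 2, 6],
    .close [2, 15, 4, 15, 2] [35, 34, 32, 1, 2, 6], .close [10, 15, 0] [34, 1],
    .close [0, 3, 4, 15, 0] [34, 2], .close [7, 4, 15, 2] [34, 32, 31, 1, 2, 6],
    .close [2, 15, 2] [34, 32], .close [4, 15, 0] [34, 29], .close [15, 0] [34, 28],
    .close [2, 15, 4, 15, 2] [34, 32, 1, 2, 6], .close [2, 15, 2] [33, 32],
    .close [4, 15, 2] [33, 1, 2, 6], .close [7, 4, 15, 2] [33, 32, 31, 1, 2, 6],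
    .close [2, 15, 2] [32, 31, 5, 1, 2, 6], .close [10, 7, 0] [31, 27], .close [0, 3, 4] [31, 14],
    .close [10] [31, 21], .close [0, 3, 4, 15, 0] [31, 2], .close [11, 0, 3, 4, 7, 0] [31, 15],
    .close [4, 3, 4, 15, 0] [29, 28, 27, 15, 11, 16, 21, 14, 9, 1, 2],
    .close [2, 15, 0] [28, 26, 6, 5, 1, 2], .close [4, 7, 0] [13, 12],
    .close [7, 4, 7, 0] [12, 10], .close [7, 4, 7, 0] [11, 10], .close [4, 3, 4] [9, 8],
    .close [4] [7, 0], .close [4] [6, 4], .close [2] [5, 4, 0], .close [2] [3, 0]])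

/-- A lemma and its proof. -/
def c1113_81 : List Lit × List (Cmd Rule) :=
  ([.ord true [2] [4]], [
    .lem 40 [], .lem 42 [], .close [0] [2, 1], .lem 38 [], .lem 43 [], .lem 40 [3, 4],
    .lem 42 [3, 4], .close [0, 3, 4] [6, 5], .lem 43 [3, 4], .lem 42 [7, 0],
    .close [0, 7, 0] [8, 1], .lem 10 [4, 7, 0], .lem 45 [4, 7, 0], .lem 38 [3, 4, 7, 0],
    .use (.F false 1 [4]), .close [1, 4] [12, 7], .close [] [12, 0], .close [7, 4] [12, 0, 2],
    .use (.F false 1 [4, 7, 0]), .close [1, 4, 7, 0] [13, 9], .close [7, 0] [13, 11],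
    .close [7, 4, 7, 0] [13, 10], .use (.F true 3 [0]), .close [7, 0] [14, 1],
    .close [7, 0] [14, 4, 1], .close [7, 0] [14, 8], .lem 46 [], .close [2] [15, 0], .lem 47 [],
    .close [2] [16, 0], .use (.N false 1 []), .close [2] [17, 12, 3, 4], .clash 17 16,
    .clash 17 15, .use (.W false 1 3 1 []), .clash 17 18, .lem 48 [], .close [2] [19, 0],
    .lem 49 [], .close [2] [20, 0], .use (.N false 1 [7, 0]), .close [2, 7, 0] [21, 13, 9, 11],
    .clash 21 20, .clash 21 19, .use (.W false 1 3 0 [7, 0]), .clash 21 22,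
    .use (.W false 1 3 1 [7, 0]), .clash 21 23, .lem 38 [15, 0], .lem 42 [3, 4, 15, 0],
    .close [0, 3, 4, 15, 0] [25, 24, 23, 13, 9, 14, 18, 12, 18, 12, 3], .lem 43 [3, 4, 15, 0],
    .use (.F false 1 [4, 15, 0]), .close [1, 4, 15, 0] [27, 26], .close [15, 0] [27, 24],
    .close [7, 4, 15, 0] [27, 24, 23, 13, 9, 14, 18, 12, 7, 18, 12, 3], .lem 80 [],
    .close [2] [28, 0], .use (.W false 1 3 1 [15, 0]), .lem 50 [], .close [2] [30, 0],
    .use (.N false 1 [15, 0]), .close [2, 15, 0] [31, 27, 26, 24], .use (.W false 1 0 0 [15, 0]),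
    .clash 31 32, .use (.W false 1 0 1 [15, 0]), .clash 31 33, .close [8, 15, 0] [33, 27, 24, 32],
    .clash 31 30, .clash 31 29, .close [4, 15, 0] [30, 26], .close [0, 3, 4, 15, 0] [30, 27],
    .close [0] [29, 28], .close [0, 3, 4, 15, 0] [28, 27], .close [4, 3, 4, 15, 0] [26, 25],
    .close [2, 15, 0] [24, 22, 4, 18, 12, 3], .close [4, 7, 0] [11, 10],
    .close [7, 4, 7, 0] [10, 8], .close [7, 4, 7, 0] [9, 8], .close [4, 3, 4] [7, 6],
    .close [4] [5, 0], .close [4] [4, 2], .close [2] [3, 2, 0], .close [2] [1, 0]])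

/-- A lemma and its proof. -/
def c1113_82 : List Lit × List (Cmd Rule) :=
  ([.ord true [6] [4], .walk false true 1 2 [15, 0], .ord false [0, 3, 4, 15, 0] [4, 15, 0], .ord true [10, 15, 0] [0, 3, 4, 15, 0]], [
    .use (.W true 1 2 0 [15, 0]), .clash 1 4, .use (.W true 1 2 1 [15, 0]), .clash 1 5,
    .close [10, 15, 0] [5, 4, 2, 3]])

/-- A lemma and its proof. -/
def c1113_83 : List Lit × List (Cmd Rule) :=
  ([.ord true [6] [4], .walk false true 1 0 [15, 0], .ord true [10, 15, 0] [0, 3, 4, 15, 0]], [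
    .lem 81 [15, 0], .use (.W true 1 0 0 [15, 0]), .clash 1 4, .use (.W true 1 0 1 [15, 0]),
    .clash 1 5, .close [10, 15, 0] [5, 4, 3, 2]])

/-- A lemma and its proof. -/
def c1113_84 : List Lit × List (Cmd Rule) :=
  ([.ord true [6] [4], .walk false true 1 2 [7, 0]], [
    .lem 81 [7, 0], .lem 38 [7, 0], .close [4, 7, 0] [3, 2], .lem 45 [0], .close [3, 0] [4, 3],
    .use (.W true 1 2 0 [7, 0]), .clash 1 5, .use (.W true 1 2 1 [7, 0]), .clash 1 6,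
    .lem 37 [3, 4, 7, 0], .close [6, 3, 4, 7, 0] [7, 4, 2], .lem 33 [3, 4, 7, 0],
    .use (.F true 1 [4, 7, 0]), .close [3, 4, 7, 0] [9, 8], .close [3, 4, 7, 0] [9, 2],
    .close [3, 4, 7, 0] [9, 4, 2], .close [11, 0, 3, 4, 7, 0] [9, 6, 5, 8],
    .close [6, 3, 4, 7, 0] [8, 7]])

/-- A lemma and its proof. -/
def c1113_85 : List Lit × List (Cmd Rule) :=
  ([.ord true [6] [4], .walk false true 1 0 [7, 0]], [
    .lem 81 [7, 0], .lem 38 [7, 0], .close [4, 7, 0] [3, 2], .lem 45 [0], .close [3, 0] [4, 3],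
    .use (.W true 1 0 0 [7, 0]), .clash 1 5, .use (.W true 1 0 1 [7, 0]), .clash 1 6,
    .lem 37 [3, 4, 7, 0], .close [6, 3, 4, 7, 0] [7, 4, 2], .lem 33 [3, 4, 7, 0],
    .use (.F true 1 [4, 7, 0]), .close [3, 4, 7, 0] [9, 8], .close [3, 4, 7, 0] [9, 2],
    .close [3, 4, 7, 0] [9, 4, 2], .close [11, 0, 3, 4, 7, 0] [9, 6, 5, 2],
    .close [6, 3, 4, 7, 0] [8, 7]])

/-- A lemma and its proof. -/
def c1113_86 : List Lit × List (Cmd Rule) :=
  ([.ord true [6] [4], .walk false true 1 2 []], [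
    .lem 81 [3, 4], .use (.W true 1 2 0 []), .clash 1 3, .use (.W true 1 2 1 []), .clash 1 4,
    .lem 37 [3, 4], .close [6, 3, 4] [5, 0, 2], .lem 33 [3, 4], .use (.F true 1 [4]),
    .close [3, 4] [7, 6], .close [3, 4] [7, 2], .close [3, 4] [7, 0, 2],
    .close [11, 0, 3, 4] [7, 4, 3, 6], .close [6, 3, 4] [6, 5]])

/-- A lemma and its proof. -/
def c1113_87 : List Lit × List (Cmd Rule) :=
  ([.ord true [6] [4], .walk false true 1 0 []], [
    .lem 81 [3, 4], .use (.W true 1 0 0 []), .clash 1 3, .use (.W true 1 0 1 []), .clash 1 4,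
    .lem 37 [3, 4], .close [6, 3, 4] [5, 0, 2], .lem 33 [3, 4], .use (.F true 1 [4]),
    .close [3, 4] [7, 6], .close [3, 4] [7, 2], .close [3, 4] [7, 0, 2],
    .close [11, 0, 3, 4] [7, 4, 3, 2], .close [6, 3, 4] [6, 5]])

/-- A lemma and its proof. -/
def c1113_88 : List Lit × List (Cmd Rule) :=
  ([.ord true [6] [4], .ord false [4, 15, 2] [6, 15, 2]], [
    .lem 81 [3, 4], .lem 81 [7, 0], .lem 81 [15, 0], .lem 81 [3, 4, 15, 2], .lem 37 [3, 4],
    .close [6, 3, 4] [6, 0, 2], .lem 33 [3, 4], .lem 38 [7, 0], .close [4, 7, 0] [8, 3],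
    .lem 17 [0], .lem 29 [0], .lem 45 [0], .close [3, 0] [11, 8], .lem 37 [3, 4, 7, 0],
    .close [6, 3, 4, 7, 0] [12, 11, 3], .lem 33 [3, 4, 7, 0], .lem 37 [15, 2], .lem 31 [2, 15, 2],
    .lem 38 [3, 4, 15, 2], .close [4, 3, 4, 15, 2] [16, 5], .use (.F true 1 [4]),
    .close [3, 4] [17, 7], .close [3, 4] [17, 2], .close [3, 4] [17, 0, 2],
    .use (.F true 1 [4, 7, 0]), .close [3, 4, 7, 0] [18, 13], .close [3, 4, 7, 0] [18, 3],
    .close [3, 4, 7, 0] [18, 11, 3], .use (.F false 3 [0]), .close [] [19, 10],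
    .close [3, 0] [19, 8], .close [5, 0] [19, 11], .lem 84 [], .close [6] [20, 0], .lem 85 [],
    .close [6] [21, 0], .use (.N true 1 [7, 0]), .close [10, 7, 0] [22, 3, 13, 18], .clash 22 21,
    .clash 22 20, .use (.W true 1 3 1 [7, 0]), .clash 22 23, .lem 86 [], .close [6] [24, 0],
    .lem 87 [], .close [6] [25, 0], .use (.N true 1 []), .close [10] [26, 2, 7, 17], .clash 26 25,
    .clash 26 24, .use (.W true 1 3 1 []), .clash 26 27, .lem 37 [3, 4, 15, 0],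
    .close [6, 3, 4, 15, 0] [28, 2, 17, 27, 7, 17, 27, 19, 13, 18, 23, 4], .lem 33 [3, 4, 15, 0],
    .use (.F true 1 [4, 15, 0]), .close [3, 4, 15, 0] [30, 29], .close [3, 4, 15, 0] [30, 4],
    .close [3, 4, 15, 0] [30, 2, 17, 27, 7, 17, 27, 19, 13, 18, 23, 4],
    .use (.W true 1 3 1 [15, 0]), .lem 83 [], .close [6] [32, 0], .use (.N true 1 [15, 0]),
    .close [10, 15, 0] [33, 2, 17, 27, 1, 2, 7, 17, 27, 7, 17, 27, 19, 13, 18, 23, 14, 2, 7, 17, 27, 14, 15, 5, 16, 2, 7, 17, 27, 17, 27, 19, 2, 17, 27, 19, 13, 18, 23, 30],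
    .clash 33 32, .lem 82 [], .close [6] [34, 0], .clash 33 34, .close [0, 3, 4, 15, 0] [34, 29],
    .close [10, 15, 0] [34, 30], .clash 33 31, .close [10, 15, 0] [32, 30],
    .close [10, 15, 0] [31, 14, 2, 7, 17, 27, 14, 15, 5, 16, 2, 7, 17, 27, 17, 27, 19, 2, 17, 27, 19, 13, 18, 23, 30],
    .close [6, 3, 4, 15, 0] [29, 28], .close [7, 2, 15, 2] [15, 14], .close [4, 15, 2] [14, 1],
    .close [6, 3, 4, 7, 0] [13, 12], .close [3, 0] [10, 9], .close [3, 0] [9, 8],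
    .close [6, 3, 4] [7, 6]])

/-- A lemma and its proof. -/
def c1113_89 : List Lit × List (Cmd Rule) :=
  ([.ord true [6] [4], .ord false [8] [14]], [
    .lem 81 [3, 4], .use (.W true 0 3 1 []), .lem 37 [3, 4], .close [6, 3, 4] [4, 0, 2],
    .lem 33 [3, 4], .use (.F true 1 [4]), .close [3, 4] [6, 5], .close [3, 4] [6, 2],
    .close [3, 4] [6, 0, 2], .use (.W true 0 1 0 []), .lem 86 [], .close [6] [8, 0], .lem 87 [],
    .close [6] [9, 0], .use (.N true 1 []), .close [10] [10, 2, 5, 6], .clash 10 9, .clash 10 8,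
    .use (.W true 1 3 1 []), .clash 10 11, .use (.N true 0 []), .close [8] [12, 2, 6, 11, 1],
    .clash 12 7, .use (.C false true 0 2 [] true 1 3 []), .clash 12 13, .clash 10 13,
    .close [] [13], .close [8] [13, 1], .clash 12 3, .close [10] [7, 2, 5, 6],
    .close [6, 3, 4] [5, 4], .close [8] [3, 1]])

/-- A lemma and its proof. -/
def c1113_90 : List Lit × List (Cmd Rule) :=
  ([.ord true [6] [4], .walk false true 1 0 [15, 2]], [
    .lem 81 [3, 4, 15, 2], .use (.W true 1 0 0 [15, 2]), .clash 1 3, .use (.W true 1 0 1 [15, 2]),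
    .clash 1 4, .lem 38 [3, 4, 15, 2], .close [4, 3, 4, 15, 2] [5, 2], .use (.F true 1 [4, 15, 2]),
    .lem 26 [4, 15, 2], .close [1, 4, 15, 2] [7, 6], .lem 88 [], .close [6] [8, 0],
    .close [4, 15, 2] [8, 7], .close [3, 4, 15, 2] [6, 2], .close [3, 4, 15, 2] [6, 5],
    .close [11, 0, 3, 4, 15, 2] [6, 4, 3, 2]])

/-- A lemma and its proof. -/
def c1113_91 : List Lit × List (Cmd Rule) :=
  ([.ord true [6] [4], .walk false true 1 2 [15, 2]], [
    .lem 81 [3, 4, 15, 2], .use (.W true 1 2 0 [15, 2]), .clash 1 3, .use (.W true 1 2 1 [15, 2]),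
    .clash 1 4, .lem 38 [3, 4, 15, 2], .close [4, 3, 4, 15, 2] [5, 2], .lem 88 [],
    .close [6] [6, 0], .lem 26 [4, 15, 2], .use (.F true 1 [4, 15, 2]),
    .close [3, 4, 15, 2] [8, 7], .close [3, 4, 15, 2] [8, 2], .close [3, 4, 15, 2] [8, 5],
    .close [11, 0, 3, 4, 15, 2] [8, 4, 3, 7], .close [15, 2] [7, 6]])

/-- A lemma and its proof. -/
def c1113_92 : List Lit × List (Cmd Rule) :=
  ([.ord true [6] [4], .walk false true 1 0 [15, 6, 15, 4, 7, 14], .ord true [15, 6, 15, 4, 7, 14] [11, 0, 3, 4, 15, 6, 15, 4, 7, 14]], [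
    .lem 81 [3, 4, 15, 6, 15, 4, 7, 14], .use (.W true 1 0 0 [15, 6, 15, 4, 7, 14]), .clash 1 4,
    .use (.W true 1 0 1 [15, 6, 15, 4, 7, 14]), .clash 1 5,
    .close [10, 15, 6, 15, 4, 7, 14] [5, 4, 3, 2]])

/-- A lemma and its proof. -/
def c1113_93 : List Lit × List (Cmd Rule) :=
  ([.ord true [6] [4], .ord false [10, 15, 4, 15, 2] [2, 15, 4, 15, 2], .walk true true 1 2 [15, 4, 15, 2], .walk true true 1 3 [15, 4, 15, 2], .ord false [2, 15, 4, 15, 2] [0, 15, 4, 15, 2]], [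
    .use (.N true 1 [15, 4, 15, 2]), .close [10, 15, 4, 15, 2] [5, 1],
    .use (.W true 1 0 0 [15, 4, 15, 2]), .clash 5 6, .use (.W true 1 0 1 [15, 4, 15, 2]),
    .clash 5 7, .close [10, 15, 4, 15, 2] [7, 6, 4, 1], .clash 5 2, .clash 5 3])

/-- A lemma and its proof. -/
def c1113_94 : List Lit × List (Cmd Rule) :=
  ([.ord true [6] [4], .ord false [14] [8, 1, 14], .ord true [10] [14]], [
    .lem 81 [3, 4], .lem 81 [1, 14], .lem 37 [3, 4], .close [6, 3, 4] [5, 0, 3], .lem 33 [3, 4],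
    .lem 38 [3, 4, 1, 14], .close [4, 3, 4, 1, 14] [7, 4], .lem 45 [4, 1, 14],
    .close [3, 4, 1, 14] [8, 7], .lem 33 [1, 14], .use (.F true 1 [4]), .close [3, 4] [10, 6],
    .close [3, 4] [10, 3], .close [3, 4] [10, 0, 3], .lem 86 [], .close [6] [11, 0], .lem 87 [],
    .close [6] [12, 0], .use (.N true 1 []), .close [10] [13, 3, 6, 10], .clash 13 12,
    .clash 13 11, .use (.W true 1 3 1 []), .clash 13 14, .use (.W false 0 1 1 [1, 14]),
    .use (.W false 0 3 1 [1, 14]), .use (.W true 1 0 1 [1, 14]), .use (.N false 0 [1, 14]),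
    .close [14] [18, 1], .clash 18 15, .use (.W false 0 2 0 [1, 14]), .clash 18 19,
    .use (.W true 1 2 0 [1, 14]), .use (.N true 1 [1, 14]),
    .close [10, 1, 14] [21, 9, 2, 3, 10, 14], .clash 21 17, .clash 21 20,
    .use (.C false true 1 3 [1, 14] false 0 2 [1, 14]), .clash 21 22, .clash 18 22,
    .close [1, 14] [22], .close [10, 1, 14] [22, 1, 2, 3, 10, 14], .close [12, 1, 14] [20, 19],
    .clash 18 16, .close [10, 1, 14] [17, 1, 2, 3, 10, 14], .close [14, 1, 14] [16, 1, 3, 10, 14],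
    .close [10, 1, 14] [15, 1, 2, 3, 10, 14], .close [6, 1, 14] [9, 8], .close [6, 3, 4] [6, 5]])

/-- A lemma and its proof. -/
def c1113_95 : List Lit × List (Cmd Rule) :=
  ([.ord true [6] [4], .ord false [2, 15, 4, 15, 2] [0, 15, 4, 15, 2], .ord false [12, 15, 4, 15, 2] [4, 15, 4, 15, 2], .walk true true 2 3 [15, 4, 15, 2], .walk true true 1 3 [15, 4, 15, 2]], [
    .lem 81 [3, 4, 15, 4, 15, 2], .use (.W true 1 2 0 [15, 4, 15, 2]), .lem 93 [],
    .close [6] [7, 0], .use (.W true 2 1 1 [15, 4, 15, 2]), .use (.N true 2 [15, 4, 15, 2]),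
    .close [12, 15, 4, 15, 2] [9, 2], .use (.W true 2 0 0 [15, 4, 15, 2]), .clash 9 10,
    .use (.W true 2 0 1 [15, 4, 15, 2]), .clash 9 11, .close [12, 15, 4, 15, 2] [11, 10, 1, 5, 2],
    .clash 9 8, .clash 9 3, .close [12, 15, 4, 15, 2] [8, 7, 5, 2], .clash 7 6, .clash 7 4,
    .close [2, 15, 4, 15, 2] [7, 1], .close [12, 15, 4, 15, 2] [6, 2]])

/-- A lemma and its proof. -/
def c1113_96 : List Lit × List (Cmd Rule) :=
  ([.ord true [6] [4], .ord false [12, 15, 4, 15, 2] [4, 15, 4, 15, 2], .walk true true 1 3 [15, 4, 15, 2], .walk true true 2 3 [15, 4, 15, 2]], [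
    .lem 81 [3, 4, 15, 4, 15, 2], .use (.W true 1 2 0 [15, 4, 15, 2]), .lem 95 [],
    .close [6] [6, 0], .lem 43 [15, 4, 15, 2], .close [0, 15, 4, 15, 2] [7, 6],
    .lem 26 [4, 15, 4, 15, 2], .use (.F true 1 [4, 15, 4, 15, 2]),
    .close [3, 4, 15, 4, 15, 2] [9, 8], .close [3, 4, 15, 4, 15, 2] [9, 4],
    .close [3, 4, 15, 4, 15, 2] [9, 7, 4], .use (.N true 1 [15, 4, 15, 2]),
    .close [10, 15, 4, 15, 2] [10, 6, 4, 9], .use (.W true 1 0 0 [15, 4, 15, 2]), .clash 10 11,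
    .use (.W true 1 0 1 [15, 4, 15, 2]), .clash 10 12, .close [10, 15, 4, 15, 2] [12, 11, 4, 9],
    .clash 10 5, .clash 10 2, .close [15, 4, 15, 2] [8, 7], .close [12, 15, 4, 15, 2] [6, 1],
    .clash 6 3, .clash 6 2, .close [12, 15, 4, 15, 2] [5, 1]])

/-- A lemma and its proof. -/
def c1113_97 : List Lit × List (Cmd Rule) :=
  ([.ord true [6] [4], .ord true [0, 3, 4, 15, 6, 15, 4, 7, 14] [4, 15, 6, 15, 4, 7, 14], .walk true true 1 3 [15, 6, 15, 4, 7, 14]], [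
    .lem 81 [3, 4, 15, 6, 15, 4, 7, 14], .lem 38 [3, 4, 15, 6, 15, 4, 7, 14],
    .close [4, 3, 4, 15, 6, 15, 4, 7, 14] [4, 3], .use (.F true 1 [4, 15, 6, 15, 4, 7, 14]),
    .close [3, 4, 15, 6, 15, 4, 7, 14] [5, 1], .close [3, 4, 15, 6, 15, 4, 7, 14] [5, 3],
    .close [3, 4, 15, 6, 15, 4, 7, 14] [5, 4], .lem 92 [], .close [6] [6, 0],
    .use (.N true 1 [15, 6, 15, 4, 7, 14]), .close [10, 15, 6, 15, 4, 7, 14] [7, 3, 1, 5],
    .clash 7 6, .use (.W true 1 2 0 [15, 6, 15, 4, 7, 14]), .clash 7 8,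
    .use (.W true 1 2 1 [15, 6, 15, 4, 7, 14]), .clash 7 9,
    .close [10, 15, 6, 15, 4, 7, 14] [9, 8, 1, 5], .clash 7 2, .close [15, 6, 15, 4, 7, 14] [6, 5]])

/-- A lemma and its proof. -/
def c1113_98 : List Lit × List (Cmd Rule) :=
  ([.ord true [6] [4], .ord true [4, 15, 2] [12, 15, 4, 15, 2], .ord false [19, 22, 1, 14] [17, 22, 1, 14], .ord false [14] [10], .ord false [6, 15, 4, 15, 2] [4, 15, 2], .ord false [17, 22, 1, 14] [1, 14], .ord false [10, 15, 6, 15, 4, 7, 14] [6, 15, 4, 7, 14]], [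
    .lem 81 [3, 4], .lem 81 [1, 14], .lem 81 [3, 4, 15, 6, 15, 4, 7, 14], .lem 81 [7, 0],
    .lem 81 [15, 0], .lem 37 [3, 4], .close [6, 3, 4] [12, 0, 7], .lem 33 [3, 4],
    .lem 38 [3, 4, 1, 14], .close [4, 3, 4, 1, 14] [14, 8], .lem 45 [4, 1, 14],
    .close [3, 4, 1, 14] [15, 14], .lem 33 [1, 14], .lem 10 [14], .close [3, 14] [17, 16],
    .lem 44 [4, 7, 14], .lem 17 [4, 7, 14], .use (.W true 1 3 1 [15, 6, 15, 4, 7, 14]),
    .lem 38 [7, 0], .close [4, 7, 0] [21, 10], .lem 17 [0], .lem 29 [0], .lem 45 [0],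
    .close [3, 0] [24, 21], .lem 37 [3, 4, 7, 0], .close [6, 3, 4, 7, 0] [25, 24, 10],
    .lem 33 [3, 4, 7, 0], .use (.F true 1 [4]), .close [3, 4] [27, 13], .close [3, 4] [27, 7],
    .close [3, 4] [27, 0, 7], .use (.F true 1 [4, 7, 0]), .close [3, 4, 7, 0] [28, 26],
    .close [3, 4, 7, 0] [28, 10], .close [3, 4, 7, 0] [28, 24, 10], .use (.F false 3 [0]),
    .close [] [29, 23], .close [3, 0] [29, 21], .close [5, 0] [29, 24], .lem 84 [],
    .close [6] [30, 0], .lem 85 [], .close [6] [31, 0], .use (.N true 1 [7, 0]),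
    .close [10, 7, 0] [32, 10, 26, 28], .clash 32 31, .clash 32 30, .use (.W true 1 3 1 [7, 0]),
    .clash 32 33, .lem 37 [3, 4, 15, 0],
    .close [6, 3, 4, 15, 0] [34, 27, 3, 8, 27, 3, 16, 19, 29, 26, 28, 33], .lem 33 [3, 4, 15, 0],
    .use (.F true 1 [4, 15, 0]), .close [3, 4, 15, 0] [36, 35], .close [3, 4, 15, 0] [36, 11],
    .close [3, 4, 15, 0] [36, 27, 3, 8, 27, 3, 16, 19, 29, 26, 28, 33], .use (.FY false 3 [14]),
    .close [1, 14] [37, 29, 26, 28, 33, 27, 3, 8, 27, 3, 8], .close [3, 14] [37, 19, 17],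
    .close [5, 14] [37, 17], .use (.G true 2 [22, 1, 14]),
    .close [19, 22, 1, 14] [38, 37, 29, 26, 28, 33, 27, 3, 8, 27, 3, 8, 15, 5, 2], .lem 83 [],
    .close [6] [39, 0], .lem 97 [], .close [6] [40, 0], .lem 82 [], .close [6] [41, 0],
    .use (.N true 1 [15, 0]), .close [10, 15, 0] [42, 11, 35, 36], .clash 42 39, .clash 42 41,
    .use (.W true 1 3 1 [15, 0]), .clash 42 43, .use (.G false 3 [22, 15, 6, 15, 4, 7, 14]),
    .close [15, 6, 15, 4, 7, 14] [44, 29, 26, 28, 33, 36, 43, 4, 1, 7, 13, 27, 3, 7, 27, 3, 5, 2, 38, 37, 27, 3, 8, 37, 17, 29, 27, 3, 8],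
    .use (.FY false 3 [6, 5, 6, 21, 22, 15, 6, 15, 4, 7, 14]),
    .close [1, 6, 5, 6, 21, 22, 15, 6, 15, 4, 7, 14] [45, 29, 26, 28, 33, 36, 43, 4, 1, 7, 13, 27, 3, 7, 27, 3, 5, 2, 38, 37, 27, 3, 8, 37, 29, 27, 3, 8, 9, 40, 29, 26, 28, 33, 36, 43, 1, 7, 13, 27, 3, 7, 27, 3, 5, 2, 38, 37, 29, 26, 28, 33, 36, 43, 4, 1, 7, 13, 27, 3, 7, 27, 3, 5, 2, 38, 37, 29, 36, 43, 4, 1, 7, 13, 27, 3, 7, 27, 3, 5, 2, 38, 37, 29, 27, 3, 8, 29, 26, 28, 33, 36, 43, 1, 7, 13, 27, 3, 7, 27, 3, 5, 2, 38, 37, 44],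
    .close [3, 6, 5, 6, 21, 22, 15, 6, 15, 4, 7, 14] [45, 29, 26, 28, 33, 36, 43, 4, 1, 7, 13, 27, 3, 7, 27, 3, 5, 2, 38, 37, 27, 3, 8, 37, 29, 27, 3, 8, 9, 29, 26, 28, 33, 36, 43, 1, 7, 13, 27, 3, 7, 27, 3, 5, 2, 38, 37, 29, 26, 28, 33, 36, 43, 4, 1, 7, 13, 27, 3, 7, 27, 3, 5, 2, 38, 37, 29, 36, 43, 4, 1, 7, 13, 27, 3, 7, 27, 3, 5, 2, 38, 37, 29, 27, 3, 8, 29, 26, 28, 33, 36, 43, 1, 7, 13, 27, 3, 7, 27, 3, 5, 2, 38, 37, 44],
    .close [5, 6, 5, 6, 21, 22, 15, 6, 15, 4, 7, 14] [45, 29, 26, 28, 33, 36, 43, 4, 1, 7, 13, 27, 3, 7, 27, 3, 5, 2, 38, 37, 27, 3, 8, 37, 29, 26, 28, 33, 36, 43, 4, 1, 7, 13, 27, 3, 7, 27, 3, 5, 2, 38, 37, 29, 27, 3, 8, 29, 26, 28, 33, 36, 43, 1, 7, 13, 27, 3, 7, 27, 3, 5, 2, 38, 37, 44],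
    .close [22, 1, 6, 5, 6, 21, 22, 15, 6, 15, 4, 7, 14] [45, 9, 40, 29, 26, 28, 33, 36, 43, 1, 7, 13, 27, 3, 7, 27, 3, 5, 2, 38, 37, 29, 26, 28, 33, 36, 43, 4, 1, 7, 13, 27, 3, 7, 27, 3, 5, 2, 38, 37, 29, 36, 43, 4, 1, 7, 13, 27, 3, 7, 27, 3, 5, 2, 38, 37, 29, 27, 3, 8, 29, 26, 28, 33, 36, 43, 1, 7, 13, 27, 3, 7, 27, 3, 5, 2, 38, 37, 44],
    .close [0, 3, 4, 15, 0] [41, 35], .close [10, 15, 0] [41, 36], .clash 40 20,
    .close [10, 15, 0] [39, 36], .close [6, 3, 4, 15, 0] [35, 34], .close [6, 3, 4, 7, 0] [26, 25],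
    .close [3, 0] [23, 22], .close [3, 0] [22, 21], .close [10, 15, 6, 15, 4, 7, 14] [20, 6],
    .close [3, 4, 7, 14] [19, 18], .close [7, 14] [18, 17], .close [6, 1, 14] [16, 15],
    .close [6, 3, 4] [13, 12]])

/-- A lemma and its proof. -/
def c1113_99 : List Lit × List (Cmd Rule) :=
  ([.ord true [6] [4], .ord false [12, 15, 4, 15, 2] [4, 15, 2], .ord true [15, 4, 15, 2] [11, 0, 3, 4, 15, 4, 15, 2]], [
    .lem 81 [3, 4, 15, 2], .lem 81 [3, 4, 15, 4, 15, 2], .lem 38 [3, 4, 15, 2],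
    .close [4, 3, 4, 15, 2] [5, 3], .use (.W true 2 3 1 [15, 4, 15, 2]), .lem 88 [],
    .close [6] [7, 0], .lem 26 [4, 15, 2], .use (.F true 1 [4, 15, 2]),
    .close [3, 4, 15, 2] [9, 8], .close [3, 4, 15, 2] [9, 3], .close [3, 4, 15, 2] [9, 5],
    .lem 90 [], .close [6] [10, 0], .lem 91 [], .close [6] [11, 0], .use (.N true 1 [15, 2]),
    .close [10, 15, 2] [12, 3, 8, 9], .clash 12 10, .clash 12 11, .use (.W true 1 3 1 [15, 2]),
    .clash 12 13, .lem 96 [], .close [6] [14, 0], .close [12, 15, 4, 15, 2] [14, 8, 9, 13, 1],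
    .use (.W true 1 3 1 [15, 4, 15, 2]), .clash 14 15, .use (.W true 2 1 1 [15, 4, 15, 2]),
    .use (.N true 2 [15, 4, 15, 2]), .close [12, 15, 4, 15, 2] [17, 8, 9, 13, 1],
    .use (.W true 2 0 0 [15, 4, 15, 2]), .clash 17 18, .use (.W true 2 0 1 [15, 4, 15, 2]),
    .clash 17 19, .close [12, 15, 4, 15, 2] [19, 18, 4, 2, 15, 1], .clash 17 16, .clash 17 6,
    .close [12, 15, 4, 15, 2] [16, 15, 1], .clash 14 6, .close [15, 2] [8, 7],
    .close [12, 15, 4, 15, 2] [6, 1]])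

/-- A lemma and its proof. -/
def c1113_100 : List Lit × List (Cmd Rule) :=
  ([.ord true [6] [4], .ord false [17, 22, 1, 14] [1, 14], .ord false [6, 15, 4, 15, 2] [4, 15, 2], .ord true [4, 15, 2] [12, 15, 4, 15, 2], .ord false [10, 15, 6, 15, 4, 7, 14] [6, 15, 4, 7, 14]], [
    .lem 81 [3, 4], .lem 81 [1, 14], .lem 81 [3, 4, 15, 6, 15, 4, 7, 14], .lem 81 [7, 0],
    .lem 81 [15, 0], .lem 81 [3, 4, 15, 2], .lem 37 [3, 4], .close [6, 3, 4] [11, 0, 5],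
    .lem 33 [3, 4], .lem 38 [3, 4, 1, 14], .close [4, 3, 4, 1, 14] [13, 6], .lem 45 [4, 1, 14],
    .close [3, 4, 1, 14] [14, 13], .lem 33 [1, 14], .lem 10 [14], .close [3, 14] [16, 15],
    .lem 44 [4, 7, 14], .lem 17 [4, 7, 14], .use (.W true 1 3 1 [15, 6, 15, 4, 7, 14]),
    .lem 38 [7, 0], .close [4, 7, 0] [20, 8], .lem 17 [0], .lem 29 [0], .lem 45 [0],
    .close [3, 0] [23, 20], .lem 37 [3, 4, 7, 0], .close [6, 3, 4, 7, 0] [24, 23, 8],
    .lem 33 [3, 4, 7, 0], .lem 38 [3, 4, 15, 2], .close [4, 3, 4, 15, 2] [26, 10],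
    .use (.G false 0 [22, 1, 14]), .close [17, 22, 1, 14] [27, 1], .use (.F true 1 [4]),
    .close [3, 4] [28, 12], .close [3, 4] [28, 5], .close [3, 4] [28, 0, 5],
    .use (.F true 1 [4, 7, 0]), .close [3, 4, 7, 0] [29, 25], .close [3, 4, 7, 0] [29, 8],
    .close [3, 4, 7, 0] [29, 23, 8], .use (.F false 3 [0]), .close [] [30, 22],
    .close [3, 0] [30, 20], .close [5, 0] [30, 23], .lem 84 [], .close [6] [31, 0], .lem 85 [],
    .close [6] [32, 0], .use (.N true 1 [7, 0]), .close [10, 7, 0] [33, 8, 25, 29], .clash 33 32,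
    .clash 33 31, .use (.W true 1 3 1 [7, 0]), .clash 33 34, .lem 86 [], .close [6] [35, 0],
    .lem 87 [], .close [6] [36, 0], .use (.N true 1 []), .close [10] [37, 5, 12, 28], .clash 37 36,
    .clash 37 35, .use (.W true 1 3 0 []), .clash 37 38, .use (.W true 1 3 1 []), .clash 37 39,
    .lem 37 [3, 4, 15, 0], .close [6, 3, 4, 15, 0] [40, 5, 28, 39, 12, 28, 39, 30, 25, 29, 34, 9],
    .lem 33 [3, 4, 15, 0], .use (.F true 1 [4, 15, 0]), .close [3, 4, 15, 0] [42, 41],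
    .close [3, 4, 15, 0] [42, 9],
    .close [3, 4, 15, 0] [42, 5, 28, 39, 12, 28, 39, 30, 25, 29, 34, 9], .use (.FY false 3 [14]),
    .close [1, 14] [43, 38, 5, 28, 39], .close [3, 14] [43, 18, 16], .close [5, 14] [43, 16],
    .lem 88 [], .close [6] [44, 0], .lem 26 [4, 15, 2], .use (.F true 1 [4, 15, 2]),
    .close [3, 4, 15, 2] [46, 45], .close [3, 4, 15, 2] [46, 10], .close [3, 4, 15, 2] [46, 26],
    .lem 90 [], .close [6] [47, 0], .lem 91 [], .close [6] [48, 0], .use (.N true 1 [15, 2]),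
    .close [10, 15, 2] [49, 10, 45, 46], .clash 49 47, .clash 49 48, .use (.W true 1 3 0 [15, 2]),
    .clash 49 50, .use (.W true 1 3 1 [15, 2]), .clash 49 51, .lem 83 [], .close [6] [52, 0],
    .lem 94 [], .close [6] [53, 0], .close [14] [53, 1, 27], .lem 97 [], .close [6] [54, 0],
    .lem 82 [], .close [6] [55, 0], .use (.N true 1 [15, 0]), .close [10, 15, 0] [56, 9, 41, 42],
    .clash 56 52, .clash 56 55, .use (.W true 1 3 1 [15, 0]), .clash 56 57, .lem 98 [],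
    .close [6] [58, 0], .close [4, 15, 2] [58, 3], .use (.G true 1 [22, 1, 14]),
    .close [17, 22, 1, 14] [59, 58], .use (.G true 2 [22, 1, 14]),
    .close [19, 22, 1, 14] [60, 43, 30, 25, 29, 34, 42, 57, 50, 51, 5, 28, 39, 1, 59],
    .use (.G false 3 [22, 15, 6, 15, 4, 7, 14]),
    .close [15, 6, 15, 4, 7, 14] [61, 30, 25, 29, 34, 42, 57, 2, 3, 51, 5, 28, 39, 1, 59, 60, 43, 5, 28, 39, 43, 16, 30, 5, 28, 39],
    .use (.FY false 3 [6, 5, 6, 21, 22, 15, 6, 15, 4, 7, 14]),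
    .close [1, 6, 5, 6, 21, 22, 15, 6, 15, 4, 7, 14] [62, 30, 25, 29, 34, 42, 57, 2, 3, 51, 5, 28, 39, 1, 59, 60, 43, 5, 28, 39, 43, 30, 5, 28, 39, 7, 54, 30, 25, 29, 34, 42, 57, 3, 51, 5, 28, 39, 1, 59, 60, 43, 30, 25, 29, 34, 42, 57, 2, 3, 51, 5, 28, 39, 1, 59, 60, 43, 30, 42, 57, 2, 3, 51, 5, 28, 39, 1, 59, 60, 43, 30, 5, 28, 39, 30, 25, 29, 34, 42, 57, 3, 51, 5, 28, 39, 1, 59, 60, 43, 61],
    .close [3, 6, 5, 6, 21, 22, 15, 6, 15, 4, 7, 14] [62, 30, 25, 29, 34, 42, 57, 2, 3, 51, 5, 28, 39, 1, 59, 60, 43, 5, 28, 39, 43, 30, 5, 28, 39, 7, 30, 25, 29, 34, 42, 57, 3, 51, 5, 28, 39, 1, 59, 60, 43, 30, 25, 29, 34, 42, 57, 2, 3, 51, 5, 28, 39, 1, 59, 60, 43, 30, 42, 57, 2, 3, 51, 5, 28, 39, 1, 59, 60, 43, 30, 5, 28, 39, 30, 25, 29, 34, 42, 57, 3, 51, 5, 28, 39, 1, 59, 60, 43, 61],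
    .close [5, 6, 5, 6, 21, 22, 15, 6, 15, 4, 7, 14] [62, 30, 25, 29, 34, 42, 57, 2, 3, 51, 5, 28, 39, 1, 59, 60, 43, 5, 28, 39, 43, 30, 25, 29, 34, 42, 57, 2, 3, 51, 5, 28, 39, 1, 59, 60, 43, 30, 5, 28, 39, 30, 25, 29, 34, 42, 57, 3, 51, 5, 28, 39, 1, 59, 60, 43, 61],
    .close [22, 1, 6, 5, 6, 21, 22, 15, 6, 15, 4, 7, 14] [62, 7, 54, 30, 25, 29, 34, 42, 57, 3, 51, 5, 28, 39, 1, 59, 60, 43, 30, 25, 29, 34, 42, 57, 2, 3, 51, 5, 28, 39, 1, 59, 60, 43, 30, 42, 57, 2, 3, 51, 5, 28, 39, 1, 59, 60, 43, 30, 5, 28, 39, 30, 25, 29, 34, 42, 57, 3, 51, 5, 28, 39, 1, 59, 60, 43, 61],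
    .close [14] [58, 53], .close [6, 15, 4, 15, 2] [58, 2], .close [17, 22, 1, 14] [58, 1],
    .close [10, 15, 6, 15, 4, 7, 14] [58, 4], .close [0, 3, 4, 15, 0] [55, 41],
    .close [10, 15, 0] [55, 42], .clash 54 19, .close [10, 15, 0] [52, 42],
    .close [15, 2] [45, 44], .close [6, 3, 4, 15, 0] [41, 40], .close [6, 3, 4, 7, 0] [25, 24],
    .close [3, 0] [22, 21], .close [3, 0] [21, 20], .close [10, 15, 6, 15, 4, 7, 14] [19, 4],
    .close [3, 4, 7, 14] [18, 17], .close [7, 14] [17, 16], .close [6, 1, 14] [15, 14],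
    .close [6, 3, 4] [12, 11]])

/-- A lemma and its proof. -/
def c1113_101 : List Lit × List (Cmd Rule) :=
  ([.ord true [6] [4], .ord true [19, 22, 1, 14] [11, 2, 17, 22, 1, 14], .ord false [6, 15, 4, 15, 2] [4, 15, 2], .ord true [17, 22, 1, 14] [9, 14], .ord true [4, 15, 2] [12, 15, 4, 15, 2], .ord false [10, 15, 6, 15, 4, 7, 14] [6, 15, 4, 7, 14]], [
    .lem 81 [3, 4], .lem 81 [1, 14], .lem 81 [3, 4, 15, 6, 15, 4, 7, 14], .lem 81 [7, 0],
    .lem 81 [15, 0], .lem 81 [3, 4, 15, 2], .lem 37 [3, 4], .close [6, 3, 4] [12, 0, 6],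
    .lem 33 [3, 4], .lem 38 [3, 4, 1, 14], .close [4, 3, 4, 1, 14] [14, 7], .lem 45 [4, 1, 14],
    .close [3, 4, 1, 14] [15, 14], .lem 33 [1, 14], .lem 10 [14], .close [3, 14] [17, 16],
    .lem 44 [4, 7, 14], .lem 17 [4, 7, 14], .use (.W true 1 3 1 [15, 6, 15, 4, 7, 14]),
    .lem 38 [7, 0], .close [4, 7, 0] [21, 9], .lem 17 [0], .lem 29 [0], .lem 45 [0],
    .close [3, 0] [24, 21], .lem 37 [3, 4, 7, 0], .close [6, 3, 4, 7, 0] [25, 24, 9],
    .lem 33 [3, 4, 7, 0], .lem 38 [3, 4, 15, 2], .close [4, 3, 4, 15, 2] [27, 11],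
    .use (.F true 1 [4]), .close [3, 4] [28, 13], .close [3, 4] [28, 6], .close [3, 4] [28, 0, 6],
    .use (.F true 1 [4, 7, 0]), .close [3, 4, 7, 0] [29, 26], .close [3, 4, 7, 0] [29, 9],
    .close [3, 4, 7, 0] [29, 24, 9], .use (.F false 3 [0]), .close [] [30, 23],
    .close [3, 0] [30, 21], .close [5, 0] [30, 24], .lem 84 [], .close [6] [31, 0], .lem 85 [],
    .close [6] [32, 0], .use (.N true 1 [7, 0]), .close [10, 7, 0] [33, 9, 26, 29], .clash 33 32,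
    .clash 33 31, .use (.W true 1 3 1 [7, 0]), .clash 33 34, .lem 86 [], .close [6] [35, 0],
    .lem 87 [], .close [6] [36, 0], .use (.N true 1 []), .close [10] [37, 6, 13, 28], .clash 37 36,
    .clash 37 35, .use (.W true 1 3 0 []), .clash 37 38, .use (.W true 1 3 1 []), .clash 37 39,
    .lem 37 [3, 4, 15, 0], .close [6, 3, 4, 15, 0] [40, 6, 28, 39, 13, 28, 39, 30, 26, 29, 34, 10],
    .lem 33 [3, 4, 15, 0], .use (.F true 1 [4, 15, 0]), .close [3, 4, 15, 0] [42, 41],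
    .close [3, 4, 15, 0] [42, 10],
    .close [3, 4, 15, 0] [42, 6, 28, 39, 13, 28, 39, 30, 26, 29, 34, 10], .use (.FY false 3 [14]),
    .close [1, 14] [43, 38, 6, 28, 39], .close [3, 14] [43, 19, 17], .close [5, 14] [43, 17],
    .lem 88 [], .close [6] [44, 0], .lem 26 [4, 15, 2], .use (.F true 1 [4, 15, 2]),
    .close [3, 4, 15, 2] [46, 45], .close [3, 4, 15, 2] [46, 11], .close [3, 4, 15, 2] [46, 27],
    .lem 89 [], .close [6] [47, 0], .lem 90 [], .close [6] [48, 0], .lem 91 [], .close [6] [49, 0],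
    .use (.N true 1 [15, 2]), .close [10, 15, 2] [50, 11, 45, 46], .clash 50 48, .clash 50 49,
    .use (.W true 1 3 0 [15, 2]), .clash 50 51, .use (.W true 1 3 1 [15, 2]), .clash 50 52,
    .lem 83 [], .close [6] [53, 0], .lem 97 [], .close [6] [54, 0], .lem 82 [], .close [6] [55, 0],
    .use (.N true 1 [15, 0]), .close [10, 15, 0] [56, 10, 41, 42], .clash 56 53, .clash 56 55,
    .use (.W true 1 3 1 [15, 0]), .clash 56 57, .use (.G true 2 [22, 1, 14]),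
    .close [19, 22, 1, 14] [58, 43, 30, 26, 29, 34, 42, 57, 51, 52, 47, 3, 1],
    .use (.G false 3 [22, 15, 6, 15, 4, 7, 14]),
    .close [15, 6, 15, 4, 7, 14] [59, 30, 26, 29, 34, 42, 57, 2, 4, 52, 47, 3, 1, 58, 43, 6, 28, 39, 43, 17, 30, 6, 28, 39],
    .use (.FY false 3 [6, 5, 6, 21, 22, 15, 6, 15, 4, 7, 14]),
    .close [1, 6, 5, 6, 21, 22, 15, 6, 15, 4, 7, 14] [60, 30, 26, 29, 34, 42, 57, 2, 4, 52, 47, 3, 1, 58, 43, 6, 28, 39, 43, 30, 6, 28, 39, 8, 54, 30, 26, 29, 34, 42, 57, 4, 52, 47, 3, 1, 58, 43, 30, 26, 29, 34, 42, 57, 2, 4, 52, 47, 3, 1, 58, 43, 30, 42, 57, 2, 4, 52, 47, 3, 1, 58, 43, 30, 6, 28, 39, 30, 26, 29, 34, 42, 57, 4, 52, 47, 3, 1, 58, 43, 59],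
    .close [3, 6, 5, 6, 21, 22, 15, 6, 15, 4, 7, 14] [60, 30, 26, 29, 34, 42, 57, 2, 4, 52, 47, 3, 1, 58, 43, 6, 28, 39, 43, 30, 6, 28, 39, 8, 30, 26, 29, 34, 42, 57, 4, 52, 47, 3, 1, 58, 43, 30, 26, 29, 34, 42, 57, 2, 4, 52, 47, 3, 1, 58, 43, 30, 42, 57, 2, 4, 52, 47, 3, 1, 58, 43, 30, 6, 28, 39, 30, 26, 29, 34, 42, 57, 4, 52, 47, 3, 1, 58, 43, 59],
    .close [5, 6, 5, 6, 21, 22, 15, 6, 15, 4, 7, 14] [60, 30, 26, 29, 34, 42, 57, 2, 4, 52, 47, 3, 1, 58, 43, 6, 28, 39, 43, 30, 26, 29, 34, 42, 57, 2, 4, 52, 47, 3, 1, 58, 43, 30, 6, 28, 39, 30, 26, 29, 34, 42, 57, 4, 52, 47, 3, 1, 58, 43, 59],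
    .close [22, 1, 6, 5, 6, 21, 22, 15, 6, 15, 4, 7, 14] [60, 8, 54, 30, 26, 29, 34, 42, 57, 4, 52, 47, 3, 1, 58, 43, 30, 26, 29, 34, 42, 57, 2, 4, 52, 47, 3, 1, 58, 43, 30, 42, 57, 2, 4, 52, 47, 3, 1, 58, 43, 30, 6, 28, 39, 30, 26, 29, 34, 42, 57, 4, 52, 47, 3, 1, 58, 43, 59],
    .close [0, 3, 4, 15, 0] [55, 41], .close [10, 15, 0] [55, 42], .clash 54 20,
    .close [10, 15, 0] [53, 42], .close [15, 2] [45, 44], .close [6, 3, 4, 15, 0] [41, 40],
    .close [6, 3, 4, 7, 0] [26, 25], .close [3, 0] [23, 22], .close [3, 0] [22, 21],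
    .close [10, 15, 6, 15, 4, 7, 14] [20, 5], .close [3, 4, 7, 14] [19, 18],
    .close [7, 14] [18, 17], .close [6, 1, 14] [16, 15], .close [6, 3, 4] [13, 12]])

/-- A lemma and its proof. -/
def c1113_102 : List Lit × List (Cmd Rule) :=
  ([.ord true [6] [4], .ord false [12, 15, 4, 15, 2] [4, 15, 2]], [
    .lem 81 [3, 4, 15, 2], .lem 81 [3, 4, 15, 4, 15, 2], .lem 38 [3, 4, 15, 2],
    .close [4, 3, 4, 15, 2] [4, 2], .use (.W true 2 3 1 [15, 4, 15, 2]), .lem 88 [],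
    .close [6] [6, 0], .lem 26 [4, 15, 2], .use (.F true 1 [4, 15, 2]),
    .close [3, 4, 15, 2] [8, 7], .close [3, 4, 15, 2] [8, 2], .close [3, 4, 15, 2] [8, 4],
    .lem 90 [], .close [6] [9, 0], .lem 91 [], .close [6] [10, 0], .use (.N true 1 [15, 2]),
    .close [10, 15, 2] [11, 2, 7, 8], .clash 11 9, .clash 11 10, .use (.W true 1 3 1 [15, 2]),
    .clash 11 12, .lem 99 [], .close [6] [13, 0], .close [12, 15, 4, 15, 2] [13, 1], .lem 96 [],
    .close [6] [14, 0], .close [12, 15, 4, 15, 2] [14, 7, 8, 12, 1],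
    .use (.W true 1 3 0 [15, 4, 15, 2]), .clash 14 15, .lem 26 [4, 15, 4, 15, 2],
    .use (.F true 1 [4, 15, 4, 15, 2]), .close [3, 4, 15, 4, 15, 2] [17, 16],
    .close [3, 4, 15, 4, 15, 2] [17, 3], .close [3, 4, 15, 4, 15, 2] [17, 7, 8, 12, 15, 3],
    .close [11, 0, 3, 4, 15, 4, 15, 2] [17, 13], .close [15, 4, 15, 2] [16, 7, 8, 12, 15],
    .clash 14 5, .close [15, 2] [7, 6], .close [12, 15, 4, 15, 2] [5, 1]])

/-- A lemma and its proof. -/
def c1113_103 : List Lit × List (Cmd Rule) :=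
  ([.ord true [6] [4], .ord true [4, 15, 2] [6, 15, 4, 15, 2]], [
    .lem 81 [3, 4], .lem 81 [1, 14], .lem 81 [3, 4, 15, 6, 15, 4, 7, 14], .lem 81 [7, 0],
    .lem 81 [15, 0], .lem 37 [3, 4], .close [6, 3, 4] [7, 0, 2], .lem 33 [3, 4],
    .lem 38 [3, 4, 1, 14], .close [4, 3, 4, 1, 14] [9, 3], .lem 45 [4, 1, 14],
    .close [3, 4, 1, 14] [10, 9], .lem 33 [1, 14], .lem 10 [14], .close [3, 14] [12, 11],
    .lem 44 [4, 7, 14], .lem 17 [4, 7, 14], .lem 38 [3, 4, 15, 6, 15, 4, 7, 14],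
    .close [4, 3, 4, 15, 6, 15, 4, 7, 14] [15, 4], .lem 38 [7, 0], .close [4, 7, 0] [16, 5],
    .lem 17 [0], .lem 29 [0], .lem 45 [0], .close [3, 0] [19, 16], .lem 37 [3, 4, 7, 0],
    .close [6, 3, 4, 7, 0] [20, 19, 5], .lem 33 [3, 4, 7, 0], .use (.F true 1 [4]),
    .close [3, 4] [22, 8], .close [3, 4] [22, 2], .close [3, 4] [22, 0, 2],
    .use (.F true 1 [4, 7, 0]), .close [3, 4, 7, 0] [23, 21], .close [3, 4, 7, 0] [23, 5],
    .close [3, 4, 7, 0] [23, 19, 5], .use (.F false 3 [0]), .close [] [24, 18],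
    .close [3, 0] [24, 16], .close [5, 0] [24, 19], .lem 84 [], .close [6] [25, 0], .lem 85 [],
    .close [6] [26, 0], .use (.N true 1 [7, 0]), .close [10, 7, 0] [27, 5, 21, 23], .clash 27 26,
    .clash 27 25, .use (.W true 1 3 1 [7, 0]), .clash 27 28, .lem 86 [], .close [6] [29, 0],
    .lem 87 [], .close [6] [30, 0], .use (.N true 1 []), .close [10] [31, 2, 8, 22], .clash 31 30,
    .clash 31 29, .use (.W true 1 3 0 []), .clash 31 32, .use (.W true 1 3 1 []), .clash 31 33,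
    .lem 37 [3, 4, 15, 0], .close [6, 3, 4, 15, 0] [34, 2, 22, 33, 8, 22, 33, 24, 21, 23, 28, 6],
    .lem 33 [3, 4, 15, 0], .use (.F true 1 [4, 15, 0]), .close [3, 4, 15, 0] [36, 35],
    .close [3, 4, 15, 0] [36, 6],
    .close [3, 4, 15, 0] [36, 2, 22, 33, 8, 22, 33, 24, 21, 23, 28, 6], .use (.FY false 3 [14]),
    .close [1, 14] [37, 32, 2, 22, 33], .close [3, 14] [37, 14, 12], .close [5, 14] [37, 12],
    .lem 83 [], .close [6] [38, 0], .lem 82 [], .close [6] [39, 0], .use (.N true 1 [15, 0]),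
    .close [10, 15, 0] [40, 6, 35, 36], .clash 40 38, .clash 40 39, .use (.W true 1 3 1 [15, 0]),
    .clash 40 41, .use (.G false 3 [22, 15, 6, 15, 4, 7, 14]),
    .close [15, 6, 15, 4, 7, 14] [42, 24, 21, 23, 28, 36, 41, 1, 1, 2, 8, 22, 33, 8, 22, 33, 24, 2, 22, 33, 2, 22, 33, 37, 12, 24, 2, 22, 33],
    .lem 17 [6, 5, 6, 21, 22, 15, 6, 15, 4, 7, 14], .lem 29 [6, 5, 6, 21, 22, 15, 6, 15, 4, 7, 14],
    .use (.FY false 3 [6, 5, 6, 21, 22, 15, 6, 15, 4, 7, 14]),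
    .close [1, 6, 5, 6, 21, 22, 15, 6, 15, 4, 7, 14] [45, 44],
    .close [3, 6, 5, 6, 21, 22, 15, 6, 15, 4, 7, 14] [45, 24, 21, 23, 28, 36, 41, 1, 1, 2, 8, 22, 33, 8, 22, 33, 24, 2, 22, 33, 2, 22, 33, 37, 24, 2, 22, 33, 4, 24, 21, 23, 28, 36, 41, 1, 1, 1, 2, 8, 22, 33, 8, 22, 33, 24, 2, 22, 33, 24, 21, 23, 28, 36, 41, 1, 1, 2, 8, 22, 33, 8, 22, 33, 24, 2, 22, 33, 24, 36, 41, 1, 1, 2, 8, 22, 33, 8, 22, 33, 24, 2, 22, 33, 24, 2, 22, 33, 24, 21, 23, 28, 36, 41, 1, 1, 1, 2, 8, 22, 33, 8, 22, 33, 24, 2, 22, 33, 42],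
    .close [5, 6, 5, 6, 21, 22, 15, 6, 15, 4, 7, 14] [45, 24, 21, 23, 28, 36, 41, 1, 1, 2, 8, 22, 33, 8, 22, 33, 24, 2, 22, 33, 2, 22, 33, 37, 24, 21, 23, 28, 36, 41, 1, 1, 2, 8, 22, 33, 8, 22, 33, 24, 2, 22, 33, 24, 2, 22, 33, 24, 21, 23, 28, 36, 41, 1, 1, 1, 2, 8, 22, 33, 8, 22, 33, 24, 2, 22, 33, 42],
    .use (.F true 1 [4, 15, 6, 15, 4, 7, 14]),
    .close [3, 4, 15, 6, 15, 4, 7, 14] [46, 24, 21, 23, 28, 36, 41, 1, 1, 1, 2, 8, 22, 33, 8, 22, 33, 24, 2, 22, 33, 24, 21, 23, 28, 36, 41, 1, 1, 2, 8, 22, 33, 8, 22, 33, 24, 2, 22, 33, 24, 36, 41, 1, 1, 2, 8, 22, 33, 8, 22, 33, 24, 2, 22, 33, 24, 2, 22, 33, 24, 21, 23, 28, 36, 41, 1, 1, 1, 2, 8, 22, 33, 8, 22, 33, 24, 2, 22, 33, 42, 45, 4],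
    .close [3, 4, 15, 6, 15, 4, 7, 14] [46, 4], .close [3, 4, 15, 6, 15, 4, 7, 14] [46, 15],
    .use (.W true 1 3 1 [15, 6, 15, 4, 7, 14]), .lem 97 [], .close [6] [48, 0],
    .close [0, 3, 4, 15, 6, 15, 4, 7, 14] [48, 24, 21, 23, 28, 36, 41, 1, 1, 1, 2, 8, 22, 33, 8, 22, 33, 24, 2, 22, 33, 24, 21, 23, 28, 36, 41, 1, 1, 2, 8, 22, 33, 8, 22, 33, 24, 2, 22, 33, 24, 36, 41, 1, 1, 2, 8, 22, 33, 8, 22, 33, 24, 2, 22, 33, 24, 2, 22, 33, 24, 21, 23, 28, 36, 41, 1, 1, 1, 2, 8, 22, 33, 8, 22, 33, 24, 2, 22, 33, 42, 45, 4],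
    .clash 48 47,
    .close [10, 15, 6, 15, 4, 7, 14] [47, 24, 21, 23, 28, 36, 41, 1, 1, 1, 2, 8, 22, 33, 8, 22, 33, 24, 2, 22, 33, 42, 45, 4, 46],
    .close [3, 6, 5, 6, 21, 22, 15, 6, 15, 4, 7, 14] [44, 43],
    .close [3, 6, 5, 6, 21, 22, 15, 6, 15, 4, 7, 14] [43, 24, 21, 23, 28, 36, 41, 1, 1, 2, 8, 22, 33, 8, 22, 33, 24, 2, 22, 33, 2, 22, 33, 37, 24, 2, 22, 33, 4, 24, 21, 23, 28, 36, 41, 1, 1, 1, 2, 8, 22, 33, 8, 22, 33, 24, 2, 22, 33, 24, 21, 23, 28, 36, 41, 1, 1, 2, 8, 22, 33, 8, 22, 33, 24, 2, 22, 33, 24, 36, 41, 1, 1, 2, 8, 22, 33, 8, 22, 33, 24, 2, 22, 33, 24, 2, 22, 33, 24, 21, 23, 28, 36, 41, 1, 1, 1, 2, 8, 22, 33, 8, 22, 33, 24, 2, 22, 33, 42],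
    .close [0, 3, 4, 15, 0] [39, 35], .close [10, 15, 0] [39, 36], .close [10, 15, 0] [38, 36],
    .close [6, 3, 4, 15, 0] [35, 34], .close [6, 3, 4, 7, 0] [21, 20], .close [3, 0] [18, 17],
    .close [3, 0] [17, 16], .close [3, 4, 7, 14] [14, 13], .close [7, 14] [13, 12],
    .close [6, 1, 14] [11, 10], .close [6, 3, 4] [8, 7]])

/-- A lemma and its proof. -/
def c1113_104 : List Lit × List (Cmd Rule) :=
  ([.ord true [6] [4], .ord true [17, 22, 1, 14] [9, 14], .ord true [19, 22, 1, 14] [11, 2, 17, 22, 1, 14]], [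
    .lem 81 [3, 4], .lem 81 [1, 14], .lem 81 [3, 4, 15, 6, 15, 4, 7, 14], .lem 81 [7, 0],
    .lem 81 [15, 0], .lem 81 [3, 4, 15, 2], .lem 37 [3, 4], .close [6, 3, 4] [9, 0, 3],
    .lem 33 [3, 4], .lem 38 [3, 4, 1, 14], .close [4, 3, 4, 1, 14] [11, 4], .lem 45 [4, 1, 14],
    .close [3, 4, 1, 14] [12, 11], .lem 33 [1, 14], .lem 10 [14], .close [3, 14] [14, 13],
    .lem 44 [4, 7, 14], .lem 17 [4, 7, 14], .lem 38 [3, 4, 15, 6, 15, 4, 7, 14],
    .close [4, 3, 4, 15, 6, 15, 4, 7, 14] [17, 5], .lem 38 [7, 0], .close [4, 7, 0] [18, 6],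
    .lem 17 [0], .lem 29 [0], .lem 45 [0], .close [3, 0] [21, 18], .lem 37 [3, 4, 7, 0],
    .close [6, 3, 4, 7, 0] [22, 21, 6], .lem 33 [3, 4, 7, 0], .lem 38 [3, 4, 15, 2],
    .close [4, 3, 4, 15, 2] [24, 8], .use (.F true 1 [4]), .close [3, 4] [25, 10],
    .close [3, 4] [25, 3], .close [3, 4] [25, 0, 3], .use (.F true 1 [4, 7, 0]),
    .close [3, 4, 7, 0] [26, 23], .close [3, 4, 7, 0] [26, 6], .close [3, 4, 7, 0] [26, 21, 6],
    .use (.F false 3 [0]), .close [] [27, 20], .close [3, 0] [27, 18], .close [5, 0] [27, 21],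
    .lem 84 [], .close [6] [28, 0], .lem 85 [], .close [6] [29, 0], .use (.N true 1 [7, 0]),
    .close [10, 7, 0] [30, 6, 23, 26], .clash 30 29, .clash 30 28, .use (.W true 1 3 1 [7, 0]),
    .clash 30 31, .lem 86 [], .close [6] [32, 0], .lem 87 [], .close [6] [33, 0],
    .use (.N true 1 []), .close [10] [34, 3, 10, 25], .clash 34 33, .clash 34 32,
    .use (.W true 1 3 0 []), .clash 34 35, .use (.W true 1 3 1 []), .clash 34 36,
    .lem 37 [3, 4, 15, 0], .close [6, 3, 4, 15, 0] [37, 3, 25, 36, 10, 25, 36, 27, 23, 26, 31, 7],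
    .lem 33 [3, 4, 15, 0], .use (.F true 1 [4, 15, 0]), .close [3, 4, 15, 0] [39, 38],
    .close [3, 4, 15, 0] [39, 7],
    .close [3, 4, 15, 0] [39, 3, 25, 36, 10, 25, 36, 27, 23, 26, 31, 7], .use (.FY false 3 [14]),
    .close [1, 14] [40, 35, 3, 25, 36], .close [3, 14] [40, 16, 14], .close [5, 14] [40, 14],
    .lem 88 [], .close [6] [41, 0], .lem 26 [4, 15, 2], .use (.F true 1 [4, 15, 2]),
    .close [3, 4, 15, 2] [43, 42], .close [3, 4, 15, 2] [43, 8], .close [3, 4, 15, 2] [43, 24],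
    .lem 89 [], .close [6] [44, 0], .lem 90 [], .close [6] [45, 0], .lem 91 [], .close [6] [46, 0],
    .use (.N true 1 [15, 2]), .close [10, 15, 2] [47, 8, 42, 43], .clash 47 45, .clash 47 46,
    .use (.W true 1 3 0 [15, 2]), .clash 47 48, .use (.W true 1 3 1 [15, 2]), .clash 47 49,
    .lem 102 [], .close [6] [50, 0], .lem 103 [], .close [6] [51, 0], .lem 83 [],
    .close [6] [52, 0], .lem 82 [], .close [6] [53, 0], .use (.N true 1 [15, 0]),
    .close [10, 15, 0] [54, 7, 38, 39], .clash 54 52, .clash 54 53, .use (.W true 1 3 1 [15, 0]),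
    .clash 54 55, .use (.G true 2 [22, 1, 14]),
    .close [19, 22, 1, 14] [56, 40, 27, 23, 26, 31, 39, 55, 48, 49, 44, 1, 2],
    .use (.G false 3 [22, 15, 6, 15, 4, 7, 14]),
    .close [15, 6, 15, 4, 7, 14] [57, 27, 23, 26, 31, 39, 55, 51, 50, 49, 44, 1, 2, 56, 40, 3, 25, 36, 40, 14, 27, 3, 25, 36],
    .lem 17 [6, 5, 6, 21, 22, 15, 6, 15, 4, 7, 14], .lem 29 [6, 5, 6, 21, 22, 15, 6, 15, 4, 7, 14],
    .use (.FY false 3 [6, 5, 6, 21, 22, 15, 6, 15, 4, 7, 14]),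
    .close [1, 6, 5, 6, 21, 22, 15, 6, 15, 4, 7, 14] [60, 59],
    .close [3, 6, 5, 6, 21, 22, 15, 6, 15, 4, 7, 14] [60, 27, 23, 26, 31, 39, 55, 51, 50, 49, 44, 1, 2, 56, 40, 3, 25, 36, 40, 27, 3, 25, 36, 5, 27, 23, 26, 31, 39, 55, 50, 49, 44, 1, 2, 56, 40, 27, 23, 26, 31, 39, 55, 51, 50, 49, 44, 1, 2, 56, 40, 27, 39, 55, 51, 50, 49, 44, 1, 2, 56, 40, 27, 3, 25, 36, 27, 23, 26, 31, 39, 55, 50, 49, 44, 1, 2, 56, 40, 57],
    .close [5, 6, 5, 6, 21, 22, 15, 6, 15, 4, 7, 14] [60, 27, 23, 26, 31, 39, 55, 51, 50, 49, 44, 1, 2, 56, 40, 3, 25, 36, 40, 27, 23, 26, 31, 39, 55, 51, 50, 49, 44, 1, 2, 56, 40, 27, 3, 25, 36, 27, 23, 26, 31, 39, 55, 50, 49, 44, 1, 2, 56, 40, 57],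
    .use (.F true 1 [4, 15, 6, 15, 4, 7, 14]),
    .close [3, 4, 15, 6, 15, 4, 7, 14] [61, 27, 23, 26, 31, 39, 55, 50, 49, 44, 1, 2, 56, 40, 27, 23, 26, 31, 39, 55, 51, 50, 49, 44, 1, 2, 56, 40, 27, 39, 55, 51, 50, 49, 44, 1, 2, 56, 40, 27, 3, 25, 36, 27, 23, 26, 31, 39, 55, 50, 49, 44, 1, 2, 56, 40, 57, 60, 5],
    .close [3, 4, 15, 6, 15, 4, 7, 14] [61, 5], .close [3, 4, 15, 6, 15, 4, 7, 14] [61, 17],
    .lem 101 [], .close [6] [62, 0], .close [19, 22, 1, 14] [62, 2],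
    .close [6, 15, 4, 15, 2] [62, 51], .close [17, 22, 1, 14] [62, 1], .close [4, 15, 2] [62, 50],
    .close [10, 15, 6, 15, 4, 7, 14] [62, 27, 23, 26, 31, 39, 55, 50, 49, 44, 1, 2, 56, 40, 57, 60, 5, 61],
    .close [3, 6, 5, 6, 21, 22, 15, 6, 15, 4, 7, 14] [59, 58],
    .close [3, 6, 5, 6, 21, 22, 15, 6, 15, 4, 7, 14] [58, 27, 23, 26, 31, 39, 55, 51, 50, 49, 44, 1, 2, 56, 40, 3, 25, 36, 40, 27, 3, 25, 36, 5, 27, 23, 26, 31, 39, 55, 50, 49, 44, 1, 2, 56, 40, 27, 23, 26, 31, 39, 55, 51, 50, 49, 44, 1, 2, 56, 40, 27, 39, 55, 51, 50, 49, 44, 1, 2, 56, 40, 27, 3, 25, 36, 27, 23, 26, 31, 39, 55, 50, 49, 44, 1, 2, 56, 40, 57],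
    .close [0, 3, 4, 15, 0] [53, 38], .close [10, 15, 0] [53, 39], .close [10, 15, 0] [52, 39],
    .close [15, 2] [42, 41], .close [6, 3, 4, 15, 0] [38, 37], .close [6, 3, 4, 7, 0] [23, 22],
    .close [3, 0] [20, 19], .close [3, 0] [19, 18], .close [3, 4, 7, 14] [16, 15],
    .close [7, 14] [15, 14], .close [6, 1, 14] [13, 12], .close [6, 3, 4] [10, 9]])

/-- A lemma and its proof. -/
def c1113_105 : List Lit × List (Cmd Rule) :=
  ([.ord true [6] [4], .ord true [17, 22, 1, 14] [9, 14], .ord false [19, 22, 1, 14] [17, 22, 1, 14], .ord true [15, 6, 15, 6, 15, 6, 21, 22, 15, 6, 15, 4, 7, 14] [15, 6, 15, 4, 7, 14]], [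
    .lem 81 [3, 4], .lem 81 [1, 14], .lem 81 [3, 4, 15, 6, 15, 4, 7, 14], .lem 81 [7, 0],
    .lem 81 [15, 0], .lem 37 [3, 4], .close [6, 3, 4] [9, 0, 4], .lem 33 [3, 4],
    .lem 38 [3, 4, 1, 14], .close [4, 3, 4, 1, 14] [11, 5], .lem 45 [4, 1, 14],
    .close [3, 4, 1, 14] [12, 11], .lem 33 [1, 14], .lem 10 [14], .close [3, 14] [14, 13],
    .lem 44 [4, 7, 14], .lem 17 [4, 7, 14], .lem 38 [3, 4, 15, 6, 15, 4, 7, 14],
    .close [4, 3, 4, 15, 6, 15, 4, 7, 14] [17, 6], .lem 38 [7, 0], .close [4, 7, 0] [18, 7],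
    .lem 17 [0], .lem 29 [0], .lem 45 [0], .close [3, 0] [21, 18], .lem 37 [3, 4, 7, 0],
    .close [6, 3, 4, 7, 0] [22, 21, 7], .lem 33 [3, 4, 7, 0], .use (.F true 1 [4]),
    .close [3, 4] [24, 10], .close [3, 4] [24, 4], .close [3, 4] [24, 0, 4],
    .use (.F true 1 [4, 7, 0]), .close [3, 4, 7, 0] [25, 23], .close [3, 4, 7, 0] [25, 7],
    .close [3, 4, 7, 0] [25, 21, 7], .use (.F false 3 [0]), .close [] [26, 20],
    .close [3, 0] [26, 18], .close [5, 0] [26, 21], .lem 84 [], .close [6] [27, 0], .lem 85 [],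
    .close [6] [28, 0], .use (.N true 1 [7, 0]), .close [10, 7, 0] [29, 7, 23, 25], .clash 29 28,
    .clash 29 27, .use (.W true 1 3 1 [7, 0]), .clash 29 30, .lem 86 [], .close [6] [31, 0],
    .lem 87 [], .close [6] [32, 0], .use (.N true 1 []), .close [10] [33, 4, 10, 24], .clash 33 32,
    .clash 33 31, .use (.W true 1 3 0 []), .clash 33 34, .use (.W true 1 3 1 []), .clash 33 35,
    .lem 37 [3, 4, 15, 0], .close [6, 3, 4, 15, 0] [36, 4, 24, 35, 10, 24, 35, 26, 23, 25, 30, 8],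
    .lem 33 [3, 4, 15, 0], .use (.F true 1 [4, 15, 0]), .close [3, 4, 15, 0] [38, 37],
    .close [3, 4, 15, 0] [38, 8],
    .close [3, 4, 15, 0] [38, 4, 24, 35, 10, 24, 35, 26, 23, 25, 30, 8], .use (.FY false 3 [14]),
    .close [1, 14] [39, 34, 4, 24, 35], .close [3, 14] [39, 16, 14], .close [5, 14] [39, 14],
    .lem 89 [], .close [6] [40, 0], .use (.G true 2 [22, 1, 14]),
    .close [19, 22, 1, 14] [41, 39, 14, 34, 40, 1, 2], .lem 102 [], .close [6] [42, 0],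
    .lem 103 [], .close [6] [43, 0], .lem 83 [], .close [6] [44, 0], .lem 82 [],
    .close [6] [45, 0], .use (.N true 1 [15, 0]), .close [10, 15, 0] [46, 8, 37, 38], .clash 46 44,
    .clash 46 45, .use (.W true 1 3 1 [15, 0]), .clash 46 47,
    .lem 17 [6, 5, 6, 21, 22, 15, 6, 15, 4, 7, 14], .lem 29 [6, 5, 6, 21, 22, 15, 6, 15, 4, 7, 14],
    .use (.FY false 3 [6, 5, 6, 21, 22, 15, 6, 15, 4, 7, 14]),
    .close [1, 6, 5, 6, 21, 22, 15, 6, 15, 4, 7, 14] [50, 49],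
    .close [3, 6, 5, 6, 21, 22, 15, 6, 15, 4, 7, 14] [50, 26, 23, 25, 30, 38, 47, 43, 42, 4, 10, 24, 35, 40, 1, 2, 41, 39, 4, 24, 35, 39, 26, 4, 24, 35, 6, 26, 23, 25, 30, 38, 47, 42, 4, 10, 24, 35, 40, 1, 2, 41, 39, 26, 23, 25, 30, 38, 47, 43, 42, 4, 10, 24, 35, 40, 1, 2, 41, 39, 26, 38, 47, 43, 42, 4, 10, 24, 35, 40, 1, 2, 41, 39, 26, 4, 24, 35, 26, 23, 25, 30, 38, 47, 42, 4, 10, 24, 35, 40, 1, 2, 41, 39, 3],
    .close [5, 6, 5, 6, 21, 22, 15, 6, 15, 4, 7, 14] [50, 26, 23, 25, 30, 38, 47, 43, 42, 4, 10, 24, 35, 40, 1, 2, 41, 39, 4, 24, 35, 39, 26, 23, 25, 30, 38, 47, 43, 42, 4, 10, 24, 35, 40, 1, 2, 41, 39, 26, 4, 24, 35, 26, 23, 25, 30, 38, 47, 42, 4, 10, 24, 35, 40, 1, 2, 41, 39, 3],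
    .use (.F true 1 [4, 15, 6, 15, 4, 7, 14]),
    .close [3, 4, 15, 6, 15, 4, 7, 14] [51, 26, 23, 25, 30, 38, 47, 42, 4, 10, 24, 35, 40, 1, 2, 41, 39, 26, 23, 25, 30, 38, 47, 43, 42, 4, 10, 24, 35, 40, 1, 2, 41, 39, 26, 38, 47, 43, 42, 4, 10, 24, 35, 40, 1, 2, 41, 39, 26, 4, 24, 35, 26, 23, 25, 30, 38, 47, 42, 4, 10, 24, 35, 40, 1, 2, 41, 39, 3, 50, 6],
    .close [3, 4, 15, 6, 15, 4, 7, 14] [51, 6], .close [3, 4, 15, 6, 15, 4, 7, 14] [51, 17],
    .use (.W true 1 3 1 [15, 6, 15, 4, 7, 14]), .lem 97 [], .close [6] [53, 0],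
    .close [0, 3, 4, 15, 6, 15, 4, 7, 14] [53, 26, 23, 25, 30, 38, 47, 42, 4, 10, 24, 35, 40, 1, 2, 41, 39, 26, 23, 25, 30, 38, 47, 43, 42, 4, 10, 24, 35, 40, 1, 2, 41, 39, 26, 38, 47, 43, 42, 4, 10, 24, 35, 40, 1, 2, 41, 39, 26, 4, 24, 35, 26, 23, 25, 30, 38, 47, 42, 4, 10, 24, 35, 40, 1, 2, 41, 39, 3, 50, 6],
    .clash 53 52,
    .close [10, 15, 6, 15, 4, 7, 14] [52, 26, 23, 25, 30, 38, 47, 42, 4, 10, 24, 35, 40, 1, 2, 41, 39, 3, 50, 6, 51],
    .close [3, 6, 5, 6, 21, 22, 15, 6, 15, 4, 7, 14] [49, 48],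
    .close [3, 6, 5, 6, 21, 22, 15, 6, 15, 4, 7, 14] [48, 26, 23, 25, 30, 38, 47, 43, 42, 4, 10, 24, 35, 40, 1, 2, 41, 39, 4, 24, 35, 39, 26, 4, 24, 35, 6, 26, 23, 25, 30, 38, 47, 42, 4, 10, 24, 35, 40, 1, 2, 41, 39, 26, 23, 25, 30, 38, 47, 43, 42, 4, 10, 24, 35, 40, 1, 2, 41, 39, 26, 38, 47, 43, 42, 4, 10, 24, 35, 40, 1, 2, 41, 39, 26, 4, 24, 35, 26, 23, 25, 30, 38, 47, 42, 4, 10, 24, 35, 40, 1, 2, 41, 39, 3],
    .close [0, 3, 4, 15, 0] [45, 37], .close [10, 15, 0] [45, 38], .close [10, 15, 0] [44, 38],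
    .close [6, 3, 4, 15, 0] [37, 36], .close [6, 3, 4, 7, 0] [23, 22], .close [3, 0] [20, 19],
    .close [3, 0] [19, 18], .close [3, 4, 7, 14] [16, 15], .close [7, 14] [15, 14],
    .close [6, 1, 14] [13, 12], .close [6, 3, 4] [10, 9]])

/-- A lemma and its proof. -/
def c1113_106 : List Lit × List (Cmd Rule) :=
  ([.ord true [6] [4], .ord true [15, 6, 15, 6, 15, 6, 21, 22, 15, 6, 15, 4, 7, 14] [15, 6, 15, 4, 7, 14], .ord false [19, 22, 1, 14] [17, 22, 1, 14]], [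
    .lem 81 [3, 4], .lem 81 [1, 14], .lem 81 [3, 4, 15, 6, 15, 4, 7, 14], .lem 81 [7, 0],
    .lem 81 [15, 0], .lem 37 [3, 4], .close [6, 3, 4] [8, 0, 3], .lem 33 [3, 4],
    .lem 38 [3, 4, 1, 14], .close [4, 3, 4, 1, 14] [10, 4], .lem 45 [4, 1, 14],
    .close [3, 4, 1, 14] [11, 10], .lem 33 [1, 14], .lem 10 [14], .close [3, 14] [13, 12],
    .lem 44 [4, 7, 14], .lem 17 [4, 7, 14], .lem 38 [3, 4, 15, 6, 15, 4, 7, 14],
    .close [4, 3, 4, 15, 6, 15, 4, 7, 14] [16, 5], .lem 38 [7, 0], .close [4, 7, 0] [17, 6],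
    .lem 17 [0], .lem 29 [0], .lem 45 [0], .close [3, 0] [20, 17], .lem 37 [3, 4, 7, 0],
    .close [6, 3, 4, 7, 0] [21, 20, 6], .lem 33 [3, 4, 7, 0], .use (.F true 1 [4]),
    .close [3, 4] [23, 9], .close [3, 4] [23, 3], .close [3, 4] [23, 0, 3],
    .use (.F true 1 [4, 7, 0]), .close [3, 4, 7, 0] [24, 22], .close [3, 4, 7, 0] [24, 6],
    .close [3, 4, 7, 0] [24, 20, 6], .use (.F false 3 [0]), .close [] [25, 19],
    .close [3, 0] [25, 17], .close [5, 0] [25, 20], .lem 84 [], .close [6] [26, 0], .lem 85 [],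
    .close [6] [27, 0], .use (.N true 1 [7, 0]), .close [10, 7, 0] [28, 6, 22, 24], .clash 28 27,
    .clash 28 26, .use (.W true 1 3 1 [7, 0]), .clash 28 29, .lem 86 [], .close [6] [30, 0],
    .lem 87 [], .close [6] [31, 0], .use (.N true 1 []), .close [10] [32, 3, 9, 23], .clash 32 31,
    .clash 32 30, .use (.W true 1 3 0 []), .clash 32 33, .use (.W true 1 3 1 []), .clash 32 34,
    .lem 37 [3, 4, 15, 0], .close [6, 3, 4, 15, 0] [35, 3, 23, 34, 9, 23, 34, 25, 22, 24, 29, 7],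
    .lem 33 [3, 4, 15, 0], .use (.F true 1 [4, 15, 0]), .close [3, 4, 15, 0] [37, 36],
    .close [3, 4, 15, 0] [37, 7],
    .close [3, 4, 15, 0] [37, 3, 23, 34, 9, 23, 34, 25, 22, 24, 29, 7], .use (.FY false 3 [14]),
    .close [1, 14] [38, 33, 3, 23, 34], .close [3, 14] [38, 15, 13], .close [5, 14] [38, 13],
    .lem 102 [], .close [6] [39, 0], .lem 103 [], .close [6] [40, 0], .lem 83 [],
    .close [6] [41, 0], .lem 82 [], .close [6] [42, 0], .use (.N true 1 [15, 0]),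
    .close [10, 15, 0] [43, 7, 36, 37], .clash 43 41, .clash 43 42, .use (.W true 1 3 1 [15, 0]),
    .clash 43 44, .lem 105 [], .close [6] [45, 0], .use (.G true 0 [22, 1, 14]),
    .use (.G true 2 [22, 1, 14]), .close [19, 22, 1, 14] [47, 38, 13, 33, 3, 23, 34, 46, 2],
    .lem 17 [6, 5, 6, 21, 22, 15, 6, 15, 4, 7, 14], .lem 29 [6, 5, 6, 21, 22, 15, 6, 15, 4, 7, 14],
    .use (.FY false 3 [6, 5, 6, 21, 22, 15, 6, 15, 4, 7, 14]),
    .close [1, 6, 5, 6, 21, 22, 15, 6, 15, 4, 7, 14] [50, 49],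
    .close [3, 6, 5, 6, 21, 22, 15, 6, 15, 4, 7, 14] [50, 25, 22, 24, 29, 37, 44, 40, 39, 3, 9, 23, 34, 3, 23, 34, 46, 2, 47, 38, 3, 23, 34, 38, 25, 22, 24, 29, 7, 37, 44, 40, 39, 3, 9, 23, 34, 3, 23, 34, 46, 2, 47, 38, 25, 3, 23, 34, 25, 22, 24, 29, 37, 44, 39, 3, 9, 23, 34, 3, 23, 34, 46, 2, 47, 38, 1],
    .close [5, 6, 5, 6, 21, 22, 15, 6, 15, 4, 7, 14] [50, 25, 22, 24, 29, 37, 44, 40, 39, 3, 9, 23, 34, 3, 23, 34, 46, 2, 47, 38, 3, 23, 34, 38, 25, 22, 24, 29, 37, 44, 40, 39, 3, 9, 23, 34, 3, 23, 34, 46, 2, 47, 38, 25, 3, 23, 34, 25, 22, 24, 29, 37, 44, 39, 3, 9, 23, 34, 3, 23, 34, 46, 2, 47, 38, 1],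
    .use (.F true 1 [4, 15, 6, 15, 4, 7, 14]),
    .close [3, 4, 15, 6, 15, 4, 7, 14] [51, 25, 22, 24, 29, 37, 44, 39, 3, 9, 23, 34, 3, 23, 34, 46, 2, 47, 38, 25, 22, 24, 29, 37, 44, 40, 39, 3, 9, 23, 34, 3, 23, 34, 46, 2, 47, 38, 25, 37, 44, 40, 39, 3, 9, 23, 34, 3, 23, 34, 46, 2, 47, 38, 25, 3, 23, 34, 25, 22, 24, 29, 37, 44, 39, 3, 9, 23, 34, 3, 23, 34, 46, 2, 47, 38, 1, 50, 5],
    .close [3, 4, 15, 6, 15, 4, 7, 14] [51, 5], .close [3, 4, 15, 6, 15, 4, 7, 14] [51, 16],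
    .lem 100 [], .close [6] [52, 0], .close [17, 22, 1, 14] [52, 46],
    .close [6, 15, 4, 15, 2] [52, 40], .close [4, 15, 2] [52, 39],
    .close [10, 15, 6, 15, 4, 7, 14] [52, 25, 22, 24, 29, 37, 44, 39, 3, 9, 23, 34, 3, 23, 34, 46, 2, 47, 38, 1, 50, 5, 51],
    .close [3, 6, 5, 6, 21, 22, 15, 6, 15, 4, 7, 14] [49, 48],
    .close [3, 6, 5, 6, 21, 22, 15, 6, 15, 4, 7, 14] [48, 25, 22, 24, 29, 37, 44, 40, 39, 3, 9, 23, 34, 3, 23, 34, 46, 2, 47, 38, 3, 23, 34, 38, 25, 22, 24, 29, 7, 37, 44, 40, 39, 3, 9, 23, 34, 3, 23, 34, 46, 2, 47, 38, 25, 3, 23, 34, 25, 22, 24, 29, 37, 44, 39, 3, 9, 23, 34, 3, 23, 34, 46, 2, 47, 38, 1],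
    .close [9, 14] [46, 45], .close [19, 22, 1, 14] [45, 2],
    .close [15, 6, 15, 6, 15, 6, 21, 22, 15, 6, 15, 4, 7, 14] [45, 1],
    .close [0, 3, 4, 15, 0] [42, 36], .close [10, 15, 0] [42, 37], .close [10, 15, 0] [41, 37],
    .close [6, 3, 4, 15, 0] [36, 35], .close [6, 3, 4, 7, 0] [22, 21], .close [3, 0] [19, 18],
    .close [3, 0] [18, 17], .close [3, 4, 7, 14] [15, 14], .close [7, 14] [14, 13],
    .close [6, 1, 14] [12, 11], .close [6, 3, 4] [9, 8]])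

/-- A lemma and its proof. -/
def c1113_107 : List Lit × List (Cmd Rule) :=
  ([.ord true [6] [4], .ord false [19, 22, 1, 14] [17, 22, 1, 14]], [
    .lem 81 [3, 4], .lem 81 [1, 14], .lem 81 [7, 0], .lem 37 [3, 4], .close [6, 3, 4] [5, 0, 2],
    .lem 33 [3, 4], .lem 38 [3, 4, 1, 14], .close [4, 3, 4, 1, 14] [7, 3], .lem 45 [4, 1, 14],
    .close [3, 4, 1, 14] [8, 7], .lem 33 [1, 14], .lem 10 [14], .close [3, 14] [10, 9],
    .lem 44 [4, 7, 14], .lem 17 [4, 7, 14], .lem 38 [7, 0], .close [4, 7, 0] [13, 4], .lem 17 [0],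
    .lem 29 [0], .lem 45 [0], .close [3, 0] [16, 13], .use (.F true 1 [4]), .close [3, 4] [17, 6],
    .close [3, 4] [17, 2], .close [3, 4] [17, 0, 2], .use (.F false 3 [0]), .close [] [18, 15],
    .close [3, 0] [18, 13], .close [5, 0] [18, 16], .lem 86 [], .close [6] [19, 0], .lem 87 [],
    .close [6] [20, 0], .use (.N true 1 []), .close [10] [21, 2, 6, 17], .clash 21 20,
    .clash 21 19, .use (.W true 1 3 0 []), .clash 21 22, .use (.W true 1 3 1 []), .clash 21 23,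
    .use (.FY false 3 [14]), .close [1, 14] [24, 22, 2, 17, 23], .close [3, 14] [24, 12, 10],
    .close [5, 14] [24, 10], .lem 106 [], .close [6] [25, 0],
    .use (.G false 3 [22, 15, 6, 15, 4, 7, 14]),
    .close [15, 6, 15, 4, 7, 14] [10, 2, 17, 23, 24, 10, 18, 2, 17, 23, 26, 2, 17, 23, 24, 10, 18, 2, 17, 23, 26, 10, 6, 17, 23, 18, 2, 17, 23, 26, 25],
    .close [15, 6, 15, 4, 7, 14] [26, 25], .close [19, 22, 1, 14] [25, 1], .close [3, 0] [15, 14],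
    .close [3, 0] [14, 13], .close [3, 4, 7, 14] [12, 11], .close [7, 14] [11, 10],
    .close [6, 1, 14] [9, 8], .close [6, 3, 4] [6, 5]])

/-- A lemma and its proof. -/
def c1113_108 : List Lit × List (Cmd Rule) :=
  ([.ord true [6] [4]], [
    .lem 81 [3, 4], .lem 81 [1, 14], .lem 81 [3, 4, 15, 6, 15, 4, 7, 14], .lem 81 [7, 0],
    .lem 81 [15, 0], .lem 81 [3, 4, 15, 2], .lem 37 [3, 4], .close [6, 3, 4] [7, 0, 1],
    .lem 33 [3, 4], .lem 38 [3, 4, 1, 14], .close [4, 3, 4, 1, 14] [9, 2], .lem 45 [4, 1, 14],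
    .close [3, 4, 1, 14] [10, 9], .lem 33 [1, 14], .lem 10 [14], .close [3, 14] [12, 11],
    .lem 44 [4, 7, 14], .lem 17 [4, 7, 14], .lem 38 [3, 4, 15, 6, 15, 4, 7, 14],
    .close [4, 3, 4, 15, 6, 15, 4, 7, 14] [15, 3], .lem 38 [7, 0], .close [4, 7, 0] [16, 4],
    .lem 17 [0], .lem 29 [0], .lem 45 [0], .close [3, 0] [19, 16], .lem 37 [3, 4, 7, 0],
    .close [6, 3, 4, 7, 0] [20, 19, 4], .lem 33 [3, 4, 7, 0], .lem 38 [3, 4, 15, 2],
    .close [4, 3, 4, 15, 2] [22, 6], .use (.F true 1 [4]), .close [3, 4] [23, 8],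
    .close [3, 4] [23, 1], .close [3, 4] [23, 0, 1], .use (.F true 1 [4, 7, 0]),
    .close [3, 4, 7, 0] [24, 21], .close [3, 4, 7, 0] [24, 4], .close [3, 4, 7, 0] [24, 19, 4],
    .use (.F false 3 [0]), .close [] [25, 18], .close [3, 0] [25, 16], .close [5, 0] [25, 19],
    .lem 84 [], .close [6] [26, 0], .lem 85 [], .close [6] [27, 0], .use (.N true 1 [7, 0]),
    .close [10, 7, 0] [28, 4, 21, 24], .clash 28 27, .clash 28 26, .use (.W true 1 3 1 [7, 0]),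
    .clash 28 29, .lem 86 [], .close [6] [30, 0], .lem 87 [], .close [6] [31, 0],
    .use (.N true 1 []), .close [10] [32, 1, 8, 23], .clash 32 31, .clash 32 30,
    .use (.W true 1 3 0 []), .clash 32 33, .use (.W true 1 3 1 []), .clash 32 34,
    .lem 37 [3, 4, 15, 0], .close [6, 3, 4, 15, 0] [35, 1, 23, 34, 8, 23, 34, 25, 21, 24, 29, 5],
    .lem 33 [3, 4, 15, 0], .use (.F true 1 [4, 15, 0]), .close [3, 4, 15, 0] [37, 36],
    .close [3, 4, 15, 0] [37, 5],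
    .close [3, 4, 15, 0] [37, 1, 23, 34, 8, 23, 34, 25, 21, 24, 29, 5], .use (.FY false 3 [14]),
    .close [1, 14] [38, 33, 1, 23, 34], .close [3, 14] [38, 14, 12], .close [5, 14] [38, 12],
    .lem 88 [], .close [6] [39, 0], .lem 26 [4, 15, 2], .use (.F true 1 [4, 15, 2]),
    .close [3, 4, 15, 2] [41, 40], .close [3, 4, 15, 2] [41, 6], .close [3, 4, 15, 2] [41, 22],
    .lem 90 [], .close [6] [42, 0], .lem 91 [], .close [6] [43, 0], .use (.N true 1 [15, 2]),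
    .close [10, 15, 2] [44, 6, 40, 41], .clash 44 42, .clash 44 43, .use (.W true 1 3 0 [15, 2]),
    .clash 44 45, .use (.W true 1 3 1 [15, 2]), .clash 44 46, .lem 102 [], .close [6] [47, 0],
    .lem 103 [], .close [6] [48, 0], .lem 107 [], .close [6] [49, 0], .use (.G true 1 [22, 1, 14]),
    .close [17, 22, 1, 14] [50, 49], .lem 83 [], .close [6] [51, 0], .lem 104 [],
    .close [6] [52, 0], .use (.G true 0 [22, 1, 14]), .lem 82 [], .close [6] [54, 0],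
    .use (.N true 1 [15, 0]), .close [10, 15, 0] [55, 5, 36, 37], .clash 55 51, .clash 55 54,
    .use (.W true 1 3 1 [15, 0]), .clash 55 56, .use (.G true 2 [22, 1, 14]),
    .close [19, 22, 1, 14] [57, 38, 25, 21, 24, 29, 37, 56, 45, 46, 1, 23, 34, 53, 50],
    .use (.G false 3 [22, 15, 6, 15, 4, 7, 14]),
    .close [15, 6, 15, 4, 7, 14] [58, 25, 21, 24, 29, 37, 56, 48, 47, 46, 1, 23, 34, 53, 50, 57, 38, 1, 23, 34, 38, 12, 25, 1, 23, 34],
    .lem 17 [6, 5, 6, 21, 22, 15, 6, 15, 4, 7, 14], .lem 29 [6, 5, 6, 21, 22, 15, 6, 15, 4, 7, 14],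
    .use (.FY false 3 [6, 5, 6, 21, 22, 15, 6, 15, 4, 7, 14]),
    .close [1, 6, 5, 6, 21, 22, 15, 6, 15, 4, 7, 14] [61, 60],
    .close [3, 6, 5, 6, 21, 22, 15, 6, 15, 4, 7, 14] [61, 25, 21, 24, 29, 37, 56, 48, 47, 46, 1, 23, 34, 53, 50, 57, 38, 1, 23, 34, 38, 25, 1, 23, 34, 3, 25, 21, 24, 29, 37, 56, 47, 46, 1, 23, 34, 53, 50, 57, 38, 25, 21, 24, 29, 37, 56, 48, 47, 46, 1, 23, 34, 53, 50, 57, 38, 25, 37, 56, 48, 47, 46, 1, 23, 34, 53, 50, 57, 38, 25, 1, 23, 34, 25, 21, 24, 29, 37, 56, 47, 46, 1, 23, 34, 53, 50, 57, 38, 58],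
    .close [5, 6, 5, 6, 21, 22, 15, 6, 15, 4, 7, 14] [61, 25, 21, 24, 29, 37, 56, 48, 47, 46, 1, 23, 34, 53, 50, 57, 38, 1, 23, 34, 38, 25, 21, 24, 29, 37, 56, 48, 47, 46, 1, 23, 34, 53, 50, 57, 38, 25, 1, 23, 34, 25, 21, 24, 29, 37, 56, 47, 46, 1, 23, 34, 53, 50, 57, 38, 58],
    .use (.F true 1 [4, 15, 6, 15, 4, 7, 14]),
    .close [3, 4, 15, 6, 15, 4, 7, 14] [62, 25, 21, 24, 29, 37, 56, 47, 46, 1, 23, 34, 53, 50, 57, 38, 25, 21, 24, 29, 37, 56, 48, 47, 46, 1, 23, 34, 53, 50, 57, 38, 25, 37, 56, 48, 47, 46, 1, 23, 34, 53, 50, 57, 38, 25, 1, 23, 34, 25, 21, 24, 29, 37, 56, 47, 46, 1, 23, 34, 53, 50, 57, 38, 58, 61, 3],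
    .close [3, 4, 15, 6, 15, 4, 7, 14] [62, 3], .close [3, 4, 15, 6, 15, 4, 7, 14] [62, 15],
    .lem 100 [], .close [6] [63, 0], .close [17, 22, 1, 14] [63, 53],
    .close [6, 15, 4, 15, 2] [63, 48], .close [4, 15, 2] [63, 47],
    .close [10, 15, 6, 15, 4, 7, 14] [63, 25, 21, 24, 29, 37, 56, 47, 46, 1, 23, 34, 53, 50, 57, 38, 58, 61, 3, 62],
    .close [3, 6, 5, 6, 21, 22, 15, 6, 15, 4, 7, 14] [60, 59],
    .close [3, 6, 5, 6, 21, 22, 15, 6, 15, 4, 7, 14] [59, 25, 21, 24, 29, 37, 56, 48, 47, 46, 1, 23, 34, 53, 50, 57, 38, 1, 23, 34, 38, 25, 1, 23, 34, 3, 25, 21, 24, 29, 37, 56, 47, 46, 1, 23, 34, 53, 50, 57, 38, 25, 21, 24, 29, 37, 56, 48, 47, 46, 1, 23, 34, 53, 50, 57, 38, 25, 37, 56, 48, 47, 46, 1, 23, 34, 53, 50, 57, 38, 25, 1, 23, 34, 25, 21, 24, 29, 37, 56, 47, 46, 1, 23, 34, 53, 50, 57, 38, 58],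
    .close [0, 3, 4, 15, 0] [54, 36], .close [10, 15, 0] [54, 37], .close [9, 14] [53, 52],
    .close [19, 22, 1, 14] [52, 50], .close [10, 15, 0] [51, 37], .close [15, 2] [40, 39],
    .close [6, 3, 4, 15, 0] [36, 35], .close [6, 3, 4, 7, 0] [21, 20], .close [3, 0] [18, 17],
    .close [3, 0] [17, 16], .close [3, 4, 7, 14] [14, 13], .close [7, 14] [13, 12],
    .close [6, 1, 14] [11, 10], .close [6, 3, 4] [8, 7]])

/-- A lemma and its proof. -/
def c1113_109 : List Lit × List (Cmd Rule) :=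
  ([], [
    .lem 38 [], .lem 81 [], .close [4] [0, 1], .lem 45 [2], .close [7, 2] [0, 1], .lem 108 [7, 2],
    .close [7, 2] [1, 2]])

/-- The lemmas. -/
def c1113 : List (List Lit × List (Cmd Rule)) := [
  c1113_0, c1113_1, c1113_2, c1113_3, c1113_4, c1113_5, c1113_6, c1113_7, c1113_8, c1113_9,
  c1113_10, c1113_11, c1113_12, c1113_13, c1113_14, c1113_15, c1113_16, c1113_17, c1113_18,
  c1113_19, c1113_20, c1113_21, c1113_22, c1113_23, c1113_24, c1113_25, c1113_26, c1113_27,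
  c1113_28, c1113_29, c1113_30, c1113_31, c1113_32, c1113_33, c1113_34, c1113_35, c1113_36,
  c1113_37, c1113_38, c1113_39, c1113_40, c1113_41, c1113_42, c1113_43, c1113_44, c1113_45,
  c1113_46, c1113_47, c1113_48, c1113_49, c1113_50, c1113_51, c1113_52, c1113_53, c1113_54,
  c1113_55, c1113_56, c1113_57, c1113_58, c1113_59, c1113_60, c1113_61, c1113_62, c1113_63,
  c1113_64, c1113_65, c1113_66, c1113_67, c1113_68, c1113_69, c1113_70, c1113_71, c1113_72,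
  c1113_73, c1113_74, c1113_75, c1113_76, c1113_77, c1113_78, c1113_79, c1113_80, c1113_81,
  c1113_82, c1113_83, c1113_84, c1113_85, c1113_86, c1113_87, c1113_88, c1113_89, c1113_90,
  c1113_91, c1113_92, c1113_93, c1113_94, c1113_95, c1113_96, c1113_97, c1113_98, c1113_99,
  c1113_100, c1113_101, c1113_102, c1113_103, c1113_104, c1113_105, c1113_106, c1113_107,
  c1113_108, c1113_109]

theorem c1113_check : checkAll (cl 4 (fun k => [1, 1, 1, 3].getD k 0)) [] c1113 = true := by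
  decide +kernel

theorem c1113_mem : ([] : List Lit) ∈ c1113.map Prod.fst :=
  List.mem_of_getElem? (i := 109) rfl

end Pool.Agent.Helper31.RING
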