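import Mathlib
import Pool.Agent.Helper31.RING.Ring

/-!
A certificate.
-/

set_option autoImplicit false

namespace Pool.Agent.Helper31.RING

/-- A lemma and its proof. -/
def c1122_0 : List Lit × List (Cmd Rule) :=
  ([.ord true [3] [1], .ord true [5] [3], .ord true [7] [5], .walk false false 0 1 [3], .ord true [6, 1] [8, 3], .ord false [] [6, 1]], [
    .use (.W false 0 1 0 [3]), .clash 3 6, .use (.W false 0 1 1 [3]), .clash 3 7,
    .close [10, 3] [7, 4, 5, 6]])

/-- A lemma and its proof. -/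
def c1122_1 : List Lit × List (Cmd Rule) :=
  ([.ord true [3] [1], .ord true [5] [3], .ord true [7] [5], .ord true [14, 1] []], [
    .use (.M false 3 [1]), .close [14, 1] [4, 3], .close [14, 1] [4, 0, 3],
    .close [14, 1] [4, 0, 1, 3], .close [14, 1] [4, 0, 1, 2, 3]])

/-- A lemma and its proof. -/
def c1122_2 : List Lit × List (Cmd Rule) :=
  ([.ord true [3] [1], .ord true [5] [3], .ord true [7] [5]], [
    .use (.F false 0 []), .close [3] [3, 0], .close [5] [3, 0, 1], .close [7] [3, 0, 1, 2],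
    .use (.F true 3 []), .close [7] [4, 0, 1, 2], .close [7] [4, 1, 2], .close [7] [4, 2],
    .lem 1 [], .close [3] [5, 0], .close [5] [5, 1], .close [7] [5, 2], .use (.W false 0 3 1 [3]),
    .use (.W true 3 0 1 [1]), .lem 0 [], .close [3] [8, 0], .close [5] [8, 1], .close [7] [8, 2],
    .use (.N false 0 [3]), .close [0, 3] [9, 3, 5, 2, 4, 5, 0], .clash 9 8,
    .use (.W false 0 2 1 [3]), .clash 9 10, .use (.W true 3 2 1 [1]), .use (.N true 3 [1]),
    .close [14, 1] [12, 5, 2, 4], .clash 12 7, .use (.C false true 3 1 [1] false 0 2 [3]),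
    .clash 12 13, .clash 9 13, .close [3] [13, 0], .close [14, 1] [13, 3, 5, 2, 4], .clash 12 11,
    .close [14, 1] [11, 0, 10, 3, 5, 2, 4], .clash 9 6, .close [6, 1] [8, 3],
    .close [] [8, 5, 2, 4, 5], .close [14, 1] [7, 0, 3, 5, 2, 4], .close [14, 3] [6, 3, 5, 2, 4, 0]])

/-- A lemma and its proof. -/
def c1122_3 : List Lit × List (Cmd Rule) :=
  ([.ord true [5] [1], .ord true [3] [5], .ord true [7] [3], .walk false false 0 1 [3], .ord false [] [6, 1], .ord true [9, 6, 1] [3]], [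
    .use (.W false 0 1 0 [3]), .clash 3 6, .use (.W false 0 1 1 [3]), .clash 3 7,
    .close [10, 3] [7, 5, 4, 6]])

/-- A lemma and its proof. -/
def c1122_4 : List Lit × List (Cmd Rule) :=
  ([.ord true [5] [1], .ord true [3] [5], .ord true [7] [3], .walk false false 0 3 [3], .ord true [9, 6, 1] [3]], [
    .use (.W false 0 3 0 [3]), .clash 3 5, .use (.W false 0 3 1 [3]), .clash 3 6,
    .close [14, 3] [6, 4, 0, 1, 5]])

/-- A lemma and its proof. -/
def c1122_5 : List Lit × List (Cmd Rule) :=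
  ([.ord true [5] [1], .ord true [3] [5], .ord true [7] [3]], [
    .lem 2 [], .close [3] [3, 0, 1], .use (.F false 0 []), .close [3] [4, 0, 1], .close [5] [4, 0],
    .close [7] [4, 0, 1, 2], .lem 4 [], .close [5] [5, 0], .close [3] [5, 1], .close [7] [5, 2],
    .lem 3 [], .close [5] [6, 0], .close [3] [6, 1], .close [7] [6, 2], .use (.N false 0 [3]),
    .close [0, 3] [7, 4, 0, 3, 2, 0, 1], .clash 7 6, .use (.W false 0 2 0 [3]), .clash 7 8,
    .use (.W false 0 2 1 [3]), .clash 7 9, .close [12, 3] [9, 4, 0, 1, 2, 3, 8], .clash 7 5,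
    .close [] [6, 0, 3, 2], .close [9, 6, 1] [6, 4], .close [9, 6, 1] [5, 4], .close [7] [3, 1, 2]])

/-- A lemma and its proof. -/
def c1122_6 : List Lit × List (Cmd Rule) :=
  ([.ord true [7] [1], .ord true [3] [7], .ord true [7] [5], .walk false true 1 0 [5]], [
    .use (.W true 1 0 0 [5]), .clash 3 4, .use (.W true 1 0 1 [5]), .clash 3 5,
    .use (.F true 1 []), .close [3] [6, 0, 1], .close [3] [6, 2, 1], .close [3] [6, 1],
    .close [11, 0, 3] [6, 5, 4, 2, 1]])

/-- A lemma and its proof. -/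
def c1122_7 : List Lit × List (Cmd Rule) :=
  ([.ord true [7] [1], .ord true [3] [7], .ord true [7] [5], .walk false true 1 2 [5]], [
    .use (.W true 1 2 0 [5]), .clash 3 4, .use (.W true 1 2 1 [5]), .clash 3 5,
    .use (.F true 1 []), .close [3] [6, 0, 1], .close [3] [6, 2, 1], .close [3] [6, 1],
    .close [11, 0, 3] [6, 5, 4, 0, 1]])

/-- A lemma and its proof. -/
def c1122_8 : List Lit × List (Cmd Rule) :=
  ([.ord true [7] [1], .ord true [3] [7], .ord true [7] [5]], [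
    .lem 2 [], .close [3] [3, 0, 1], .use (.F true 1 []), .close [3] [4, 0, 1],
    .close [3] [4, 2, 1], .close [3] [4, 1], .lem 6 [], .close [7] [5, 0], .close [3] [5, 1],
    .close [7] [5, 2], .lem 7 [], .close [7] [6, 0], .close [3] [6, 1], .close [7] [6, 2],
    .use (.N true 1 [5]), .close [10, 5] [7, 3, 0, 1, 4], .clash 7 5, .clash 7 6,
    .use (.W true 1 3 0 [5]), .clash 7 8, .use (.W true 1 3 1 [5]), .clash 7 9,
    .close [10, 5] [9, 8, 2, 0, 1, 4], .close [7] [3, 2]])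

/-- A lemma and its proof. -/
def c1122_9 : List Lit × List (Cmd Rule) :=
  ([.ord true [7] [1], .ord true [3] [5], .ord true [5] [7], .walk false false 0 1 [9, 6, 1], .ord true [9, 6, 1] [3]], [
    .use (.W false 0 1 0 [9, 6, 1]), .clash 3 5, .use (.W false 0 1 1 [9, 6, 1]), .clash 3 6,
    .close [10, 9, 6, 1] [6, 0, 4, 5]])

/-- A lemma and its proof. -/
def c1122_10 : List Lit × List (Cmd Rule) :=
  ([.ord true [7] [1], .ord true [3] [5], .ord true [5] [7], .walk false false 0 2 [9, 6, 1], .ord true [9, 6, 1] [3]], [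
    .use (.W false 0 2 0 [9, 6, 1]), .clash 3 5, .use (.W false 0 2 1 [9, 6, 1]), .clash 3 6,
    .close [12, 9, 6, 1] [6, 0, 1, 4, 5]])

/-- A lemma and its proof. -/
def c1122_11 : List Lit × List (Cmd Rule) :=
  ([.ord true [7] [1], .ord true [3] [5], .ord true [5] [7], .ord false [3] [1], .ord true [9, 6, 1] [3]], [
    .lem 9 [], .close [7] [5, 0], .close [3] [5, 1], .close [5] [5, 2], .lem 10 [],
    .close [7] [6, 0], .close [3] [6, 1], .close [5] [6, 2], .use (.N false 0 [9, 6, 1]),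
    .close [0, 9, 6, 1] [7, 0, 3, 4], .clash 7 5, .clash 7 6, .use (.W false 0 3 0 [9, 6, 1]),
    .clash 7 8, .use (.W false 0 3 1 [9, 6, 1]), .clash 7 9, .close [14, 9, 6, 1] [9, 3, 4, 8],
    .close [9, 6, 1] [6, 4], .close [9, 6, 1] [5, 4]])

/-- A lemma and its proof. -/
def c1122_12 : List Lit × List (Cmd Rule) :=
  ([.ord true [7] [1], .ord true [3] [5], .ord true [5] [7]], [
    .use (.F false 0 []), .close [3] [3, 0, 2, 1], .close [5] [3, 0, 2], .close [7] [3, 0],
    .lem 11 [], .close [7] [4, 0], .close [3] [4, 1], .close [5] [4, 2], .lem 2 [],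
    .close [3] [5, 0, 2, 1], .close [5] [5, 4, 0, 2], .close [7] [5, 1, 4, 0],
    .close [9, 6, 1] [4, 3]])

/-- A lemma and its proof. -/
def c1122_13 : List Lit × List (Cmd Rule) :=
  ([.ord true [3] [1], .ord true [1] [7], .ord true [7] [5], .walk false true 1 2 [5], .ord true [5] [11, 0, 3]], [
    .use (.W true 1 2 0 [5]), .clash 3 5, .use (.W true 1 2 1 [5]), .clash 3 6,
    .close [10, 5] [6, 5, 0, 4]])

/-- A lemma and its proof. -/
def c1122_14 : List Lit × List (Cmd Rule) :=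
  ([.ord true [3] [1], .ord true [1] [7], .ord true [7] [5], .walk false true 1 3 [5], .ord true [5] [11, 0, 3]], [
    .use (.W true 1 3 0 [5]), .clash 3 5, .use (.W true 1 3 1 [5]), .clash 3 6,
    .close [10, 5] [6, 5, 2, 0, 4]])

/-- A lemma and its proof. -/
def c1122_15 : List Lit × List (Cmd Rule) :=
  ([.ord true [3] [1], .ord true [1] [7], .ord true [7] [5]], [
    .lem 8 [], .use (.F true 1 []), .close [3] [4, 0], .close [3] [4, 2, 1, 0],
    .close [3] [4, 1, 0], .lem 13 [], .close [3] [5, 0], .close [1] [5, 1], .close [7] [5, 2],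
    .lem 14 [], .close [3] [6, 0], .close [1] [6, 1], .close [7] [6, 2], .use (.N true 1 [5]),
    .close [10, 5] [7, 2, 3, 0, 0, 4], .use (.W true 1 0 0 [5]), .clash 7 8,
    .use (.W true 1 0 1 [5]), .clash 7 9, .close [10, 5] [9, 8, 2, 3, 0, 4], .clash 7 5,
    .clash 7 6, .close [5] [6, 4], .close [5] [5, 4], .close [3] [3, 1, 0], .close [7] [3, 2]])

/-- A lemma and its proof. -/
def c1122_16 : List Lit × List (Cmd Rule) :=
  ([.ord true [1] [3], .ord true [7] [1], .ord true [5] [7], .walk false false 1 2 [5], .ord true [11, 0, 3] [5]], [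
    .use (.W false 1 2 0 [5]), .clash 3 5, .use (.W false 1 2 1 [5]), .clash 3 6,
    .close [12, 5] [6, 4, 0, 5]])

/-- A lemma and its proof. -/
def c1122_17 : List Lit × List (Cmd Rule) :=
  ([.ord true [1] [3], .ord true [7] [1], .ord true [5] [7], .walk false false 1 3 [5], .ord true [11, 0, 3] [5]], [
    .use (.W false 1 3 0 [5]), .clash 3 5, .use (.W false 1 3 1 [5]), .clash 3 6,
    .close [14, 5] [6, 4, 0, 2, 5]])

/-- A lemma and its proof. -/
def c1122_18 : List Lit × List (Cmd Rule) :=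
  ([.ord true [1] [3], .ord true [7] [1], .ord true [5] [7], .ord true [3] [5]], [
    .lem 8 [], .close [7] [4, 1], .close [3] [4, 2, 3], .close [7] [4, 3, 0, 1]])

/-- A lemma and its proof. -/
def c1122_19 : List Lit × List (Cmd Rule) :=
  ([.ord true [1] [3], .ord true [7] [1], .ord true [5] [7]], [
    .use (.F false 1 []), .close [1] [3, 0], .close [5] [3, 0, 1, 2], .close [7] [3, 0, 1],
    .lem 18 [], .close [1] [4, 0], .close [7] [4, 1], .close [5] [4, 2], .lem 16 [],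
    .close [1] [5, 0], .close [7] [5, 1], .close [5] [5, 2], .lem 17 [], .close [1] [6, 0],
    .close [7] [6, 1], .close [5] [6, 2], .use (.N false 1 [5]), .close [2, 5] [7, 3, 0, 4],
    .use (.W false 1 0 0 [5]), .clash 7 8, .use (.W false 1 0 1 [5]), .clash 7 9,
    .close [8, 5] [9, 3, 4, 8], .clash 7 5, .clash 7 6, .close [11, 0, 3] [6, 3],
    .close [11, 0, 3] [5, 3]])

/-- A lemma and its proof. -/
def c1122_20 : List Lit × List (Cmd Rule) :=
  ([.ord true [5] [1], .ord true [1] [7], .ord true [7] [3], .walk false false 1 2 [5], .ord true [11, 0, 3] [5]], [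
    .use (.W false 1 2 0 [5]), .clash 3 5, .use (.W false 1 2 1 [5]), .clash 3 6,
    .close [12, 5] [6, 4, 2, 1, 5]])

/-- A lemma and its proof. -/
def c1122_21 : List Lit × List (Cmd Rule) :=
  ([.ord true [5] [1], .ord true [1] [7], .ord true [7] [3], .walk false false 1 3 [5], .ord true [11, 0, 3] [5]], [
    .use (.W false 1 3 0 [5]), .clash 3 5, .use (.W false 1 3 1 [5]), .clash 3 6,
    .close [14, 5] [6, 4, 2, 1, 1, 0, 5]])

/-- A lemma and its proof. -/
def c1122_22 : List Lit × List (Cmd Rule) :=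
  ([.ord true [5] [1], .ord true [1] [7], .ord true [7] [3], .ord true [3] [5]], [
    .lem 15 [], .close [3] [4, 0, 3], .close [1] [4, 1], .close [7] [4, 3, 2]])

/-- A lemma and its proof. -/
def c1122_23 : List Lit × List (Cmd Rule) :=
  ([.ord true [5] [1], .ord true [1] [7], .ord true [7] [3]], [
    .use (.F false 1 []), .close [1] [3, 2, 1], .close [5] [3, 2, 1, 0], .close [7] [3, 2],
    .lem 22 [], .close [5] [4, 0], .close [1] [4, 1], .close [7] [4, 2], .lem 20 [],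
    .close [5] [5, 0], .close [1] [5, 1], .close [7] [5, 2], .lem 21 [], .close [5] [6, 0],
    .close [1] [6, 1], .close [7] [6, 2], .use (.N false 1 [5]), .close [2, 5] [7, 3, 2, 1, 4],
    .use (.W false 1 0 0 [5]), .clash 7 8, .use (.W false 1 0 1 [5]), .clash 7 9,
    .close [8, 5] [9, 3, 4, 8], .clash 7 5, .clash 7 6, .close [11, 0, 3] [6, 3],
    .close [11, 0, 3] [5, 3]])

/-- A lemma and its proof. -/
def c1122_24 : List Lit × List (Cmd Rule) :=
  ([.ord true [1] [7], .ord true [5] [3], .ord true [7] [5], .walk false true 0 3 [9, 6, 1], .ord false [1] [3], .ord true [3] [9, 6, 1]], [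
    .use (.W true 0 3 0 [9, 6, 1]), .clash 3 6, .use (.W true 0 3 1 [9, 6, 1]), .clash 3 7,
    .close [6, 1] [7, 6, 5, 4]])

/-- A lemma and its proof. -/
def c1122_25 : List Lit × List (Cmd Rule) :=
  ([.ord true [1] [7], .ord true [5] [3], .ord true [7] [5], .walk false true 0 2 [9, 6, 1], .ord true [3] [9, 6, 1]], [
    .use (.W true 0 2 0 [9, 6, 1]), .clash 3 5, .use (.W true 0 2 1 [9, 6, 1]), .clash 3 6,
    .close [6, 1] [6, 5, 4, 1, 0]])

/-- A lemma and its proof. -/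
def c1122_26 : List Lit × List (Cmd Rule) :=
  ([.ord true [1] [7], .ord true [5] [3], .ord true [7] [5]], [
    .lem 23 [], .use (.F true 0 []), .close [1] [4, 1, 2, 0], .close [1] [4, 2, 0],
    .close [1] [4, 0], .lem 25 [], .close [1] [5, 0], .close [5] [5, 1], .close [7] [5, 2],
    .lem 24 [], .close [1] [6, 0], .close [5] [6, 1], .close [7] [6, 2],
    .use (.N true 0 [9, 6, 1]), .close [6, 1] [7, 4, 1, 3, 0], .use (.W true 0 1 0 [9, 6, 1]),
    .clash 7 8, .use (.W true 0 1 1 [9, 6, 1]), .clash 7 9, .close [6, 1] [9, 8, 4, 0], .clash 7 5,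
    .clash 7 6, .close [1] [6, 1, 3], .close [3] [6, 4], .close [3] [5, 4], .close [1] [3, 0],
    .close [7] [3, 1, 2]])

/-- A lemma and its proof. -/
def c1122_27 : List Lit × List (Cmd Rule) :=
  ([.ord true [1] [7], .ord true [7] [3], .ord true [5] [7], .walk false false 1 0 [5], .ord true [11, 0, 3] [5], .ord false [] [4, 3]], [
    .use (.W false 1 0 0 [5]), .clash 3 6, .use (.W false 1 0 1 [5]), .clash 3 7,
    .close [8, 5] [7, 4, 5, 6]])

/-- A lemma and its proof. -/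
def c1122_28 : List Lit × List (Cmd Rule) :=
  ([.ord true [1] [7], .ord true [7] [3], .ord true [5] [7], .walk false false 1 2 [5], .ord true [11, 0, 3] [5]], [
    .use (.W false 1 2 0 [5]), .clash 3 5, .use (.W false 1 2 1 [5]), .clash 3 6,
    .close [12, 5] [6, 4, 1, 0, 5]])

/-- A lemma and its proof. -/
def c1122_29 : List Lit × List (Cmd Rule) :=
  ([.ord true [1] [7], .ord true [7] [3], .ord true [5] [7]], [
    .lem 26 [], .close [1] [3, 0], .close [5] [3, 1, 2], .use (.F false 1 []),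
    .close [1] [4, 1, 0], .close [5] [4, 1, 2], .close [7] [4, 1], .lem 28 [], .close [1] [5, 0],
    .close [7] [5, 1], .close [5] [5, 2], .lem 27 [], .close [1] [6, 0], .close [7] [6, 1],
    .close [5] [6, 2], .use (.N false 1 [5]), .close [2, 5] [7, 4, 1, 0, 1, 3], .clash 7 6,
    .clash 7 5, .use (.W false 1 3 0 [5]), .clash 7 8, .use (.W false 1 3 1 [5]), .clash 7 9,
    .close [14, 5] [9, 4, 1, 0, 3, 8], .close [11, 0, 3] [6, 4], .close [] [6, 1, 3],
    .close [11, 0, 3] [5, 4]])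

/-- A lemma and its proof. -/
def c1122_30 : List Lit × List (Cmd Rule) :=
  ([.ord true [1] [5], .ord true [5] [3], .ord true [3] [7], .walk false true 0 1 [3]], [
    .use (.W true 0 1 0 [3]), .clash 3 4, .use (.W true 0 1 1 [3]), .clash 3 5,
    .use (.F true 0 []), .close [1] [6, 1, 0], .close [1] [6, 0], .close [1] [6, 2, 1, 0],
    .close [9, 6, 1] [6, 5, 4, 2, 1, 0]])

/-- A lemma and its proof. -/
def c1122_31 : List Lit × List (Cmd Rule) :=
  ([.ord true [1] [5], .ord true [5] [3], .ord true [3] [7], .walk false true 0 3 [3]], [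
    .use (.W true 0 3 0 [3]), .clash 3 4, .use (.W true 0 3 1 [3]), .clash 3 5,
    .use (.F true 0 []), .close [1] [6, 1, 0], .close [1] [6, 0], .close [1] [6, 2, 1, 0],
    .close [9, 6, 1] [6, 5, 4, 1, 0]])

/-- A lemma and its proof. -/
def c1122_32 : List Lit × List (Cmd Rule) :=
  ([.ord true [1] [5], .ord true [5] [3], .ord true [3] [7]], [
    .lem 26 [], .close [1] [3, 2, 1, 0], .close [5] [3, 1], .use (.F true 0 []),
    .close [1] [4, 1, 0], .close [1] [4, 0], .close [1] [4, 2, 1, 0], .lem 30 [],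
    .close [1] [5, 0], .close [5] [5, 1], .close [3] [5, 2], .lem 31 [], .close [1] [6, 0],
    .close [5] [6, 1], .close [3] [6, 2], .use (.N true 0 [3]), .close [8, 3] [7, 1, 0, 3, 0, 4],
    .clash 7 5, .use (.W true 0 2 0 [3]), .clash 7 8, .use (.W true 0 2 1 [3]), .clash 7 9,
    .close [8, 3] [9, 8, 1, 3, 0, 4], .clash 7 6])

/-- A lemma and its proof. -/
def c1122_33 : List Lit × List (Cmd Rule) :=
  ([.ord true [1] [3], .ord true [3] [5], .ord true [5] [7], .ord true [] [14, 1]], [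
    .use (.M true 3 [1]), .close [] [4, 3], .close [2, 1] [4, 3, 0], .close [4, 1] [4, 3, 1, 0],
    .close [6, 1] [4, 3, 2, 1, 0]])

/-- A lemma and its proof. -/
def c1122_34 : List Lit × List (Cmd Rule) :=
  ([.ord true [1] [3], .ord true [3] [5], .ord true [5] [7], .walk false true 0 1 [3]], [
    .use (.W true 0 1 0 [3]), .clash 3 4, .use (.W true 0 1 1 [3]), .clash 3 5,
    .use (.F true 0 []), .close [1] [6, 0], .close [1] [6, 1, 0], .close [1] [6, 2, 1, 0],
    .close [9, 6, 1] [6, 5, 4, 2, 1, 0]])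

/-- A lemma and its proof. -/
def c1122_35 : List Lit × List (Cmd Rule) :=
  ([.ord true [1] [3], .ord true [3] [5], .ord true [5] [7]], [
    .use (.F true 0 []), .close [1] [3, 0], .close [1] [3, 1, 0], .close [1] [3, 2, 1, 0],
    .use (.F false 3 []), .close [1] [4, 2, 1, 0], .close [3] [4, 2, 1], .close [5] [4, 2],
    .lem 33 [], .close [1] [5, 0], .close [3] [5, 1], .close [5] [5, 2], .use (.W true 0 3 1 [3]),
    .use (.W false 3 0 1 [15, 6, 15, 4, 7]), .lem 34 [], .close [1] [8, 0], .close [3] [8, 1],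
    .close [5] [8, 2], .use (.N true 0 [3]), .close [8, 3] [9, 0, 5, 4, 2, 5, 3], .clash 9 8,
    .use (.W true 0 2 1 [3]), .clash 9 10, .use (.W false 3 2 1 [15, 6, 15, 4, 7]),
    .use (.N false 3 [15, 6, 15, 4, 7]), .close [6, 15, 6, 15, 4, 7] [12, 2, 5, 4], .clash 12 7,
    .use (.C false true 0 2 [3] false 3 1 [15, 6, 15, 4, 7]), .clash 9 13, .clash 12 13,
    .close [15, 6, 15, 4, 7] [13, 0, 4], .close [8, 3] [13, 2, 5, 3], .clash 12 11,
    .close [12, 15, 6, 15, 4, 7] [11, 2, 5, 3, 10, 0, 4], .clash 9 6,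
    .close [8, 15, 6, 15, 4, 7] [7, 2, 5, 3, 0, 4], .close [8, 3] [6, 0, 4, 2, 5, 3]])

/-- A lemma and its proof. -/
def c1122_36 : List Lit × List (Cmd Rule) :=
  ([.ord true [2] [0], .ord true [4] [2], .ord true [6] [4]], [
    .use (.F true 0 [0]), .close [] [3, 0], .close [] [3, 0, 1], .close [] [3, 0, 1, 2],
    .use (.M false 0 []), .close [8] [4, 0, 1, 2, 3, 0], .close [8] [4, 1, 2, 3, 0],
    .close [8] [4, 2, 3, 0], .close [8] [4, 3, 0]])

/-- A lemma and its proof. -/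
def c1122_37 : List Lit × List (Cmd Rule) :=
  ([.ord true [4] [0], .ord true [2] [4], .ord true [6] [2]], [
    .lem 29 [4], .close [1, 4] [3, 1, 2, 0], .lem 32 [4], .close [1, 4] [4, 0], .close [] [4, 1],
    .close [3, 4] [4, 3], .close [] [3, 1, 2]])

/-- A lemma and its proof. -/
def c1122_38 : List Lit × List (Cmd Rule) :=
  ([.ord true [6] [0], .ord true [2] [6], .ord true [6] [4]], [
    .lem 29 [6], .close [1, 6] [3, 0], .close [] [3, 1], .close [5, 6] [3, 2]])

/-- A lemma and its proof. -/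
def c1122_39 : List Lit × List (Cmd Rule) :=
  ([.ord true [6] [0], .ord true [2] [4], .ord true [4] [6]], [
    .use (.F false 1 [2]), .close [1, 2] [3, 0, 2, 1], .close [5, 2] [3, 1],
    .close [7, 2] [3, 2, 1], .use (.M true 1 []), .close [0] [4, 1, 3],
    .close [2] [4, 1, 3, 0, 2, 1], .close [4] [4, 1, 3, 0, 2], .close [6] [4, 1, 3, 0]])

/-- A lemma and its proof. -/
def c1122_40 : List Lit × List (Cmd Rule) :=
  ([.ord true [2] [0], .ord true [0] [4], .ord true [6] [2], .ord true [6] [4], .ord true [13, 4, 13, 2] []], [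
    .use (.F true 2 [4]), .close [] [5, 1], .close [] [5, 1, 0], .close [] [5, 1, 0, 2],
    .lem 37 [7, 2], .close [4, 7, 2] [6, 2, 0, 2, 4, 5, 4, 5, 1, 0],
    .close [2, 7, 2] [6, 2, 1, 0, 4, 5, 1, 0], .close [2] [6, 2]])

/-- A lemma and its proof. -/
def c1122_41 : List Lit × List (Cmd Rule) :=
  ([.ord true [2] [0], .ord true [0] [4], .ord true [6] [2], .walk false true 2 1 [13, 2], .ord false [10] [10, 13, 2]], [
    .use (.W true 2 1 0 [13, 2]), .clash 3 5, .use (.W true 2 1 1 [13, 2]), .clash 3 6,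
    .close [2] [6, 5, 4]])

/-- A lemma and its proof. -/
def c1122_42 : List Lit × List (Cmd Rule) :=
  ([.ord true [2] [0], .ord true [0] [4], .ord true [6] [2], .walk false false 3 1 [15, 4], .walk true true 2 3 [13, 4, 13, 2], .ord false [2] [4, 13, 2], .ord true [10, 13, 2] [10], .ord false [15, 4] [13, 4, 13, 2]], [
    .use (.W false 3 1 1 [15, 4]), .clash 3 8, .use (.W true 2 1 1 [13, 4, 13, 2]),
    .use (.N true 2 [13, 4, 13, 2]), .close [4, 13, 2] [10, 5],
    .use (.C true true 2 0 [13, 4, 13, 2] false 3 1 [15, 4]), .clash 10 11, .clash 3 11,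
    .close [15, 4] [11, 7], .close [4, 13, 2] [11, 6], .clash 10 9, .clash 10 4,
    .close [4, 13, 2] [9, 7, 8, 6]])

/-- A lemma and its proof. -/
def c1122_43 : List Lit × List (Cmd Rule) :=
  ([.ord true [2] [0], .ord true [0] [4], .ord true [6] [2], .walk false true 2 0 [13, 2], .ord true [4] [4, 13, 2]], [
    .use (.W true 2 0 0 [13, 2]), .clash 3 5, .use (.W true 2 0 1 [13, 2]), .clash 3 6,
    .close [2] [6, 5, 4, 0]])

/-- A lemma and its proof. -/
def c1122_44 : List Lit × List (Cmd Rule) :=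
  ([.ord true [2] [0], .ord true [0] [4], .ord true [6] [2], .ord false [15, 4] [7, 4], .ord true [10, 13, 2] [10], .ord false [2] [4, 13, 2]], [
    .use (.F true 2 [4]), .close [] [6, 1], .close [] [6, 1, 0], .close [] [6, 1, 0, 2],
    .use (.W true 2 3 1 [13, 4, 13, 2]), .use (.W false 3 2 1 [15, 4]), .lem 42 [],
    .close [2] [9, 0], .close [0] [9, 1], .close [6] [9, 2], .use (.N false 3 [15, 4]),
    .close [6, 15, 4] [10, 3], .use (.W false 3 0 0 [15, 4]), .clash 10 11,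
    .use (.W false 3 0 1 [15, 4]), .clash 10 12, .use (.W true 2 0 1 [13, 4, 13, 2]),
    .lem 38 [7, 4], .close [4] [14, 3, 11, 12], .use (.N true 2 [13, 4, 13, 2]),
    .close [4, 13, 2] [15, 5], .clash 15 13, .use (.W true 2 1 0 [13, 4, 13, 2]), .clash 15 16,
    .use (.W true 2 1 1 [13, 4, 13, 2]), .clash 15 17, .close [4, 13, 2] [17, 16, 6, 14, 4],
    .clash 15 7, .close [4] [14, 1, 0, 2], .close [4, 13, 2] [13, 6, 3, 12, 4], .clash 10 9,
    .clash 10 8, .clash 9 7, .close [2] [9, 5], .close [10, 13, 2] [9, 4],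
    .close [15, 4] [9, 6, 3], .close [12, 15, 4] [8, 4, 6, 3], .close [4, 13, 2] [7, 6, 3, 4]])

/-- A lemma and its proof. -/
def c1122_45 : List Lit × List (Cmd Rule) :=
  ([.ord true [2] [0], .ord true [0] [4], .ord true [6] [2], .walk false false 3 1 [15, 4, 7, 2], .ord false [12, 7, 0] [4, 7, 0], .walk true true 2 3 [7, 0], .ord false [15, 4, 7, 2] [7, 0], .ord true [12, 7, 0] [4, 7, 2]], [
    .use (.W false 3 1 1 [15, 4, 7, 2]), .clash 3 8, .use (.W true 2 1 1 [7, 0]),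
    .use (.N true 2 [7, 0]), .close [12, 7, 0] [10, 4],
    .use (.C true true 2 0 [7, 0] false 3 1 [15, 4, 7, 2]), .clash 10 11, .clash 3 11,
    .close [15, 4, 7, 2] [11, 6], .close [12, 7, 0] [11, 7], .clash 10 9, .clash 10 5,
    .close [12, 7, 0] [9, 6, 8, 7]])

/-- A lemma and its proof. -/
def c1122_46 : List Lit × List (Cmd Rule) :=
  ([.ord true [2] [0], .ord true [0] [4], .ord true [6] [2], .ord true [10, 13, 2] [10]], [
    .use (.F false 3 [2]), .close [1, 2] [4, 2, 0], .close [] [4, 2], .close [5, 2] [4, 2, 1, 0],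
    .lem 40 [], .close [2] [5, 0], .close [0] [5, 1], .close [6] [5, 2], .close [6] [5, 1, 0, 2],
    .lem 44 [], .close [2] [6, 0], .close [0] [6, 1], .close [6] [6, 2],
    .close [14] [0, 4, 2, 6, 6, 3, 5, 3, 2], .close [10, 13, 2] [6, 3], .close [2] [6, 5, 3]])

/-- A lemma and its proof. -/
def c1122_47 : List Lit × List (Cmd Rule) :=
  ([.ord true [2] [0], .ord true [0] [4], .ord true [6] [2]], [
    .use (.F false 3 [2]), .close [1, 2] [3, 2, 0], .close [] [3, 2], .close [5, 2] [3, 2, 1, 0],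
    .use (.F true 2 [4]), .close [] [4, 1], .close [] [4, 1, 0], .close [] [4, 1, 0, 2],
    .lem 46 [], .close [2] [5, 0], .close [0] [5, 1], .close [6] [5, 2], .lem 41 [],
    .close [2] [6, 0], .close [0] [6, 1], .close [6] [6, 2], .lem 43 [], .close [2] [7, 0],
    .close [0] [7, 1], .close [6] [7, 2], .use (.N true 2 [13, 2]), .close [2] [8, 5, 1, 0],
    .clash 8 7, .clash 8 6, .use (.W true 2 3 0 [13, 2]), .clash 8 9, .use (.W true 2 3 1 [13, 2]),
    .clash 8 10, .use (.W true 2 3 1 [7, 0]), .use (.W false 3 2 1 [15, 4, 7, 2]), .lem 45 [],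
    .close [2] [13, 0], .close [0] [13, 1], .close [6] [13, 2], .use (.N false 3 [15, 4, 7, 2]),
    .close [6, 15, 4, 7, 2] [14, 2, 1, 0, 10, 5, 0, 3], .use (.W false 3 0 0 [15, 4, 7, 2]),
    .clash 14 15, .use (.W false 3 0 1 [15, 4, 7, 2]), .clash 14 16, .use (.W true 2 0 1 [7, 0]),
    .lem 37 [7, 2], .close [4, 7, 2] [18, 10, 5, 0, 3, 15, 16], .use (.N true 2 [7, 0]),
    .close [12, 7, 0] [19, 0, 10, 9, 4, 1], .clash 19 17, .use (.W true 2 1 0 [7, 0]),
    .clash 19 20, .use (.W true 2 1 1 [7, 0]), .clash 19 21,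
    .close [12, 7, 0] [21, 20, 0, 18, 10, 9, 4, 1], .clash 19 11, .close [2] [18, 2],
    .close [12, 7, 0] [17, 0, 10, 5, 0, 3, 16, 10, 9, 4, 1], .clash 14 13, .clash 14 12,
    .close [12, 7, 0] [13, 0, 10, 9, 4, 1], .clash 13 11,
    .close [15, 4, 7, 2] [13, 0, 10, 5, 0, 3], .close [12, 7, 0] [13, 10, 9, 4, 1],
    .close [12, 15, 4, 7, 2] [12, 10, 9, 4, 1, 0, 10, 5, 0, 3],
    .close [12, 7, 0] [11, 0, 10, 5, 0, 3, 10, 9, 4, 1], .close [4] [7, 5], .close [10] [6, 5]])

/-- A lemma and its proof. -/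
def c1122_48 : List Lit × List (Cmd Rule) :=
  ([.ord true [2] [0], .ord true [6] [4], .walk false false 1 0 [5, 2], .ord true [11, 0] [5, 2]], [
    .use (.W false 1 0 0 [5, 2]), .clash 2 4, .use (.W false 1 0 1 [5, 2]), .clash 2 5, .lem 36 [],
    .close [2] [6, 0], .close [4] [6, 4, 5, 3], .close [6] [6, 1]])

/-- A lemma and its proof. -/
def c1122_49 : List Lit × List (Cmd Rule) :=
  ([.ord true [2] [0], .ord true [6] [4], .walk false false 1 2 [5, 2], .ord true [2] [10, 5, 2]], [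
    .use (.W false 1 2 0 [5, 2]), .clash 2 4, .use (.W false 1 2 1 [5, 2]), .clash 2 5,
    .close [12, 5, 2] [5, 3, 4]])

/-- A lemma and its proof. -/
def c1122_50 : List Lit × List (Cmd Rule) :=
  ([.ord true [2] [0], .ord true [6] [4], .ord false [2] [4, 13, 2], .ord true [2] [10, 5, 2], .walk false false 1 3 [5, 2]], [
    .use (.W false 1 3 1 [5, 2]), .clash 4 5, .use (.W true 2 1 1 [13, 2]),
    .use (.W true 2 3 1 [13, 2]), .use (.N true 2 [13, 2]), .close [2] [8, 2],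
    .use (.C true true 2 0 [13, 2] false 1 3 [5, 2]), .clash 8 9, .clash 4 9, .close [5, 2] [9, 2],
    .close [2] [9, 3], .clash 8 6, .clash 8 7, .close [2] [7, 2, 5, 3], .close [2] [6, 2, 3]])

/-- A lemma and its proof. -/
def c1122_51 : List Lit × List (Cmd Rule) :=
  ([.ord true [2] [0], .ord true [6] [4], .ord true [11, 0] [5, 2]], [
    .lem 36 [], .close [2] [3, 0], .lem 48 [], .close [2] [4, 0], .close [6] [4, 1], .lem 49 [],
    .close [2] [5, 0], .close [6] [5, 1], .use (.N false 1 [5, 2]), .close [2, 5, 2] [6, 2, 0, 3],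
    .clash 6 4, .clash 6 5, .use (.W false 1 3 0 [5, 2]), .clash 6 7, .use (.W false 1 3 1 [5, 2]),
    .clash 6 8, .use (.F true 2 [6]), .close [5, 6] [9, 3, 7, 8, 2, 1],
    .close [5, 6] [9, 3, 7, 8, 2, 0, 1], .close [5, 6] [9, 1], .lem 50 [], .close [2] [10, 0],
    .close [6] [10, 1], .close [13, 4, 13, 2, 5, 6] [9, 3, 10, 10, 1], .close [2] [10, 2, 0],
    .clash 6 10, .close [2] [5, 2, 0], .close [11, 0] [4, 2], .close [6] [3, 1]])

/-- A lemma and its proof. -/
def c1122_52 : List Lit × List (Cmd Rule) :=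
  ([.ord true [2] [0], .ord true [6] [4]], [
    .lem 36 [], .close [2] [2, 0], .lem 51 [], .close [2] [3, 0], .close [6] [3, 1],
    .use (.F false 1 [2]), .close [1, 2] [4, 0], .close [5, 2] [4, 2], .lem 47 [],
    .close [2] [5, 0], .lem 29 [4], .close [1, 4] [6, 2, 4, 5], .lem 37 [3, 4], .lem 47 [3, 4],
    .close [4] [8, 2, 5], .close [0, 3, 4] [8, 7], .close [6, 3, 4] [8, 6], .close [4] [7, 2],
    .close [6, 3, 4] [7, 6], .close [] [6, 1], .close [6] [5, 4], .close [5, 2] [4, 3],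
    .close [6] [2, 1]])

/-- A lemma and its proof. -/
def c1122_53 : List Lit × List (Cmd Rule) :=
  ([.ord true [0] [2], .ord true [6] [0], .ord true [4] [6], .walk false true 1 0 [5, 0], .ord false [0] [2, 5, 0], .ord true [5, 0] [11, 0, 3, 0]], [
    .use (.W true 1 0 0 [5, 0]), .clash 3 6, .use (.W true 1 0 1 [5, 0]), .clash 3 7,
    .close [10, 5, 0] [7, 6, 4, 5]])

/-- A lemma and its proof. -/
def c1122_54 : List Lit × List (Cmd Rule) :=
  ([.ord true [0] [2], .ord true [6] [0], .ord true [4] [6], .walk false true 1 2 [5, 0], .ord true [5, 0] [11, 0, 3, 0]], [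
    .use (.W true 1 2 0 [5, 0]), .clash 3 5, .use (.W true 1 2 1 [5, 0]), .clash 3 6,
    .close [10, 5, 0] [6, 5, 0, 4]])

/-- A lemma and its proof. -/
def c1122_55 : List Lit × List (Cmd Rule) :=
  ([.ord true [0] [2], .ord true [6] [0], .ord true [4] [6], .ord false [2, 5, 6] [12, 5, 0], .ord true [10, 5, 0] [2, 5, 6], .walk false true 1 3 [5, 0]], [
    .use (.W true 1 3 1 [5, 0]), .clash 5 6, .use (.W false 2 1 1 [13, 2, 5, 6]),
    .use (.W false 2 3 1 [13, 2, 5, 6]), .use (.N false 2 [13, 2, 5, 6]),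
    .close [4, 13, 2, 5, 6] [9, 2, 0, 3], .use (.C true true 1 3 [5, 0] false 2 0 [13, 2, 5, 6]),
    .clash 5 10, .clash 9 10, .close [13, 2, 5, 6] [10, 3], .close [10, 5, 0] [10, 4], .clash 9 7,
    .clash 9 8, .close [14, 13, 2, 5, 6] [8, 4, 6, 3], .close [10, 13, 2, 5, 6] [7, 4, 3]])

/-- A lemma and its proof. -/
def c1122_56 : List Lit × List (Cmd Rule) :=
  ([.ord true [0] [2], .ord true [6] [0], .ord true [4] [6], .ord true [2, 5, 0] [0]], [
    .lem 19 [2], .close [1, 2] [4, 3, 1, 2],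
    .close [7, 2] [4, 0, 0, 3, 1, 2, 0, 3, 1, 2, 2, 0, 3, 3, 1, 2],
    .close [5, 2] [4, 0, 1, 0, 3, 3, 1, 2]])

/-- A lemma and its proof. -/
def c1122_57 : List Lit × List (Cmd Rule) :=
  ([.ord true [0] [2], .ord true [6] [0], .ord true [4] [6]], [
    .use (.F true 1 [0]), .close [3, 0] [3, 0], .close [3, 0] [3, 1, 2, 0],
    .close [3, 0] [3, 1, 0], .use (.F false 2 [6]), .close [1, 6] [4, 2, 1],
    .close [3, 6] [4, 2, 0, 1], .close [] [4, 2], .lem 56 [], .close [0] [5, 0], .close [6] [5, 1],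
    .close [4] [5, 2], .lem 54 [], .close [0] [6, 0], .close [6] [6, 1], .close [4] [6, 2],
    .lem 53 [], .close [0] [7, 0], .close [6] [7, 1], .close [4] [7, 2], .use (.N true 1 [5, 0]),
    .close [10, 5, 0] [8, 5, 0, 3], .clash 8 7, .clash 8 6, .use (.W true 1 3 0 [5, 0]),
    .clash 8 9, .use (.W true 1 3 1 [5, 0]), .clash 8 10, .lem 55 [], .close [0] [11, 0],
    .close [6] [11, 1], .close [4] [11, 2], .use (.W false 2 1 1 []), .use (.W false 2 3 1 []),
    .use (.N false 2 []), .close [4] [14, 4, 11, 0, 3, 10, 9, 1, 2, 2], .use (.W false 2 0 0 []),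
    .clash 14 15, .use (.W false 2 0 1 []), .clash 14 16, .close [8] [16, 4, 11, 15], .clash 14 12,
    .clash 14 13, .close [14] [13, 4, 11, 0, 3, 10, 0, 3, 10, 9, 1, 2, 2],
    .close [10] [12, 4, 11, 0, 3, 0, 3, 10, 9, 1, 2, 2], .close [10, 5, 0] [11, 2, 0, 0, 3],
    .clash 8 11, .close [0] [7, 5], .close [5, 0] [7, 3], .close [5, 0] [6, 3]])

/-- A lemma and its proof. -/
def c1122_58 : List Lit × List (Cmd Rule) :=
  ([.ord true [4] [0], .ord true [0] [6], .ord true [6] [2]], [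
    .lem 8 [6], .close [] [3, 1], .close [3, 6] [3, 2], .close [] [3, 1, 0]])

/-- A lemma and its proof. -/
def c1122_59 : List Lit × List (Cmd Rule) :=
  ([.ord true [0] [6], .ord true [4] [2], .ord true [6] [4], .walk false true 1 0 [], .ord true [5, 2] [11, 0]], [
    .use (.W true 1 0 0 []), .clash 3 5, .use (.W true 1 0 1 []), .clash 3 6,
    .close [10] [6, 5, 4, 1]])

/-- A lemma and its proof. -/
def c1122_60 : List Lit × List (Cmd Rule) :=
  ([.ord true [0] [6], .ord true [4] [2], .ord true [6] [4], .walk false true 1 3 [], .ord false [10] [2]], [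
    .use (.W true 1 3 0 []), .clash 3 5, .use (.W true 1 3 1 []), .clash 3 6, .use (.F true 1 [2]),
    .close [] [7, 1, 2, 0], .close [] [7, 1], .close [] [7, 1, 2], .close [11, 0] [7, 1, 6, 5, 0]])

/-- A lemma and its proof. -/
def c1122_61 : List Lit × List (Cmd Rule) :=
  ([.ord true [0] [6], .ord true [4] [2], .ord true [6] [4]], [
    .lem 52 [], .use (.F true 1 [2]), .close [] [4, 1, 2, 0], .close [] [4, 1],
    .close [] [4, 1, 2], .lem 59 [], .close [0] [5, 0], .close [4] [5, 1], .close [6] [5, 2],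
    .lem 60 [], .close [0] [6, 0], .close [4] [6, 1], .close [6] [6, 2], .use (.N true 1 []),
    .close [10] [7, 3, 4, 1], .clash 7 5, .use (.W true 1 2 0 []), .clash 7 8,
    .use (.W true 1 2 1 []), .clash 7 9, .close [10] [9, 8, 2, 0, 4, 1], .clash 7 6,
    .close [10] [6, 3, 4, 1], .close [5, 2] [5, 4], .close [6] [3, 2]])

/-- A lemma and its proof. -/
def c1122_62 : List Lit × List (Cmd Rule) :=
  ([.ord true [0] [6], .ord true [6] [2], .ord true [4] [6]], [
    .lem 58 [], .lem 5 [4], .close [] [4, 3], .close [3, 4] [4, 1, 2], .lem 8 [4],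
    .close [7, 4] [5, 3, 2], .close [3, 4] [5, 4], .close [7, 4] [5, 2], .close [0] [3, 0],
    .close [6] [3, 1]])

/-- A lemma and its proof. -/
def c1122_63 : List Lit × List (Cmd Rule) :=
  ([.ord true [0] [4], .ord true [4] [2], .ord true [2] [6]], [
    .lem 5 [4], .close [] [3, 0], .close [3, 4] [3, 1], .lem 8 [4], .close [7, 4] [4, 0, 2, 1],
    .close [3, 4] [4, 3], .close [7, 4] [4, 2, 1]])

/-- A lemma and its proof. -/
def c1122_64 : List Lit × List (Cmd Rule) :=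
  ([.ord true [0] [2], .ord true [4] [6], .walk false false 0 1 [3, 0], .ord false [0] [8], .ord true [2] [0]], [
    .use (.W false 0 1 0 [3, 0]), .clash 2 5, .use (.W false 0 1 1 [3, 0]), .clash 2 6,
    .close [10, 3, 0] [6, 4, 3, 5]])

/-- A lemma and its proof. -/
def c1122_65 : List Lit × List (Cmd Rule) :=
  ([.ord true [0] [2], .ord true [4] [6], .walk false false 0 2 [3, 0], .ord true [6] [8, 3, 0]], [
    .use (.W false 0 2 0 [3, 0]), .clash 2 4, .use (.W false 0 2 1 [3, 0]), .clash 2 5,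
    .close [12, 3, 0] [5, 3, 1, 0, 4]])

/-- A lemma and its proof. -/
def c1122_66 : List Lit × List (Cmd Rule) :=
  ([.ord true [0] [2], .ord true [4] [6], .ord true [6] [8, 3, 0], .ord false [14, 3, 0] [6, 3, 0], .ord false [0] [2]], [
    .use (.W false 0 3 1 [3, 0]), .lem 57 [], .close [0] [6, 0], .lem 65 [], .close [0] [7, 0],
    .close [4] [7, 1], .use (.N false 0 [3, 0]), .close [0, 3, 0] [8, 2, 6, 4],
    .use (.W false 0 1 0 [3, 0]), .clash 8 9, .use (.W false 0 1 1 [3, 0]), .clash 8 10,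
    .close [10, 3, 0] [10, 2, 6, 9], .clash 8 7, .clash 8 5, .close [6] [7, 2], .close [4] [6, 1],
    .close [14, 3, 0] [5, 2, 0, 3]])

/-- A lemma and its proof. -/
def c1122_67 : List Lit × List (Cmd Rule) :=
  ([.ord true [0] [2], .ord true [4] [6], .walk false true 3 1 [15, 4, 7, 0], .walk true false 2 3 [7, 4], .ord false [4, 7, 4] [12, 7, 4], .ord false [14, 7, 4] [4, 7, 0], .ord true [4, 7, 0] [12, 7, 4]], [
    .use (.W true 3 1 1 [15, 4, 7, 0]), .clash 2 7, .use (.W false 2 1 1 [7, 4]),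
    .use (.N false 2 [7, 4]), .close [4, 7, 4] [9, 4],
    .use (.C true true 3 1 [15, 4, 7, 0] false 2 0 [7, 4]), .clash 2 10, .clash 9 10,
    .close [7, 4] [10, 5], .close [4, 7, 0] [10, 6], .clash 9 8, .clash 9 3,
    .close [10, 7, 4] [8, 6, 7, 5]])

/-- A lemma and its proof. -/
def c1122_68 : List Lit × List (Cmd Rule) :=
  ([.ord true [0] [2], .ord true [4] [6], .walk false false 2 1 [13, 2], .ord true [4, 13, 2] [12, 7, 4], .ord false [12, 7, 4] [4, 7, 0]], [
    .use (.W false 2 1 0 [13, 2]), .clash 2 5, .use (.W false 2 1 1 [13, 2]), .clash 2 6,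
    .lem 57 [], .close [0] [7, 0], .close [6] [7, 4, 3, 5, 6], .close [4] [7, 1]])

/-- A lemma and its proof. -/
def c1122_69 : List Lit × List (Cmd Rule) :=
  ([.ord true [0] [2], .ord true [4] [6], .walk false false 2 3 [13, 2], .ord true [4, 13, 2] [12, 7, 4], .ord false [12, 7, 4] [4, 7, 0]], [
    .use (.W false 2 3 0 [13, 2]), .clash 2 5, .use (.W false 2 3 1 [13, 2]), .clash 2 6,
    .close [14, 13, 2] [6, 0, 4, 3, 5]])

/-- A lemma and its proof. -/
def c1122_70 : List Lit × List (Cmd Rule) :=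
  ([.ord true [0] [2], .ord true [4] [6], .ord true [6] [8, 3, 0], .ord true [2] [0]], [
    .lem 57 [], .close [0] [4, 0], .lem 65 [], .close [0] [5, 0], .close [4] [5, 1], .lem 64 [],
    .close [0] [6, 0], .close [4] [6, 1], .use (.N false 0 [3, 0]), .close [0, 3, 0] [7, 2, 4, 0],
    .clash 7 6, .clash 7 5, .use (.W false 0 3 0 [3, 0]), .clash 7 8, .use (.W false 0 3 1 [3, 0]),
    .clash 7 9, .close [14, 3, 0] [9, 2, 0, 8], .close [0] [6, 0, 2, 4], .close [2] [6, 3],
    .close [6] [5, 2], .close [4] [4, 1]])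

/-- A lemma and its proof. -/
def c1122_71 : List Lit × List (Cmd Rule) :=
  ([.ord true [0] [2], .ord true [4] [6], .ord false [12, 7, 4] [4, 7, 0], .ord true [4, 13, 2] [12, 7, 4], .ord false [4, 7, 0] [0]], [
    .lem 57 [], .close [0] [5, 0], .lem 68 [], .close [0] [6, 0], .close [4] [6, 1], .lem 69 [],
    .close [0] [7, 0], .close [4] [7, 1], .use (.N false 2 [13, 2]),
    .close [4, 13, 2] [8, 0, 4, 2, 3], .use (.W false 2 0 0 [13, 2]), .clash 8 9,
    .use (.W false 2 0 1 [13, 2]), .clash 8 10, .close [8, 13, 2] [10, 0, 5, 2, 3, 9], .clash 8 6,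
    .clash 8 7, .close [4, 13, 2] [7, 3], .close [12, 7, 4] [7, 2], .close [4, 13, 2] [6, 3],
    .close [12, 7, 4] [6, 2], .close [4] [5, 1]])

/-- A lemma and its proof. -/
def c1122_72 : List Lit × List (Cmd Rule) :=
  ([.ord true [0] [2], .ord true [4] [6], .walk false false 2 1 [13, 2], .ord false [7, 4] [3, 4], .ord true [4, 13, 2] [12, 7, 4], .ord false [10, 7, 4] [2, 7, 4], .ord true [12, 7, 4] [10, 7, 4]], [
    .use (.W false 2 1 0 [13, 2]), .clash 2 7, .use (.W false 2 1 1 [13, 2]), .clash 2 8,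
    .close [10, 13, 2] [8, 3, 5, 6, 4, 7]])

/-- A lemma and its proof. -/
def c1122_73 : List Lit × List (Cmd Rule) :=
  ([.ord true [0] [2], .ord true [4] [6], .walk false true 3 2 [], .ord true [4, 7, 0] [14, 7, 4], .ord true [14] [6, 15, 4, 7, 0], .ord true [2] [0]], [
    .use (.W true 3 2 0 []), .clash 2 6, .use (.W true 3 2 1 []), .clash 2 7,
    .close [14] [7, 6, 3, 4]])

/-- A lemma and its proof. -/
def c1122_74 : List Lit × List (Cmd Rule) :=
  ([.ord true [0] [2], .ord true [4] [6], .walk false true 3 1 [], .ord true [4, 7, 0] [14, 7, 4], .ord false [4] [2], .ord true [14] [6, 15, 4, 7, 0]], [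
    .use (.W true 3 1 0 []), .clash 2 6, .use (.W true 3 1 1 []), .clash 2 7,
    .close [14] [7, 6, 4, 3, 5]])

/-- A lemma and its proof. -/
def c1122_75 : List Lit × List (Cmd Rule) :=
  ([.ord true [0] [2], .ord true [4] [6], .ord true [12] [4], .ord false [4] [2], .ord false [4] [6], .ord true [4, 13, 2] [12, 7, 4]], [
    .close [7, 4] [5, 3, 2, 2, 1]])

/-- A lemma and its proof. -/
def c1122_76 : List Lit × List (Cmd Rule) :=
  ([.ord true [0] [2], .ord true [4] [6], .ord true [6] [8, 3, 0]], [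
    .lem 57 [], .close [0] [3, 0], .lem 65 [], .close [0] [4, 0], .close [4] [4, 1], .lem 70 [],
    .close [0] [5, 0], .close [4] [5, 1], .close [6] [5, 2], .lem 66 [], .close [0] [6, 0],
    .close [4] [6, 1], .close [6] [6, 2], .use (.W false 0 3 0 [3, 0]), .use (.N false 0 [3, 0]),
    .close [0, 3, 0] [8, 2, 3, 0], .use (.W false 0 1 0 [3, 0]), .clash 8 9,
    .use (.W false 0 1 1 [3, 0]), .clash 8 10, .close [10, 3, 0] [10, 2, 3, 9], .clash 8 4,
    .clash 8 7, .close [6, 3, 0] [7, 6], .close [0] [6, 5], .close [6] [4, 2], .close [4] [3, 1]])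

/-- A lemma and its proof. -/
def c1122_77 : List Lit × List (Cmd Rule) :=
  ([.ord true [0] [2], .ord true [4] [6], .ord false [14, 7, 4] [4, 7, 0]], [
    .lem 57 [], .close [0] [3, 0], .lem 76 [], .close [0] [4, 0], .close [4] [4, 1],
    .use (.F false 0 [0]), .close [3, 0] [5, 0], .lem 8 [0], .close [7, 0] [6, 3],
    .use (.F true 3 [0]), .close [7, 0] [7, 3], .close [7, 0] [7, 6], .close [7, 0] [7, 5, 3],
    .use (.F false 2 [4]), .close [1, 4] [8, 5], .close [3, 4] [8, 0, 5], .close [7, 4] [8, 1],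
    .lem 71 [], .close [0] [9, 0], .close [4] [9, 1], .use (.W false 2 3 1 [7, 4]),
    .use (.W true 3 2 1 [15, 4, 7, 0]), .lem 67 [], .close [0] [12, 0], .close [4] [12, 1],
    .use (.N true 3 [15, 4, 7, 0]), .close [4, 7, 0] [13, 2, 3],
    .use (.W true 3 0 0 [15, 4, 7, 0]), .clash 13 14, .use (.W true 3 0 1 [15, 4, 7, 0]),
    .clash 13 15, .use (.W false 2 0 1 [7, 4]), .lem 8 [4], .close [7, 4] [17, 3, 15, 14, 2],
    .use (.N false 2 [7, 4]), .close [4, 7, 4] [18, 9, 5], .clash 18 16,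
    .use (.W false 2 1 0 [7, 4]), .clash 18 19, .use (.W false 2 1 1 [7, 4]), .clash 18 20,
    .lem 63 [7, 0], .use (.W false 2 3 1 [13, 2]), .lem 72 [], .close [0] [23, 0],
    .close [4] [23, 1], .use (.N false 2 [13, 2]), .close [4, 13, 2] [24, 3, 5, 19, 20, 8],
    .use (.W false 2 0 0 [13, 2]), .clash 24 25, .use (.W false 2 0 1 [13, 2]), .clash 24 26,
    .close [8, 13, 2] [26, 0, 17, 19, 20, 8, 25], .clash 24 23, .clash 24 22,
    .close [7, 4] [23, 17], .close [4, 13, 2] [23, 8], .close [10, 7, 4] [23, 19],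
    .close [12, 7, 4] [23, 20], .close [14, 13, 2] [22, 0, 21, 15, 14, 7, 17, 19, 20, 8],
    .close [4, 7, 0] [21, 5, 19, 20, 9], .close [2, 7, 0] [21, 6], .clash 18 10,
    .close [7, 4] [17, 1], .close [8, 7, 4] [16, 9, 15, 2], .clash 13 12, .clash 13 11,
    .clash 12 10, .close [4, 7, 4] [12, 9, 5], .close [14, 7, 4] [12, 2], .close [4, 7, 0] [12, 9],
    .close [4, 7, 0] [11, 2, 9], .close [14, 7, 4] [10, 9, 2], .close [4, 13, 2] [9, 8],
    .close [4, 7, 0] [9, 5, 3], .close [7, 0] [6, 5, 3], .close [7, 0] [5, 3],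
    .close [3, 0] [5, 4], .close [4] [3, 1]])

/-- A lemma and its proof. -/
def c1122_78 : List Lit × List (Cmd Rule) :=
  ([.ord true [0] [2], .ord true [4] [6]], [
    .lem 57 [], .close [0] [2, 0], .lem 76 [], .close [0] [3, 0], .close [4] [3, 1],
    .use (.F false 0 [0]), .close [3, 0] [4, 0], .lem 8 [0], .close [7, 0] [5, 2],
    .use (.F true 3 [0]), .close [7, 0] [6, 2], .close [7, 0] [6, 5], .close [7, 0] [6, 4, 2],
    .use (.F false 2 [4]), .close [1, 4] [7, 4], .close [3, 4] [7, 0, 4], .close [7, 4] [7, 1],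
    .lem 77 [], .close [0] [8, 0], .close [4] [8, 1], .lem 74 [], .close [0] [9, 0],
    .close [4] [9, 1], .lem 75 [], .close [0] [10, 0], .close [4] [10, 1], .use (.W true 3 2 1 []),
    .use (.N true 3 []), .close [14] [12, 2, 4, 8, 6], .use (.W true 3 0 0 []), .clash 12 13,
    .use (.W true 3 0 1 []), .clash 12 14, .close [14] [14, 13, 4, 8, 6], .clash 12 9,
    .clash 12 11, .close [14] [11, 10, 8, 6], .close [4] [10, 0, 4], .close [4] [10, 2, 4],
    .close [4, 13, 2] [10, 7], .close [4, 7, 0] [9, 8], .close [4] [9, 0, 4], .close [14] [9, 6],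
    .close [7, 0] [5, 4, 2], .close [7, 0] [4, 2], .close [3, 0] [4, 3], .close [4] [2, 1]])

/-- A lemma and its proof. -/
def c1122_79 : List Lit × List (Cmd Rule) :=
  ([.ord true [3] [1], .ord true [1] [5], .walk false true 1 0 [11, 0, 3, 4, 7], .ord false [3, 4, 7] [7], .ord true [] [6, 11, 0, 3, 4, 7]], [
    .use (.W true 1 0 0 [11, 0, 3, 4, 7]), .clash 2 5, .use (.W true 1 0 1 [11, 0, 3, 4, 7]),
    .clash 2 6, .close [0, 3, 4, 7] [6, 5, 4, 3]])

/-- A lemma and its proof. -/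
def c1122_80 : List Lit × List (Cmd Rule) :=
  ([.ord true [3] [1], .ord true [1] [5], .walk false false 3 0 [1], .ord true [15, 6, 15, 4, 7] [1], .ord true [7] [15, 4, 7]], [
    .use (.W false 3 0 0 [1]), .clash 2 5, .use (.W false 3 0 1 [1]), .clash 2 6,
    .close [8, 1] [6, 3, 4, 5]])

/-- A lemma and its proof. -/
def c1122_81 : List Lit × List (Cmd Rule) :=
  ([.ord true [3] [1], .ord true [1] [5], .ord true [2, 15, 4, 7] [4, 7], .ord true [6, 15, 4, 7] [4, 7], .ord true [6, 15, 4, 7] [], .ord false [0, 3, 4, 7] [4, 7]], [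
    .use (.M true 3 [15, 4, 7]), .close [0, 15, 4, 7] [6, 5, 2], .close [2, 15, 4, 7] [6, 2],
    .close [4, 15, 4, 7] [6, 4], .close [6, 15, 4, 7] [6, 3]])

/-- A lemma and its proof. -/
def c1122_82 : List Lit × List (Cmd Rule) :=
  ([.ord true [3] [1], .ord true [1] [5], .ord true [6, 15, 4, 7] [4, 7], .ord false [0, 3, 4, 7] [4, 7], .ord true [6, 15, 4, 7] []], [
    .lem 78 [1], .close [] [5, 0], .use (.F true 1 []), .close [3] [6, 0], .close [3] [6, 1, 0],
    .close [3] [6, 1, 5, 0], .use (.M false 1 [11, 0, 3]), .close [0, 3] [7, 6, 1, 0],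
    .close [0, 3] [7, 6, 1, 0, 0], .close [0, 3] [7, 6, 0], .lem 81 [], .close [3] [8, 0],
    .close [1] [8, 1], .use (.F true 1 [4, 7]), .close [3, 4, 7] [9, 3],
    .close [3, 4, 7] [9, 4, 8], .close [3, 4, 7] [9, 0, 7, 6, 4, 8],
    .use (.W true 1 3 1 [11, 0, 3, 4, 7]), .lem 79 [], .close [3] [11, 0], .close [1] [11, 1],
    .use (.N true 1 [11, 0, 3, 4, 7]), .close [0, 3, 4, 7] [12, 9, 4, 8, 3], .clash 12 11,
    .use (.W true 1 2 0 [11, 0, 3, 4, 7]), .clash 12 13, .use (.W true 1 2 1 [11, 0, 3, 4, 7]),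
    .clash 12 14, .close [0, 3, 4, 7] [14, 13, 9, 3], .clash 12 10, .close [3, 4, 7] [11, 4, 8],
    .close [] [11, 9], .close [0, 3, 4, 7] [10, 9, 4, 3], .close [6, 15, 4, 7] [8, 2],
    .close [6, 15, 4, 7] [8, 4], .close [0, 3, 4, 7] [8, 3]])

/-- A lemma and its proof. -/
def c1122_83 : List Lit × List (Cmd Rule) :=
  ([.ord true [3] [1], .ord true [1] [5], .ord true [6, 15, 4, 7] []], [
    .lem 78 [1], .close [] [3, 0], .use (.F true 1 []), .close [3] [4, 0], .close [3] [4, 1, 0],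
    .close [3] [4, 1, 3, 0], .use (.M false 1 [11, 0, 3]), .close [0, 3] [5, 4, 1, 0],
    .close [0, 3] [5, 4, 1, 0, 0], .close [0, 3] [5, 4, 0], .lem 82 [], .close [3] [6, 0],
    .close [1] [6, 1], .close [6, 15, 4, 7] [6, 0, 5, 4, 2], .lem 35 [4, 7],
    .close [1, 4, 7] [7, 6], .use (.M true 3 [15, 4, 7]), .lem 29 [4, 7],
    .close [1, 4, 7] [9, 0, 5, 4, 2, 8], .lem 32 [4, 7], .close [1, 4, 7] [10, 2, 8],
    .close [7] [10, 7], .close [3, 4, 7] [10, 9], .close [7] [9, 0, 5, 4],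
    .close [2, 15, 4, 7] [8, 7, 2], .close [4, 15, 4, 7] [8, 2],
    .close [6, 15, 4, 7] [8, 0, 5, 4, 2], .close [7] [7, 0, 5, 4], .close [6, 15, 4, 7] [6, 2]])

/-- A lemma and its proof. -/
def c1122_84 : List Lit × List (Cmd Rule) :=
  ([.ord true [3] [1], .ord true [1] [5]], [
    .lem 78 [1], .close [] [2, 0], .use (.F true 1 []), .close [3] [3, 0], .close [3] [3, 1, 0],
    .close [3] [3, 1, 2, 0], .use (.M false 1 [11, 0, 3]), .close [0, 3] [4, 3, 1, 0],
    .close [0, 3] [4, 3, 1, 0, 0], .close [0, 3] [4, 3, 0], .use (.F false 3 []),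
    .close [1] [5, 1, 2], .close [3] [5, 1, 2, 0], .close [5] [5, 0, 4, 3], .lem 83 [],
    .close [3] [6, 0], .close [1] [6, 1], .use (.W false 3 1 1 [1]), .lem 80 [], .close [3] [8, 0],
    .close [1] [8, 1], .use (.N false 3 [1]), .close [6, 1] [9, 5, 6, 1, 2], .clash 9 8,
    .clash 9 7, .use (.W false 3 2 0 [1]), .clash 9 10, .use (.W false 3 2 1 [1]), .clash 9 11,
    .close [12, 1] [11, 5, 6, 1, 10], .close [15, 6, 15, 4, 7] [8, 5], .close [7] [8, 6],
    .close [10, 1] [7, 5, 6, 0, 3, 1]])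

/-- A lemma and its proof. -/
def c1122_85 : List Lit × List (Cmd Rule) :=
  ([.ord true [5] [1], .ord true [7] [5], .walk false false 1 2 [11, 0, 3, 4, 7], .ord true [6, 11, 0, 3, 4, 7] [], .ord false [4, 7] [0, 3, 4, 7]], [
    .use (.W false 1 2 0 [11, 0, 3, 4, 7]), .clash 2 5, .use (.W false 1 2 1 [11, 0, 3, 4, 7]),
    .clash 2 6, .close [12, 11, 0, 3, 4, 7] [6, 4, 3, 5]])

/-- A lemma and its proof. -/
def c1122_86 : List Lit × List (Cmd Rule) :=
  ([.ord true [5] [1], .ord true [7] [5], .ord false [4, 7] [2, 7], .ord true [] [6, 15, 4, 7]], [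
    .lem 78 [7], .use (.M false 3 [15, 4, 7]), .close [4, 7] [5, 3, 4, 2], .close [4, 7] [5, 3, 2],
    .close [4, 7] [5, 3], .close [4, 7] [5, 3, 1], .close [4, 7] [4, 1]])

/-- A lemma and its proof. -/
def c1122_87 : List Lit × List (Cmd Rule) :=
  ([.ord true [5] [1], .ord true [7] [5], .walk false false 1 0 [11, 0, 3], .ord true [4, 11, 0, 3] [], .ord false [5] [3]], [
    .use (.W false 1 0 0 [11, 0, 3]), .clash 2 5, .use (.W false 1 0 1 [11, 0, 3]), .clash 2 6,
    .close [8, 11, 0, 3] [6, 4, 3, 5]])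

/-- A lemma and its proof. -/
def c1122_88 : List Lit × List (Cmd Rule) :=
  ([.ord true [5] [1], .ord true [7] [5], .ord true [] [6, 15, 4, 7]], [
    .lem 78 [7], .lem 86 [], .close [5] [4, 0], .close [7] [4, 1], .lem 2 [4, 7],
    .use (.F false 1 [4, 7]), .close [1, 4, 7] [6, 5], .close [7] [6, 4],
    .close [7, 4, 7] [6, 4, 1], .use (.W false 1 3 1 [11, 0, 3, 4, 7]), .lem 85 [],
    .close [5] [8, 0], .close [7] [8, 1], .use (.N false 1 [11, 0, 3, 4, 7]),
    .close [2, 11, 0, 3, 4, 7] [9, 4, 3, 6], .use (.W false 1 0 0 [11, 0, 3, 4, 7]), .clash 9 10,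
    .use (.W false 1 0 1 [11, 0, 3, 4, 7]), .clash 9 11, .close [8, 11, 0, 3, 4, 7] [11, 4, 6, 10],
    .clash 9 8, .clash 9 7, .close [6, 11, 0, 3, 4, 7] [8, 6], .close [4, 7] [8, 5],
    .close [14, 11, 0, 3, 4, 7] [7, 5, 2, 6], .close [7] [5, 4], .close [7, 4, 7] [5, 1],
    .close [] [4, 2], .close [4, 7] [3, 1]])

/-- A lemma and its proof. -/
def c1122_89 : List Lit × List (Cmd Rule) :=
  ([.ord true [5] [1], .ord true [7] [5]], [
    .lem 78 [7], .use (.F true 3 []), .close [7] [3, 0, 1], .close [7] [3, 0, 1, 2],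
    .close [7] [3, 1], .lem 88 [], .close [5] [4, 0], .close [7] [4, 1],
    .use (.M false 3 [15, 6, 15, 4, 7]), .close [6, 15, 4, 7] [5, 3, 4], .use (.F false 1 []),
    .close [1] [6, 4, 5, 3], .close [5] [6, 4, 5, 3, 0], .close [7] [6, 0, 1, 2],
    .use (.W false 1 3 1 [11, 0, 3]), .lem 87 [], .close [5] [8, 0], .close [7] [8, 1],
    .use (.N false 1 [11, 0, 3]), .close [2, 11, 0, 3] [9, 4, 5, 3, 4, 5, 3, 0, 6], .clash 9 8,
    .use (.W false 1 2 0 [11, 0, 3]), .clash 9 10, .use (.W false 1 2 1 [11, 0, 3]), .clash 9 11,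
    .close [12, 11, 0, 3] [11, 4, 5, 3, 6, 10], .clash 9 7, .close [4, 11, 0, 3] [8, 6],
    .close [5] [8, 4, 5, 3, 0], .close [14, 11, 0, 3] [7, 4, 5, 3, 4, 3, 0, 6],
    .close [6, 15, 4, 7] [5, 3, 0, 4], .close [6, 15, 4, 7] [5, 3, 0, 1, 4], .close [4, 7] [2, 1]])

/-- A lemma and its proof. -/
def c1122_90 : List Lit × List (Cmd Rule) :=
  ([.ord true [1] [3], .ord true [5] [1]], [
    .lem 89 [], .close [5] [2, 1], .lem 52 [1], .close [2, 1] [3, 0], .lem 19 [],
    .close [1] [4, 0], .close [7] [4, 3, 1], .close [5] [4, 2]])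

/-- A lemma and its proof. -/
def c1122_91 : List Lit × List (Cmd Rule) :=
  ([.ord true [0] [4], .ord true [4] [6]], [
    .lem 89 [4], .close [] [2, 0], .close [7, 4] [2, 1]])

/-- A lemma and its proof. -/
def c1122_92 : List Lit × List (Cmd Rule) :=
  ([.ord true [4] [0], .ord true [6] [4]], [
    .lem 84 [4], .lem 29 [4], .close [1, 4] [3, 1, 0], .lem 32 [4], .close [1, 4] [4, 0],
    .lem 35 [4], .close [1, 4] [5, 2], .close [3, 4] [5, 4], .close [] [5, 1],
    .close [3, 4] [4, 3], .close [] [3, 1], .close [1, 4] [2, 0]])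

/-- A lemma and its proof. -/
def c1122_93 : List Lit × List (Cmd Rule) :=
  ([.ord true [7] [1], .ord true [3] [7], .walk false false 0 2 [9, 6, 1], .ord false [7] [1], .ord false [3] [5]], [
    .use (.W false 0 2 0 [9, 6, 1]), .clash 2 5, .use (.W false 0 2 1 [9, 6, 1]), .clash 2 6,
    .lem 78 [1], .close [] [7, 0, 1], .use (.F false 0 []), .close [3] [8, 0, 1],
    .close [5] [8, 7, 3], .close [7] [8, 0], .close [3] [8, 5, 6, 3, 4]])

/-- A lemma and its proof. -/
def c1122_94 : List Lit × List (Cmd Rule) :=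
  ([.ord true [7] [1], .ord true [3] [7], .walk false false 0 3 [9, 6, 1], .ord false [3] [7]], [
    .use (.W false 0 3 0 [9, 6, 1]), .clash 2 4, .use (.W false 0 3 1 [9, 6, 1]), .clash 2 5,
    .lem 78 [1], .close [] [6, 0, 1], .use (.F false 0 []), .close [3] [7, 0, 1],
    .close [5] [7, 6, 0], .close [7] [7, 0], .close [3] [7, 4, 5, 0, 3]])

/-- A lemma and its proof. -/
def c1122_95 : List Lit × List (Cmd Rule) :=
  ([.ord true [7] [1], .ord true [3] [7], .walk false false 0 1 [9, 6, 1]], [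
    .use (.W false 0 1 0 [9, 6, 1]), .clash 2 3, .use (.W false 0 1 1 [9, 6, 1]), .clash 2 4,
    .lem 78 [1], .close [] [5, 0, 1], .use (.F false 0 []), .close [3] [6, 0, 1],
    .close [5] [6, 5, 0], .close [7] [6, 0], .close [3] [6, 3, 4, 0]])

/-- A lemma and its proof. -/
def c1122_96 : List Lit × List (Cmd Rule) :=
  ([.ord true [7] [1], .ord true [3] [7], .ord false [3] [5], .ord true [5] [7]], [
    .use (.F false 0 []), .close [3] [4, 0, 1], .close [5] [4, 0, 3], .close [7] [4, 0],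
    .lem 95 [], .close [7] [5, 0], .close [3] [5, 1], .lem 94 [], .close [7] [6, 0],
    .close [3] [6, 1], .use (.N false 0 [9, 6, 1]), .close [0, 9, 6, 1] [7, 0, 0, 3, 2, 4],
    .clash 7 5, .use (.W false 0 2 0 [9, 6, 1]), .clash 7 8, .use (.W false 0 2 1 [9, 6, 1]),
    .clash 7 9, .close [12, 9, 6, 1] [9, 0, 2, 4, 8], .clash 7 6, .close [3] [6, 3, 2]])

/-- A lemma and its proof. -/
def c1122_97 : List Lit × List (Cmd Rule) :=
  ([.ord true [7] [1], .ord true [3] [7], .ord false [3] [5]], [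
    .lem 78 [1], .close [] [3, 0, 1], .use (.F false 0 []), .close [3] [4, 0, 1],
    .close [5] [4, 3, 0], .close [7] [4, 0], .lem 95 [], .close [7] [5, 0], .close [3] [5, 1],
    .lem 96 [], .close [7] [6, 0], .close [3] [6, 1], .close [3] [6, 2], .lem 93 [],
    .close [7] [7, 0], .close [3] [7, 1], .use (.N false 0 [9, 6, 1]),
    .close [0, 9, 6, 1] [8, 0, 3, 0, 2, 4], .clash 8 5, .clash 8 7,
    .use (.W false 0 3 0 [9, 6, 1]), .clash 8 9, .use (.W false 0 3 1 [9, 6, 1]), .clash 8 10,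
    .close [14, 9, 6, 1] [10, 3, 0, 2, 4, 9], .close [7] [7, 3, 0, 6], .close [3] [7, 2]])

/-- A lemma and its proof. -/
def c1122_98 : List Lit × List (Cmd Rule) :=
  ([.ord true [7] [1], .ord true [3] [7], .walk false true 2 1 [7], .ord false [4, 13, 2, 5] []], [
    .use (.W true 2 1 0 [7]), .clash 2 4, .use (.W true 2 1 1 [7]), .clash 2 5, .lem 78 [1],
    .close [] [6, 0, 1], .lem 97 [], .close [7] [7, 0], .close [3] [7, 1], .use (.F true 2 []),
    .close [5] [8, 6, 0], .close [5] [8, 7], .close [5] [8, 1, 7],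
    .close [13, 4, 13, 2, 5] [8, 5, 4, 1, 3]])

/-- A lemma and its proof. -/
def c1122_99 : List Lit × List (Cmd Rule) :=
  ([.ord true [7] [1], .ord true [3] [7], .ord false [4, 13, 2, 5] []], [
    .lem 78 [1], .close [] [3, 0, 1], .use (.F false 0 []), .close [3] [4, 0, 1],
    .close [5] [4, 3, 0], .close [7] [4, 0], .lem 97 [], .close [7] [5, 0], .close [3] [5, 1],
    .use (.F true 2 []), .close [5] [6, 3, 0], .close [5] [6, 5], .close [5] [6, 1, 5],
    .use (.W true 2 0 1 [7]), .lem 98 [], .close [7] [8, 0], .close [3] [8, 1],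
    .use (.N true 2 [7]), .close [12, 7] [9, 1, 5, 2, 6], .clash 9 7, .clash 9 8,
    .use (.W true 2 3 0 [7]), .clash 9 10, .use (.W true 2 3 1 [7]), .clash 9 11,
    .close [12, 7] [11, 10, 2, 6], .close [4, 13, 2, 5] [8, 2], .close [12, 7] [7, 1, 4, 0, 2, 6]])

/-- A lemma and its proof. -/
def c1122_100 : List Lit × List (Cmd Rule) :=
  ([.ord true [7] [1], .ord true [3] [7], .walk false false 3 1 [7], .ord false [12, 7] [14, 7], .ord false [12, 7] [4, 7]], [
    .use (.W true 2 3 1 [7]), .use (.W false 3 1 0 [7]), .clash 2 6, .use (.W true 2 1 0 [7]),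
    .use (.N true 2 [7]), .close [12, 7] [8, 4], .use (.C false true 2 0 [7] false 3 1 [7]),
    .clash 8 9, .clash 2 9, .close [7] [9], .close [12, 7] [9, 3], .clash 8 7, .clash 8 5,
    .close [10, 7] [7, 6], .close [12, 7] [5, 3]])

/-- A lemma and its proof. -/
def c1122_101 : List Lit × List (Cmd Rule) :=
  ([.ord true [7] [1], .ord true [3] [7], .ord false [12, 7] [14, 7], .ord false [5] [7], .ord true [13, 2, 5] [5]], [
    .use (.W true 2 3 1 [7]), .use (.W false 3 2 1 [7]), .use (.F false 0 []),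
    .close [3] [7, 0, 1], .close [5] [7, 0, 3], .close [7] [7, 0], .use (.W false 3 0 0 [7]),
    .lem 97 [], .close [7] [9, 0], .close [3] [9, 1], .use (.F true 2 []), .close [5] [10, 0, 3],
    .close [5] [10, 9], .close [5] [10, 3], .lem 100 [], .close [7] [11, 0], .close [3] [11, 1],
    .use (.N false 3 [7]), .use (.W true 2 0 1 [7]), .use (.N true 2 [7]),
    .close [12, 7] [14, 3, 4, 10], .clash 14 13, .use (.W true 2 1 0 [7]), .clash 14 15,
    .use (.W true 2 1 1 [7]), .clash 14 16, .close [12, 7] [16, 15, 1, 12, 2], .clash 14 5,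
    .close [12, 7] [13, 1, 7, 0, 12, 2], .clash 12 8, .clash 12 11, .clash 12 6,
    .close [12, 7] [11, 2], .close [12, 7] [11, 3, 4, 10], .close [0, 7] [8, 1, 7, 0, 0],
    .close [12, 7] [6, 2], .close [12, 7] [5, 2]])

/-- A lemma and its proof. -/
def c1122_102 : List Lit × List (Cmd Rule) :=
  ([.ord true [7] [1], .ord true [3] [7], .walk false false 0 3 [5], .ord false [6, 5] [8, 5]], [
    .use (.W false 0 3 0 [5]), .clash 2 4, .use (.W false 0 3 1 [5]), .clash 2 5,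
    .close [14, 5] [5, 3, 4]])

/-- A lemma and its proof. -/
def c1122_103 : List Lit × List (Cmd Rule) :=
  ([.ord true [7] [1], .ord true [3] [7], .walk false true 2 1 [7], .ord true [13, 2, 5] [5]], [
    .use (.W true 2 1 0 [7]), .clash 2 4, .use (.W true 2 1 1 [7]), .clash 2 5, .lem 78 [1],
    .close [] [6, 0, 1], .lem 97 [], .close [7] [7, 0], .close [3] [7, 1], .use (.F true 2 []),
    .close [5] [8, 6, 0], .close [5] [8, 7], .close [5] [8, 1, 7],
    .close [13, 4, 13, 2, 5] [8, 5, 4, 1, 3]])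

/-- A lemma and its proof. -/
def c1122_104 : List Lit × List (Cmd Rule) :=
  ([.ord true [7] [1], .ord true [3] [7], .ord false [5] [7, 2, 5], .ord true [13, 2, 5] [5]], [
    .lem 78 [1], .close [] [4, 0, 1], .use (.F false 0 []), .close [3] [5, 0, 1],
    .close [5] [5, 4, 0], .close [7] [5, 0], .lem 97 [], .close [7] [6, 0], .close [3] [6, 1],
    .use (.F true 2 []), .close [5] [7, 4, 0], .close [5] [7, 6], .close [5] [7, 1, 6],
    .lem 103 [], .close [7] [8, 0], .close [3] [8, 1], .lem 101 [], .close [7] [9, 0],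
    .close [3] [9, 1], .use (.W true 2 3 0 [7]), .use (.N true 2 [7]),
    .close [12, 7] [11, 6, 2, 3, 7], .use (.W true 2 0 0 [7]), .clash 11 12,
    .use (.W true 2 0 1 [7]), .clash 11 13, .close [9, 6, 1] [3, 7, 13, 12, 3, 7, 13, 1, 5],
    .clash 11 8, .clash 11 10, .close [14, 7] [10, 3, 7, 9], .close [5] [9, 6, 2],
    .close [13, 2, 5] [9, 3], .close [13, 2, 5] [8, 3]])

/-- A lemma and its proof. -/
def c1122_105 : List Lit × List (Cmd Rule) :=
  ([.ord true [7] [1], .ord true [3] [7], .ord true [7, 2, 5] [5]], [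
    .lem 97 [], .close [7] [3, 0], .close [3] [3, 1], .lem 99 [], .close [7] [4, 0],
    .close [3] [4, 1], .use (.M false 2 [5]), .use (.F false 0 [2, 5]), .close [5] [6, 4, 5],
    .close [5, 2, 5] [6, 4, 5, 3], .close [7, 2, 5] [6, 4, 5, 2], .use (.W false 0 2 1 [5]),
    .lem 102 [], .close [7] [8, 0], .close [3] [8, 1], .use (.N false 0 [5]),
    .close [0, 5] [9, 6, 4, 5, 2, 4, 5], .use (.W false 0 1 0 [5]), .clash 9 10,
    .use (.W false 0 1 1 [5]), .clash 9 11, .close [10, 5] [11, 6, 4, 5, 2, 10], .clash 9 7,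
    .clash 9 8, .close [6, 5] [8, 6, 4, 5], .close [12, 5] [7, 6, 4, 5, 2, 4],
    .close [12, 5] [5, 4], .close [12, 5] [5, 3, 4], .close [12, 5] [5, 2, 4]])

/-- A lemma and its proof. -/
def c1122_106 : List Lit × List (Cmd Rule) :=
  ([.ord true [7] [1], .ord true [3] [7], .ord false [1, 2, 5] [7, 2, 5], .ord false [5, 2, 5] [7, 2, 5], .ord true [15, 6, 15, 4, 7, 2, 5] [1, 2, 5], .ord true [14, 7, 2, 5] [2, 5]], [
    .close [15, 6, 15, 4, 7, 2, 5] [3, 5, 5, 2, 4]])

/-- A lemma and its proof. -/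
def c1122_107 : List Lit × List (Cmd Rule) :=
  ([.ord true [7] [1], .ord true [3] [7], .ord false [5] [3], .ord true [14, 7] [], .ord false [1, 2, 5] [7, 2, 5], .ord false [5] [7, 2, 5], .ord true [15, 6, 15, 4, 7, 2, 5] [1, 2, 5]], [
    .close [1, 2, 5] [6, 5, 3, 3, 2, 4]])

/-- A lemma and its proof. -/
def c1122_108 : List Lit × List (Cmd Rule) :=
  ([.ord true [7] [1], .ord true [3] [7], .walk false true 2 0 [7, 4, 13, 2, 5], .ord false [6, 15, 4, 7, 2, 5] [4, 7, 2, 5], .walk true false 3 2 [15, 4, 7, 2, 5], .ord false [4, 7, 2, 5] [14, 7, 4, 13, 2, 5], .ord true [12, 7, 4, 13, 2, 5] [4, 7, 2, 5]], [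
    .use (.W true 2 0 1 [7, 4, 13, 2, 5]), .clash 2 7, .use (.W false 3 0 1 [15, 4, 7, 2, 5]),
    .use (.N false 3 [15, 4, 7, 2, 5]), .close [6, 15, 4, 7, 2, 5] [9, 3], .clash 9 8,
    .use (.C true true 2 0 [7, 4, 13, 2, 5] false 3 1 [15, 4, 7, 2, 5]), .clash 2 10, .clash 9 10,
    .close [15, 4, 7, 2, 5] [10, 5], .close [12, 7, 4, 13, 2, 5] [10, 6], .clash 9 4,
    .close [8, 15, 4, 7, 2, 5] [8, 6, 7, 5]])

/-- A lemma and its proof. -/
def c1122_109 : List Lit × List (Cmd Rule) :=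
  ([.ord true [7] [1], .ord true [3] [7], .ord true [7, 2, 5] [1, 2, 5]], [
    .lem 97 [], .close [7] [3, 0], .close [3] [3, 1], .lem 105 [], .close [7] [4, 0],
    .close [3] [4, 1], .use (.F false 0 [2, 5]), .close [5] [5, 2, 4],
    .close [5, 2, 5] [5, 2, 4, 3], .close [7, 2, 5] [5, 2], .lem 102 [], .close [7] [6, 0],
    .close [3] [6, 1], .lem 104 [], .close [7] [7, 0], .close [3] [7, 1], .close [5] [7, 4],
    .use (.W false 0 2 1 [5]), .use (.N false 0 [5]), .close [0, 5] [9, 5, 2, 2, 4],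
    .use (.W false 0 1 0 [5]), .clash 9 10, .use (.W false 0 1 1 [5]), .clash 9 11,
    .close [10, 5] [11, 5, 2, 10], .clash 9 8, .clash 9 6, .close [12, 5] [8, 5, 2, 7],
    .close [6, 5] [6, 5, 2, 4]])

/-- A lemma and its proof. -/
def c1122_110 : List Lit × List (Cmd Rule) :=
  ([.ord true [7] [1], .ord true [3] [7], .ord true [12, 7, 4, 13, 2, 5] [4, 7, 2, 5], .ord true [14, 7] [12, 7]], [
    .lem 78 [1], .close [] [4, 0, 1], .lem 97 [], .close [7] [5, 0], .close [3] [5, 1],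
    .use (.F true 2 []), .close [5] [6, 4, 0], .close [5] [6, 5], .close [5] [6, 1, 5], .lem 99 [],
    .close [7] [7, 0], .close [3] [7, 1], .lem 105 [], .close [7] [8, 0], .close [3] [8, 1],
    .lem 109 [], .close [7] [9, 0], .close [3] [9, 1], .use (.F false 3 [2, 5]),
    .close [1, 2, 5] [10, 9], .close [5] [10, 8], .close [5, 2, 5] [10, 8, 5],
    .use (.W false 3 2 1 [15, 4, 7, 2, 5]), .lem 52 [15, 4, 7, 2, 5],
    .use (.W true 2 3 1 [7, 4, 13, 2, 5]), .lem 108 [], .close [7] [14, 0], .close [3] [14, 1],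
    .use (.N true 2 [7, 4, 13, 2, 5]), .close [12, 7, 4, 13, 2, 5] [15, 7, 0, 5, 9, 2],
    .clash 15 14, .use (.W true 2 1 0 [7, 4, 13, 2, 5]), .clash 15 16,
    .use (.W true 2 1 1 [7, 4, 13, 2, 5]), .clash 15 17, .use (.W false 3 1 1 [15, 4, 7, 2, 5]),
    .use (.N false 3 [15, 4, 7, 2, 5]), .close [6, 15, 4, 7, 2, 5] [19, 2, 7, 3, 5, 9, 10],
    .use (.W false 3 0 0 [15, 4, 7, 2, 5]), .clash 19 20, .use (.W false 3 0 1 [15, 4, 7, 2, 5]),
    .clash 19 21, .close [8, 15, 4, 7, 2, 5] [21, 2, 17, 16, 6, 3, 5, 9, 10, 12, 20], .clash 19 18,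
    .clash 19 11, .close [10, 15, 4, 7, 2, 5] [18, 2, 17, 6, 3, 5, 9, 10], .clash 15 13,
    .close [6, 15, 4, 7, 2, 5] [14, 2, 7, 3, 5, 9, 10], .clash 14 11,
    .close [4, 7, 2, 5] [14, 6, 3, 5, 9, 10], .close [12, 7, 4, 13, 2, 5] [14, 2],
    .close [12, 7, 4, 13, 2, 5] [13, 6, 3, 5, 9, 10, 2],
    .close [6, 15, 4, 7, 2, 5] [12, 2, 7, 3, 5, 2, 7, 3, 5, 9, 10],
    .close [12, 15, 4, 7, 2, 5] [11, 2, 6, 3, 5, 9, 10]])

/-- A lemma and its proof. -/
def c1122_111 : List Lit × List (Cmd Rule) :=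
  ([.ord true [7] [1], .ord true [3] [7], .ord false [0, 9, 6, 1] [6, 1], .walk true false 0 2 [9, 6, 1]], [
    .lem 78 [1], .close [] [4, 0, 1], .use (.F false 0 []), .close [3] [5, 0, 1],
    .close [5] [5, 4, 0], .close [7] [5, 0], .lem 95 [], .close [7] [6, 0], .close [3] [6, 1],
    .use (.N false 0 [9, 6, 1]), .close [0, 9, 6, 1] [7, 2], .clash 7 6, .clash 7 3,
    .use (.W false 0 3 0 [9, 6, 1]), .clash 7 8, .use (.W false 0 3 1 [9, 6, 1]), .clash 7 9,
    .close [14, 9, 6, 1] [9, 0, 1, 5, 8]])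

/-- A lemma and its proof. -/
def c1122_112 : List Lit × List (Cmd Rule) :=
  ([.ord true [7] [1], .ord true [3] [7], .ord false [12, 9, 6, 1] [6, 1], .ord true [14, 7] [12, 7]], [
    .use (.W false 0 2 1 [9, 6, 1]), .lem 78 [1], .close [] [5, 0, 1], .use (.F false 0 []),
    .close [3] [6, 0, 1], .close [5] [6, 5, 0], .close [7] [6, 0], .lem 97 [], .close [7] [7, 0],
    .close [3] [7, 1], .lem 105 [], .close [7] [8, 0], .close [3] [8, 1], .lem 109 [],
    .close [7] [9, 0], .close [3] [9, 1], .use (.F false 3 [2, 5]), .close [1, 2, 5] [10, 9],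
    .close [5] [10, 8], .close [5, 2, 5] [10, 8, 7], .lem 107 [], .close [7] [11, 0],
    .close [3] [11, 1], .close [5] [11, 0, 7, 9], .lem 111 [], .close [7] [12, 0],
    .close [3] [12, 1], .close [8, 7] [1, 6, 2, 12, 0, 0, 3, 11, 0, 1, 6, 12, 12, 0, 0],
    .clash 12 4, .close [1, 2, 5] [11, 9], .close [5] [11, 8],
    .close [15, 6, 15, 4, 7, 2, 5] [11, 10], .close [12, 9, 6, 1] [4, 2]])

/-- A lemma and its proof. -/
def c1122_113 : List Lit × List (Cmd Rule) :=
  ([.ord true [7] [1], .ord true [3] [7], .walk false true 2 1 [7, 2, 5], .ord true [7, 4, 13, 2, 5] [13, 4, 13, 2, 13, 2, 5], .ord false [4, 7, 2, 5] [12, 7, 4, 13, 2, 5]], [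
    .use (.W true 2 1 0 [7, 2, 5]), .clash 2 5, .use (.W true 2 1 1 [7, 2, 5]), .clash 2 6,
    .lem 105 [], .close [7] [7, 0], .close [3] [7, 1], .close [7, 2, 5] [7, 3, 4, 6, 5, 6, 5]])

/-- A lemma and its proof. -/
def c1122_114 : List Lit × List (Cmd Rule) :=
  ([.ord true [7] [1], .ord true [3] [7], .ord true [7] [1], .ord true [9, 6, 1] [3], .ord false [5] [3], .ord true [7] [13, 4, 13, 2, 5], .ord true [14, 7] [12, 7], .ord true [6, 1] [12, 9, 6, 1], .ord false [1, 2, 5] [7, 2, 5], .ord true [15, 6, 15, 4, 7, 2, 5] [1, 2, 5], .ord false [2, 5] [14, 7, 2, 5], .ord true [14, 7, 2, 5] [12, 7, 2, 5], .ord true [7, 4, 13, 2, 5] [13, 4, 13, 2, 13, 2, 5], .ord false [4, 7, 2, 5] [12, 7, 4, 13, 2, 5]], [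
    .close [12, 7, 4, 13, 2, 5] [13, 11, 8, 9, 11, 10, 5, 6, 3, 7, 0, 4, 12]])

/-- A lemma and its proof. -/
def c1122_115 : List Lit × List (Cmd Rule) :=
  ([.ord true [7] [1], .ord true [3] [7], .ord true [14, 7] [12, 7]], [
    .lem 78 [1], .close [] [3, 0, 1], .use (.F false 0 []), .close [3] [4, 0, 1],
    .close [5] [4, 3, 0], .close [7] [4, 0], .lem 97 [], .close [7] [5, 0], .close [3] [5, 1],
    .use (.F true 2 []), .close [5] [6, 3, 0], .close [5] [6, 5], .close [5] [6, 1, 5],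
    .lem 105 [], .close [7] [7, 0], .close [3] [7, 1], .lem 109 [], .close [7] [8, 0],
    .close [3] [8, 1], .use (.F false 3 [2, 5]), .close [1, 2, 5] [9, 8], .close [5] [9, 7],
    .close [5, 2, 5] [9, 7, 5], .lem 104 [], .close [7] [10, 0], .close [3] [10, 1],
    .close [5] [10, 7], .lem 110 [], .close [7] [11, 0], .close [3] [11, 1], .lem 112 [],
    .close [7] [12, 0], .close [3] [12, 1], .use (.F true 2 [4, 13, 2, 5]),
    .close [13, 2, 5] [13, 10, 0, 1, 4, 12, 0, 0, 5, 8],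
    .close [13, 2, 5] [13, 10, 4, 12, 0, 0, 5, 8], .close [13, 2, 5] [13, 11, 7, 5], .lem 113 [],
    .close [7] [14, 0], .close [3] [14, 1], .lem 106 [], .close [7] [15, 0], .close [3] [15, 1],
    .close [1, 2, 5] [15, 8], .close [5, 2, 5] [15, 7, 5], .close [15, 6, 15, 4, 7, 2, 5] [15, 9],
    .lem 114 [], .close [7] [16, 0], .close [3] [16, 1], .close [7] [16, 0],
    .close [9, 6, 1] [16, 4], .close [5] [16, 0, 5, 8], .close [7] [16, 6], .close [14, 7] [16, 2],
    .close [6, 1] [16, 12], .close [1, 2, 5] [16, 8], .close [15, 6, 15, 4, 7, 2, 5] [16, 9],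
    .close [2, 5] [16, 15], .use (.W true 2 3 1 [7, 2, 5]), .use (.N true 2 [7, 2, 5]),
    .close [12, 7, 2, 5] [18, 7, 4, 12, 0, 0, 5, 8, 13, 11], .use (.W true 2 0 0 [7, 2, 5]),
    .clash 18 19, .use (.W true 2 0 1 [7, 2, 5]), .clash 18 20, .use (.W false 3 0 1 [1, 2, 5]),
    .use (.W false 3 2 1 [1, 2, 5]), .use (.N false 3 [1, 2, 5]),
    .close [6, 1, 2, 5] [23, 9, 20, 19, 8, 6, 2, 5, 8], .clash 23 21,
    .use (.W false 3 1 0 [1, 2, 5]), .clash 23 24, .use (.W false 3 1 1 [1, 2, 5]), .clash 23 25,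
    .close [10, 1, 2, 5] [25, 9, 20, 19, 8, 6, 2, 4, 12, 0, 4, 12, 0, 0, 5, 8, 13, 11, 8, 24],
    .clash 23 22, .close [12, 1, 2, 5] [22, 9, 20, 19, 8, 6, 2, 4, 12, 0, 0, 5, 8, 13, 11, 8],
    .close [8, 1, 2, 5] [21, 9, 20, 19, 8, 6, 2, 4, 12, 0, 0, 5, 8, 13, 11, 20, 8], .clash 18 14,
    .clash 18 17, .close [12, 7, 2, 5] [17, 16], .close [7, 4, 13, 2, 5] [16, 13],
    .close [4, 7, 2, 5] [16, 11], .close [7, 4, 13, 2, 5] [14, 13], .close [4, 7, 2, 5] [14, 11],
    .close [14, 7] [12, 2], .close [14, 7] [11, 2]])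

/-- A lemma and its proof. -/
def c1122_116 : List Lit × List (Cmd Rule) :=
  ([.ord true [7] [1], .ord true [3] [7]], [
    .lem 78 [1], .close [] [2, 0, 1], .use (.F false 0 []), .close [3] [3, 0, 1],
    .close [5] [3, 2, 0], .close [7] [3, 0], .use (.W false 3 0 0 [7]), .lem 97 [],
    .close [7] [5, 0], .close [3] [5, 1], .use (.F true 2 []), .close [5] [6, 2, 0],
    .close [5] [6, 5], .close [5] [6, 1, 5], .lem 105 [], .close [7] [7, 0], .close [3] [7, 1],
    .lem 109 [], .close [7] [8, 0], .close [3] [8, 1], .use (.F false 3 [2, 5]),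
    .close [1, 2, 5] [9, 8], .close [5] [9, 7], .close [5, 2, 5] [9, 7, 5], .lem 115 [],
    .close [7] [10, 0], .close [3] [10, 1], .use (.W true 2 3 1 [7]), .use (.W false 3 2 1 [7]),
    .lem 107 [], .close [7] [13, 0], .close [3] [13, 1], .close [5] [13, 0, 5, 8],
    .use (.N false 3 [7]), .close [] [14, 13], .clash 14 4, .use (.W false 3 1 0 [7]),
    .clash 14 15, .use (.W true 2 1 0 [7]), .use (.C false true 2 0 [7] false 3 1 [7]),
    .use (.N true 2 [7]), .close [5, 2, 5] [6, 18, 18, 5, 7, 5], .clash 18 17, .clash 18 16,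
    .clash 18 11, .clash 14 17, .close [7] [17], .close [12, 7] [17, 10], .close [10, 7] [16, 15],
    .clash 14 12, .close [1, 2, 5] [13, 8], .close [5] [13, 7],
    .close [15, 6, 15, 4, 7, 2, 5] [13, 9], .close [12, 7] [12, 10], .close [12, 7] [11, 10],
    .close [0, 7] [4, 1, 3, 0, 0]])

/-- A lemma and its proof. -/
def c1122_117 : List Lit × List (Cmd Rule) :=
  ([.ord true [1] [7], .ord true [7] [3], .ord true [6, 13, 2, 5] [2, 5], .ord false [2, 5] [6, 1, 2, 5], .ord true [13, 2, 5] [5], .ord true [3, 4, 13, 2, 5] [5]], [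
    .use (.M true 2 [13, 2, 5]), .close [0, 13, 2, 5] [6, 3, 2], .close [2, 13, 2, 5] [6, 4],
    .close [4, 13, 2, 5] [6, 5], .close [6, 13, 2, 5] [6, 2]])

/-- A lemma and its proof. -/
def c1122_118 : List Lit × List (Cmd Rule) :=
  ([.ord true [1] [7], .ord true [7] [3], .walk false true 3 0 [15, 4, 7, 2, 5], .ord false [7] [15, 4, 7, 2, 5], .ord false [2, 5] [6, 5]], [
    .use (.W true 3 0 0 [15, 4, 7, 2, 5]), .clash 2 5, .use (.W true 3 0 1 [15, 4, 7, 2, 5]),
    .clash 2 6, .close [4, 7, 2, 5] [6, 5, 3, 0, 4]])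

/-- A lemma and its proof. -/
def c1122_119 : List Lit × List (Cmd Rule) :=
  ([.ord true [1] [7], .ord true [7] [3], .ord false [7] [15, 4, 7, 2, 5], .ord false [2, 5] [6, 13, 2, 5], .ord false [3] [5], .ord true [13, 4, 13, 2, 5] [7], .ord false [2, 5] [6, 5], .ord true [7, 2, 5] [5]], [
    .use (.W false 2 3 1 [7]), .use (.W true 3 2 1 [15, 4, 7, 2, 5]), .lem 118 [],
    .close [1] [10, 0], .close [7] [10, 1], .use (.N true 3 [15, 4, 7, 2, 5]),
    .close [4, 7, 2, 5] [11, 2, 6], .clash 11 10, .use (.W true 3 1 1 [15, 4, 7, 2, 5]),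
    .clash 11 12, .use (.W false 2 1 1 [7]), .use (.N false 2 [7]), .close [4, 7] [14, 5, 3, 4],
    .use (.C false true 3 1 [15, 4, 7, 2, 5] false 2 0 [7]), .clash 11 15, .clash 14 15,
    .close [7] [15, 2], .close [4, 7, 2, 5] [15, 5, 3], .clash 14 13, .clash 14 8,
    .close [10, 7] [13, 5, 3, 12, 2], .clash 11 9, .close [7] [10, 2], .close [2, 5] [10, 6],
    .close [4, 7, 2, 5] [9, 2, 5, 3], .close [14, 7] [8, 5, 3, 2]])

/-- A lemma and its proof. -/
def c1122_120 : List Lit × List (Cmd Rule) :=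
  ([.ord true [1] [7], .ord true [7] [3], .walk false false 2 1 [7], .ord true [] [4, 13, 2, 5], .ord true [13, 4, 13, 2, 5] [7]], [
    .use (.W false 2 1 0 [7]), .clash 2 5, .use (.W false 2 1 1 [7]), .clash 2 6,
    .close [10, 7] [6, 4, 3, 1, 5]])

/-- A lemma and its proof. -/
def c1122_121 : List Lit × List (Cmd Rule) :=
  ([.ord true [1] [7], .ord true [7] [3], .ord true [5] [3], .ord true [] [4, 13, 2, 5]], [
    .lem 52 [7], .close [2, 7] [4, 0, 1], .use (.M false 2 [13, 2, 5]),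
    .close [2, 5] [5, 3, 4, 0, 2], .close [2, 5] [5, 3], .close [2, 5] [5, 3, 2],
    .close [2, 5] [5, 3, 4, 2]])

/-- A lemma and its proof. -/
def c1122_122 : List Lit × List (Cmd Rule) :=
  ([.ord true [1] [7], .ord true [7] [3], .walk false false 2 3 [7], .ord true [] [4, 13, 2, 5], .ord true [13, 4, 13, 2, 5] [7]], [
    .use (.W false 2 3 0 [7]), .clash 2 5, .use (.W false 2 3 1 [7]), .clash 2 6,
    .close [14, 7] [6, 4, 3, 5]])

/-- A lemma and its proof. -/
def c1122_123 : List Lit × List (Cmd Rule) :=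
  ([.ord true [1] [7], .ord true [7] [3], .walk false true 0 3 [5], .ord false [2, 5] [0, 5], .ord true [5] [9, 6, 1, 2, 5]], [
    .use (.W true 0 3 0 [5]), .clash 2 5, .use (.W true 0 3 1 [5]), .clash 2 6,
    .close [8, 5] [6, 5, 3, 4]])

/-- A lemma and its proof. -/
def c1122_124 : List Lit × List (Cmd Rule) :=
  ([.ord true [1] [7], .ord true [7] [3], .ord true [] [4, 13, 2, 5]], [
    .lem 52 [7], .close [2, 7] [3, 0, 1], .use (.F true 0 []), .close [1] [4, 1, 0],
    .close [1] [4, 3, 0], .close [1] [4, 0], .lem 121 [], .close [1] [5, 0], .close [7] [5, 1],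
    .use (.F false 2 []), .close [1] [6, 3, 0], .close [3] [6, 5], .close [7] [6, 3], .lem 120 [],
    .close [1] [7, 0], .close [7] [7, 1], .lem 122 [], .close [1] [8, 0], .close [7] [8, 1],
    .use (.N false 2 [7]), .close [4, 7] [9, 6, 2, 3], .use (.W false 2 0 0 [7]), .clash 9 10,
    .use (.W false 2 0 1 [7]), .clash 9 11, .close [1] [4, 1, 11, 6, 2, 10, 11, 6, 2], .clash 9 7,
    .clash 9 8, .close [] [8, 2], .close [13, 4, 13, 2, 5] [8, 6], .close [] [7, 2],
    .close [13, 4, 13, 2, 5] [7, 6], .close [] [5, 2]])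

/-- A lemma and its proof. -/
def c1122_125 : List Lit × List (Cmd Rule) :=
  ([.ord true [1] [7], .ord true [7] [3], .ord true [13, 4, 13, 2, 13, 2, 5] [7, 4, 13, 2, 5], .ord true [12, 9, 6, 1] [6, 1], .ord true [1, 2, 5] [15, 6, 15, 4, 7, 2, 5], .ord false [2, 5] [6, 1, 2, 5], .ord false [3] [5], .ord false [4, 7, 2, 5] [14, 7], .ord false [12, 7, 4, 13, 2, 5] [4, 7, 2, 5], .ord false [4, 7, 2, 5] [6, 15, 4, 7, 2, 5], .ord true [7] [1]], [
    .use (.F true 0 []), .close [1] [11, 1, 0], .close [1] [11, 6, 1, 0], .close [1] [11, 0],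
    .use (.W true 3 0 1 [15, 6, 15, 4, 7, 2, 5]), .use (.W true 3 2 1 [15, 6, 15, 4, 7, 2, 5]),
    .use (.N true 3 [15, 6, 15, 4, 7, 2, 5]), .close [6, 15, 4, 7, 2, 5] [14, 4, 5, 6, 7],
    .clash 14 12, .use (.W true 3 1 0 [15, 6, 15, 4, 7, 2, 5]), .clash 14 15,
    .use (.W true 3 1 1 [15, 6, 15, 4, 7, 2, 5]), .clash 14 16,
    .close [6, 15, 4, 7, 2, 5] [16, 15, 4, 5, 8, 2, 6, 0, 3, 11, 0, 3, 11, 7], .clash 14 13,
    .close [6, 15, 4, 7, 2, 5] [13, 4, 5, 8, 2, 6, 0, 3, 11, 7],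
    .close [6, 15, 4, 7, 2, 5] [12, 4, 5, 8, 2, 6, 0, 3, 11, 0, 3, 10, 7]])

/-- A lemma and its proof. -/
def c1122_126 : List Lit × List (Cmd Rule) :=
  ([.ord true [1] [7], .ord true [7] [3], .walk false true 0 1 [9, 6, 1]], [
    .lem 52 [7], .close [2, 7] [3, 0, 1], .use (.W true 0 1 0 [9, 6, 1]), .clash 2 4,
    .use (.W true 0 1 1 [9, 6, 1]), .clash 2 5, .use (.F true 0 []), .close [1] [6, 1, 0],
    .close [1] [6, 3, 0], .close [1] [6, 0], .close [9, 6, 1] [6, 0, 5, 4]])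

/-- A lemma and its proof. -/
def c1122_127 : List Lit × List (Cmd Rule) :=
  ([.ord true [1] [7], .ord true [7] [3], .walk false true 3 0 [15, 6, 15, 4, 7, 2, 5], .ord true [1, 2, 5] [15, 6, 15, 4, 7, 2, 5], .ord false [3] [5], .ord false [4, 7, 2, 5] [14, 7]], [
    .use (.W true 3 0 0 [15, 6, 15, 4, 7, 2, 5]), .clash 2 6,
    .use (.W true 3 0 1 [15, 6, 15, 4, 7, 2, 5]), .clash 2 7,
    .close [6, 15, 4, 7, 2, 5] [7, 6, 3, 4, 5]])

/-- A lemma and its proof. -/
def c1122_128 : List Lit × List (Cmd Rule) :=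
  ([.ord true [1] [7], .ord true [7] [3], .walk false true 3 0 [15, 4, 7, 2, 5], .ord true [4, 7, 2, 5] [12, 7, 4, 13, 2, 5], .ord false [4, 13, 2, 5] [6, 15, 4, 7, 2, 5], .ord false [1, 4, 7, 2, 5] [3, 4, 7, 2, 5], .ord false [4, 7, 4, 13, 2, 5] [12, 7, 4, 13, 2, 5], .walk true false 2 3 [7, 4, 13, 2, 5]], [
    .use (.W true 3 0 0 [15, 4, 7, 2, 5]), .clash 2 8, .use (.W true 3 0 1 [15, 4, 7, 2, 5]),
    .clash 2 9, .use (.W false 2 0 1 [7, 4, 13, 2, 5]), .use (.N false 2 [7, 4, 13, 2, 5]),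
    .close [4, 7, 4, 13, 2, 5] [11, 6], .clash 11 10, .use (.W false 2 1 0 [7, 4, 13, 2, 5]),
    .clash 11 12, .use (.W false 2 1 1 [7, 4, 13, 2, 5]), .clash 11 13,
    .close [10, 7, 4, 13, 2, 5] [13, 3, 5, 9, 8, 4, 12], .clash 11 7,
    .close [8, 7, 4, 13, 2, 5] [10, 3, 9, 4]])

/-- A lemma and its proof. -/
def c1122_129 : List Lit × List (Cmd Rule) :=
  ([.ord true [1] [7], .ord true [7] [3], .ord true [4, 7, 2, 5] [12, 7, 4, 13, 2, 5], .ord false [4, 13, 2, 5] [6, 15, 4, 7, 2, 5], .ord false [4, 7, 2, 5] [6, 15, 4, 7, 2, 5], .ord false [1, 4, 7, 2, 5] [3, 4, 7, 2, 5], .ord false [4, 13, 2, 5] [2, 5]], [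
    .use (.W true 3 2 1 [15, 4, 7, 2, 5]), .use (.W false 2 3 1 [7, 4, 13, 2, 5]), .lem 128 [],
    .close [1] [9, 0], .close [7] [9, 1], .use (.N true 3 [15, 4, 7, 2, 5]),
    .close [4, 7, 2, 5] [10, 4], .clash 10 9, .use (.W true 3 1 1 [15, 4, 7, 2, 5]), .clash 10 11,
    .use (.W false 2 1 1 [7, 4, 13, 2, 5]), .use (.N false 2 [7, 4, 13, 2, 5]),
    .close [4, 7, 4, 13, 2, 5] [13, 2, 6],
    .use (.C true true 3 1 [15, 4, 7, 2, 5] false 2 0 [7, 4, 13, 2, 5]), .clash 10 14,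
    .clash 13 14, .close [7, 4, 13, 2, 5] [14, 3], .close [4, 7, 2, 5] [14, 2], .clash 13 12,
    .clash 13 8, .close [10, 7, 4, 13, 2, 5] [12, 2, 11, 3], .clash 10 7,
    .close [4, 7, 2, 5] [9, 2], .close [4, 13, 2, 5] [9, 3], .close [1, 4, 7, 2, 5] [9, 5],
    .close [4, 7, 4, 13, 2, 5] [9, 2, 6], .clash 9 8, .close [14, 7, 4, 13, 2, 5] [8, 2, 3],
    .close [4, 7, 2, 5] [7, 3, 2]])

/-- A lemma and its proof. -/
def c1122_130 : List Lit × List (Cmd Rule) :=
  ([.ord true [1] [7], .ord true [7] [3], .walk false true 0 3 [9, 6, 1], .ord false [2, 5] [6, 1, 2, 5], .ord true [7] [1], .ord false [3] [5], .ord true [1, 2, 5] [15, 6, 15, 4, 7, 2, 5], .ord false [4, 7, 2, 5] [14, 7]], [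
    .use (.W true 0 3 0 [9, 6, 1]), .clash 2 8, .use (.W true 0 3 1 [9, 6, 1]), .clash 2 9,
    .use (.F true 0 []), .close [1] [10, 1, 0], .close [1] [10, 5, 1, 0], .close [1] [10, 0],
    .close [9, 6, 1] [10, 1, 0, 9, 8]])

/-- A lemma and its proof. -/
def c1122_131 : List Lit × List (Cmd Rule) :=
  ([.ord true [1] [7], .ord true [7] [3], .ord false [6, 1] [12, 9, 6, 1], .walk true true 0 3 [9, 6, 1], .ord false [4, 7, 2, 5] [14, 7], .ord false [7] [15, 6, 15, 4, 7, 2, 5], .ord false [3] [5], .ord true [7] [1], .ord true [1, 2, 5] [15, 6, 15, 4, 7, 2, 5], .ord false [4, 7, 2, 5] [6, 15, 4, 7, 2, 5]], [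
    .use (.W true 0 2 1 [9, 6, 1]), .lem 126 [], .close [1] [11, 0], .close [7] [11, 1],
    .use (.N true 0 [9, 6, 1]), .use (.W false 2 0 0 [7]), .use (.W false 2 3 1 [7]),
    .use (.N false 2 [7]), .close [4, 7] [15, 0, 0, 12, 2, 7, 6, 1], .clash 15 13,
    .use (.W false 2 1 0 [7]), .clash 15 16, .use (.W false 2 1 1 [7]), .clash 15 17,
    .close [10, 7] [17, 0, 0, 12, 2, 7, 1, 16], .clash 15 14,
    .close [14, 7] [14, 0, 0, 12, 2, 7, 4, 5], .close [0, 7] [13, 0, 0, 12, 7, 7], .clash 12 11,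
    .clash 12 10, .clash 12 3, .close [6, 1] [10, 2]])

/-- A lemma and its proof. -/
def c1122_132 : List Lit × List (Cmd Rule) :=
  ([.ord true [1] [7], .ord true [7] [3], .ord false [2, 5] [6, 1, 2, 5], .ord false [4, 7, 2, 5] [6, 15, 4, 7, 2, 5], .ord true [13, 4, 13, 2, 5] [7], .ord false [1, 4, 7, 2, 5] [3, 4, 7, 2, 5], .ord true [3, 4, 7, 2, 5] [5], .ord false [3] [5], .ord true [1, 2, 5] [15, 6, 15, 4, 7, 2, 5], .ord false [4, 7, 2, 5] [14, 7], .ord true [7] [1]], [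
    .use (.F true 0 []), .close [1] [11, 1, 0], .close [1] [11, 7, 1, 0], .close [1] [11, 0],
    .lem 124 [], .close [1] [12, 0], .close [7] [12, 1], .lem 117 [], .close [1] [13, 0],
    .close [7] [13, 1], .lem 127 [], .close [1] [14, 0], .close [7] [14, 1], .lem 130 [],
    .close [1] [15, 0], .close [7] [15, 1], .lem 131 [], .close [1] [16, 0], .close [7] [16, 1],
    .use (.F false 2 [4, 13, 2, 5]), .close [1, 4, 13, 2, 5] [17, 13, 7, 0, 12],
    .close [3, 4, 13, 2, 5] [17, 7, 0, 16, 11, 12], .close [7, 4, 13, 2, 5] [17, 13, 7, 12],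
    .lem 125 [], .close [1] [18, 0], .close [7] [18, 1], .close [13, 4, 13, 2, 13, 2, 5] [18, 17],
    .close [12, 9, 6, 1] [18, 16], .close [1, 2, 5] [18, 8], .close [2, 5] [18, 2],
    .close [3] [18, 7], .close [4, 7, 2, 5] [18, 9], .lem 129 [], .close [1] [19, 0],
    .close [7] [19, 1], .close [4, 7, 2, 5] [19, 18], .use (.W false 2 3 1 [7]),
    .use (.W true 3 2 1 [15, 6, 15, 4, 7, 2, 5]), .use (.N true 3 [15, 6, 15, 4, 7, 2, 5]),
    .close [6, 15, 4, 7, 2, 5] [22, 3], .clash 22 14, .use (.W true 3 1 1 [15, 6, 15, 4, 7, 2, 5]),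
    .clash 22 23, .use (.W false 2 1 1 [7]), .use (.N false 2 [7]), .close [4, 7] [25, 4, 13, 7],
    .use (.C true true 3 1 [15, 6, 15, 4, 7, 2, 5] false 2 0 [7]), .clash 22 26, .clash 25 26,
    .close [7] [26, 8, 2, 7], .close [6, 15, 4, 7, 2, 5] [26, 4, 19], .clash 25 24, .clash 25 20,
    .close [10, 7] [24, 4, 19, 23, 8, 2, 7], .clash 22 21,
    .close [6, 15, 4, 7, 2, 5] [21, 8, 2, 7, 4, 19], .close [14, 7] [20, 4, 19, 8, 2, 7],
    .close [4, 7, 2, 5] [19, 3], .close [1, 4, 7, 2, 5] [19, 5], .close [4, 13, 2, 5] [19, 7, 12],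
    .close [4, 7, 2, 5] [18, 3], .close [7] [18, 10], .clash 16 15, .close [4, 7, 2, 5] [16, 9],
    .close [7] [16, 8, 2, 7], .close [3] [16, 7], .close [7] [16, 10], .close [1, 2, 5] [16, 8],
    .close [4, 7, 2, 5] [16, 3], .close [2, 5] [15, 2], .close [7] [15, 10], .close [3] [15, 7],
    .close [1, 2, 5] [15, 8], .close [4, 7, 2, 5] [15, 9], .close [1, 2, 5] [14, 8],
    .close [3] [14, 7], .close [4, 7, 2, 5] [14, 9], .close [2, 5] [13, 2],
    .close [13, 2, 5] [13, 12], .close [3, 4, 13, 2, 5] [13, 7, 12]])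

/-- A lemma and its proof. -/
def c1122_133 : List Lit × List (Cmd Rule) :=
  ([.ord true [1] [7], .ord true [7] [3], .ord true [0, 13, 2, 5] [2, 5], .ord true [6, 1, 2, 5] [2, 5], .ord true [3, 4, 13, 2, 5] [5]], [
    .use (.M true 2 [13, 2, 5]), .close [0, 13, 2, 5] [5, 2], .lem 124 [], .close [1] [6, 0],
    .close [7] [6, 1], .close [] [6, 5], .close [4, 13, 2, 5] [5, 4],
    .close [6, 13, 2, 5] [5, 3, 2]])

/-- A lemma and its proof. -/
def c1122_134 : List Lit × List (Cmd Rule) :=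
  ([.ord true [1] [7], .ord true [7] [3], .ord true [6, 1, 2, 5] [2, 5], .ord true [3] [5], .ord true [3, 4, 13, 2, 5] [5]], [
    .lem 124 [], .close [1] [5, 0], .close [7] [5, 1], .lem 133 [], .close [1] [6, 0],
    .close [7] [6, 1], .use (.F true 0 [2, 5]), .close [1, 2, 5] [7, 5, 6],
    .close [1, 2, 5] [7, 3, 5, 6], .close [1, 2, 5] [7, 2], .use (.W true 0 2 1 [5]), .lem 123 [],
    .close [1] [9, 0], .close [7] [9, 1], .use (.N true 0 [5]), .close [8, 5] [10, 5, 6, 2, 7],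
    .use (.W true 0 1 0 [5]), .clash 10 11, .use (.W true 0 1 1 [5]), .clash 10 12,
    .close [8, 5] [12, 11, 2, 7], .clash 10 8, .clash 10 9, .close [2, 5] [9, 5, 6],
    .close [5] [9, 7], .close [8, 5] [8, 5, 2, 7], .close [6, 1, 2, 5] [6, 2],
    .close [3, 4, 13, 2, 5] [6, 4]])

/-- A lemma and its proof. -/
def c1122_135 : List Lit × List (Cmd Rule) :=
  ([.ord true [1] [7], .ord true [7] [3], .ord true [12, 9, 6, 1] [6, 1], .ord false [12, 7, 4, 13, 2, 5] [4, 7, 2, 5], .ord true [1, 2, 5] [15, 6, 15, 4, 7, 2, 5], .ord false [3] [5], .ord false [2, 5] [6, 1, 2, 5], .ord false [4, 7, 2, 5] [14, 7], .ord false [4, 7, 2, 5] [6, 15, 4, 7, 2, 5], .ord true [4, 13, 2, 5] [0, 13, 2, 5], .ord true [4, 13, 2, 5] [6, 13, 2, 5]], [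
    .use (.F true 0 []), .close [1] [11, 1, 0], .close [1] [11, 5, 1, 0], .close [1] [11, 0],
    .use (.F false 2 []), .close [1] [12, 5, 1, 0], .close [3] [12, 5], .close [7] [12, 5, 1],
    .use (.F false 2 [4, 13, 2, 5]), .close [1, 4, 13, 2, 5] [13, 9],
    .close [3, 4, 13, 2, 5] [13, 5, 0, 2, 11, 0, 2, 11, 1, 12],
    .close [7, 4, 13, 2, 5] [13, 5, 7, 4, 6, 5, 7, 3],
    .use (.W true 3 2 1 [15, 6, 15, 4, 7, 2, 5]), .lem 127 [], .close [1] [15, 0],
    .close [7] [15, 1], .use (.N true 3 [15, 6, 15, 4, 7, 2, 5]),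
    .close [6, 15, 4, 7, 2, 5] [16, 4, 6, 5, 7], .clash 16 15,
    .use (.W true 3 1 0 [15, 6, 15, 4, 7, 2, 5]), .clash 16 17,
    .use (.W true 3 1 1 [15, 6, 15, 4, 7, 2, 5]), .clash 16 18,
    .close [6, 15, 4, 7, 2, 5] [18, 17, 4, 6, 3, 13, 5, 0, 2, 11, 0, 2, 11, 7], .clash 16 14,
    .close [1, 2, 5] [15, 4], .close [3] [15, 5], .close [4, 7, 2, 5] [15, 7],
    .close [6, 15, 4, 7, 2, 5] [14, 4, 6, 3, 13, 5, 0, 2, 11, 7]])

/-- A lemma and its proof. -/
def c1122_136 : List Lit × List (Cmd Rule) :=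
  ([.ord true [1] [7], .ord true [7] [3], .walk false true 0 3 [9, 6, 1], .ord false [1] [3]], [
    .lem 52 [7], .close [2, 7] [4, 0, 1], .use (.W true 0 3 0 [9, 6, 1]), .clash 2 5,
    .use (.W true 0 3 1 [9, 6, 1]), .clash 2 6, .use (.F true 0 []), .close [1] [7, 1, 0],
    .close [1] [7, 4, 0], .close [1] [7, 0], .close [9, 6, 1] [7, 3, 6, 5]])

/-- A lemma and its proof. -/
def c1122_137 : List Lit × List (Cmd Rule) :=
  ([.ord true [1] [7], .ord true [7] [3], .ord false [3] [5], .ord true [14, 7] [4, 7, 2, 5]], [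
    .use (.F true 0 []), .close [1] [4, 1, 0], .close [1] [4, 2, 1, 0], .close [1] [4, 0],
    .use (.F false 2 []), .close [1] [5, 2, 1, 0], .close [3] [5, 2], .close [7] [5, 2, 1],
    .lem 124 [], .close [1] [6, 0], .close [7] [6, 1], .lem 134 [], .close [1] [7, 0],
    .close [7] [7, 1], .lem 117 [], .close [1] [8, 0], .close [7] [8, 1],
    .use (.W false 2 3 1 [7]), .use (.W true 3 2 1 [15, 4, 7, 2, 5]), .lem 119 [],
    .close [1] [11, 0], .close [7] [11, 1], .use (.W true 3 0 0 [15, 4, 7, 2, 5]),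
    .use (.N true 3 [15, 4, 7, 2, 5]), .close [4, 7, 2, 5] [13, 3, 6, 8], .clash 13 12,
    .use (.W true 3 1 0 [15, 4, 7, 2, 5]), .clash 13 14, .use (.W false 2 1 0 [7]),
    .use (.N false 2 [7]), .close [4, 7] [16, 5, 8, 2],
    .use (.C false true 3 1 [15, 4, 7, 2, 5] false 2 0 [7]), .clash 13 17, .clash 16 17,
    .close [7] [17, 3], .close [4, 7, 2, 5] [17, 5, 8], .clash 16 15, .clash 16 9,
    .close [2, 7] [15, 11, 14, 3], .clash 13 10,
    .close [8, 15, 4, 7, 2, 5] [12, 3, 0, 0, 4, 1, 11], .close [2, 5] [11, 8], .close [3] [11, 2],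
    .close [13, 4, 13, 2, 5] [11, 5], .close [2, 5] [11, 6, 8], .close [7, 2, 5] [11, 6, 8],
    .close [4, 7, 2, 5] [10, 3, 5, 8], .close [14, 7] [9, 5, 8, 3], .close [2, 5] [8, 7],
    .close [13, 2, 5] [8, 6], .close [3, 4, 13, 2, 5] [8, 2, 6], .close [3] [7, 2],
    .close [3, 4, 13, 2, 5] [7, 2, 6]])

/-- A lemma and its proof. -/
def c1122_138 : List Lit × List (Cmd Rule) :=
  ([.ord true [1] [7], .ord true [7] [3], .ord true [5] [3]], [
    .lem 52 [7], .close [2, 7] [3, 0, 1], .use (.F true 0 []), .close [1] [4, 1, 0],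
    .close [1] [4, 3, 0], .close [1] [4, 0], .lem 126 [], .close [1] [5, 0], .close [7] [5, 1],
    .lem 136 [], .close [1] [6, 0], .close [7] [6, 1], .use (.N true 0 [9, 6, 1]),
    .close [6, 1] [7, 4, 2, 3, 0, 0], .clash 7 5, .use (.W true 0 2 0 [9, 6, 1]), .clash 7 8,
    .use (.W true 0 2 1 [9, 6, 1]), .clash 7 9, .close [6, 1] [9, 8, 4, 2, 0], .clash 7 6,
    .close [1] [6, 2, 3, 0]])

/-- A lemma and its proof. -/
def c1122_139 : List Lit × List (Cmd Rule) :=
  ([.ord true [1] [7], .ord true [7] [3]], [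
    .lem 52 [7], .close [2, 7] [2, 0, 1], .use (.F true 0 []), .close [1] [3, 1, 0],
    .close [1] [3, 2, 0], .close [1] [3, 0], .lem 124 [], .close [1] [4, 0], .close [7] [4, 1],
    .lem 126 [], .close [1] [5, 0], .close [7] [5, 1], .lem 138 [], .close [1] [6, 0],
    .close [7] [6, 1], .use (.F false 2 []), .close [1] [7, 2, 0], .close [3] [7, 6],
    .close [7] [7, 2], .lem 137 [], .close [1] [8, 0], .close [7] [8, 1], .close [3] [8, 6],
    .lem 134 [], .close [1] [9, 0], .close [7] [9, 1], .lem 117 [], .close [1] [10, 0],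
    .close [7] [10, 1], .lem 84 [4, 7, 2, 5], .use (.F true 3 [2, 5]), .close [7, 2, 5] [12, 9],
    .close [7, 2, 5] [12, 4, 10], .close [7, 2, 5] [12, 6, 4, 10], .lem 127 [], .close [1] [13, 0],
    .close [7] [13, 1], .lem 132 [], .close [1] [14, 0], .close [7] [14, 1], .close [2, 5] [14, 9],
    .close [4, 7, 2, 5] [14, 12, 9, 6, 8], .close [13, 4, 13, 2, 5] [14, 7],
    .close [1, 4, 7, 2, 5] [14, 11], .close [3, 4, 7, 2, 5] [14, 6, 4, 10], .close [3] [14, 6],
    .close [1, 2, 5] [14, 12], .close [4, 7, 2, 5] [14, 8], .lem 136 [], .close [1] [15, 0],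
    .close [7] [15, 1], .use (.N true 0 [9, 6, 1]), .close [6, 1] [16, 3, 1, 14, 14], .clash 16 5,
    .use (.W true 0 2 1 [9, 6, 1]), .clash 16 17, .lem 135 [], .close [1] [18, 0],
    .close [7] [18, 1], .close [12, 9, 6, 1] [18, 17], .lem 129 [], .close [1] [19, 0],
    .close [7] [19, 1], .close [4, 7, 2, 5] [19, 18], .use (.W false 2 3 1 [7]),
    .use (.W true 3 2 1 [15, 6, 15, 4, 7, 2, 5]), .use (.N true 3 [15, 6, 15, 4, 7, 2, 5]),
    .close [6, 15, 4, 7, 2, 5] [22, 12, 9, 6, 8], .clash 22 13,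
    .use (.W true 3 1 1 [15, 6, 15, 4, 7, 2, 5]), .clash 22 23, .use (.W false 2 1 1 [7]),
    .use (.N false 2 [7]), .close [4, 7] [25, 7, 10, 6],
    .use (.C true true 3 1 [15, 6, 15, 4, 7, 2, 5] false 2 0 [7]), .clash 22 26, .clash 25 26,
    .close [7] [26, 12, 9, 6], .close [6, 15, 4, 7, 2, 5] [26, 7, 19], .clash 25 24, .clash 25 20,
    .close [10, 7] [24, 7, 19, 23, 12, 9, 6], .clash 22 21,
    .close [6, 15, 4, 7, 2, 5] [21, 12, 9, 6, 7, 19], .close [14, 7] [20, 7, 19, 12, 9, 6],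
    .close [4, 7, 2, 5] [19, 12, 9, 6, 8], .close [1, 4, 7, 2, 5] [19, 11],
    .close [4, 13, 2, 5] [19, 6, 4], .close [1, 2, 5] [18, 12], .close [3] [18, 6],
    .close [2, 5] [18, 9], .close [4, 7, 2, 5] [18, 8], .close [4, 7, 2, 5] [18, 12, 9, 6, 8],
    .close [4, 13, 2, 5] [18, 10, 6, 0, 4], .close [4, 13, 2, 5] [18, 10, 6, 4], .clash 16 15,
    .close [1] [15, 1, 14], .close [1, 2, 5] [13, 12], .close [3] [13, 6],
    .close [4, 7, 2, 5] [13, 8], .close [1, 4, 7, 2, 5] [11, 6, 0, 4, 10], .close [2, 5] [10, 9],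
    .close [13, 2, 5] [10, 4], .close [3, 4, 13, 2, 5] [10, 6, 4], .close [3] [9, 6],
    .close [3, 4, 13, 2, 5] [9, 6, 4]])

/-- A lemma and its proof. -/
def c1122_140 : List Lit × List (Cmd Rule) :=
  ([.ord true [4] [2], .ord true [2] [6], .ord true [4] [2], .ord true [4, 13, 2] [12, 7, 4], .ord false [4] [6], .ord true [5, 2] [13, 2]], [
    .close [13, 4, 13, 2] [5, 5, 0, 4, 3]])

/-- A lemma and its proof. -/
def c1122_141 : List Lit × List (Cmd Rule) :=
  ([.ord true [4] [2], .ord true [2] [6], .walk false false 2 0 [13, 4, 13, 2], .ord false [14, 7, 4] [4, 13, 2], .ord false [4] [6, 15, 4], .walk true true 3 2 [7, 4]], [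
    .lem 78 [], .use (.W false 2 0 1 [13, 4, 13, 2]), .clash 2 7, .use (.F false 2 [4]),
    .close [1, 4] [8, 6, 0], .close [3, 4] [8, 0], .close [7, 4] [8, 1, 0],
    .use (.W true 3 0 1 [7, 4]), .use (.N true 3 [7, 4]), .close [14, 7, 4] [10, 4], .clash 10 9,
    .use (.C false true 3 1 [7, 4] false 2 0 [13, 4, 13, 2]), .clash 10 11, .clash 2 11,
    .close [13, 4, 13, 2] [11, 8], .close [14, 7, 4] [11, 3], .clash 10 5,
    .close [14, 7, 4] [9, 8, 7, 3], .close [4] [6, 1, 0]])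

/-- A lemma and its proof. -/
def c1122_142 : List Lit × List (Cmd Rule) :=
  ([.ord true [4] [2], .ord true [2] [6], .walk false false 2 1 [13, 2], .ord true [4, 13, 2] [14, 7, 4], .ord false [4] [6, 15, 4]], [
    .use (.W false 2 1 0 [13, 2]), .clash 2 5, .use (.W false 2 1 1 [13, 2]), .clash 2 6,
    .close [10, 13, 2] [6, 4, 3, 5]])

/-- A lemma and its proof. -/
def c1122_143 : List Lit × List (Cmd Rule) :=
  ([.ord true [4] [2], .ord true [2] [6], .ord false [13, 2] [15, 4], .walk true false 2 1 [13, 2], .ord false [4] [6, 15, 4]], [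
    .lem 78 [], .lem 139 [2], .use (.W false 2 3 1 [13, 2]), .use (.W true 3 2 1 [15, 4]),
    .use (.F false 2 [4]), .close [1, 4] [9, 5, 0], .close [3, 4] [9, 0], .close [7, 4] [9, 1, 0],
    .lem 140 [], .close [4] [10, 0], .close [2] [10, 1], .close [4] [10, 0],
    .close [4, 13, 2] [10, 9], .close [4] [10, 5, 6, 0], .use (.N false 2 [13, 2]),
    .close [4, 13, 2] [11, 10], .use (.W false 2 0 1 [13, 2]), .clash 11 12,
    .use (.W true 3 0 1 [15, 4]), .use (.N true 3 [15, 4]), .close [4] [14, 4], .clash 14 13,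
    .use (.C true true 3 1 [15, 4] false 2 0 [13, 2]), .clash 14 15, .clash 11 15,
    .close [13, 2] [15, 2], .close [4] [15, 0], .clash 14 8, .close [4] [13, 2, 12, 0],
    .clash 11 3, .clash 11 7, .close [4] [8, 2, 0], .close [14, 13, 2] [7, 0, 2],
    .close [7, 2] [6, 1], .close [4] [5, 1, 0]])

/-- A lemma and its proof. -/
def c1122_144 : List Lit × List (Cmd Rule) :=
  ([.ord true [4] [2], .ord true [2] [6], .walk false false 2 3 [13, 2], .ord true [4, 13, 2] [14, 7, 4], .ord false [15, 4] [13, 2], .ord false [4] [6, 15, 4]], [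
    .lem 139 [2], .use (.W false 2 3 0 [13, 2]), .clash 2 7, .use (.W false 2 3 1 [13, 2]),
    .clash 2 8, .use (.F true 3 [2]), .close [7, 2] [9, 6], .close [7, 2] [9, 1],
    .close [7, 2] [9, 0, 1], .lem 139 [6, 15, 4], .use (.F true 3 [6, 15, 4]),
    .close [15, 4] [11, 10], .close [15, 4] [11, 3, 7, 8, 9, 6, 5, 3, 4],
    .close [15, 4] [11, 5, 5, 3, 4], .close [15, 6, 15, 4, 15, 4] [11, 10, 3, 4],
    .close [15, 4] [10, 3, 7, 8, 9, 6, 5, 3, 4], .close [7, 2] [6, 1]])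

/-- A lemma and its proof. -/
def c1122_145 : List Lit × List (Cmd Rule) :=
  ([.ord true [4] [2], .ord true [2] [6], .ord false [14, 7, 4] [4, 13, 2], .ord false [4] [6, 15, 4]], [
    .lem 78 [], .lem 139 [2], .lem 78 [7, 4, 7, 4], .use (.F false 2 [4]), .close [1, 4] [7, 4, 0],
    .close [3, 4] [7, 0], .close [7, 4] [7, 1, 0], .use (.W false 2 3 1 [13, 4, 13, 2]),
    .use (.W true 3 2 1 [7, 4]), .lem 140 [], .close [4] [10, 0], .close [2] [10, 1],
    .close [4] [10, 0], .close [4, 13, 2] [10, 7], .close [4] [10, 4, 5, 0], .lem 141 [],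
    .close [4] [11, 0], .close [2] [11, 1], .use (.N false 2 [13, 4, 13, 2]),
    .close [4, 13, 4, 13, 2] [12, 10], .clash 12 11, .use (.W false 2 1 0 [13, 4, 13, 2]),
    .clash 12 13, .use (.W false 2 1 1 [13, 4, 13, 2]), .clash 12 14, .use (.W true 3 1 1 [7, 4]),
    .use (.N true 3 [7, 4]), .close [14, 7, 4] [16, 3], .use (.W true 3 0 0 [7, 4]), .clash 16 17,
    .use (.W true 3 0 1 [7, 4]), .clash 16 18, .lem 78 [13, 4, 13, 2],
    .close [0, 13, 4, 13, 2] [19, 13, 14, 2, 18, 17, 7],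
    .close [4, 13, 4, 13, 2] [19, 13, 14, 2, 18, 17, 4, 5, 0, 6, 7], .clash 16 15, .clash 16 9,
    .close [14, 7, 4] [15, 7, 14, 2], .clash 12 8, .close [14, 7, 4] [11, 2], .close [4] [11, 3],
    .clash 11 9, .close [14, 7, 4] [9, 7, 2], .close [14, 13, 4, 13, 2] [8, 2, 7],
    .close [4, 7, 4, 7, 4] [6, 1, 0], .close [7, 2] [5, 1], .close [4] [4, 1, 0]])

/-- A lemma and its proof. -/
def c1122_146 : List Lit × List (Cmd Rule) :=
  ([.ord true [4] [2], .ord true [2] [6], .ord false [15, 4] [13, 2], .ord false [4] [6, 15, 4]], [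
    .lem 78 [], .lem 139 [2], .use (.F true 3 [2]), .close [7, 2] [6, 5], .close [7, 2] [6, 1],
    .close [7, 2] [6, 0, 1], .use (.F false 2 [4]), .close [1, 4] [7, 4, 0], .close [3, 4] [7, 0],
    .close [7, 4] [7, 1, 0], .lem 145 [], .close [4] [8, 0], .close [2] [8, 1], .lem 142 [],
    .close [4] [9, 0], .close [2] [9, 1], .lem 144 [], .close [4] [10, 0], .close [2] [10, 1],
    .use (.N false 2 [13, 2]), .close [4, 13, 2] [11, 2, 3, 7], .use (.W false 2 0 0 [13, 2]),
    .clash 11 12, .use (.W false 2 0 1 [13, 2]), .clash 11 13, .lem 139 [6, 15, 4],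
    .use (.F true 3 [6, 15, 4]), .close [15, 4] [15, 14],
    .close [15, 4] [15, 8, 12, 13, 5, 6, 5, 3, 8, 2], .close [15, 4] [15, 3, 3, 8, 2],
    .close [15, 6, 15, 4, 15, 4] [15, 14, 8, 2], .close [15, 4] [14, 8, 12, 13, 5, 6, 5, 3, 8, 2],
    .clash 11 9, .clash 11 10, .close [4, 13, 2] [10, 8], .close [15, 4] [10, 2],
    .close [4] [10, 3], .close [4, 13, 2] [9, 8], .close [4] [9, 3], .close [4] [8, 3],
    .close [7, 2] [5, 1], .close [4] [4, 1, 0]])

/-- A lemma and its proof. -/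
def c1122_147 : List Lit × List (Cmd Rule) :=
  ([.ord true [4] [2], .ord true [2] [6], .ord true [2, 15, 4] [6, 15, 4], .ord false [4] [6, 15, 4]], [
    .lem 139 [6, 15, 4], .lem 145 [], .close [4] [5, 0], .close [2] [5, 1], .lem 142 [],
    .close [4] [6, 0], .close [2] [6, 1], .lem 143 [], .close [4] [7, 0], .close [2] [7, 1],
    .use (.F true 3 [6, 15, 4]), .close [15, 4] [8, 4], .close [15, 4] [8, 2],
    .close [15, 4] [8, 3, 3, 5, 7], .close [15, 6, 15, 4, 15, 4] [8, 4, 5, 7], .clash 7 6,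
    .close [4] [7, 3], .close [4, 13, 2] [6, 5], .close [4] [6, 3], .close [4] [5, 3],
    .close [15, 4] [4, 2]])

/-- A lemma and its proof. -/
def c1122_148 : List Lit × List (Cmd Rule) :=
  ([.ord true [4] [2], .ord true [2] [6], .ord false [4] [6, 15, 4]], [
    .lem 139 [2], .lem 145 [], .close [4] [4, 0], .close [2] [4, 1], .lem 146 [],
    .close [4] [5, 0], .close [2] [5, 1], .lem 147 [], .close [4] [6, 0], .close [2] [6, 1],
    .lem 142 [], .close [4] [7, 0], .close [2] [7, 1], .lem 143 [], .close [4] [8, 0],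
    .close [2] [8, 1], .use (.W false 2 3 1 [13, 2]), .use (.N false 2 [13, 2]),
    .close [4, 13, 2] [10, 0, 2, 4], .use (.W false 2 0 0 [13, 2]), .clash 10 11,
    .use (.W false 2 0 1 [13, 2]), .clash 10 12, .close [8, 13, 2] [12, 3, 2, 4, 8, 6, 5, 11],
    .clash 10 7, .clash 10 9, .close [14, 13, 2] [9, 2, 4, 8, 6, 2, 5], .clash 8 7,
    .close [4] [8, 2], .close [4, 13, 2] [7, 4], .close [4] [7, 2], .close [4] [6, 2],
    .close [4] [5, 2], .close [4] [4, 2], .close [7, 2] [3, 1]])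

/-- A lemma and its proof. -/
def c1122_149 : List Lit × List (Cmd Rule) :=
  ([.ord true [4] [2], .ord true [2] [6]], [
    .lem 139 [2], .use (.F true 3 [2]), .close [7, 2] [3, 2], .close [7, 2] [3, 1],
    .close [7, 2] [3, 0, 1], .lem 148 [], .close [4] [4, 0], .close [2] [4, 1],
    .close [2] [3, 2, 0, 4, 4, 1], .close [7, 2] [2, 1]])

/-- A lemma and its proof. -/
def c1122_150 : List Lit × List (Cmd Rule) :=
  ([.ord true [4] [0], .ord true [2] [4], .walk false false 1 2 [11, 0, 3, 4], .ord true [11, 0, 3, 4] []], [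
    .lem 90 [0], .close [] [4, 0, 1], .use (.W false 1 2 0 [11, 0, 3, 4]), .clash 2 5,
    .use (.W false 1 2 1 [11, 0, 3, 4]), .clash 2 6, .close [12, 11, 0, 3, 4] [6, 1, 4, 3, 5]])

/-- A lemma and its proof. -/
def c1122_151 : List Lit × List (Cmd Rule) :=
  ([.ord true [4] [0], .ord true [2] [4], .walk false false 1 0 [11, 0, 3, 4], .ord true [11, 0, 3, 4] []], [
    .use (.W false 1 0 0 [11, 0, 3, 4]), .clash 2 4, .use (.W false 1 0 1 [11, 0, 3, 4]),
    .clash 2 5, .close [8, 11, 0, 3, 4] [5, 1, 3, 4]])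

/-- A lemma and its proof. -/
def c1122_152 : List Lit × List (Cmd Rule) :=
  ([.ord true [4] [0], .ord true [2] [4], .walk false false 1 0 [11, 0, 3, 4, 7, 0], .ord false [7, 0] [3, 4, 7, 0], .ord true [6, 11, 0, 3, 4, 7, 0] [0]], [
    .use (.W false 1 0 0 [11, 0, 3, 4, 7, 0]), .clash 2 5,
    .use (.W false 1 0 1 [11, 0, 3, 4, 7, 0]), .clash 2 6,
    .close [8, 11, 0, 3, 4, 7, 0] [6, 3, 4, 5]])

/-- A lemma and its proof. -/
def c1122_153 : List Lit × List (Cmd Rule) :=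
  ([.ord true [4] [0], .ord true [2] [4], .ord true [11, 0, 3, 4] []], [
    .lem 90 [0], .close [] [3, 0, 1], .lem 150 [], .close [4] [4, 0], .close [2] [4, 1],
    .lem 151 [], .close [4] [5, 0], .close [2] [5, 1], .use (.N false 1 [11, 0, 3, 4]),
    .close [2, 11, 0, 3, 4] [6, 1, 3, 1, 2], .clash 6 5, .clash 6 4,
    .use (.W false 1 3 0 [11, 0, 3, 4]), .clash 6 7, .use (.W false 1 3 1 [11, 0, 3, 4]),
    .clash 6 8, .lem 149 [7, 0], .lem 89 [4, 7, 0], .use (.F true 3 [0]),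
    .close [7, 0] [11, 2, 7, 8, 1], .close [7, 0] [11, 3, 1, 2, 7, 8, 1],
    .close [7, 0] [11, 3, 2, 7, 8, 1], .use (.F false 1 [4, 7, 0]),
    .close [1, 4, 7, 0] [12, 9, 10], .close [7, 0] [12, 9],
    .close [7, 4, 7, 0] [12, 9, 3, 2, 7, 8, 1], .use (.W false 1 3 1 [11, 0, 3, 4, 7, 0]),
    .lem 152 [], .close [4] [14, 0], .close [2] [14, 1], .use (.N false 1 [11, 0, 3, 4, 7, 0]),
    .close [2, 11, 0, 3, 4, 7, 0] [15, 9, 10, 9, 12], .clash 15 14,
    .use (.W false 1 2 0 [11, 0, 3, 4, 7, 0]), .clash 15 16,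
    .use (.W false 1 2 1 [11, 0, 3, 4, 7, 0]), .clash 15 17,
    .close [12, 11, 0, 3, 4, 7, 0] [17, 9, 10, 12, 16], .clash 15 13, .close [7, 0] [14, 9],
    .close [6, 11, 0, 3, 4, 7, 0] [14, 12],
    .close [14, 11, 0, 3, 4, 7, 0] [13, 9, 10, 11, 2, 8, 1, 12],
    .close [7, 4, 7, 0] [10, 3, 2, 7, 8, 1], .close [2, 7, 0] [9, 3, 1, 2, 7, 8, 1],
    .close [11, 0, 3, 4] [5, 2], .close [11, 0, 3, 4] [4, 2]])

/-- A lemma and its proof. -/
def c1122_154 : List Lit × List (Cmd Rule) :=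
  ([.ord true [4] [0], .ord true [2] [4]], [
    .lem 90 [0], .close [] [2, 0, 1], .lem 153 [], .close [4] [3, 0], .close [2] [3, 1],
    .use (.F false 1 [4]), .close [1, 4] [4, 1, 0], .close [] [4, 1], .lem 92 [3, 4],
    .lem 52 [5, 0, 3, 4], .close [2, 5, 0, 3, 4] [6, 1, 2, 2, 5],
    .close [6, 5, 0, 3, 4] [6, 1, 2, 4, 5], .close [6, 3, 4] [5, 1, 4], .close [] [4, 3]])

/-- A lemma and its proof. -/
def c1122_155 : List Lit × List (Cmd Rule) :=
  ([.ord false [6] [0], .ord true [2] [4], .walk false true 2 0 [7, 4], .ord false [12, 7, 4] [14, 7, 4], .ord false [6, 15, 4] [4]], [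
    .use (.W true 2 0 0 [7, 4]), .clash 2 5, .use (.W false 3 0 0 [7, 4]),
    .use (.W false 3 2 1 [7, 4]), .use (.N false 3 [7, 4]), .close [4] [8, 4], .clash 8 6,
    .use (.C false true 2 0 [7, 4] false 3 1 [7, 4]), .clash 2 9, .clash 8 9, .close [7, 4] [9],
    .close [12, 7, 4] [9, 3], .clash 8 7, .close [12, 7, 4] [7, 3], .close [0, 7, 4] [6, 5]])

/-- A lemma and its proof. -/
def c1122_156 : List Lit × List (Cmd Rule) :=
  ([.ord false [6] [0], .ord true [2] [4], .walk false true 2 1 [13, 2], .ord true [14, 7, 4] [12, 7, 4], .ord true [7, 4] [13, 4, 13, 2], .ord false [6, 15, 4] [4]], [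
    .use (.W true 2 1 0 [13, 2]), .clash 2 6, .use (.W true 2 1 1 [13, 2]), .clash 2 7,
    .close [2] [7, 6, 4, 3, 5]])

/-- A lemma and its proof. -/
def c1122_157 : List Lit × List (Cmd Rule) :=
  ([.ord false [6] [0], .ord true [2] [4], .ord false [12, 7, 4] [4, 7, 4], .ord false [12, 7, 4] [14, 7, 4], .ord false [0] [4], .ord false [6, 15, 4] [4]], [
    .use (.W true 2 3 1 [7, 4]), .use (.W false 3 2 1 [7, 4]), .lem 155 [], .close [6] [8, 0],
    .close [2] [8, 1], .use (.N true 2 [7, 4]), .close [12, 7, 4] [9, 2], .clash 9 8,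
    .use (.W true 2 1 0 [7, 4]), .clash 9 10, .use (.W true 2 1 1 [7, 4]), .clash 9 11,
    .use (.W false 3 1 0 [7, 4]), .use (.N false 3 [7, 4]), .close [4] [13, 5],
    .use (.W false 3 0 0 [7, 4]), .clash 13 14, .use (.W false 3 0 1 [7, 4]), .clash 13 15,
    .lem 139 [4], .close [1, 4] [16, 14, 15, 5], .lem 47 [7, 4],
    .close [2, 7, 4] [17, 14, 15, 3, 11, 10], .lem 52 [1, 4, 7, 4],
    .close [2, 1, 4, 7, 4] [18, 2, 11, 10, 17], .close [6, 1, 4, 7, 4] [18, 4, 0, 4, 17],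
    .close [4] [17, 16], .clash 13 12, .clash 13 7, .close [2, 7, 4] [12, 10], .clash 9 6,
    .close [12, 7, 4] [8, 3], .close [6, 15, 4] [8, 5], .close [12, 7, 4] [7, 3],
    .close [12, 7, 4] [6, 3]])

/-- A lemma and its proof. -/
def c1122_158 : List Lit × List (Cmd Rule) :=
  ([.ord false [6] [0], .ord true [2] [4], .ord false [12, 7, 4] [14, 7, 4], .ord false [0] [4], .ord true [7, 4] [13, 4, 13, 2], .ord false [6, 15, 4] [4]], [
    .lem 157 [], .close [6] [6, 0], .close [2] [6, 1], .close [2] [4, 6, 6, 3, 0, 1],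
    .close [12, 7, 4] [6, 2], .close [0] [6, 3], .close [6, 15, 4] [6, 5]])

/-- A lemma and its proof. -/
def c1122_159 : List Lit × List (Cmd Rule) :=
  ([.ord false [6] [0], .ord true [2] [4], .ord false [4] [14, 13, 2], .walk true true 2 1 [13, 2], .ord false [2] [4, 13, 2], .ord false [6, 15, 4] [4]], [
    .use (.W true 2 3 1 [13, 2]), .use (.W false 3 2 1 [15, 4]), .use (.N true 2 [13, 2]),
    .close [2] [8, 4], .use (.W true 2 0 1 [13, 2]), .clash 8 9, .use (.W false 3 0 1 [15, 4]),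
    .use (.N false 3 [15, 4]), .close [6, 15, 4] [11, 5], .clash 11 10,
    .use (.C true true 2 0 [13, 2] false 3 1 [15, 4]), .clash 8 12, .clash 11 12,
    .close [15, 4] [12, 2], .close [2] [12, 1], .clash 11 7, .close [8, 15, 4] [10, 1, 9, 2],
    .clash 8 3, .clash 8 6, .close [12, 15, 4] [7, 1, 2], .close [2] [6, 2, 1]])

/-- A lemma and its proof. -/
def c1122_160 : List Lit × List (Cmd Rule) :=
  ([.ord false [6] [0], .ord true [2] [4], .ord true [3, 6, 15, 4] [15, 4], .ord true [5, 6, 15, 4] [15, 4], .ord true [7, 4] [13, 4, 13, 2], .ord true [14, 7, 4] [12, 7, 4], .ord true [14, 13, 2] [4]], [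
    .lem 116 [6, 15, 4], .use (.F false 3 [6, 15, 4]), .close [1, 6, 15, 4] [8, 7],
    .close [3, 6, 15, 4] [8, 2], .close [5, 6, 15, 4] [8, 3], .close [1, 6, 15, 4] [8, 6, 4, 5, 7],
    .close [3, 6, 15, 4] [7, 2]])

/-- A lemma and its proof. -/
def c1122_161 : List Lit × List (Cmd Rule) :=
  ([.ord false [6] [0], .ord true [2] [4], .ord false [0] [4], .ord false [6, 15, 4] [4]], [
    .lem 38 [7, 0], .close [0] [4, 0], .use (.F false 3 [0]), .close [] [5, 0],
    .close [3, 0] [5, 4], .close [5, 0] [5, 0, 2], .use (.F true 2 [4]), .close [] [6, 2],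
    .close [] [6, 1], .close [] [6, 2, 0], .lem 158 [], .close [6] [7, 0], .close [2] [7, 1],
    .lem 156 [], .close [6] [8, 0], .close [2] [8, 1], .lem 159 [], .close [6] [9, 0],
    .close [2] [9, 1], .lem 160 [], .close [6] [10, 0], .close [2] [10, 1],
    .use (.W false 3 2 1 []), .use (.W true 2 3 1 [13, 2]), .use (.N true 2 [13, 2]),
    .close [2] [13, 6, 7, 3, 1], .use (.W true 2 0 1 [13, 2]), .clash 13 14,
    .use (.W false 3 0 1 []), .use (.N false 3 []), .close [6] [16, 5, 0, 9, 6, 7, 3],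
    .clash 16 15, .use (.W false 3 1 0 []), .clash 16 17, .use (.W false 3 1 1 []), .clash 16 18,
    .close [10] [18, 5, 0, 10, 9, 6, 7, 3, 17], .clash 16 11,
    .close [8] [15, 5, 0, 10, 9, 6, 7, 3, 14, 6, 7, 3], .clash 13 8, .clash 13 12,
    .close [2] [12, 6, 7, 3, 5, 0, 10, 9, 6, 7, 3],
    .close [12] [11, 5, 0, 10, 9, 6, 7, 3, 6, 7, 3], .close [5, 6, 15, 4] [10, 9, 6, 7, 3, 3],
    .close [7, 4] [10, 6], .close [14, 7, 4] [10, 7], .close [14, 13, 2] [10, 9], .clash 9 8,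
    .close [2] [9, 6, 7, 3, 1], .close [6, 15, 4] [9, 3], .close [14, 7, 4] [8, 7],
    .close [7, 4] [8, 6], .close [6, 15, 4] [8, 3], .close [0] [7, 2], .close [7, 4] [7, 6],
    .close [6, 15, 4] [7, 3], .close [0] [4, 0, 2]])

/-- A lemma and its proof. -/
def c1122_162 : List Lit × List (Cmd Rule) :=
  ([.ord false [6] [0], .ord true [2] [4], .ord true [4] [0]], [
    .lem 37 [], .close [4] [3, 2], .close [2] [3, 1], .lem 149 [3, 6], .lem 154 [5, 6],
    .lem 139 [4], .close [1, 4] [6, 0, 5, 2], .lem 38 [3, 6], .close [6, 3, 6] [7, 3, 2, 6, 0, 5],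
    .close [6] [7, 3], .close [6, 3, 6] [7, 3, 6, 0, 5], .close [2, 5, 6] [5, 4], .close [6] [4, 3]])

/-- A lemma and its proof. -/
def c1122_163 : List Lit × List (Cmd Rule) :=
  ([.ord false [6] [0], .ord true [2] [4]], [
    .lem 162 [], .close [6] [2, 0], .close [2] [2, 1], .lem 38 [7, 0], .close [0] [3, 0],
    .use (.F false 3 [0]), .close [] [4, 0], .close [3, 0] [4, 3], .close [5, 0] [4, 0, 2],
    .lem 161 [], .close [6] [5, 0], .close [2] [5, 1], .close [0] [5, 2],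
    .close [6, 15, 4] [5, 5, 2, 0, 4, 0], .close [0] [3, 0, 2]])

/-- A lemma and its proof. -/
def c1122_164 : List Lit × List (Cmd Rule) :=
  ([.ord true [2] [4], .walk false false 0 1 [9, 6, 1, 2], .ord true [9, 6, 1, 2] [], .ord false [7, 2] [1, 2]], [
    .use (.W false 0 1 0 [9, 6, 1, 2]), .clash 1 4, .use (.W false 0 1 1 [9, 6, 1, 2]), .clash 1 5,
    .close [10, 9, 6, 1, 2] [5, 3, 2, 4]])

/-- A lemma and its proof. -/
def c1122_165 : List Lit × List (Cmd Rule) :=
  ([.ord true [2] [4], .walk false false 0 3 [9, 6, 1, 2], .ord true [9, 6, 1, 2] [], .ord false [] [1, 2]], [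
    .use (.W false 0 3 0 [9, 6, 1, 2]), .clash 1 4, .use (.W false 0 3 1 [9, 6, 1, 2]), .clash 1 5,
    .close [14, 9, 6, 1, 2] [5, 3, 2, 4]])

/-- A lemma and its proof. -/
def c1122_166 : List Lit × List (Cmd Rule) :=
  ([.ord true [2] [4], .ord false [1, 2, 5, 6] [7, 2, 5, 6], .ord false [5, 6] []], [
    .lem 163 [], .lem 116 [6], .close [] [4, 3], .lem 163 [1, 2, 5, 6],
    .close [6, 1, 2, 5, 6] [5, 1], .lem 149 [1, 2, 5, 6], .close [4, 1, 2, 5, 6] [6, 5],
    .lem 26 [2, 5, 2], .close [1, 2, 5, 2] [7, 4, 2, 1, 5, 6, 4], .close [5, 2, 5, 2] [7, 0],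
    .lem 29 [2, 5, 2], .close [1, 2, 5, 2] [8, 4, 2, 1, 5, 6, 4], .lem 32 [2, 5, 2],
    .close [1, 2, 5, 2] [9, 4, 2, 1, 5, 5, 4], .close [5, 2, 5, 2] [9, 0], .close [5, 2] [9, 8],
    .close [5, 2, 5, 2] [8, 7], .close [2] [3, 0]])

/-- A lemma and its proof. -/
def c1122_167 : List Lit × List (Cmd Rule) :=
  ([.ord true [2] [4], .walk false true 2 1 [13, 2, 5, 6], .ord false [] [1, 2], .ord true [9, 6, 1, 2] [], .ord true [6, 1, 2] [12, 9, 6, 1, 2], .ord true [] [13, 4, 13, 2, 5, 6]], [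
    .use (.W true 2 1 0 [13, 2, 5, 6]), .clash 1 6, .use (.W true 2 1 1 [13, 2, 5, 6]), .clash 1 7,
    .close [2, 5, 6] [7, 6, 5, 3, 4, 2]])

/-- A lemma and its proof. -/
def c1122_168 : List Lit × List (Cmd Rule) :=
  ([.ord true [2] [4], .walk false true 2 3 [13, 2, 5, 6], .ord false [] [1, 2], .ord true [9, 6, 1, 2] [], .ord true [6, 1, 2] [12, 9, 6, 1, 2], .ord true [] [13, 4, 13, 2, 5, 6], .ord false [7, 2, 5, 6] [5, 6]], [
    .use (.W true 2 3 0 [13, 2, 5, 6]), .clash 1 7, .use (.W true 2 3 1 [13, 2, 5, 6]), .clash 1 8,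
    .close [2, 5, 6] [8, 7, 5, 3, 4, 2, 6]])

/-- A lemma and its proof. -/
def c1122_169 : List Lit × List (Cmd Rule) :=
  ([.ord true [2] [4], .ord true [1, 2] []], [
    .lem 163 [], .lem 19 [0], .close [] [3, 1], .close [7, 0] [3, 2], .lem 89 [0], .lem 154 [1, 4],
    .close [4, 1, 4] [5, 4], .lem 154 [1, 2], .close [4, 1, 2] [6, 4, 5, 0], .lem 149 [1, 2],
    .close [4, 1, 2] [7, 6], .lem 26 [2, 5, 2], .close [1, 2, 5, 2] [8, 4, 5, 0, 7, 0],
    .close [5, 2, 5, 2] [8, 0], .lem 29 [2, 5, 2], .close [1, 2, 5, 2] [9, 4, 5, 0, 7, 0],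
    .lem 32 [2, 5, 2], .close [1, 2, 5, 2] [10, 4, 5, 5, 0, 0], .close [5, 2, 5, 2] [10, 0],
    .close [5, 2] [10, 9], .close [5, 2, 5, 2] [9, 8], .close [7, 0] [4, 3], .close [2] [2, 0]])

/-- A lemma and its proof. -/
def c1122_170 : List Lit × List (Cmd Rule) :=
  ([.ord true [2] [4]], [
    .lem 163 [], .lem 116 [6], .close [] [2, 1], .lem 169 [], .close [2] [3, 0],
    .use (.F false 0 [2]), .close [] [4, 3], .close [5, 2] [4, 3, 0], .close [7, 2] [4, 3, 2],
    .lem 164 [], .close [2] [5, 0], .lem 165 [], .close [2] [6, 0], .use (.N false 0 [9, 6, 1, 2]),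
    .close [0, 9, 6, 1, 2] [7, 3, 2, 3, 4], .clash 7 5, .use (.W false 0 2 0 [9, 6, 1, 2]),
    .clash 7 8, .use (.W false 0 2 1 [9, 6, 1, 2]), .clash 7 9, .use (.F true 2 [6]),
    .close [5, 6] [10, 2, 3, 4, 8, 9, 3], .close [5, 6] [10, 2, 4, 8, 9, 3],
    .close [5, 6] [10, 4, 8, 9, 3], .lem 166 [], .close [2] [11, 0], .lem 116 [2, 5, 6],
    .close [7, 2, 5, 6] [12, 11], .lem 167 [], .close [2] [13, 0], .lem 168 [], .close [2] [14, 0],
    .use (.N true 2 [13, 2, 5, 6]), .close [2, 5, 6] [15, 10, 4, 9, 3, 2, 4, 8, 9, 3],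
    .use (.W true 2 0 0 [13, 2, 5, 6]), .clash 15 16, .use (.W true 2 0 1 [13, 2, 5, 6]),
    .clash 15 17, .use (.F false 0 [2, 5, 6]), .close [5, 6] [18, 17, 16, 10, 4, 9, 3],
    .close [5, 2, 5, 6] [18, 17, 16, 10, 4, 9, 3, 2, 4, 8, 9, 3], .close [7, 2, 5, 6] [18, 11],
    .close [5, 6] [18, 17, 16, 10, 4, 9, 3, 12, 17, 10, 4, 9, 3], .clash 15 13, .clash 15 14,
    .close [] [14, 3], .close [9, 6, 1, 2] [14, 4], .close [6, 1, 2] [14, 9], .close [] [14, 10],
    .close [7, 2, 5, 6] [14, 12], .close [] [13, 3], .close [9, 6, 1, 2] [13, 4],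
    .close [6, 1, 2] [13, 9], .close [] [13, 10], .close [5, 6] [11, 4, 8, 9, 3], .clash 7 6,
    .close [9, 6, 1, 2] [6, 4], .close [] [6, 3], .close [9, 6, 1, 2] [5, 4],
    .close [7, 2] [5, 3, 2], .close [2] [1, 0]])

/-- A lemma and its proof. -/
def c1122_171 : List Lit × List (Cmd Rule) :=
  ([.ord true [5] [7], .walk false true 1 0 [1]], [
    .lem 170 [1], .lem 92 [5], .lem 91 [1], .close [] [4, 3], .use (.W true 1 0 0 [1]), .clash 1 5,
    .use (.W true 1 0 1 [1]), .clash 1 6, .use (.F true 1 [2, 1]), .close [1] [7, 2, 3],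
    .close [1] [7, 2], .close [1] [7, 2, 4], .close [11] [7, 2, 6, 5], .close [6, 5] [3, 0]])

/-- A lemma and its proof. -/
def c1122_172 : List Lit × List (Cmd Rule) :=
  ([.ord true [5] [7], .walk false false 3 2 [7], .ord true [14, 1] [10, 1], .ord true [6, 15, 4, 7] [14, 1]], [
    .lem 170 [1], .lem 92 [5], .lem 91 [1], .close [] [6, 5], .use (.W false 3 2 0 [7]),
    .clash 1 7, .use (.W false 3 2 1 [7]), .clash 1 8, .use (.F true 1 [2, 1]),
    .close [1] [9, 4, 5], .close [1] [9, 4], .close [1] [9, 4, 6], .close [11] [9, 4, 2, 3, 7, 8],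
    .close [6, 5] [5, 0]])

/-- A lemma and its proof. -/
def c1122_173 : List Lit × List (Cmd Rule) :=
  ([.ord true [5] [7], .walk false false 3 1 [7], .ord true [14, 1] [10, 1], .ord false [] [6, 3, 4, 7], .ord true [6, 15, 4, 7] [14, 1]], [
    .lem 170 [1], .lem 92 [5], .lem 91 [1], .close [] [7, 6], .use (.W false 3 1 0 [7]),
    .clash 1 8, .use (.W false 3 1 1 [7]), .clash 1 9, .use (.F true 1 [2, 1]),
    .close [1] [10, 5, 6], .close [1] [10, 5], .close [1] [10, 5, 7],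
    .close [11] [10, 5, 2, 4, 3, 8, 9], .close [6, 5] [6, 0]])

/-- A lemma and its proof. -/
def c1122_174 : List Lit × List (Cmd Rule) :=
  ([.ord true [5] [7], .walk false true 1 2 [1]], [
    .lem 170 [1], .lem 92 [5], .lem 91 [1], .close [] [4, 3], .use (.W true 1 2 0 [1]), .clash 1 5,
    .use (.W true 1 2 1 [1]), .clash 1 6, .use (.F true 1 [2, 1]), .close [1] [7, 2, 3],
    .close [1] [7, 2], .close [1] [7, 2, 4], .close [11] [7, 2, 6, 5, 3], .close [6, 5] [3, 0]])

/-- A lemma and its proof. -/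
def c1122_175 : List Lit × List (Cmd Rule) :=
  ([.ord true [5] [7], .ord true [0, 5] [6, 5], .ord false [] [0, 7], .ord true [6, 5] [2, 5]], [
    .lem 170 [5, 6, 1], .lem 116 [0, 5], .close [7, 0, 5] [5, 1], .lem 61 [5, 6, 1],
    .close [0, 5, 6, 1] [6, 4, 2, 0, 1, 1, 1, 5, 2], .close [6, 1] [6, 4],
    .close [6, 5, 6, 1] [6, 2, 0, 1, 1, 2]])

/-- A lemma and its proof. -/
def c1122_176 : List Lit × List (Cmd Rule) :=
  ([.ord true [5] [7], .ord false [] [6, 3, 4, 7], .ord true [6, 15, 4, 7] [14, 1]], [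
    .lem 170 [1], .lem 170 [5, 6, 1], .lem 92 [5], .lem 91 [1], .close [] [6, 5],
    .use (.F true 1 [2, 1]), .close [1] [7, 3, 5], .close [1] [7, 3], .close [1] [7, 3, 6],
    .lem 171 [], .close [5] [8, 0], .lem 174 [], .close [5] [9, 0], .use (.N true 1 [1]),
    .close [10, 1] [10, 3, 5, 7, 3], .clash 10 8, .clash 10 9, .use (.W true 1 3 0 [1]),
    .clash 10 11, .use (.W true 1 3 1 [1]), .clash 10 12, .lem 139 [0, 7],
    .close [7] [13, 7, 3, 12, 11], .lem 172 [], .close [5] [14, 0], .lem 175 [],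
    .close [5] [15, 0], .lem 163 [5], .close [6, 5] [16, 15], .lem 173 [], .close [5] [17, 0],
    .use (.N false 3 [7]), .close [] [18, 7, 3, 12, 2, 7, 3, 12, 11, 5], .use (.W false 3 0 0 [7]),
    .clash 18 19, .use (.W false 3 0 1 [7]), .clash 18 20, .lem 52 [3, 4, 7],
    .close [4, 7] [21, 1, 19, 20, 7, 3, 12, 2], .lem 37 [7, 2, 5],
    .close [4, 7, 2, 5] [22, 16, 13, 19, 20, 7, 3, 12, 2, 21, 21, 1, 1, 0],
    .close [2, 7, 2, 5] [22, 16, 21, 1, 1, 0], .close [2, 5] [22, 7, 3, 12, 11, 4, 5],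
    .clash 18 17, .clash 18 14, .close [14, 1] [17, 12], .close [] [17, 1],
    .close [6, 15, 4, 7] [17, 2], .close [] [15, 7, 3, 12, 11],
    .close [6, 5] [15, 7, 3, 12, 11, 4, 5], .close [14, 1] [14, 12], .close [6, 15, 4, 7] [14, 2],
    .close [6, 5] [5, 0]])

/-- A lemma and its proof. -/
def c1122_177 : List Lit × List (Cmd Rule) :=
  ([.ord true [5] [7], .ord true [2, 1, 4, 7] [4, 7], .ord false [] [4, 7], .ord true [6, 3, 4, 7] [4, 7]], [
    .lem 92 [5], .lem 52 [3, 4, 7], .close [4, 7] [5, 1], .close [7] [3, 5, 5, 1, 2, 4],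
    .close [6, 5] [4, 0]])

/-- A lemma and its proof. -/
def c1122_178 : List Lit × List (Cmd Rule) :=
  ([.ord true [5] [7], .walk false true 1 0 [1, 4, 7], .ord false [8, 7] [0, 7], .ord false [4, 7] [2, 1, 4, 7], .ord true [10, 7] [0, 3, 4, 7], .ord true [6, 15, 4, 7] [14, 1], .ord true [14, 7] [8, 7]], [
    .lem 170 [1], .lem 92 [5], .lem 91 [1], .close [] [9, 8], .use (.W true 1 0 0 [1, 4, 7]),
    .clash 1 10, .use (.W true 1 0 1 [1, 4, 7]), .clash 1 11, .use (.F true 1 [2, 1]),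
    .close [1] [12, 7, 8], .close [1] [12, 7], .close [1] [12, 7, 9], .use (.W true 1 3 1 [1]),
    .lem 171 [], .close [5] [14, 0], .use (.N true 1 [1]), .close [10, 1] [15, 7, 8, 12, 7],
    .clash 15 14, .lem 174 [], .close [5] [16, 0], .clash 15 16, .clash 15 13,
    .close [10, 1] [13, 5, 11, 10, 3, 4, 2, 6, 12, 7], .close [6, 5] [8, 0]])

/-- A lemma and its proof. -/
def c1122_179 : List Lit × List (Cmd Rule) :=
  ([.ord true [5] [7]], [
    .lem 170 [1], .lem 92 [5], .lem 91 [1], .close [] [3, 2], .use (.F true 1 [2, 1]),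
    .close [1] [4, 1, 2], .close [1] [4, 1], .close [1] [4, 1, 3], .lem 171 [], .close [5] [5, 0],
    .lem 174 [], .close [5] [6, 0], .use (.N true 1 [1]), .close [10, 1] [7, 1, 2, 4, 1],
    .clash 7 5, .clash 7 6, .use (.W true 1 3 0 [1]), .clash 7 8, .use (.W true 1 3 1 [1]),
    .clash 7 9, .use (.F false 3 []), .close [1] [10, 4, 1, 9, 8],
    .close [3] [10, 4, 1, 9, 8, 1, 2], .close [5] [10, 0], .lem 92 [15, 4, 7], .lem 176 [],
    .close [5] [12, 0], .lem 172 [], .close [5] [13, 0], .lem 177 [], .close [5] [14, 0],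
    .lem 84 [0, 3, 4, 7], .close [3, 0, 3, 4, 7] [15, 14], .use (.F true 1 [4, 7]),
    .close [3, 4, 7] [16, 14], .close [3, 4, 7] [16, 12], .close [3, 4, 7] [16, 4, 1, 9, 8, 2, 12],
    .use (.W false 3 1 1 [7]), .use (.N false 3 [7]), .close [] [18, 4, 1, 9, 10, 4, 1, 9, 8, 2],
    .use (.W false 3 0 0 [7]), .clash 18 19, .use (.W false 3 0 1 [7]), .clash 18 20,
    .use (.W true 1 3 1 [1, 4, 7]), .lem 178 [], .close [5] [22, 0], .use (.N true 1 [1, 4, 7]),
    .close [10, 1, 4, 7] [23, 14, 14, 16, 19, 20, 4, 1, 9, 10], .clash 23 22,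
    .use (.W true 1 2 0 [1, 4, 7]), .clash 23 24, .use (.W true 1 2 1 [1, 4, 7]), .clash 23 25,
    .close [10, 1, 4, 7] [25, 24, 14, 15, 16, 19, 20, 4, 1, 9, 10], .clash 23 21,
    .close [8, 7] [22, 19], .close [4, 7] [22, 14], .close [10, 7] [22, 16],
    .close [6, 15, 4, 7] [22, 10], .close [14, 7] [22, 20],
    .close [10, 1, 4, 7] [21, 4, 1, 9, 10, 11, 14, 16, 19, 20, 4, 1, 9, 10], .clash 18 17,
    .clash 18 13, .close [10, 7] [17, 4, 1, 9, 10, 14, 16], .close [] [14, 4, 1, 9, 8, 2],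
    .close [6, 3, 4, 7] [14, 4, 1, 9, 8, 2, 12], .close [14, 1] [13, 9],
    .close [6, 15, 4, 7] [13, 10], .close [6, 15, 4, 7] [12, 10],
    .close [6, 15, 4, 7] [11, 0, 4, 1, 9, 2, 4, 1, 9, 10], .close [6, 5] [2, 0]])

/-- A lemma and its proof. -/
def c1122_180 : List Lit × List (Cmd Rule) :=
  ([.ord true [5] [3]], [
    .lem 170 [5], .close [2, 5] [1, 0]])

/-- A lemma and its proof. -/
def c1122_181 : List Lit × List (Cmd Rule) :=
  ([.ord true [3] [5], .ord false [5] [1, 2, 5], .ord false [2, 5, 2, 5] [0, 5, 2, 5], .ord false [1, 2, 5] [5, 2, 5], .ord true [7, 2, 5] [5]], [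
    .lem 149 [1, 2, 5], .close [4, 1, 2, 5] [5, 1, 2, 0], .lem 84 [6, 5],
    .close [3, 6, 5] [6, 4, 5, 1], .close [1, 6, 5] [6, 4, 2, 2, 0, 5, 1]])

/-- A lemma and its proof. -/
def c1122_182 : List Lit × List (Cmd Rule) :=
  ([.ord true [3] [5], .walk false false 2 1 [13, 2, 5], .ord true [12, 7] [8, 7]], [
    .lem 179 [], .lem 180 [4, 7], .lem 179 [0, 7], .lem 149 [7], .close [4, 7] [6, 4],
    .use (.W false 2 1 0 [13, 2, 5]), .clash 1 7, .use (.W false 2 1 1 [13, 2, 5]), .clash 1 8,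
    .lem 62 [7], .lem 15 [0, 7], .use (.F false 2 []), .close [1] [11, 3, 9], .close [3] [11, 0],
    .close [7] [11, 3], .use (.F true 0 [0, 7]), .close [7] [12, 10], .close [7] [12, 9, 3],
    .close [7] [12, 9], .close [9] [12, 10, 2, 11, 7, 8], .close [7] [10, 9],
    .close [7, 0, 7] [10, 5], .close [] [9, 6], .close [4, 7] [9, 3]])

/-- A lemma and its proof. -/
def c1122_183 : List Lit × List (Cmd Rule) :=
  ([.ord true [3] [5], .walk false false 2 3 [13, 2, 5], .ord false [5] [7, 2, 5], .ord true [12, 7] [8, 7]], [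
    .lem 179 [], .lem 180 [4, 7], .lem 179 [0, 7], .lem 149 [7], .close [4, 7] [7, 5],
    .use (.W false 2 3 0 [13, 2, 5]), .clash 1 8, .use (.W false 2 3 1 [13, 2, 5]), .clash 1 9,
    .lem 62 [7], .lem 15 [0, 7], .use (.F false 2 []), .close [1] [12, 4, 10], .close [3] [12, 0],
    .close [7] [12, 4], .use (.F true 0 [0, 7]), .close [7] [13, 11], .close [7] [13, 10, 4],
    .close [7] [13, 10], .close [9] [13, 11, 3, 12, 8, 9, 2], .close [7] [11, 10],
    .close [7, 0, 7] [11, 6], .close [] [10, 7], .close [4, 7] [10, 4]])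

/-- A lemma and its proof. -/
def c1122_184 : List Lit × List (Cmd Rule) :=
  ([.ord true [3] [5], .ord false [5] [7, 2, 5], .ord true [12, 7] [8, 7]], [
    .lem 179 [], .lem 180 [4, 7], .lem 179 [0, 7], .lem 149 [7], .close [4, 7] [6, 4], .lem 62 [7],
    .lem 15 [0, 7], .use (.F false 2 []), .close [1] [9, 3, 7], .close [3] [9, 0],
    .close [7] [9, 3], .use (.F true 0 [0, 7]), .close [7] [10, 8], .close [7] [10, 7, 3],
    .close [7] [10, 7], .lem 182 [], .close [3] [11, 0], .lem 183 [], .close [3] [12, 0],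
    .use (.N false 2 [13, 2, 5]), .close [4, 13, 2, 5] [13, 1, 3, 10, 8, 2, 9],
    .use (.W false 2 0 0 [13, 2, 5]), .clash 13 14, .use (.W false 2 0 1 [13, 2, 5]), .clash 13 15,
    .use (.F true 0 [2, 5]), .close [1, 2, 5] [16, 10, 8, 2, 9, 14, 15],
    .close [1, 2, 5] [16, 1, 3, 10, 8, 2, 9, 14, 15],
    .close [1, 2, 5] [16, 1, 10, 8, 2, 9, 14, 15],
    .close [9, 6, 1, 2, 5] [16, 10, 8, 2, 9, 15, 1, 10, 8, 2, 9, 14, 15], .clash 13 11,
    .clash 13 12, .close [5] [12, 1], .close [12, 7] [12, 2], .close [12, 7] [11, 2],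
    .close [7] [8, 7], .close [7, 0, 7] [8, 5], .close [] [7, 6], .close [4, 7] [7, 3]])

/-- A lemma and its proof. -/
def c1122_185 : List Lit × List (Cmd Rule) :=
  ([.ord true [3] [5], .ord true [7, 2, 5] [5]], [
    .lem 179 [], .lem 180 [4, 7], .lem 149 [7], .close [4, 7] [4, 3], .lem 139 [2, 5],
    .lem 78 [5, 2, 5], .lem 181 [], .close [3] [7, 0], .lem 149 [1, 2, 5],
    .close [4, 1, 2, 5] [8, 5, 2, 4, 4, 7], .close [2, 1, 2, 5] [8, 5, 7],
    .close [2, 5, 2, 5] [7, 6], .close [1, 2, 5] [7, 6, 2, 4], .close [7, 2, 5] [7, 1],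
    .close [2, 5] [6, 0, 1], .close [7, 2, 5] [5, 1]])

/-- A lemma and its proof. -/
def c1122_186 : List Lit × List (Cmd Rule) :=
  ([.ord true [3] [5], .walk false true 0 1 [7]], [
    .lem 179 [], .lem 180 [4, 7], .lem 179 [0, 7], .lem 149 [7], .close [4, 7] [5, 3],
    .use (.W true 0 1 0 [7]), .clash 1 6, .use (.W true 0 1 1 [7]), .clash 1 7, .lem 62 [7],
    .lem 15 [0, 7], .use (.F true 0 [0, 7]), .close [7] [10, 9], .close [7] [10, 8, 2],
    .close [7] [10, 8], .close [9] [10, 9, 7, 6, 5], .close [7] [9, 8], .close [7, 0, 7] [9, 4],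
    .close [] [8, 5], .close [4, 7] [8, 2]])

/-- A lemma and its proof. -/
def c1122_187 : List Lit × List (Cmd Rule) :=
  ([.ord true [3] [5]], [
    .lem 179 [], .lem 180 [4, 7], .lem 179 [0, 7], .lem 149 [7], .close [4, 7] [4, 2], .lem 62 [7],
    .lem 15 [0, 7], .use (.F true 0 [0, 7]), .close [7] [7, 6], .close [7] [7, 5, 1],
    .close [7] [7, 5], .lem 185 [], .close [3] [8, 0], .lem 186 [], .close [3] [9, 0], .lem 184 [],
    .close [3] [10, 0], .close [5] [10, 8], .use (.W true 0 2 1 [7]), .use (.N true 0 [7]),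
    .close [8, 7] [12, 5, 7, 6], .clash 12 9, .clash 12 11, .use (.W true 0 3 0 [7]), .clash 12 13,
    .use (.W true 0 3 1 [7]), .clash 12 14, .close [8, 7] [14, 13, 7, 6], .close [8, 7] [11, 10],
    .close [7] [6, 5], .close [7, 0, 7] [6, 3], .close [] [5, 4], .close [4, 7] [5, 1]])

/-- A lemma and its proof. -/
def c1122_188 : List Lit × List (Cmd Rule) :=
  ([], [
    .lem 180 [], .lem 187 [], .close [3] [1, 0]])

/-- The lemmas. -/
def c1122 : List (List Lit × List (Cmd Rule)) := [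
  c1122_0, c1122_1, c1122_2, c1122_3, c1122_4, c1122_5, c1122_6, c1122_7, c1122_8, c1122_9,
  c1122_10, c1122_11, c1122_12, c1122_13, c1122_14, c1122_15, c1122_16, c1122_17, c1122_18,
  c1122_19, c1122_20, c1122_21, c1122_22, c1122_23, c1122_24, c1122_25, c1122_26, c1122_27,
  c1122_28, c1122_29, c1122_30, c1122_31, c1122_32, c1122_33, c1122_34, c1122_35, c1122_36,
  c1122_37, c1122_38, c1122_39, c1122_40, c1122_41, c1122_42, c1122_43, c1122_44, c1122_45,
  c1122_46, c1122_47, c1122_48, c1122_49, c1122_50, c1122_51, c1122_52, c1122_53, c1122_54,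
  c1122_55, c1122_56, c1122_57, c1122_58, c1122_59, c1122_60, c1122_61, c1122_62, c1122_63,
  c1122_64, c1122_65, c1122_66, c1122_67, c1122_68, c1122_69, c1122_70, c1122_71, c1122_72,
  c1122_73, c1122_74, c1122_75, c1122_76, c1122_77, c1122_78, c1122_79, c1122_80, c1122_81,
  c1122_82, c1122_83, c1122_84, c1122_85, c1122_86, c1122_87, c1122_88, c1122_89, c1122_90,
  c1122_91, c1122_92, c1122_93, c1122_94, c1122_95, c1122_96, c1122_97, c1122_98, c1122_99,
  c1122_100, c1122_101, c1122_102, c1122_103, c1122_104, c1122_105, c1122_106, c1122_107,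
  c1122_108, c1122_109, c1122_110, c1122_111, c1122_112, c1122_113, c1122_114, c1122_115,
  c1122_116, c1122_117, c1122_118, c1122_119, c1122_120, c1122_121, c1122_122, c1122_123,
  c1122_124, c1122_125, c1122_126, c1122_127, c1122_128, c1122_129, c1122_130, c1122_131,
  c1122_132, c1122_133, c1122_134, c1122_135, c1122_136, c1122_137, c1122_138, c1122_139,
  c1122_140, c1122_141, c1122_142, c1122_143, c1122_144, c1122_145, c1122_146, c1122_147,
  c1122_148, c1122_149, c1122_150, c1122_151, c1122_152, c1122_153, c1122_154, c1122_155,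
  c1122_156, c1122_157, c1122_158, c1122_159, c1122_160, c1122_161, c1122_162, c1122_163,
  c1122_164, c1122_165, c1122_166, c1122_167, c1122_168, c1122_169, c1122_170, c1122_171,
  c1122_172, c1122_173, c1122_174, c1122_175, c1122_176, c1122_177, c1122_178, c1122_179,
  c1122_180, c1122_181, c1122_182, c1122_183, c1122_184, c1122_185, c1122_186, c1122_187, c1122_188]

theorem c1122_check : checkAll (cl 4 (fun k => [1, 1, 2, 2].getD k 0)) [] c1122 = true := by
  decide +kernel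

theorem c1122_mem : ([] : List Lit) ∈ c1122.map Prod.fst :=
  List.mem_of_getElem? (i := 188) rfl

end Pool.Agent.Helper31.RING
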