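import Mathlib
import Pool.Agent.Helper31.RING.Ring

/-!
A certificate.
-/

set_option autoImplicit false

namespace Pool.Agent.Helper31.RING

/-- A lemma and its proof. -/
def c11M_0 : List Lit × List (Cmd Rule) :=
  ([.walk false false 1 2 [5, 0], .ord false [2] [0], .ord true [9, 0] [5, 2]], [
    .use (.W false 1 2 0 [5, 0]), .clash 0 3, .use (.W false 1 2 1 [5, 0]), .clash 0 4,
    .close [10, 5, 0] [4, 1, 2, 3]])

/-- A lemma and its proof. -/
def c11M_1 : List Lit × List (Cmd Rule) :=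
  ([.ord true [2] [4], .ord false [2] [0]], [
    .use (.F false 1 [2]), .close [1, 2] [2, 1], .close [5, 2] [2, 0], .use (.M true 1 []),
    .close [0] [3, 0, 2], .close [2] [3, 0, 2, 1], .lem 0 [], .use (.N false 1 [5, 0]),
    .close [2, 5, 0] [5, 1, 2, 1, 3, 0, 2], .use (.W false 1 0 0 [5, 0]), .clash 5 6,
    .use (.W false 1 0 1 [5, 0]), .clash 5 7, .close [6, 5, 0] [7, 1, 2, 3, 0, 2, 6], .clash 5 4,
    .close [2] [4, 1], .close [9, 0] [4, 2]])

/-- A lemma and its proof. -/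
def c11M_2 : List Lit × List (Cmd Rule) :=
  ([.ord true [4] [0], .ord true [2] [0]], [
    .use (.F true 0 [0]), .close [] [2, 1], .close [] [2, 0], .use (.M false 0 []),
    .close [6] [3, 0, 2, 1], .lem 1 [], .close [2] [4, 2, 1, 3], .close [2] [4, 0, 2, 1, 3],
    .close [6] [3, 2, 1]])

/-- A lemma and its proof. -/
def c11M_3 : List Lit × List (Cmd Rule) :=
  ([.ord true [2] [4]], [
    .lem 1 [], .close [2] [1, 0], .use (.F false 0 [2]), .close [] [2, 1], .close [5, 2] [2, 1, 0],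
    .use (.M true 0 []), .close [0] [3, 2, 1, 0, 1], .close [2] [3, 2, 1, 0], .close [4] [3, 2, 1]])

/-- A lemma and its proof. -/
def c11M_4 : List Lit × List (Cmd Rule) :=
  ([.walk false true 1 2 [5, 0], .ord true [5, 0] [9, 0, 3, 0]], [
    .use (.W true 1 2 0 [5, 0]), .clash 0 2, .use (.W true 1 2 1 [5, 0]), .clash 0 3, .lem 3 [],
    .lem 2 [], .close [4] [5, 1, 3, 2, 4], .close [2] [5, 1, 3, 2]])

/-- A lemma and its proof. -/
def c11M_5 : List Lit × List (Cmd Rule) :=
  ([.ord false [4] [0]], [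
    .lem 2 [], .close [4] [1, 0], .use (.F true 1 [0]), .close [3, 0] [2, 1],
    .close [3, 0] [2, 0, 1], .lem 4 [], .use (.N true 1 [5, 0]), .close [8, 5, 0] [4, 0, 1, 1, 2],
    .use (.W true 1 0 0 [5, 0]), .clash 4 5, .use (.W true 1 0 1 [5, 0]), .clash 4 6,
    .close [8, 5, 0] [6, 5, 0, 1, 2], .clash 4 3, .close [5, 0] [3, 2]])

/-- A lemma and its proof. -/
def c11M_6 : List Lit × List (Cmd Rule) :=
  ([], [
    .lem 3 [], .lem 5 [], .use (.F true 1 [4]), .close [3, 4] [2, 1, 0], .close [3, 4] [2, 0],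
    .use (.M false 1 []), .close [8] [3, 0, 2], .close [8] [3, 0, 1, 0, 2], .close [8] [3, 1, 0, 2]])

/-- The lemmas. -/
def c11M : List (List Lit × List (Cmd Rule)) := [
  c11M_0, c11M_1, c11M_2, c11M_3, c11M_4, c11M_5, c11M_6]

theorem c11M_check (n : ℕ) : checkAll (cl 3 (fun k => [1, 1, n + 1].getD k 0)) [] c11M = true := by
  rfl

theorem c11M_mem : ([] : List Lit) ∈ c11M.map Prod.fst :=
  List.mem_of_getElem? (i := 6) rfl

end Pool.Agent.Helper31.RING
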