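import Mathlib
import Pool.Agent.Helper31.RING.Ring

/-!
A certificate.
-/

set_option autoImplicit false

namespace Pool.Agent.Helper31.RING

/-- A lemma and its proof. -/
def c124_0 : List Lit × List (Cmd Rule) :=
  ([.ord true [3] [1], .ord true [5] [3], .walk false false 0 2 [7, 4, 1], .ord false [4, 1] [6, 1]], [
    .use (.W false 0 2 0 [7, 4, 1]), .clash 2 4, .use (.W false 0 2 1 [7, 4, 1]), .clash 2 5,
    .close [10, 7, 4, 1] [5, 3, 4]])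

/-- A lemma and its proof. -/
def c124_1 : List Lit × List (Cmd Rule) :=
  ([.ord true [3] [1], .ord true [5] [3]], [
    .use (.F false 0 []), .close [3] [2, 0], .close [5] [2, 0, 1], .use (.M true 0 [1]),
    .close [] [3, 0, 2, 0, 1], .lem 0 [], .close [3] [4, 0], .close [5] [4, 1],
    .use (.N false 0 [7, 4, 1]), .close [0, 7, 4, 1] [5, 0, 1, 3, 0, 2, 0, 1, 2],
    .use (.W false 0 1 0 [7, 4, 1]), .clash 5 6, .use (.W false 0 1 1 [7, 4, 1]), .clash 5 7,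
    .close [8, 7, 4, 1] [7, 3, 0, 2, 0, 1, 1, 2, 6], .clash 5 4,
    .close [4, 1] [4, 3, 0, 2, 0, 1, 2], .close [4, 1] [3, 0, 2]])

/-- A lemma and its proof. -/
def c124_2 : List Lit × List (Cmd Rule) :=
  ([.ord true [5] [1], .ord true [3] [5], .walk false false 0 1 [3], .ord true [4, 1] [6, 3]], [
    .use (.W false 0 1 0 [3]), .clash 2 4, .use (.W false 0 1 1 [3]), .clash 2 5,
    .close [8, 3] [5, 3, 0, 4]])

/-- A lemma and its proof. -/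
def c124_3 : List Lit × List (Cmd Rule) :=
  ([.ord true [5] [1], .ord true [3] [5]], [
    .lem 1 [], .close [3] [2, 0, 1], .use (.F false 0 []), .close [3] [3, 0, 1], .close [5] [3, 0],
    .lem 2 [], .close [5] [4, 0], .close [3] [4, 1], .use (.N false 0 [3]),
    .close [0, 3] [5, 3, 0, 0, 2], .clash 5 4, .use (.W false 0 2 0 [3]), .clash 5 6,
    .use (.W false 0 2 1 [3]), .clash 5 7, .close [10, 3] [7, 3, 0, 2, 6], .close [4, 1] [4, 3]])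

/-- A lemma and its proof. -/
def c124_4 : List Lit × List (Cmd Rule) :=
  ([.ord true [1] [5], .ord true [5] [3], .walk false true 0 1 [3], .ord true [3] [7, 4, 1]], [
    .use (.W true 0 1 0 [3]), .clash 2 4, .use (.W true 0 1 1 [3]), .clash 2 5,
    .close [6, 3] [5, 4, 0, 3]])

/-- A lemma and its proof. -/
def c124_5 : List Lit × List (Cmd Rule) :=
  ([.ord true [1] [5], .ord true [5] [3], .ord true [3] [1]], [
    .lem 3 [], .close [5] [3, 2, 1], .close [3] [3, 0, 2]])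

/-- A lemma and its proof. -/
def c124_6 : List Lit × List (Cmd Rule) :=
  ([.ord true [1] [5], .ord true [5] [3]], [
    .use (.F true 0 []), .close [1] [2, 1, 0], .close [1] [2, 0], .lem 5 [], .close [1] [3, 0],
    .close [5] [3, 1], .lem 4 [], .close [1] [4, 0], .close [5] [4, 1], .use (.N true 0 [3]),
    .close [6, 3] [5, 3, 0, 2], .clash 5 4, .use (.W true 0 2 0 [3]), .clash 5 6,
    .use (.W true 0 2 1 [3]), .clash 5 7, .close [6, 3] [7, 6, 3, 2], .close [3] [4, 2]])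

/-- A lemma and its proof. -/
def c124_7 : List Lit × List (Cmd Rule) :=
  ([.ord true [1] [3], .ord true [3] [5], .walk false true 0 2 [3], .ord true [3] [7, 4, 1]], [
    .use (.W true 0 2 0 [3]), .clash 2 4, .use (.W true 0 2 1 [3]), .clash 2 5,
    .close [6, 3] [5, 4, 0, 3]])

/-- A lemma and its proof. -/
def c124_8 : List Lit × List (Cmd Rule) :=
  ([.ord true [1] [3], .ord true [3] [5], .ord false [1] [5]], [
    .use (.F true 0 []), .close [1] [3, 0], .close [1] [3, 1, 0], .lem 7 [], .close [1] [4, 0],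
    .close [3] [4, 1], .use (.N true 0 [3]), .close [6, 3] [5, 0, 2, 3], .use (.W true 0 1 0 [3]),
    .clash 5 6, .use (.W true 0 1 1 [3]), .clash 5 7, .close [6, 3] [7, 6, 2, 3], .clash 5 4,
    .close [3] [4, 3]])

/-- A lemma and its proof. -/
def c124_9 : List Lit × List (Cmd Rule) :=
  ([.ord true [1] [3], .ord true [3] [5]], [
    .lem 8 [], .close [1] [2, 0], .close [3] [2, 1], .lem 1 [], .close [3] [3, 2, 1],
    .close [5] [3, 0, 2]])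

/-- A lemma and its proof. -/
def c124_10 : List Lit × List (Cmd Rule) :=
  ([.ord true [2] [0], .ord true [4] [2]], [
    .lem 9 [2], .close [1, 2] [2, 0], .close [] [2, 1]])

/-- A lemma and its proof. -/
def c124_11 : List Lit × List (Cmd Rule) :=
  ([.ord true [4] [0], .ord true [2] [4]], [
    .lem 6 [0], .close [] [2, 0], .lem 9 [0], .close [] [3, 0, 1], .close [3, 0] [3, 2]])

/-- A lemma and its proof. -/
def c124_12 : List Lit × List (Cmd Rule) :=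
  ([.ord true [0] [4], .ord true [4] [2]], [
    .lem 1 [0], .close [3, 0] [2, 1, 0], .lem 3 [0], .close [5, 0] [3, 0], .close [3, 0] [3, 2]])

/-- A lemma and its proof. -/
def c124_13 : List Lit × List (Cmd Rule) :=
  ([.ord true [0] [2], .ord true [2] [4]], [
    .lem 1 [2], .close [] [2, 0], .close [5, 2] [2, 1]])

/-- A lemma and its proof. -/
def c124_14 : List Lit × List (Cmd Rule) :=
  ([.ord true [0] [4], .ord true [8, 11, 2] [2, 11, 2], .ord false [2] [4, 11, 2]], [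
    .lem 3 [0], .close [5, 0] [3, 0], .lem 1 [0], .use (.W true 2 1 0 [11, 2]),
    .use (.F false 1 [2]), .close [1, 2] [6, 4], .close [5, 2] [6, 0, 4], .use (.N true 2 [11, 2]),
    .close [2] [7, 2], .use (.W true 2 0 0 [11, 2]), .clash 7 8, .use (.W true 2 0 1 [11, 2]),
    .clash 7 9, .close [2] [9, 8, 1, 1, 2, 6, 4, 4], .clash 7 5, .close [8, 11, 2] [5, 1],
    .close [5, 0] [4, 3]])

/-- A lemma and its proof. -/
def c124_15 : List Lit × List (Cmd Rule) :=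
  ([.ord true [0] [4], .ord true [4, 11, 2, 5, 2] [2, 5, 2], .ord false [5, 0] []], [
    .lem 3 [0], .close [5, 0] [3, 0], .lem 1 [0], .lem 6 [2, 5, 0], .use (.F true 2 [2, 5, 0]),
    .close [5, 2, 5, 0] [6, 5], .close [5, 2, 5, 0] [6, 3],
    .close [11, 4, 11, 4, 11, 4, 11, 2, 5, 2, 5, 0] [6, 5, 4, 1, 1, 1, 1, 2],
    .close [5, 2, 5, 0] [5, 3], .close [5, 0] [4, 3]])

/-- A lemma and its proof. -/
def c124_16 : List Lit × List (Cmd Rule) :=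
  ([.ord true [0] [4], .ord true [3, 4, 11, 2, 5, 2] [1, 4, 11, 2, 5, 2], .ord true [11, 2, 5, 2] [3, 4, 11, 2, 5, 2], .ord false [2, 11, 2, 5, 0] [8, 11, 2, 5, 0], .ord true [8, 11, 2, 5, 0] [2, 5, 0], .ord false [2, 5, 2] [4, 11, 2, 5, 2]], [
    .lem 3 [0], .close [5, 0] [6, 0], .lem 1 [0], .lem 13 [1, 4, 11, 2, 5, 2],
    .close [4, 11, 2, 5, 2] [8, 1], .close [2, 1, 4, 11, 2, 5, 2] [8, 1, 5, 4, 3, 7],
    .close [5, 0] [7, 6]])

/-- A lemma and its proof. -/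
def c124_17 : List Lit × List (Cmd Rule) :=
  ([.ord true [0] [4], .walk false false 1 0 [9, 0, 3, 4, 11, 2], .ord true [8, 11, 2] [2], .ord false [2] [4, 11, 2], .ord true [2, 9, 0, 3, 4, 11, 2] [8, 11, 2]], [
    .use (.W false 1 0 0 [9, 0, 3, 4, 11, 2]), .clash 1 5,
    .use (.W false 1 0 1 [9, 0, 3, 4, 11, 2]), .clash 1 6,
    .close [6, 9, 0, 3, 4, 11, 2] [6, 3, 2, 4, 5]])

/-- A lemma and its proof. -/
def c124_18 : List Lit × List (Cmd Rule) :=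
  ([.ord true [0] [4], .walk false false 1 0 [9, 0, 3, 4, 11, 2, 5, 2], .ord true [9, 2, 9, 0, 3, 4, 11, 2, 5, 2] [11, 2, 5, 2], .ord true [8, 11, 2, 5, 2] [2, 5, 2], .ord false [2, 5, 2] [4, 11, 2, 5, 2]], [
    .use (.W false 1 0 0 [9, 0, 3, 4, 11, 2, 5, 2]), .clash 1 5,
    .use (.W false 1 0 1 [9, 0, 3, 4, 11, 2, 5, 2]), .clash 1 6,
    .close [6, 9, 0, 3, 4, 11, 2, 5, 2] [6, 4, 3, 2, 5]])

/-- A lemma and its proof. -/
def c124_19 : List Lit × List (Cmd Rule) :=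
  ([.ord true [0] [4], .ord false [10, 5, 2] [6, 5, 2], .walk true false 0 1 [5, 2], .ord false [2, 5, 2] [4, 11, 2, 5, 2], .ord true [9, 2, 9, 0, 3, 4, 11, 2, 5, 2] [11, 2, 5, 2], .ord true [8, 11, 2, 5, 2] [2, 5, 2], .ord true [0, 3, 4, 11, 2, 5, 2] [10, 9, 0, 3, 4, 11, 2, 5, 2]], [
    .use (.W false 0 2 1 [5, 2]), .use (.N false 0 [5, 2]), .close [0, 5, 2] [8, 1, 5, 4, 6, 3],
    .clash 8 2, .clash 8 7, .close [10, 5, 2] [7, 1]])

/-- A lemma and its proof. -/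
def c124_20 : List Lit × List (Cmd Rule) :=
  ([.ord true [0] [4], .ord true [4, 11, 2, 5, 0] [2, 5, 0], .ord false [5, 0] [], .ord false [2] [4], .ord true [10] [4, 11, 4, 11, 4, 11, 2, 5, 0]], [
    .close [11, 4, 11, 4, 11, 4, 11, 2, 5, 0] [4, 3, 2, 1, 1, 1, 1]])

/-- A lemma and its proof. -/
def c124_21 : List Lit × List (Cmd Rule) :=
  ([.ord true [0] [4], .walk false false 1 0 [9, 0, 3, 4, 11, 4, 11, 2], .ord true [8, 11, 4, 11, 2] [4, 11, 2], .ord false [2] [4, 11, 2], .ord true [2, 9, 0, 3, 4, 11, 4, 11, 2] [8, 11, 4, 11, 2]], [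
    .use (.W false 1 0 0 [9, 0, 3, 4, 11, 4, 11, 2]), .clash 1 5,
    .use (.W false 1 0 1 [9, 0, 3, 4, 11, 4, 11, 2]), .clash 1 6,
    .close [6, 9, 0, 3, 4, 11, 4, 11, 2] [6, 3, 2, 4, 5]])

/-- A lemma and its proof. -/
def c124_22 : List Lit × List (Cmd Rule) :=
  ([.ord true [0] [4], .ord true [4, 11, 2] [2]], [
    .lem 3 [0], .close [5, 0] [2, 0], .lem 1 [0], .use (.F true 2 [0]), .close [5, 0] [4, 0],
    .close [5, 0] [4, 2], .close [11, 4, 11, 4, 11, 4, 11, 2, 5, 0] [4, 0, 3, 1, 1, 1, 1, 0],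
    .close [5, 0] [3, 2]])

/-- A lemma and its proof. -/
def c124_23 : List Lit × List (Cmd Rule) :=
  ([.ord true [0] [4], .ord false [4, 11, 2, 5, 0] [2, 11, 2, 5, 0], .ord false [2, 5, 0] [4, 11, 2, 5, 0], .ord true [2, 11, 2] [4, 11, 2]], [
    .lem 3 [0], .close [5, 0] [4, 0], .lem 1 [0], .lem 14 [], .close [0] [6, 0],
    .use (.W true 2 1 1 [11, 2]), .use (.N true 2 [11, 2]), .close [2] [8, 0, 1, 2, 5],
    .use (.W true 2 0 0 [11, 2]), .clash 8 9, .use (.W true 2 0 1 [11, 2]), .clash 8 10,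
    .close [2] [10, 9, 0, 1, 1, 2, 5, 5], .clash 8 7, .close [2] [7, 6, 0, 1, 1, 2, 5],
    .close [2] [6, 0, 1, 2, 5], .close [5, 0] [5, 4]])

/-- A lemma and its proof. -/
def c124_24 : List Lit × List (Cmd Rule) :=
  ([.ord true [0] [4], .walk false false 1 0 [9, 0, 3, 4, 11, 2, 5, 0], .ord false [2, 5, 0] [4, 11, 2, 5, 0], .ord true [8, 11, 2, 5, 0] [2, 5, 0], .ord true [2, 9, 0, 3, 4, 11, 2, 5, 0] [8, 11, 2, 5, 0]], [
    .use (.W false 1 0 0 [9, 0, 3, 4, 11, 2, 5, 0]), .clash 1 5,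
    .use (.W false 1 0 1 [9, 0, 3, 4, 11, 2, 5, 0]), .clash 1 6,
    .close [6, 9, 0, 3, 4, 11, 2, 5, 0] [6, 2, 3, 4, 5]])

/-- A lemma and its proof. -/
def c124_25 : List Lit × List (Cmd Rule) :=
  ([.ord true [0] [4], .ord true [2, 9, 0] [10, 9, 2, 9, 0], .ord false [2, 11, 4, 11, 4, 11, 2] [0, 11, 4, 11, 4, 11, 2], .ord false [5, 0] [], .ord true [2, 9, 0, 3, 4, 11, 2] [8, 11, 2], .ord true [8, 11, 2] [2], .ord true [0, 3, 4, 11, 2] [10, 9, 0, 3, 4, 11, 2], .ord true [8, 11, 2, 5, 0] [2, 5, 0], .ord true [8, 11, 4, 11, 2] [4, 11, 2], .ord false [1, 4, 11, 4, 11, 2] [3, 4, 11, 4, 11, 2], .ord true [2, 9, 0, 3, 4, 11, 4, 11, 2] [8, 11, 4, 11, 2], .ord true [0, 3, 4, 11, 2, 5, 0] [10, 9, 0, 3, 4, 11, 2, 5, 0], .ord true [0, 3, 4, 11, 4, 11, 2] [10, 9, 0, 3, 4, 11, 4, 11, 2], .ord false [4, 11, 2, 5, 0] [0, 3, 4, 11, 2, 5, 0], .ord true [2, 9, 0, 3, 4, 11, 2, 5, 0] [8,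 11, 2, 5, 0], .ord false [11, 4, 11, 4, 11, 2] [1, 4, 11, 4, 11, 4, 11, 2], .ord true [2, 11, 2] [4, 11, 2]], [
    .lem 3 [0], .close [5, 0] [17, 0], .lem 1 [0], .use (.F true 2 [0]), .close [5, 0] [19, 0],
    .close [5, 0] [19, 17], .use (.F false 1 [2]), .close [1, 2] [20, 18],
    .close [5, 2] [20, 3, 18], .use (.F true 2 [4, 11, 4, 11, 4, 11, 2, 5, 0]),
    .close [11, 4, 11, 4, 11, 2, 5, 0] [21, 19, 5, 4, 6, 8, 10, 12, 9, 3],
    .close [11, 4, 11, 4, 11, 2, 5, 0] [21, 19, 5, 4, 6, 8, 10, 12, 9, 2, 0],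
    .use (.W false 1 2 1 [11, 4, 11, 4, 11, 2, 5, 0]), .lem 22 [], .close [0] [23, 0],
    .use (.N false 1 [11, 4, 11, 4, 11, 2, 5, 0]),
    .close [2, 11, 4, 11, 4, 11, 2, 5, 0] [24, 21, 19, 5, 4, 6, 8, 10, 12, 9, 20, 1, 18, 5, 4, 6, 23, 7, 14, 11, 13],
    .use (.W false 1 0 0 [11, 4, 11, 4, 11, 2, 5, 0]), .clash 24 25,
    .use (.W false 1 0 1 [11, 4, 11, 4, 11, 2, 5, 0]), .clash 24 26,
    .close [6, 11, 4, 11, 4, 11, 2, 5, 0] [26, 21, 19, 5, 4, 6, 8, 10, 12, 9, 20, 1, 5, 4, 6, 23, 7, 14, 11, 13, 25],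
    .clash 24 22,
    .close [4, 11, 4, 11, 2, 5, 0] [22, 21, 19, 5, 4, 6, 8, 10, 12, 9, 20, 1, 7, 14, 11, 13],
    .close [5, 0] [18, 17]])

/-- A lemma and its proof. -/
def c124_26 : List Lit × List (Cmd Rule) :=
  ([.ord true [0] [4], .ord false [2, 5, 2] [8, 11, 2, 5, 2], .ord false [2, 5, 2] [4, 11, 2, 5, 2], .ord false [2, 11, 2, 5, 0] [8, 11, 2, 5, 0], .ord true [8, 11, 2, 5, 0] [2, 5, 0]], [
    .lem 3 [0], .close [5, 0] [5, 0], .lem 1 [0], .use (.W true 2 1 1 [11, 2, 5, 2]),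
    .use (.W false 1 2 1 [11, 2, 5, 2]), .use (.F false 1 [2]), .close [1, 2] [9, 6],
    .close [5, 2] [9, 0, 6], .use (.N true 2 [11, 2, 5, 2]), .close [2, 5, 2] [10, 2],
    .use (.W true 2 0 0 [11, 2, 5, 2]), .clash 10 11, .use (.W false 1 0 0 [11, 2, 5, 2]),
    .use (.N false 1 [11, 2, 5, 2]), .close [2, 9, 2, 9, 0] [5, 4, 6, 13, 13, 1, 9], .clash 13 12,
    .clash 13 8, .close [0, 11, 2, 5, 2] [12, 11], .clash 10 7, .close [2, 5, 2] [8, 1],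
    .close [2, 5, 2] [7, 1], .close [5, 0] [6, 5]])

/-- A lemma and its proof. -/
def c124_27 : List Lit × List (Cmd Rule) :=
  ([.ord true [0] [4], .ord true [8, 11, 4, 11, 2] [4, 11, 2], .ord true [8, 11, 2] [2], .ord true [2, 9, 0, 3, 4, 11, 2] [8, 11, 2], .ord true [0, 3, 4, 11, 2] [10, 9, 0, 3, 4, 11, 2], .ord true [8, 11, 2, 5, 0] [2, 5, 0], .ord false [1, 4, 11, 4, 11, 2] [3, 4, 11, 4, 11, 2], .ord true [2, 9, 0, 3, 4, 11, 4, 11, 2] [8, 11, 4, 11, 2], .ord true [0, 3, 4, 11, 2, 5, 0] [10, 9, 0, 3, 4, 11, 2, 5, 0], .ord true [6, 5, 2] [10, 5, 2], .ord false [4, 11, 2, 5, 0] [0, 3, 4, 11, 2, 5, 0], .ord true [2, 9, 0, 3, 4, 11, 2, 5, 0] [8, 11, 2, 5, 0], .ord false [5, 0] [], .ord true [2, 11, 2] [4, 11, 2]], [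
    .lem 3 [0], .close [5, 0] [14, 0], .lem 1 [0], .lem 1 [4, 11, 2], .use (.F true 2 [0]),
    .close [5, 0] [17, 0], .close [5, 0] [17, 14], .use (.F false 1 [2]), .close [1, 2] [18, 15],
    .close [5, 2] [18, 12, 15], .lem 22 [], .close [0] [19, 0],
    .use (.F true 2 [4, 11, 4, 11, 4, 11, 2, 5, 0]),
    .close [11, 4, 11, 4, 11, 2, 5, 0] [20, 17, 2, 3, 4, 1, 7, 19, 4, 19, 5, 11, 8, 10],
    .close [11, 4, 11, 4, 11, 2, 5, 0] [20, 17, 2, 3, 4, 16, 1, 7, 19, 4, 19, 5, 11, 8, 10],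
    .lem 21 [], .close [0] [21, 0], .use (.N false 1 [9, 0, 3, 4, 11, 4, 11, 2]),
    .close [2, 9, 0, 3, 4, 11, 4, 11, 2] [22, 19, 16, 1, 7], .clash 22 21,
    .use (.W false 1 2 1 [9, 0, 3, 4, 11, 4, 11, 2]), .clash 22 23, .lem 13 [11, 4, 11, 4, 11, 2],
    .lem 25 [], .close [0] [25, 0], .use (.W false 1 2 1 [9, 2, 9, 0]),
    .use (.N false 1 [9, 2, 9, 0]), .close [2, 9, 2, 9, 0] [27, 15, 2, 3, 19],
    .use (.W false 1 0 1 [9, 2, 9, 0]), .clash 27 28,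
    .use (.W false 1 2 1 [11, 4, 11, 4, 11, 2, 5, 0]),
    .use (.N false 1 [11, 4, 11, 4, 11, 2, 5, 0]),
    .close [2, 11, 4, 11, 4, 11, 2, 5, 0] [30, 17, 2, 3, 4, 16, 3, 4, 19, 5, 11, 8, 10],
    .use (.W false 1 0 0 [11, 4, 11, 4, 11, 2, 5, 0]), .clash 30 31,
    .use (.W false 1 0 1 [11, 4, 11, 4, 11, 2, 5, 0]), .clash 30 32,
    .close [6, 11, 4, 11, 4, 11, 2, 5, 0] [32, 20, 17, 2, 3, 4, 1, 7, 23, 6, 9, 18, 28, 2, 3, 4, 19, 5, 11, 8, 10, 31],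
    .clash 30 29,
    .close [4, 11, 4, 11, 2, 5, 0] [29, 20, 17, 2, 3, 4, 1, 7, 23, 6, 9, 18, 28, 5, 11, 8, 10],
    .clash 27 26, .close [10, 9, 2, 9, 0] [26, 25], .close [2, 11, 4, 11, 4, 11, 2] [25, 24],
    .close [5, 0] [25, 12], .close [2, 9, 0, 3, 4, 11, 2] [25, 3], .close [8, 11, 2] [25, 2],
    .close [0, 3, 4, 11, 2] [25, 4], .close [8, 11, 2, 5, 0] [25, 5],
    .close [8, 11, 4, 11, 2] [25, 1], .close [1, 4, 11, 4, 11, 2] [25, 6],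
    .close [2, 9, 0, 3, 4, 11, 4, 11, 2] [25, 7], .close [0, 3, 4, 11, 2, 5, 0] [25, 8],
    .close [0, 3, 4, 11, 4, 11, 2] [25, 23], .close [4, 11, 2, 5, 0] [25, 10],
    .close [2, 9, 0, 3, 4, 11, 2, 5, 0] [25, 11],
    .close [11, 4, 11, 4, 11, 2] [25, 12, 17, 2, 3, 4, 1, 7, 23, 6], .close [2, 11, 2] [25, 13],
    .close [2, 11, 4, 11, 4, 11, 2] [24, 12, 17, 2, 3, 4, 16, 1, 7, 23, 6],
    .close [8, 11, 4, 11, 2] [21, 1], .close [2] [21, 19],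
    .close [2, 9, 0, 3, 4, 11, 4, 11, 2] [21, 7], .close [11, 2] [16, 13], .close [5, 0] [15, 14]])

/-- A lemma and its proof. -/
def c124_28 : List Lit × List (Cmd Rule) :=
  ([.ord true [0] [4], .ord true [8, 11, 2] [2], .ord true [2, 9, 0, 3, 4, 11, 2] [8, 11, 2], .ord true [8, 11, 2, 5, 0] [2, 5, 0]], [
    .lem 3 [0], .close [5, 0] [4, 0], .lem 1 [0], .use (.F true 2 [0]), .close [5, 0] [6, 0],
    .close [5, 0] [6, 4], .use (.F false 1 [2]), .close [1, 2] [7, 5], .close [5, 2] [7, 0, 5],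
    .lem 22 [], .close [0] [8, 0], .use (.W false 0 1 0 [5, 2]), .lem 1 [4, 11, 2], .lem 17 [],
    .close [0] [11, 0], .use (.N false 1 [9, 0, 3, 4, 11, 2]),
    .close [2, 9, 0, 3, 4, 11, 2] [12, 8, 5, 1, 2], .clash 12 11,
    .use (.W false 1 2 0 [9, 0, 3, 4, 11, 2]), .clash 12 13,
    .use (.W false 1 2 1 [9, 0, 3, 4, 11, 2]), .clash 12 14, .lem 1 [4, 11, 4, 11, 2],
    .use (.F false 1 [4, 11, 4, 11, 2]), .close [1, 4, 11, 4, 11, 2] [16, 15],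
    .close [11, 4, 11, 2] [16, 8, 8, 1, 2, 14, 10], .lem 20 [], .close [0] [17, 0], .lem 15 [],
    .close [0] [18, 0], .lem 23 [], .close [0] [19, 0], .lem 1 [4, 11, 2, 5, 0],
    .use (.F false 1 [4, 11, 2, 5, 0]), .close [1, 4, 11, 2, 5, 0] [21, 20],
    .close [11, 2, 5, 0] [21, 19], .lem 24 [], .close [0] [22, 0],
    .use (.N false 1 [9, 0, 3, 4, 11, 2, 5, 0]),
    .close [2, 9, 0, 3, 4, 11, 2, 5, 0] [23, 20, 17, 3, 21], .clash 23 22,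
    .use (.W false 1 2 0 [9, 0, 3, 4, 11, 2, 5, 0]), .clash 23 24,
    .use (.W false 1 2 1 [9, 0, 3, 4, 11, 2, 5, 0]), .clash 23 25, .lem 26 [], .close [0] [26, 0],
    .lem 16 [], .close [0] [27, 0], .use (.F false 1 [4, 11, 2, 5, 2]),
    .close [1, 4, 11, 2, 5, 2] [28, 27], .close [11, 2, 5, 2] [28, 18, 3, 21, 24, 25, 5],
    .lem 18 [], .close [0] [29, 0], .use (.N false 1 [9, 0, 3, 4, 11, 2, 5, 2]),
    .close [2, 9, 0, 3, 4, 11, 2, 5, 2] [30, 27, 18, 26, 28], .clash 30 29,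
    .use (.W false 1 2 1 [9, 0, 3, 4, 11, 2, 5, 2]), .clash 30 31, .lem 19 [], .close [0] [32, 0],
    .lem 27 [], .close [0] [33, 0], .use (.W false 1 2 1 [11, 4, 11, 2]),
    .use (.N false 1 [11, 4, 11, 2]), .close [2, 11, 4, 11, 2] [35, 8, 2, 14, 10],
    .use (.W false 1 0 0 [11, 4, 11, 2]), .clash 35 36, .use (.W false 1 0 1 [11, 4, 11, 2]),
    .clash 35 37, .use (.W false 1 0 1 [9, 2, 9, 0]), .use (.W false 1 2 1 [9, 2, 9, 0]),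
    .use (.N false 1 [9, 2, 9, 0]), .close [2, 9, 2, 9, 0] [40, 5, 1, 2, 8], .clash 40 38,
    .clash 40 39,
    .close [10, 9, 2, 9, 0] [39, 1, 2, 14, 10, 36, 37, 36, 37, 3, 21, 24, 25, 6, 1, 2, 14, 8, 3, 21, 6, 1, 2, 14, 10, 7],
    .close [6, 9, 2, 9, 0] [38, 1, 2, 14, 10, 36, 37, 36, 37, 3, 21, 24, 25, 6, 1, 2, 14, 8, 3, 21, 6, 1, 2, 14, 10, 32, 7],
    .clash 35 34, .close [4, 11, 2] [34, 33], .close [8, 11, 2] [33, 1],
    .close [2, 9, 0, 3, 4, 11, 2] [33, 2], .close [0, 3, 4, 11, 2] [33, 14],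
    .close [8, 11, 2, 5, 0] [33, 3], .close [1, 4, 11, 4, 11, 2] [33, 15],
    .close [2, 9, 0, 3, 4, 11, 4, 11, 2] [33, 16], .close [0, 3, 4, 11, 2, 5, 0] [33, 25],
    .close [6, 5, 2] [33, 32], .close [4, 11, 2, 5, 0] [33, 20],
    .close [2, 9, 0, 3, 4, 11, 2, 5, 0] [33, 21], .close [5, 0] [33, 1, 2, 13, 14, 8],
    .close [2, 11, 2] [33, 8, 1, 8, 7, 5, 1], .clash 32 9, .close [2, 5, 2] [32, 18],
    .close [9, 2, 9, 0, 3, 4, 11, 2, 5, 2] [32, 28], .close [8, 11, 2, 5, 2] [32, 26],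
    .close [0, 3, 4, 11, 2, 5, 2] [32, 31], .close [9, 2, 9, 0, 3, 4, 11, 2, 5, 2] [29, 28],
    .close [8, 11, 2, 5, 2] [29, 26], .close [2, 5, 2] [29, 18],
    .close [11, 2, 5, 2] [27, 18, 3, 21, 24, 25, 5], .close [2, 11, 2, 5, 0] [27, 21, 20, 17, 3],
    .close [8, 11, 2, 5, 0] [27, 3], .close [2, 5, 2] [27, 18], .close [2, 5, 2] [26, 18],
    .close [2, 11, 2, 5, 0] [26, 21, 20, 17, 3], .close [8, 11, 2, 5, 0] [26, 3],
    .close [2, 5, 0] [22, 17], .close [8, 11, 2, 5, 0] [22, 3],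
    .close [2, 9, 0, 3, 4, 11, 2, 5, 0] [22, 21], .close [11, 2, 5, 0] [20, 19],
    .close [2, 5, 0] [19, 17], .close [2, 11, 2] [19, 8, 1, 8, 7, 5, 1],
    .close [5, 0] [18, 1, 2, 13, 14, 8], .close [5, 0] [17, 1, 2, 13, 14, 8],
    .close [2] [17, 0, 5], .close [10] [17, 6], .close [11, 4, 11, 2] [15, 8, 8, 1, 2, 14, 10],
    .close [8, 11, 2] [11, 1], .close [2] [11, 8], .close [2, 9, 0, 3, 4, 11, 2] [11, 2],
    .close [11, 2] [10, 8, 1, 8, 7, 5, 1], .close [2, 5, 2] [9, 7, 5, 1, 8], .close [5, 0] [5, 4]])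

/-- A lemma and its proof. -/
def c124_29 : List Lit × List (Cmd Rule) :=
  ([.ord true [0] [4], .ord false [2] [8, 11, 2]], [
    .lem 3 [0], .close [5, 0] [2, 0], .lem 1 [0], .use (.W true 2 1 1 [11, 2]),
    .use (.W false 1 2 1 [11, 2]), .lem 22 [], .close [0] [6, 0], .use (.N true 2 [11, 2]),
    .close [2] [7, 6], .use (.W true 2 0 0 [11, 2]), .clash 7 8, .use (.W true 2 0 1 [11, 2]),
    .clash 7 9, .use (.W false 1 0 0 [11, 2]), .use (.N false 1 [11, 2]),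
    .close [2, 11, 2] [11, 1, 3, 9, 8], .clash 11 10, .clash 11 5, .close [0, 11, 2] [10, 8],
    .clash 7 4, .close [2] [5, 1], .close [2] [4, 1], .close [5, 0] [3, 2]])

/-- A lemma and its proof. -/
def c124_30 : List Lit × List (Cmd Rule) :=
  ([.ord true [0] [4]], [
    .lem 3 [0], .close [5, 0] [1, 0], .lem 1 [0], .use (.F true 2 [0]), .close [5, 0] [3, 0],
    .close [5, 0] [3, 1], .use (.F false 1 [2]), .close [1, 2] [4, 2], .close [5, 2] [4, 0, 2],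
    .lem 22 [], .close [0] [5, 0], .lem 29 [], .close [0] [6, 0], .lem 1 [4, 11, 2],
    .use (.F false 1 [4, 11, 2]), .close [1, 4, 11, 2] [8, 7],
    .close [11, 2] [8, 5, 6, 5, 4, 2, 6], .lem 28 [], .close [0] [9, 0], .close [8, 11, 2] [9, 6],
    .close [2, 9, 0, 3, 4, 11, 2] [9, 8], .use (.W true 2 1 1 [11, 2, 5, 0]),
    .use (.W false 1 2 1 [11, 2, 5, 0]), .lem 20 [], .close [0] [12, 0],
    .use (.N true 2 [11, 2, 5, 0]), .close [2, 5, 0] [13, 12], .use (.W true 2 0 0 [11, 2, 5, 0]),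
    .clash 13 14, .use (.W false 1 0 0 [11, 2, 5, 0]), .use (.N false 1 [11, 2, 5, 0]),
    .close [2, 9, 2, 9, 0] [2, 6, 0, 16, 16, 9, 2, 4], .clash 16 15, .clash 16 11,
    .close [0, 11, 2, 5, 0] [15, 14], .clash 13 10, .close [5, 0] [12, 6, 0, 9],
    .close [2] [12, 0, 2], .close [10] [12, 3], .close [2, 5, 0] [11, 9], .close [2, 5, 0] [10, 9],
    .close [11, 2] [7, 5, 6, 5, 4, 2, 6], .close [5, 0] [2, 1]])

/-- A lemma and its proof. -/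
def c124_31 : List Lit × List (Cmd Rule) :=
  ([.ord true [4] [0], .ord false [2, 9, 0] [10, 9, 2, 9, 0], .ord false [4, 9, 2, 9, 0] [10, 9, 2, 9, 0], .ord false [0] [2, 9, 0]], [
    .use (.W true 1 2 1 [9, 2, 9, 0]), .use (.W false 2 1 1 [9, 2, 9, 0]),
    .use (.N true 1 [9, 2, 9, 0]), .close [2, 9, 0] [6, 3], .use (.W true 1 0 0 [9, 2, 9, 0]),
    .clash 6 7, .use (.W false 2 0 0 [9, 2, 9, 0]), .use (.N false 2 [9, 2, 9, 0]),
    .close [4, 9, 2, 9, 0] [9, 2], .clash 9 8, .clash 9 5, .close [0, 9, 2, 9, 0] [8, 7],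
    .clash 6 4, .close [2, 9, 0] [5, 1], .close [2, 9, 0] [4, 1]])

/-- A lemma and its proof. -/
def c124_32 : List Lit × List (Cmd Rule) :=
  ([.ord true [4] [0], .walk false true 1 0 [9, 0, 3, 4, 11, 2, 5, 0], .ord true [11, 2, 5, 0] [9, 2, 9, 0, 3, 4, 11, 2, 5, 0], .ord true [2, 5, 0] [8, 11, 2, 5, 0], .ord false [4, 11, 2, 5, 0] [2, 5, 0]], [
    .use (.W true 1 0 0 [9, 0, 3, 4, 11, 2, 5, 0]), .clash 1 5,
    .use (.W true 1 0 1 [9, 0, 3, 4, 11, 2, 5, 0]), .clash 1 6,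
    .close [0, 3, 4, 11, 2, 5, 0] [6, 5, 2, 3, 4]])

/-- A lemma and its proof. -/
def c124_33 : List Lit × List (Cmd Rule) :=
  ([.ord true [4] [0], .ord false [11, 2, 5, 0] [3, 4, 11, 2, 5, 0], .ord false [4, 11, 2, 5, 0] [2, 1, 4, 11, 2, 5, 0], .ord false [4, 11, 2, 5, 0] [2, 5, 0], .ord true [2, 5, 0] [8, 11, 2, 5, 0]], [
    .use (.W false 2 1 0 [11, 2, 5, 0]), .use (.N false 2 [11, 2, 5, 0]),
    .close [4, 11, 2, 5, 0] [6, 3], .use (.W false 2 0 0 [11, 2, 5, 0]), .clash 6 7,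
    .use (.W false 2 0 1 [11, 2, 5, 0]), .clash 6 8, .close [6, 11, 2, 5, 0] [8, 3, 2, 1, 7],
    .clash 6 5, .close [2, 11, 2, 5, 0] [5, 4, 3, 1]])

/-- A lemma and its proof. -/
def c124_34 : List Lit × List (Cmd Rule) :=
  ([.ord true [4] [0], .ord false [] [5, 2], .ord true [2, 5, 0] [4, 11, 2, 5, 0], .ord false [] [5, 0]], [
    .use (.F false 2 [0]), .close [] [4, 0], .lem 6 [2, 5, 0], .close [1, 2, 5, 0] [5, 0, 1, 4],
    .close [5, 2, 5, 0] [5, 4], .close [] [4, 2, 2, 2, 2, 0, 1]])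

/-- A lemma and its proof. -/
def c124_35 : List Lit × List (Cmd Rule) :=
  ([.ord true [4] [0], .ord true [2, 11, 2] [8, 11, 2]], [
    .lem 30 [1, 4, 11, 2], .lem 6 [4, 11, 2], .close [1, 4, 11, 2] [3, 2], .lem 9 [4, 11, 2],
    .use (.F true 1 [4, 11, 2]), .close [3, 4, 11, 2] [5, 4], .close [3, 4, 11, 2] [5, 3],
    .close [9, 2, 9, 0, 3, 4, 11, 2] [5, 1, 1, 3, 4], .close [3, 4, 11, 2] [4, 3]])

/-- A lemma and its proof. -/
def c124_36 : List Lit × List (Cmd Rule) :=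
  ([.ord true [4] [0], .walk false true 1 0 [9, 0, 3, 4, 11, 4, 11, 2], .ord true [11, 4, 11, 2] [9, 2, 9, 0, 3, 4, 11, 4, 11, 2], .ord false [11, 2] [5, 2], .ord true [4, 11, 2] [8, 11, 4, 11, 2]], [
    .use (.W true 1 0 0 [9, 0, 3, 4, 11, 4, 11, 2]), .clash 1 5,
    .use (.W true 1 0 1 [9, 0, 3, 4, 11, 4, 11, 2]), .clash 1 6,
    .close [0, 3, 4, 11, 4, 11, 2] [6, 5, 2, 4, 3]])

/-- A lemma and its proof. -/
def c124_37 : List Lit × List (Cmd Rule) :=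
  ([.ord true [4] [0], .walk true true 1 2 [11, 2], .walk true true 1 2 [9, 0, 3, 4, 11, 2]], [
    .lem 30 [1, 4, 11, 2], .lem 6 [4, 11, 2], .close [1, 4, 11, 2] [4, 3], .lem 9 [4, 11, 2],
    .use (.F true 1 [4, 11, 2]), .close [3, 4, 11, 2] [6, 5], .close [3, 4, 11, 2] [6, 4],
    .lem 35 [], .close [4] [7, 0], .use (.N true 1 [11, 2]), .close [8, 11, 2] [8, 7],
    .use (.W true 1 0 0 [11, 2]), .clash 8 9, .use (.W true 1 0 1 [11, 2]), .clash 8 10,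
    .use (.N true 1 [9, 0, 3, 4, 11, 2]), .close [0, 3, 4, 11, 2] [11, 6, 10, 9, 4],
    .use (.W true 1 0 0 [9, 0, 3, 4, 11, 2]), .clash 11 12,
    .use (.W true 1 0 1 [9, 0, 3, 4, 11, 2]), .clash 11 13,
    .close [0, 3, 4, 11, 2] [13, 12, 6, 10, 9, 3], .clash 11 2, .clash 8 1,
    .close [3, 4, 11, 2] [5, 4]])

/-- A lemma and its proof. -/
def c124_38 : List Lit × List (Cmd Rule) :=
  ([.ord true [4] [0], .walk true true 1 2 [9, 0, 3, 4, 11, 2]], [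
    .lem 30 [1, 4, 11, 2], .lem 6 [4, 11, 2], .close [1, 4, 11, 2] [3, 2], .lem 9 [4, 11, 2],
    .use (.F true 1 [4, 11, 2]), .close [3, 4, 11, 2] [5, 4], .close [3, 4, 11, 2] [5, 3],
    .lem 37 [], .close [4] [6, 0], .use (.W true 1 2 0 [11, 2]), .clash 6 7,
    .use (.W true 1 2 1 [11, 2]), .clash 6 8, .use (.N true 1 [9, 0, 3, 4, 11, 2]),
    .close [0, 3, 4, 11, 2] [9, 5, 8, 7, 4], .use (.W true 1 0 0 [9, 0, 3, 4, 11, 2]), .clash 9 10,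
    .use (.W true 1 0 1 [9, 0, 3, 4, 11, 2]), .clash 9 11,
    .close [0, 3, 4, 11, 2] [11, 10, 5, 8, 7], .clash 9 1, .clash 6 1, .close [3, 4, 11, 2] [4, 3]])

/-- A lemma and its proof. -/
def c124_39 : List Lit × List (Cmd Rule) :=
  ([.ord true [4] [0], .ord false [8, 11, 2] [2], .ord false [11, 2] [5, 2]], [
    .lem 30 [1, 4, 11, 2], .use (.W false 2 1 1 [11, 2]), .lem 6 [4, 11, 2],
    .close [1, 4, 11, 2] [5, 3], .lem 9 [4, 11, 2], .use (.W true 1 2 1 [11, 2]),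
    .use (.N false 2 [11, 2]), .close [4, 11, 2] [8, 2], .use (.W false 2 0 0 [11, 2]), .clash 8 9,
    .use (.W true 1 0 0 [11, 2]), .use (.F true 1 [4, 11, 2]), .close [3, 4, 11, 2] [11, 6],
    .close [3, 4, 11, 2] [11, 5], .use (.N true 1 [11, 2]),
    .close [6, 9, 0, 3, 4, 11, 2] [11, 12, 12, 5, 6], .clash 12 10, .clash 12 7,
    .close [6, 11, 2] [10, 9], .clash 8 4, .close [8, 11, 2] [7, 1], .close [3, 4, 11, 2] [6, 5],
    .close [8, 11, 2] [4, 1]])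

/-- A lemma and its proof. -/
def c124_40 : List Lit × List (Cmd Rule) :=
  ([.ord true [4] [0], .ord false [2, 1, 4, 11, 2, 5, 0] [4, 11, 2, 5, 0], .ord true [2] [8, 11, 2], .ord false [4, 11, 2, 5, 0] [2, 5, 0]], [
    .lem 30 [1, 4, 11, 2], .lem 6 [4, 11, 2], .close [1, 4, 11, 2] [5, 4], .lem 9 [4, 11, 2],
    .lem 10 [1, 4, 11, 2, 5, 0], .close [2, 1, 4, 11, 2, 5, 0] [7, 1], .use (.F true 1 [4, 11, 2]),
    .close [3, 4, 11, 2] [8, 6], .close [3, 4, 11, 2] [8, 5], .use (.F false 2 [0]),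
    .close [] [9, 0], .close [3, 0] [9, 3, 7, 1, 0, 6, 6, 2, 3, 1, 7, 1, 0, 6, 6, 6, 6, 8, 2],
    .lem 38 [], .close [4] [10, 0], .use (.W true 1 2 1 [9, 0, 3, 4, 11, 2]), .clash 10 11,
    .lem 10 [11, 4, 11, 2, 5, 2],
    .close [2, 11, 4, 11, 2, 5, 2] [12, 3, 1, 7, 1, 0, 6, 6, 6, 2, 3, 1, 7, 1, 0, 6, 6, 6, 6, 8, 2, 6, 11, 8, 2, 3, 1, 7, 7, 7, 1, 0, 6, 6, 2, 3, 1, 7, 1, 0, 6, 6, 6, 6, 8, 2, 2, 3, 1, 7, 1, 0, 6, 6, 6, 6, 8, 2, 9, 1, 7, 7, 1, 0, 6, 6, 2, 3, 1, 7, 1, 0, 6, 6, 6, 6, 8, 2],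
    .close [4, 11, 4, 11, 2, 5, 2] [12, 3, 1, 7, 1, 0, 6, 6, 6, 2, 3, 1, 7, 1, 0, 6, 6, 6, 6, 8, 2, 6, 11, 8, 2, 2, 3, 1, 7, 1, 0, 6, 6, 6, 6, 8, 2, 9, 1, 7, 7, 1, 0, 6, 6, 2, 3, 1, 7, 1, 0, 6, 6, 6, 6, 8, 2],
    .close [3, 4, 11, 2] [6, 5]])

/-- A lemma and its proof. -/
def c124_41 : List Lit × List (Cmd Rule) :=
  ([.ord true [4] [0], .walk false true 1 0 [11, 4, 11, 4, 11, 2, 5, 0], .ord false [11, 4, 11, 4, 11, 4, 11, 2, 5, 0] [], .ord false [0, 3, 4, 11, 4, 11, 2] [4, 11, 4, 11, 2], .ord true [4, 11, 2] [8, 11, 4, 11, 2], .ord false [] [5, 0], .ord true [11, 4, 11, 2] [9, 2, 9, 0, 3, 4, 11, 4, 11, 2], .ord false [11, 2] [5, 2], .ord true [2] [8, 11, 2], .ord true [2, 5, 0] [8, 11, 2, 5, 0], .ord false [0] [2, 9, 0], .ord false [2] [4, 9, 2, 9, 0], .ord true [10, 9, 0, 3, 4, 11, 4, 11, 2] [0, 3, 4, 11, 4, 11, 2], .ord true [11, 2, 5, 0] [9, 2, 9, 0, 3, 4, 11, 2,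 5, 0]], [
    .lem 9 [4, 11, 2], .use (.W true 1 0 0 [11, 4, 11, 4, 11, 2, 5, 0]), .clash 1 15,
    .use (.W true 1 0 1 [11, 4, 11, 4, 11, 2, 5, 0]), .clash 1 16, .use (.F true 1 [4, 11, 2]),
    .close [3, 4, 11, 2] [17, 14], .close [3, 4, 11, 2] [17, 7, 4, 7, 3, 6, 4], .lem 38 [],
    .close [4] [18, 0], .use (.W true 1 2 1 [9, 0, 3, 4, 11, 2]), .clash 18 19, .lem 31 [],
    .close [4] [20, 0],
    .close [2, 9, 0] [20, 11, 4, 14, 17, 8, 2, 13, 9, 7, 19, 17, 8, 2, 16, 15, 16, 15, 16, 15, 0, 3, 12, 6, 4, 17, 8],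
    .close [4, 9, 2, 9, 0] [20, 11, 4, 14, 17, 8, 2, 9, 7, 19, 17, 8, 2, 16, 15, 16, 15, 0, 3, 12, 6, 4, 17, 8],
    .close [0] [20, 10], .close [3, 4, 11, 2] [14, 7, 4, 7, 3, 6, 4]])

/-- A lemma and its proof. -/
def c124_42 : List Lit × List (Cmd Rule) :=
  ([.ord true [4] [0], .ord false [8, 11, 4, 11, 4, 11, 2, 5, 0] [4, 11, 4, 11, 2, 5, 0], .ord true [] [11, 4, 11, 4, 11, 4, 11, 2, 5, 0], .ord false [11, 2] [5, 2], .ord true [2] [8, 11, 2], .ord true [2, 5, 0] [8, 11, 2, 5, 0], .ord true [11, 4, 11, 4, 11, 4, 11, 2, 5, 0] [], .ord false [4, 11, 2, 5, 0] [2, 5, 0], .ord false [2] [4, 9, 2, 9, 0], .ord true [4, 11, 2] [8, 11, 4, 11, 2], .ord false [0, 3, 4, 11, 4, 11, 2] [4, 11, 4, 11, 2], .ord true [11, 4, 11, 2] [9, 2, 9, 0, 3, 4, 11, 4, 11, 2], .ord true [1, 4, 11, 4, 11, 4, 11, 2, 5, 0] [11, 4, 11, 4, 11, 2, 5, 0], .ord true [10, 9, 0, 3, 4, 11, 4, 11, 2] [0,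 3, 4, 11, 4, 11, 2]], [
    .lem 9 [4, 11, 2], .use (.W true 1 2 1 [11, 4, 11, 4, 11, 2, 5, 0]),
    .use (.F true 1 [4, 11, 2]), .close [3, 4, 11, 2] [16, 14],
    .close [3, 4, 11, 2] [16, 4, 3, 3, 10, 11, 9],
    .use (.F false 2 [4, 11, 4, 11, 4, 11, 2, 5, 0]),
    .close [1, 4, 11, 4, 11, 4, 11, 2, 5, 0] [17, 12],
    .close [3, 4, 11, 4, 11, 4, 11, 2, 5, 0] [17, 7, 2, 4, 3, 14, 16, 4, 6],
    .use (.N true 1 [11, 4, 11, 4, 11, 2, 5, 0]),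
    .close [8, 11, 4, 11, 4, 11, 2, 5, 0] [18, 7, 2, 9, 14, 16, 4, 6, 1],
    .use (.W true 1 0 0 [11, 4, 11, 4, 11, 2, 5, 0]), .clash 18 19,
    .use (.W true 1 0 1 [11, 4, 11, 4, 11, 2, 5, 0]), .clash 18 20, .lem 38 [], .close [4] [21, 0],
    .use (.W true 1 2 1 [9, 0, 3, 4, 11, 2]), .clash 21 22, .lem 31 [], .close [4] [23, 0],
    .close [2, 9, 0] [23, 8, 10, 13, 11, 9, 22, 16, 4, 6, 17, 20, 19, 7, 2],
    .close [4, 9, 2, 9, 0] [23, 8, 9, 14, 16, 4, 6, 5, 3, 22, 16, 4, 6, 20, 19, 7, 2],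
    .close [0] [23, 8, 4, 3, 14, 16, 4, 6, 20, 19, 7, 2], .clash 18 15,
    .close [8, 11, 4, 11, 4, 11, 2, 5, 0] [15, 1], .close [3, 4, 11, 2] [14, 4, 3, 3, 10, 11, 9]])

/-- A lemma and its proof. -/
def c124_43 : List Lit × List (Cmd Rule) :=
  ([.ord true [4] [0], .ord true [] [11, 4, 11, 4, 11, 4, 11, 2, 5, 0], .ord false [2] [4, 9, 2, 9, 0], .ord true [2] [8, 11, 2], .ord true [2, 5, 0] [8, 11, 2, 5, 0], .ord true [11, 4, 11, 4, 11, 4, 11, 2, 5, 0] [], .ord true [11, 2, 5, 0] [9, 2, 9, 0, 3, 4, 11, 2, 5, 0], .ord false [4, 11, 2, 5, 0] [2, 5, 0], .ord false [11, 2] [5, 2], .ord false [0, 3, 4, 11, 4, 11, 2] [4, 11, 4, 11, 2], .ord true [11, 4, 11, 2] [9, 2, 9, 0, 3, 4, 11, 4, 11, 2], .ord true [10, 9, 0, 3, 4, 11, 4, 11, 2] [0, 3, 4, 11, 4, 11, 2], .ord false [] [5, 0], .ord true [4, 11, 2] [8, 11, 4, 11, 2]], [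
    .lem 9 [4, 11, 2], .use (.F true 1 [4, 11, 2]), .close [3, 4, 11, 2] [15, 14],
    .close [3, 4, 11, 2] [15, 3, 8, 8, 9, 10, 13], .lem 38 [], .close [4] [16, 0],
    .use (.W true 1 2 1 [9, 0, 3, 4, 11, 2]), .clash 16 17,
    .use (.F false 2 [4, 11, 4, 11, 4, 11, 2, 5, 0]),
    .close [1, 4, 11, 4, 11, 4, 11, 2, 5, 0] [18, 7, 1, 8, 17, 15, 3, 5],
    .close [3, 4, 11, 4, 11, 4, 11, 2, 5, 0] [18, 7, 1, 3, 8, 14, 15, 3, 5], .lem 40 [],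
    .close [4] [19, 0], .lem 32 [], .close [4] [20, 0], .use (.N true 1 [9, 0, 3, 4, 11, 2, 5, 0]),
    .close [0, 3, 4, 11, 2, 5, 0] [21, 6, 4, 7, 19], .clash 21 20,
    .use (.W true 1 2 0 [9, 0, 3, 4, 11, 2, 5, 0]), .clash 21 22,
    .use (.W true 1 2 1 [9, 0, 3, 4, 11, 2, 5, 0]), .clash 21 23, .lem 42 [], .close [4] [24, 0],
    .lem 31 [], .close [4] [25, 0],
    .close [2, 9, 0] [25, 2, 9, 11, 10, 13, 17, 15, 3, 5, 18, 24, 19, 23, 6, 4],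
    .close [4, 9, 2, 9, 0] [25, 2, 13, 14, 15, 3, 5, 4, 8, 17, 15, 3, 5, 24, 19, 23, 6, 4],
    .close [0] [25, 2, 13, 14, 15, 3, 5, 19, 23, 23, 22, 6, 4], .close [] [24, 1],
    .close [11, 2] [24, 8], .close [2] [24, 3], .close [2, 5, 0] [24, 4],
    .close [11, 4, 11, 4, 11, 4, 11, 2, 5, 0] [24, 5], .close [4, 11, 2, 5, 0] [24, 7],
    .close [2] [24, 2], .close [4, 11, 2] [24, 13], .close [0, 3, 4, 11, 4, 11, 2] [24, 9],
    .close [11, 4, 11, 2] [24, 10],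
    .close [1, 4, 11, 4, 11, 4, 11, 2, 5, 0] [24, 7, 1, 8, 17, 15, 3, 5],
    .close [10, 9, 0, 3, 4, 11, 4, 11, 2] [24, 11], .close [11, 2, 5, 0] [20, 6],
    .close [2, 5, 0] [20, 4], .close [4, 11, 2, 5, 0] [20, 7], .close [2] [19, 3],
    .close [4, 11, 2, 5, 0] [19, 7], .close [3, 4, 11, 2] [14, 3, 8, 8, 9, 10, 13]])

/-- A lemma and its proof. -/
def c124_44 : List Lit × List (Cmd Rule) :=
  ([.ord true [4] [0], .ord false [4, 11, 2, 5, 0] [2, 1, 4, 11, 2, 5, 0], .ord false [2] [4, 9, 2, 9, 0], .ord true [2] [8, 11, 2], .ord true [2, 5, 0] [8, 11, 2, 5, 0], .ord true [11, 4, 11, 4, 11, 4, 11, 2, 5, 0] [], .ord false [11, 2] [5, 2], .ord true [11, 2, 5, 0] [9, 2, 9, 0, 3, 4, 11, 2, 5, 0], .ord true [4, 11, 2] [8, 11, 4, 11, 2], .ord false [0, 3, 4, 11, 4, 11, 2] [4, 11, 4, 11, 2], .ord true [3, 4, 11, 4, 11, 2] [11, 4, 11, 2], .ord true [11, 4, 11, 2] [9, 2, 9, 0,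 3, 4, 11, 4, 11, 2], .ord true [10, 9, 0, 3, 4, 11, 4, 11, 2] [0, 3, 4, 11, 4, 11, 2], .ord false [4, 11, 2, 5, 0] [2, 5, 0], .ord false [] [5, 0]], [
    .lem 9 [4, 11, 2], .use (.F true 1 [4, 11, 2]), .close [3, 4, 11, 2] [16, 15],
    .close [3, 4, 11, 2] [16, 3, 6, 6, 9, 11, 8], .lem 38 [], .close [4] [17, 0],
    .use (.W true 1 2 1 [9, 0, 3, 4, 11, 2]), .clash 17 18,
    .use (.F false 2 [4, 11, 4, 11, 4, 11, 2, 5, 0]),
    .close [1, 4, 11, 4, 11, 4, 11, 2, 5, 0] [19, 0, 9, 12, 11, 8, 18, 16, 3, 5],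
    .close [3, 4, 11, 4, 11, 4, 11, 2, 5, 0] [19, 0, 9, 12, 11, 8, 8, 15, 16, 3, 5], .lem 32 [],
    .close [4] [20, 0], .use (.N true 1 [9, 0, 3, 4, 11, 2, 5, 0]),
    .close [0, 3, 4, 11, 2, 5, 0] [21, 7, 4, 13, 1], .clash 21 20,
    .use (.W true 1 2 0 [9, 0, 3, 4, 11, 2, 5, 0]), .clash 21 22,
    .use (.W true 1 2 1 [9, 0, 3, 4, 11, 2, 5, 0]), .clash 21 23, .lem 43 [], .close [4] [24, 0],
    .lem 41 [], .close [4] [25, 0], .use (.N true 1 [11, 4, 11, 4, 11, 2, 5, 0]),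
    .close [8, 11, 4, 11, 4, 11, 2, 5, 0] [26, 23, 22, 7, 4, 8, 15, 16, 8, 15, 16, 3, 5],
    .clash 26 25, .use (.W true 1 2 1 [11, 4, 11, 4, 11, 2, 5, 0]), .clash 26 27, .lem 31 [],
    .close [4] [28, 0], .close [2, 9, 0] [28, 2, 9, 12, 11, 8, 18, 16, 3, 5, 19, 27, 1, 23, 7, 4],
    .close [4, 9, 2, 9, 0] [28, 2, 8, 15, 16, 3, 5, 4, 6, 18, 16, 3, 5, 27, 1, 23, 7, 4],
    .close [0] [28, 2, 8, 15, 16, 3, 5, 1, 23, 23, 22, 7, 4],
    .close [11, 4, 11, 4, 11, 4, 11, 2, 5, 0] [25, 24], .close [0, 3, 4, 11, 4, 11, 2] [25, 9],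
    .close [4, 11, 2] [25, 8], .close [] [25, 14], .close [11, 4, 11, 2] [25, 11],
    .close [11, 2] [25, 6], .close [2] [25, 3], .close [2, 5, 0] [25, 4],
    .close [0] [25, 2, 8, 15, 16, 3, 5, 1, 23, 23, 22, 7, 4], .close [2] [25, 2],
    .close [10, 9, 0, 3, 4, 11, 4, 11, 2] [25, 12], .close [11, 2, 5, 0] [25, 7],
    .close [2] [24, 2], .close [2] [24, 3], .close [2, 5, 0] [24, 4],
    .close [11, 4, 11, 4, 11, 4, 11, 2, 5, 0] [24, 5], .close [11, 2, 5, 0] [24, 7],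
    .close [4, 11, 2, 5, 0] [24, 13], .close [11, 2] [24, 6],
    .close [0, 3, 4, 11, 4, 11, 2] [24, 9], .close [11, 4, 11, 2] [24, 11],
    .close [10, 9, 0, 3, 4, 11, 4, 11, 2] [24, 12], .close [] [24, 14], .close [4, 11, 2] [24, 8],
    .close [11, 2, 5, 0] [20, 7], .close [2, 5, 0] [20, 4], .close [4, 11, 2, 5, 0] [20, 13],
    .close [3, 4, 11, 2] [15, 3, 6, 6, 9, 11, 8]])

/-- A lemma and its proof. -/
def c124_45 : List Lit × List (Cmd Rule) :=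
  ([.ord true [4] [0], .ord true [2, 1, 4, 11, 2, 5, 0] [4, 11, 2, 5, 0], .ord true [2, 5, 0] [8, 11, 2, 5, 0], .ord false [4, 11, 2, 5, 0] [2, 5, 0], .ord true [4, 11, 2, 5, 0] [2, 1, 4, 11, 2, 5, 0]], [
    .lem 10 [1, 4, 11, 2, 5, 0], .close [2, 1, 4, 11, 2, 5, 0] [5, 1],
    .use (.W false 2 1 0 [11, 2, 5, 0]), .use (.N false 2 [11, 2, 5, 0]),
    .close [4, 11, 2, 5, 0] [7, 3], .use (.W false 2 0 0 [11, 2, 5, 0]), .clash 7 8,
    .use (.W false 2 0 1 [11, 2, 5, 0]), .clash 7 9, .close [6, 11, 2, 5, 0] [9, 3, 5, 4, 8],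
    .clash 7 6, .close [2, 11, 2, 5, 0] [6, 2, 3, 1, 5, 4]])

/-- A lemma and its proof. -/
def c124_46 : List Lit × List (Cmd Rule) :=
  ([.ord true [4] [0], .ord true [4, 11, 2] [8, 11, 4, 11, 2], .ord false [4, 11, 2, 5, 0] [2, 5, 0], .ord true [2] [8, 11, 2], .ord true [11, 4, 11, 4, 11, 4, 11, 2, 5, 0] [], .ord true [2, 5, 0] [8, 11, 2, 5, 0], .ord false [11, 2] [5, 2], .ord true [11, 2, 5, 0] [9, 2, 9, 0, 3, 4, 11, 2, 5, 0], .ord true [10, 9, 0, 3, 4, 11, 2, 5, 0] [0, 3, 4, 11, 2, 5, 0], .ord false [4, 11, 2, 5, 0] [2, 1, 4, 11, 2, 5, 0]], [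
    .lem 30 [1, 4, 11, 2], .lem 6 [4, 11, 2], .close [1, 4, 11, 2] [11, 10], .lem 9 [4, 11, 2],
    .use (.F true 1 [4, 11, 2]), .close [3, 4, 11, 2] [13, 12], .close [3, 4, 11, 2] [13, 11],
    .lem 3 [4], .lem 10 [3, 4], .use (.F true 1 [2]), .close [] [16, 1, 12, 13, 3, 4, 9, 8, 7, 5],
    .close [] [16, 6, 3, 6, 12, 13, 3], .lem 38 [], .close [4] [17, 0],
    .use (.W true 1 2 1 [9, 0, 3, 4, 11, 2]), .clash 17 18, .lem 10 [1, 4, 11, 4, 11, 2],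
    .use (.F true 1 [4, 11, 4, 11, 2]), .close [3, 4, 11, 4, 11, 2] [20, 19],
    .close [3, 4, 11, 4, 11, 2] [20, 1, 12, 13, 3, 6, 6],
    .use (.F false 2 [4, 11, 4, 11, 4, 11, 2, 5, 0]),
    .close [1, 4, 11, 4, 11, 4, 11, 2, 5, 0] [21, 9, 8, 7, 5, 6, 18, 13, 3, 6, 18, 13, 3, 4],
    .close [3, 4, 11, 4, 11, 4, 11, 2, 5, 0] [21, 9, 8, 7, 5, 6, 18, 13, 3, 3, 6, 12, 13, 3, 4],
    .lem 36 [], .close [4] [22, 0], .use (.N true 1 [9, 0, 3, 4, 11, 4, 11, 2]),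
    .close [0, 3, 4, 11, 4, 11, 2] [23, 20, 1, 12, 6], .clash 23 22,
    .use (.W true 1 2 1 [9, 0, 3, 4, 11, 4, 11, 2]), .clash 23 24, .lem 44 [], .close [4] [25, 0],
    .close [4, 11, 2, 5, 0] [25, 9], .lem 31 [], .close [4] [26, 0],
    .use (.W true 1 2 1 [11, 4, 11, 4, 11, 2, 5, 0]), .use (.N true 1 [11, 4, 11, 4, 11, 2, 5, 0]),
    .close [8, 11, 4, 11, 4, 11, 2, 5, 0] [28, 9, 8, 7, 5, 6, 18, 13, 1, 12, 13, 3, 4],
    .use (.W true 1 0 0 [11, 4, 11, 4, 11, 2, 5, 0]), .clash 28 29,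
    .use (.W true 1 0 1 [11, 4, 11, 4, 11, 2, 5, 0]), .clash 28 30,
    .close [8, 11, 4, 11, 4, 11, 2, 5, 0] [30, 29, 9, 8, 7, 5, 6, 18, 13, 3, 26, 16, 19, 24, 20, 1, 18, 13, 3, 4, 21],
    .clash 28 27,
    .close [8, 11, 4, 11, 4, 11, 2, 5, 0] [27, 9, 8, 7, 5, 26, 16, 19, 24, 20, 1, 18, 13, 3, 4, 21],
    .close [4, 9, 2, 9, 0] [26, 6, 13, 25], .close [0] [26, 6, 13, 3, 1, 12, 13, 3, 4, 9, 8, 7, 5],
    .close [2] [25, 3], .close [2, 5, 0] [25, 5],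
    .close [11, 4, 11, 4, 11, 4, 11, 2, 5, 0] [25, 4], .close [11, 2] [25, 6],
    .close [11, 2, 5, 0] [25, 7], .close [4, 11, 2] [25, 1],
    .close [0, 3, 4, 11, 4, 11, 2] [25, 19], .close [3, 4, 11, 4, 11, 2] [25, 1, 12, 13, 3, 6, 6],
    .close [11, 4, 11, 2] [25, 20], .close [10, 9, 0, 3, 4, 11, 4, 11, 2] [25, 24],
    .close [4, 11, 2, 5, 0] [25, 2], .close [] [25, 14], .close [11, 4, 11, 2] [22, 20],
    .close [11, 2] [22, 6], .close [4, 11, 2] [22, 1],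
    .close [4, 1, 4, 11, 4, 11, 2] [19, 1, 12, 13, 3, 15, 6, 18, 13, 3, 4, 8, 7, 5, 6, 18, 13, 3, 4, 9, 8, 7, 5],
    .close [4, 3, 4] [15, 6, 3, 6, 12, 13, 3], .close [3, 4] [14, 6, 3, 6, 12, 13, 3],
    .close [3, 4, 11, 2] [12, 11]])

/-- A lemma and its proof. -/
def c124_47 : List Lit × List (Cmd Rule) :=
  ([.ord true [4] [0], .ord false [11, 2] [5, 2], .ord true [2, 5, 0] [8, 11, 2, 5, 0], .ord true [2] [8, 11, 2]], [
    .lem 30 [1, 4, 11, 2], .lem 6 [4, 11, 2], .close [1, 4, 11, 2] [5, 4], .lem 9 [4, 11, 2],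
    .use (.F true 1 [4, 11, 2]), .close [3, 4, 11, 2] [7, 6], .close [3, 4, 11, 2] [7, 5],
    .lem 3 [4], .lem 38 [], .close [4] [9, 0], .use (.W true 1 2 1 [9, 0, 3, 4, 11, 2]),
    .clash 9 10, .lem 34 [], .close [4] [11, 0], .close [] [11, 1, 3, 1, 6, 7, 3], .lem 40 [],
    .close [4] [12, 0], .lem 45 [], .close [4] [13, 0], .lem 33 [], .close [4] [14, 0],
    .use (.F true 1 [4, 11, 2, 5, 0]), .close [3, 4, 11, 2, 5, 0] [15, 12],
    .close [3, 4, 11, 2, 5, 0] [15, 14], .use (.F false 2 [0]), .close [] [16, 0],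
    .close [3, 0] [16, 11, 2, 11, 12, 15, 2], .lem 32 [], .close [4] [17, 0],
    .use (.N true 1 [9, 0, 3, 4, 11, 2, 5, 0]), .close [0, 3, 4, 11, 2, 5, 0] [18, 15, 2, 11, 12],
    .clash 18 17, .use (.W true 1 2 0 [9, 0, 3, 4, 11, 2, 5, 0]), .clash 18 19,
    .use (.W true 1 2 1 [9, 0, 3, 4, 11, 2, 5, 0]), .clash 18 20, .use (.F true 1 [2]),
    .close [] [21, 6, 10, 7, 3, 16, 13, 20, 15, 2], .close [] [21, 1, 3, 1, 6, 7, 3], .lem 46 [],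
    .close [4] [22, 0], .use (.W true 1 2 1 [11, 4, 11, 2]), .use (.N true 1 [11, 4, 11, 2]),
    .close [8, 11, 4, 11, 2] [24, 6, 10, 7, 1], .use (.W true 1 0 0 [11, 4, 11, 2]), .clash 24 25,
    .use (.W true 1 0 1 [11, 4, 11, 2]), .clash 24 26, .lem 31 [], .close [4] [27, 0],
    .close [2, 9, 0] [27, 21, 6, 10, 7, 3, 16, 15, 2, 1, 10, 7, 3, 16, 20, 19, 15, 2, 26, 25, 26, 25, 6, 10, 7, 3],
    .close [4, 9, 2, 9, 0] [27, 21, 6, 10, 7, 3, 16, 2, 1, 10, 7, 3, 16, 20, 19, 15, 2, 26, 25, 6, 10, 7, 3],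
    .close [0] [27, 1, 7, 3, 6, 10, 7, 3, 16, 13, 20, 15, 2], .clash 24 23,
    .close [8, 11, 4, 11, 2] [23, 22], .close [4, 11, 2, 5, 0] [22, 11], .close [2] [22, 3],
    .close [11, 4, 11, 4, 11, 4, 11, 2, 5, 0] [22, 16], .close [2, 5, 0] [22, 2],
    .close [11, 2] [22, 1], .close [11, 2, 5, 0] [22, 15],
    .close [10, 9, 0, 3, 4, 11, 2, 5, 0] [22, 20], .close [4, 11, 2, 5, 0] [22, 13],
    .close [11, 2, 5, 0] [17, 15], .close [2, 5, 0] [17, 2], .close [4, 11, 2, 5, 0] [17, 11],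
    .close [4, 11, 2, 5, 0] [14, 13], .close [4, 11, 2, 5, 0] [14, 11], .close [2, 5, 0] [14, 2],
    .close [2, 5, 0] [13, 2], .close [4, 11, 2, 5, 0] [13, 11], .close [4, 11, 2, 5, 0] [13, 12],
    .close [2] [12, 3], .close [4, 11, 2, 5, 0] [12, 11], .close [] [11, 8],
    .close [3, 4] [8, 1, 3, 1, 6, 7, 3], .close [3, 4, 11, 2] [6, 5]])

/-- A lemma and its proof. -/
def c124_48 : List Lit × List (Cmd Rule) :=
  ([.ord true [4] [0], .ord true [5, 2] [11, 2]], [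
    .lem 30 [1, 4, 11, 2], .lem 6 [4, 11, 2], .close [1, 4, 11, 2] [3, 2], .lem 9 [4, 11, 2],
    .use (.F false 2 [0]), .close [] [5, 0], .use (.F true 1 [4, 11, 2]),
    .close [3, 4, 11, 2] [6, 4], .close [3, 4, 11, 2] [6, 3], .lem 38 [], .close [4] [7, 0],
    .use (.W true 1 2 0 [9, 0, 3, 4, 11, 2]), .clash 7 8, .use (.W true 1 2 1 [9, 0, 3, 4, 11, 2]),
    .clash 7 9, .close [6, 9, 0, 3, 4, 11, 2] [6, 4, 9, 8, 4, 1, 5, 0, 5, 5, 0, 4, 9, 8, 8],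
    .close [] [5, 0, 1, 1, 1, 3, 1], .close [3, 4, 11, 2] [4, 3]])

/-- A lemma and its proof. -/
def c124_49 : List Lit × List (Cmd Rule) :=
  ([.ord true [4] [0]], [
    .lem 30 [1, 4, 11, 2], .lem 6 [4, 11, 2], .close [1, 4, 11, 2] [2, 1], .lem 9 [4, 11, 2],
    .use (.F true 1 [4, 11, 2]), .close [3, 4, 11, 2] [4, 3], .close [3, 4, 11, 2] [4, 2],
    .lem 38 [], .close [4] [5, 0], .use (.W true 1 2 0 [9, 0, 3, 4, 11, 2]), .clash 5 6,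
    .use (.W true 1 2 1 [9, 0, 3, 4, 11, 2]), .clash 5 7, .lem 48 [], .close [4] [8, 0],
    .lem 39 [], .close [4] [9, 0], .lem 34 [], .close [4] [10, 0],
    .close [] [10, 3, 7, 6, 6, 4, 9], .lem 40 [], .close [4] [11, 0], .lem 47 [],
    .close [4] [12, 0], .close [11, 2] [12, 8], .use (.W false 2 1 1 [11, 2, 5, 0]),
    .use (.W true 1 2 1 [11, 2, 5, 0]), .use (.N false 2 [11, 2, 5, 0]),
    .close [4, 11, 2, 5, 0] [15, 10], .use (.W false 2 0 0 [11, 2, 5, 0]), .clash 15 16,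
    .use (.W false 2 0 1 [11, 2, 5, 0]), .clash 15 17, .use (.W true 1 0 0 [11, 2, 5, 0]),
    .use (.F true 1 [4, 11, 2, 5, 0]), .close [3, 4, 11, 2, 5, 0] [19, 11],
    .close [3, 4, 11, 2, 5, 0] [19, 16, 17, 10, 11], .use (.N true 1 [11, 2, 5, 0]),
    .close [6, 9, 0, 3, 4, 11, 2, 5, 0] [19, 20, 20, 16, 17, 10, 11, 11], .clash 20 18,
    .clash 20 14, .close [6, 11, 2, 5, 0] [18, 16], .clash 15 13, .close [8, 11, 2, 5, 0] [14, 12],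
    .close [8, 11, 2, 5, 0] [13, 12], .close [2] [12, 9], .close [2] [11, 9],
    .close [4, 11, 2, 5, 0] [11, 10], .close [] [10, 8, 7, 6, 4, 9], .close [11, 2] [9, 8],
    .close [3, 4, 11, 2] [3, 2]])

/-- A lemma and its proof. -/
def c124_50 : List Lit × List (Cmd Rule) :=
  ([], [
    .lem 30 [], .lem 49 [], .close [4] [1, 0]])

/-- The lemmas. -/
def c124 : List (List Lit × List (Cmd Rule)) := [
  c124_0, c124_1, c124_2, c124_3, c124_4, c124_5, c124_6, c124_7, c124_8, c124_9, c124_10, c124_11,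
  c124_12, c124_13, c124_14, c124_15, c124_16, c124_17, c124_18, c124_19, c124_20, c124_21,
  c124_22, c124_23, c124_24, c124_25, c124_26, c124_27, c124_28, c124_29, c124_30, c124_31,
  c124_32, c124_33, c124_34, c124_35, c124_36, c124_37, c124_38, c124_39, c124_40, c124_41,
  c124_42, c124_43, c124_44, c124_45, c124_46, c124_47, c124_48, c124_49, c124_50]

theorem c124_check : checkAll (cl 3 (fun k => [1, 2, 4].getD k 0)) [] c124 = true := by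
  decide +kernel

theorem c124_mem : ([] : List Lit) ∈ c124.map Prod.fst :=
  List.mem_of_getElem? (i := 50) rfl

end Pool.Agent.Helper31.RING
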