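import Mathlib
import Pool.Agent.Helper31.RING.Ring

/-!
A certificate.
-/

set_option autoImplicit false

namespace Pool.Agent.Helper31.RING

/-- A lemma and its proof. -/
def c142_0 : List Lit × List (Cmd Rule) :=
  ([.ord true [3] [1], .ord true [5] [3], .walk false false 0 2 [7, 4, 1], .ord false [4, 1] [6, 1]], [
    .use (.W false 0 2 0 [7, 4, 1]), .clash 2 4, .use (.W false 0 2 1 [7, 4, 1]), .clash 2 5,
    .close [10, 7, 4, 1] [5, 3, 4]])

/-- A lemma and its proof. -/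
def c142_1 : List Lit × List (Cmd Rule) :=
  ([.ord true [3] [1], .ord true [5] [3]], [
    .use (.F false 0 []), .close [3] [2, 0], .close [5] [2, 0, 1], .use (.M true 0 [1]),
    .close [] [3, 0, 2, 0, 1], .lem 0 [], .close [3] [4, 0], .close [5] [4, 1],
    .use (.N false 0 [7, 4, 1]), .close [0, 7, 4, 1] [5, 0, 1, 3, 0, 2, 0, 1, 2],
    .use (.W false 0 1 0 [7, 4, 1]), .clash 5 6, .use (.W false 0 1 1 [7, 4, 1]), .clash 5 7,
    .close [8, 7, 4, 1] [7, 3, 0, 2, 0, 1, 1, 2, 6], .clash 5 4,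
    .close [4, 1] [4, 3, 0, 2, 0, 1, 2], .close [4, 1] [3, 0, 2]])

/-- A lemma and its proof. -/
def c142_2 : List Lit × List (Cmd Rule) :=
  ([.ord true [5] [1], .ord true [3] [5], .walk false false 0 1 [3], .ord true [4, 1] [6, 3]], [
    .use (.W false 0 1 0 [3]), .clash 2 4, .use (.W false 0 1 1 [3]), .clash 2 5,
    .close [8, 3] [5, 3, 0, 4]])

/-- A lemma and its proof. -/
def c142_3 : List Lit × List (Cmd Rule) :=
  ([.ord true [5] [1], .ord true [3] [5]], [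
    .lem 1 [], .close [3] [2, 0, 1], .use (.F false 0 []), .close [3] [3, 0, 1], .close [5] [3, 0],
    .lem 2 [], .close [5] [4, 0], .close [3] [4, 1], .use (.N false 0 [3]),
    .close [0, 3] [5, 3, 0, 0, 2], .clash 5 4, .use (.W false 0 2 0 [3]), .clash 5 6,
    .use (.W false 0 2 1 [3]), .clash 5 7, .close [10, 3] [7, 3, 0, 2, 6], .close [4, 1] [4, 3]])

/-- A lemma and its proof. -/
def c142_4 : List Lit × List (Cmd Rule) :=
  ([.ord true [1] [5], .ord true [5] [3], .walk false true 0 1 [3], .ord true [3] [7, 4, 1]], [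
    .use (.W true 0 1 0 [3]), .clash 2 4, .use (.W true 0 1 1 [3]), .clash 2 5,
    .close [6, 3] [5, 4, 0, 3]])

/-- A lemma and its proof. -/
def c142_5 : List Lit × List (Cmd Rule) :=
  ([.ord true [1] [5], .ord true [5] [3], .ord true [3] [1]], [
    .lem 3 [], .close [5] [3, 2, 1], .close [3] [3, 0, 2]])

/-- A lemma and its proof. -/
def c142_6 : List Lit × List (Cmd Rule) :=
  ([.ord true [1] [5], .ord true [5] [3]], [
    .use (.F true 0 []), .close [1] [2, 1, 0], .close [1] [2, 0], .lem 5 [], .close [1] [3, 0],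
    .close [5] [3, 1], .lem 4 [], .close [1] [4, 0], .close [5] [4, 1], .use (.N true 0 [3]),
    .close [6, 3] [5, 3, 0, 2], .clash 5 4, .use (.W true 0 2 0 [3]), .clash 5 6,
    .use (.W true 0 2 1 [3]), .clash 5 7, .close [6, 3] [7, 6, 3, 2], .close [3] [4, 2]])

/-- A lemma and its proof. -/
def c142_7 : List Lit × List (Cmd Rule) :=
  ([.ord true [1] [3], .ord true [3] [5], .walk false true 0 2 [3], .ord true [3] [7, 4, 1]], [
    .use (.W true 0 2 0 [3]), .clash 2 4, .use (.W true 0 2 1 [3]), .clash 2 5,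
    .close [6, 3] [5, 4, 0, 3]])

/-- A lemma and its proof. -/
def c142_8 : List Lit × List (Cmd Rule) :=
  ([.ord true [1] [3], .ord true [3] [5], .ord false [1] [5]], [
    .use (.F true 0 []), .close [1] [3, 0], .close [1] [3, 1, 0], .lem 7 [], .close [1] [4, 0],
    .close [3] [4, 1], .use (.N true 0 [3]), .close [6, 3] [5, 0, 2, 3], .use (.W true 0 1 0 [3]),
    .clash 5 6, .use (.W true 0 1 1 [3]), .clash 5 7, .close [6, 3] [7, 6, 2, 3], .clash 5 4,
    .close [3] [4, 3]])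

/-- A lemma and its proof. -/
def c142_9 : List Lit × List (Cmd Rule) :=
  ([.ord true [1] [3], .ord true [3] [5]], [
    .lem 8 [], .close [1] [2, 0], .close [3] [2, 1], .lem 1 [], .close [3] [3, 2, 1],
    .close [5] [3, 0, 2]])

/-- A lemma and its proof. -/
def c142_10 : List Lit × List (Cmd Rule) :=
  ([.ord true [2] [0], .ord true [4] [2]], [
    .lem 9 [2], .close [1, 2] [2, 0], .close [] [2, 1]])

/-- A lemma and its proof. -/
def c142_11 : List Lit × List (Cmd Rule) :=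
  ([.ord true [4] [0], .ord true [2] [4]], [
    .lem 6 [0], .close [] [2, 0], .lem 9 [0], .close [] [3, 0, 1], .close [3, 0] [3, 2]])

/-- A lemma and its proof. -/
def c142_12 : List Lit × List (Cmd Rule) :=
  ([.ord true [0] [4], .ord true [4] [2]], [
    .lem 1 [0], .close [3, 0] [2, 1, 0], .lem 3 [0], .close [5, 0] [3, 0], .close [3, 0] [3, 2]])

/-- A lemma and its proof. -/
def c142_13 : List Lit × List (Cmd Rule) :=
  ([.ord true [0] [2], .ord true [2] [4]], [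
    .lem 1 [2], .close [] [2, 0], .close [5, 2] [2, 1]])

/-- A lemma and its proof. -/
def c142_14 : List Lit × List (Cmd Rule) :=
  ([.ord true [0] [4], .ord false [10] [4], .walk true true 2 0 [], .ord false [10] [2, 5, 10]], [
    .use (.N true 2 []), .close [10] [4, 1], .clash 4 2, .use (.W true 2 1 0 []), .clash 4 5,
    .use (.W true 2 1 1 []), .clash 4 6, .close [10] [6, 5, 1, 3]])

/-- A lemma and its proof. -/
def c142_15 : List Lit × List (Cmd Rule) :=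
  ([.ord true [0] [4], .ord false [10] [4], .ord false [10] [2, 5, 10]], [
    .lem 14 [], .close [0] [3, 0], .close [10] [3, 1], .use (.W true 2 0 0 []), .clash 3 4,
    .use (.W true 2 0 1 []), .clash 3 5, .use (.F false 0 [10]), .close [3, 10] [6, 5, 4, 1, 2],
    .close [5, 10] [6, 5, 4, 1], .close [3, 10] [6, 5, 4, 1, 5, 1, 2], .close [10] [3, 2]])

/-- A lemma and its proof. -/
def c142_16 : List Lit × List (Cmd Rule) :=
  ([.ord true [0] [4], .ord true [4] [10]], [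
    .lem 12 [], .close [0] [2, 0], .use (.F true 2 [0]), .close [5, 0] [3, 0],
    .use (.F true 2 [2]), .close [5, 2] [4, 0, 3, 2], .close [5, 2] [4, 2],
    .close [11, 4, 11, 2, 5, 2] [4, 0, 3, 1, 1, 2, 2], .close [11, 4, 11, 2, 5, 0] [3, 1, 1, 2, 0]])

/-- A lemma and its proof. -/
def c142_17 : List Lit × List (Cmd Rule) :=
  ([.ord true [0] [4], .ord false [10] [4, 1, 10], .ord false [10] [4], .ord true [4, 11, 2] [2], .ord true [8] [10], .ord false [2] [8], .ord true [1, 10] [11, 4, 11, 2, 5, 10]], [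
    .close [11, 2, 11, 2, 5, 10] [6, 1, 4, 5, 3, 3, 2]])

/-- A lemma and its proof. -/
def c142_18 : List Lit × List (Cmd Rule) :=
  ([.ord true [0] [4], .ord true [4, 11, 2, 1, 10] [2, 1, 10], .ord true [8, 1, 10] [10, 1, 10], .ord false [1, 10] [3, 10]], [
    .lem 16 [], .close [0] [4, 0], .lem 15 [], .close [0] [5, 0], .close [10] [5, 4],
    .lem 11 [5, 10], .use (.F true 2 [10]), .close [5, 10] [7, 6], .close [5, 10] [7, 5],
    .close [11, 4, 11, 2, 5, 10] [7, 6, 3, 1, 1, 6], .close [2, 5, 10] [6, 5]])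

/-- A lemma and its proof. -/
def c142_19 : List Lit × List (Cmd Rule) :=
  ([.ord true [0] [4], .ord false [2, 11, 2, 11, 2] [8, 11, 2, 11, 2, 11, 2], .ord false [2, 11, 2, 11, 2] [4, 11, 2, 11, 2, 11, 2], .ord true [8] [10], .ord false [2] [8]], [
    .use (.W false 1 2 1 [11, 2, 11, 2, 11, 2]), .use (.W true 2 1 1 [11, 2, 11, 2, 11, 2]),
    .use (.N false 1 [11, 2, 11, 2, 11, 2]), .close [2, 11, 2, 11, 2, 11, 2] [7, 1, 3, 4],
    .use (.W false 1 0 0 [11, 2, 11, 2, 11, 2]), .clash 7 8,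
    .use (.W true 2 0 0 [11, 2, 11, 2, 11, 2]), .use (.N true 2 [11, 2, 11, 2, 11, 2]),
    .close [2, 11, 2, 11, 2] [10, 2], .clash 10 9, .clash 10 6,
    .close [6, 11, 2, 11, 2, 11, 2] [9, 8], .clash 7 5, .close [2, 11, 2, 11, 2] [6, 1],
    .close [2, 11, 2, 11, 2] [5, 1]])

/-- A lemma and its proof. -/
def c142_20 : List Lit × List (Cmd Rule) :=
  ([.ord true [0] [4], .ord false [10, 1, 10] [4, 1, 10], .ord false [10, 1, 10] [8, 1, 10], .ord false [1, 10] [3, 10]], [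
    .use (.W false 1 2 1 [1, 10]), .use (.W true 2 1 1 [1, 10]), .use (.N true 2 [1, 10]),
    .close [10, 1, 10] [6, 1], .use (.W true 2 0 0 [1, 10]), .clash 6 7,
    .use (.W false 1 0 0 [1, 10]), .use (.W true 2 0 1 [1, 10]), .clash 6 9,
    .use (.N false 1 [1, 10]), .close [2, 1, 10] [10, 2, 9, 7, 3], .clash 10 8, .clash 10 4,
    .close [10] [8, 7], .clash 6 5, .close [10, 1, 10] [5, 2], .close [10, 1, 10] [4, 2]])

/-- A lemma and its proof. -/
def c142_21 : List Lit × List (Cmd Rule) :=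
  ([.ord true [0] [4], .ord true [11, 2, 5, 10, 1, 10] [1, 10], .ord false [11, 4, 11, 2, 5, 10, 1, 10] [1, 10, 1, 10]], [
    .lem 6 [10, 1, 10], .use (.F true 2 [10, 1, 10]), .close [5, 10, 1, 10] [4, 3],
    .close [5, 10, 1, 10] [4, 1], .close [11, 4, 11, 2, 5, 10, 1, 10] [4, 2],
    .close [5, 10, 1, 10] [3, 1]])

/-- A lemma and its proof. -/
def c142_22 : List Lit × List (Cmd Rule) :=
  ([.ord true [0] [4], .ord false [1, 10] [11, 2, 5, 10, 1, 10], .ord false [1, 10] [3, 10], .ord true [10, 1, 10] [4, 1, 10]], [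
    .lem 15 [], .close [0] [4, 0], .close [10] [4, 0, 2, 3, 1], .lem 11 [5, 10], .lem 20 [],
    .close [0] [6, 0], .close [10, 1, 10] [6, 5, 2, 3, 1], .use (.W true 2 1 0 [1, 10]),
    .use (.N true 2 [1, 10]), .close [10, 1, 10] [8, 5, 2, 3, 1], .use (.W true 2 0 0 [1, 10]),
    .clash 8 9, .use (.W true 2 0 1 [1, 10]), .clash 8 10, .close [10, 1, 10] [10, 9, 2, 3, 1],
    .clash 8 7, .close [8, 1, 10] [7, 3, 1, 6], .close [1, 10] [6, 2], .close [2, 5, 10] [5, 4]])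

/-- A lemma and its proof. -/
def c142_23 : List Lit × List (Cmd Rule) :=
  ([.ord true [0] [4], .walk false false 1 0 [11, 2, 11, 2, 1, 10], .walk true true 2 1 [11, 2, 11, 2, 1, 10], .ord false [1, 10] [3, 10], .ord true [1, 10, 1, 10] [11, 4, 11, 2, 5, 10, 1, 10], .ord true [8] [10], .ord false [2] [8], .ord true [10, 1, 10] [4, 1, 10], .ord true [2, 11, 2, 1, 10] [8, 11, 2, 11, 2, 1, 10]], [
    .use (.W false 1 0 0 [11, 2, 11, 2, 1, 10]), .clash 1 9,
    .use (.W true 2 0 0 [11, 2, 11, 2, 1, 10]), .use (.N true 2 [11, 2, 11, 2, 1, 10]), .lem 16 [],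
    .close [0] [12, 0], .lem 11 [5, 10], .use (.F true 2 [10]), .close [5, 10] [14, 13],
    .close [5, 10] [14, 5, 6, 12], .lem 6 [10, 1, 10],
    .close [1, 10, 1, 10] [15, 13, 5, 6, 3, 11, 11, 11, 13, 14, 4],
    .close [5, 10, 1, 10] [15, 13, 5, 6, 3, 11, 13, 14], .close [2, 5, 10] [13, 5, 6, 12],
    .clash 11 10, .clash 11 2, .close [6, 11, 2, 11, 2, 1, 10] [10, 9]])

/-- A lemma and its proof. -/
def c142_24 : List Lit × List (Cmd Rule) :=
  ([.ord true [0] [4], .ord false [2, 11, 2, 1, 10] [8, 11, 2, 11, 2, 1, 10], .ord false [2] [8], .ord true [8] [10], .ord false [1, 10] [3, 10], .ord false [5, 10, 1, 10] [1, 10, 1, 10], .ord true [1, 10, 1, 10] [11, 4, 11, 2, 5, 10, 1, 10], .ord true [10, 1, 10] [4, 1, 10]], [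
    .use (.W false 1 2 1 [11, 2, 11, 2, 1, 10]), .use (.W true 2 1 1 [11, 2, 11, 2, 1, 10]),
    .lem 16 [], .close [0] [10, 0], .lem 11 [5, 10], .use (.F true 2 [10]),
    .close [5, 10] [12, 11], .close [5, 10] [12, 3, 2, 10], .use (.F false 1 [2, 1, 10]),
    .close [1, 2, 1, 10] [13, 4], .close [5, 2, 1, 10] [13, 11, 4], .lem 17 [], .close [0] [14, 0],
    .close [10] [14, 11], .close [10] [14, 10], .lem 23 [], .close [0] [15, 0],
    .use (.N false 1 [11, 2, 11, 2, 1, 10]), .use (.W true 2 1 1 [11, 2]),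
    .use (.N true 2 [11, 2]), .close [2] [18, 14], .use (.W true 2 0 0 [11, 2]), .clash 18 19,
    .use (.W true 2 0 1 [11, 2]), .clash 18 20, .close [2] [20, 19, 4, 16, 1, 16, 1, 3, 2],
    .clash 18 17, .close [2] [17, 4, 16, 16, 16, 1, 16, 1, 11, 3, 2, 4, 16, 1, 13, 3],
    .clash 16 15, .clash 16 8, .clash 15 9, .close [1, 10] [15, 4], .close [1, 10, 1, 10] [15, 6],
    .close [8] [15, 3], .close [2] [15, 2], .close [10, 1, 10] [15, 7],
    .close [2, 11, 2, 1, 10] [15, 1], .close [8] [14, 3], .close [2] [14, 2],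
    .close [1, 10] [14, 12], .close [2, 5, 10] [11, 3, 2, 10], .close [2, 11, 2, 1, 10] [9, 1],
    .close [2, 11, 2, 1, 10] [8, 1]])

/-- A lemma and its proof. -/
def c142_25 : List Lit × List (Cmd Rule) :=
  ([.ord true [0] [4], .ord true [4, 1, 10] [10, 1, 10], .ord false [10] [4, 1, 10], .ord false [10] [4], .ord false [2] [4], .ord true [1, 10] [11, 4, 11, 2, 5, 10]], [
    .close [11, 2, 11, 2, 5, 10] [5, 1, 1, 1, 2, 4, 3]])

/-- A lemma and its proof. -/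
def c142_26 : List Lit × List (Cmd Rule) :=
  ([.ord true [0] [4], .ord false [10, 1, 10] [6, 1, 10], .ord false [2, 1, 10] [8, 11, 2, 1, 10], .ord true [8, 1, 10] [10, 1, 10]], [
    .lem 12 [], .close [0] [4, 0], .use (.W true 2 0 1 [1, 10]),
    .use (.W false 1 2 1 [11, 2, 1, 10]), .use (.W true 2 1 1 [11, 2, 1, 10]), .lem 16 [],
    .close [0] [8, 0], .lem 15 [], .close [0] [9, 0], .close [10] [9, 8], .lem 11 [5, 10],
    .use (.F true 2 [10]), .close [5, 10] [11, 10], .close [5, 10] [11, 9], .lem 25 [],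
    .close [0] [12, 0], .use (.N true 2 [1, 10]), .close [10, 1, 10] [13, 12], .clash 13 5,
    .use (.W true 2 1 0 [1, 10]), .clash 13 14, .use (.N false 1 [11, 2, 1, 10]),
    .close [2, 11, 2, 1, 10] [15, 2, 3, 14], .use (.W false 1 0 0 [11, 2, 1, 10]), .clash 15 16,
    .use (.W true 2 0 0 [11, 2, 1, 10]), .use (.N true 2 [11, 2, 1, 10]),
    .close [2, 1, 10] [18, 10, 11, 3, 14], .clash 18 17, .clash 18 7,
    .close [6, 11, 2, 1, 10] [17, 16], .clash 15 6, .close [10] [12, 10], .close [10] [12, 8],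
    .close [2] [12, 4], .close [1, 10] [12, 11], .close [2, 5, 10] [10, 9],
    .close [2, 1, 10] [7, 2], .close [2, 1, 10] [6, 2], .close [10, 1, 10] [5, 1]])

/-- A lemma and its proof. -/
def c142_27 : List Lit × List (Cmd Rule) :=
  ([.ord true [0] [4], .ord true [8, 11, 2, 11, 2, 11, 2, 1, 10] [2, 11, 2, 11, 2, 1, 10], .ord true [8, 11, 2, 11, 2, 1, 10] [2, 11, 2, 1, 10], .ord true [8, 11, 2, 11, 2] [2, 11, 2], .ord true [8, 11, 2, 1, 10] [2, 1, 10], .ord true [8, 1, 10] [10, 1, 10], .ord false [2, 11, 2, 11, 2] [8, 11, 2, 11, 2], .ord true [3, 10] [1, 10], .ord true [1, 10, 1, 10] [11, 4, 11, 2, 5, 10, 1, 10]], [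
    .lem 16 [], .close [0] [9, 0], .use (.F true 2 [10]), .close [5, 10] [10, 7, 3, 6, 9],
    .close [5, 10] [10, 3, 6, 9], .lem 1 [10, 1, 10], .use (.F false 1 [2, 1, 10, 1, 10]),
    .close [1, 2, 1, 10, 1, 10] [12, 11],
    .close [5, 2, 1, 10, 1, 10] [12, 7, 3, 6, 7, 3, 6, 3, 6, 9, 10, 11],
    .close [5, 2, 1, 10, 1, 10] [12, 5, 4, 2, 1, 7, 9, 10, 8, 7, 3, 6, 11],
    .close [5, 10, 1, 10] [11, 7, 3, 6, 3, 6, 3, 6, 9, 10]])

/-- A lemma and its proof. -/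
def c142_28 : List Lit × List (Cmd Rule) :=
  ([.ord true [0] [4], .ord true [4, 11, 2, 11, 2, 11, 2] [2, 11, 2, 11, 2], .ord false [1, 10, 1, 10] [3, 10, 1, 10], .ord true [8, 11, 2, 11, 2, 1, 10] [2, 11, 2, 1, 10], .ord true [8, 1, 10] [10, 1, 10], .ord true [1, 4, 11, 2, 11, 2, 1, 10] [11, 4, 11, 2, 11, 2, 11, 2, 1, 10], .ord true [9, 2, 9, 2, 9, 2, 9, 10, 1, 10] [5, 2, 1, 10, 1, 10], .ord true [8] [10], .ord true [8, 11, 2, 11, 2, 11, 2, 1, 10] [2, 11, 2, 11, 2, 1, 10], .ord false [2] [8], .ord true [1, 10, 1, 10] [11, 4, 11, 2, 5, 10, 1, 10], .ord true [8, 11, 2, 1, 10] [2, 1, 10], .ord false [0, 11, 2, 11, 2, 1, 10] [4, 11, 2, 11, 2, 1, 10], .ord false [2, 11, 2, 11, 2] [8, 11, 2, 11, 2], .ord true [9, 2, 9, 2, 9, 2, 9, 10] [5, 2, 1, 10], .ord false [1, 10] [3, 10]], [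
    .lem 16 [], .close [0] [16, 0], .lem 11 [5, 10], .use (.F true 2 [10]),
    .close [5, 10] [18, 17], .close [5, 10] [18, 7, 9, 16],
    .close [4, 11, 2, 11, 2, 11, 2] [18, 10, 6, 4, 11, 3, 8, 5, 12, 17, 18, 17, 7, 9, 7, 9, 7, 9, 1, 1, 1, 16, 18, 5, 12, 17, 18, 10, 6, 4, 11, 3, 8, 5, 12, 17, 18, 17, 7, 9, 7, 9, 7, 9, 1, 1, 1, 1],
    .close [2, 5, 10] [17, 7, 9, 16]])

/-- A lemma and its proof. -/
def c142_29 : List Lit × List (Cmd Rule) :=
  ([.ord true [0] [4], .ord true [8, 11, 2] [2], .ord true [8, 11, 2, 11, 2, 11, 2, 1, 10] [2, 11, 2, 11, 2, 1, 10], .ord false [0, 11, 2, 11, 2, 1, 10] [4, 11, 2, 11, 2, 1, 10], .ord true [8, 11, 2, 11, 2, 1, 10] [2, 11, 2, 1, 10], .ord true [8, 1, 10] [10, 1, 10], .ord true [1, 4, 11, 2, 11, 2, 1, 10] [11, 4, 11, 2, 11, 2, 11, 2, 1, 10], .ord true [8, 11, 2, 11, 2] [2, 11, 2], .ord true [9, 2, 9, 2, 9, 2, 9, 10] [5, 2, 1, 10], .ord true [8] [10], .ord true [9, 2, 9, 2, 9,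 2, 9, 10, 1, 10] [5, 2, 1, 10, 1, 10], .ord true [1, 10, 1, 10] [11, 4, 11, 2, 5, 10, 1, 10], .ord true [8, 11, 2, 11, 2, 11, 2] [2, 11, 2, 11, 2], .ord true [8, 11, 2, 1, 10] [2, 1, 10], .ord false [1, 10, 1, 10] [3, 10, 1, 10], .ord false [2] [8]], [
    .lem 16 [], .close [0] [16, 0], .lem 11 [5, 10], .use (.F true 2 [10]),
    .close [5, 10] [18, 17], .close [5, 10] [18, 9, 15, 16], .use (.F true 2 [0]),
    .close [5, 0] [19, 0],
    .close [5, 0] [19, 18, 11, 10, 5, 13, 4, 2, 6, 3, 8, 9, 1, 7, 12, 16, 18, 9, 15, 0],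
    .close [11, 4, 11, 2, 5, 0] [19, 18, 11, 10, 5, 13, 4, 2, 6, 3, 8, 9, 1, 7, 12, 0],
    .close [2, 5, 10] [17, 9, 15, 16]])

/-- A lemma and its proof. -/
def c142_30 : List Lit × List (Cmd Rule) :=
  ([.ord true [0] [4], .ord true [8, 11, 2, 11, 2, 11, 2, 1, 10] [2, 11, 2, 11, 2, 1, 10], .ord false [2, 11, 2, 11, 2] [8, 11, 2, 11, 2], .ord true [8, 1, 10] [10, 1, 10], .ord true [1, 4, 11, 2, 11, 2, 1, 10] [11, 4, 11, 2, 11, 2, 11, 2, 1, 10], .ord true [8] [10], .ord false [2] [8], .ord true [1, 10, 1, 10] [11, 4, 11, 2, 5, 10, 1, 10], .ord true [8, 11, 2, 1, 10] [2, 1, 10], .ord true [8, 11, 2, 11, 2, 1, 10] [2, 11, 2, 1, 10], .ord false [0, 11, 2, 11, 2, 1, 10] [4, 11, 2, 11, 2, 1, 10], .ord true [8, 11, 2, 11, 2] [2, 11, 2]], [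
    .lem 12 [], .close [0] [12, 0], .lem 16 [], .close [0] [13, 0], .lem 11 [5, 10],
    .use (.F true 2 [10]), .close [5, 10] [15, 14], .close [5, 10] [15, 5, 6, 13], .lem 25 [],
    .close [0] [16, 0], .lem 17 [], .close [0] [17, 0], .close [10] [17, 14], .close [10] [17, 13],
    .lem 27 [], .close [0] [18, 0], .close [8, 11, 2, 11, 2, 11, 2, 1, 10] [18, 1],
    .close [8, 11, 2, 11, 2, 1, 10] [18, 9], .close [8, 11, 2, 11, 2] [18, 11],
    .close [8, 11, 2, 1, 10] [18, 8], .close [8, 1, 10] [18, 3], .close [2, 11, 2, 11, 2] [18, 2],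
    .use (.F false 1 [2, 1, 10]), .close [1, 2, 1, 10] [19, 18], .close [5, 2, 1, 10] [19, 14, 18],
    .lem 22 [], .close [0] [20, 0], .lem 1 [10, 1, 10], .lem 6 [10, 1, 10],
    .use (.F false 1 [2, 1, 10, 1, 10]), .close [1, 2, 1, 10, 1, 10] [23, 21],
    .close [5, 2, 1, 10, 1, 10] [23, 22, 21], .lem 28 [], .close [0] [24, 0], .lem 19 [],
    .close [0] [25, 0], .lem 29 [], .close [0] [26, 0], .use (.W true 2 1 1 [11, 2]),
    .use (.N true 2 [11, 2]), .close [2] [28, 17], .use (.W true 2 0 0 [11, 2]), .clash 28 29,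
    .use (.W true 2 0 1 [11, 2]), .clash 28 30, .use (.F true 2 [0]), .close [5, 0] [31, 0],
    .close [5, 0] [31, 15, 21, 23, 3, 8, 9, 1, 14, 15, 7, 5, 6, 30, 29, 0],
    .close [11, 4, 11, 2, 5, 0] [31, 15, 7, 5, 6, 30, 29, 30, 29, 15, 21, 23, 3, 8, 9, 1, 14, 15, 7, 23, 3, 8, 9, 1, 19, 5, 15, 7, 5, 6, 30, 29, 30, 29, 15, 21, 23, 3, 8, 9, 1, 14, 15, 7, 23, 3, 8, 9, 1, 14, 15, 8, 9, 1, 4, 14, 15, 7, 5, 6, 30, 29, 30, 29, 30, 29, 0],
    .clash 28 27, .close [2] [27, 26], .close [8, 11, 2, 11, 2, 11, 2, 1, 10] [26, 1],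
    .close [0, 11, 2, 11, 2, 1, 10] [26, 10], .close [8, 11, 2, 11, 2, 1, 10] [26, 9],
    .close [8, 1, 10] [26, 3], .close [1, 4, 11, 2, 11, 2, 1, 10] [26, 4],
    .close [8, 11, 2, 11, 2] [26, 11], .close [9, 2, 9, 2, 9, 2, 9, 10] [26, 19],
    .close [8] [26, 5], .close [9, 2, 9, 2, 9, 2, 9, 10, 1, 10] [26, 23],
    .close [1, 10, 1, 10] [26, 7], .close [8, 11, 2, 11, 2, 11, 2] [26, 25],
    .close [8, 11, 2, 1, 10] [26, 8], .close [1, 10, 1, 10] [26, 21], .close [2] [26, 6],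
    .close [2, 11, 2, 11, 2] [25, 24], .close [8] [25, 5], .close [2] [25, 6],
    .close [1, 10, 1, 10] [24, 21], .close [8, 11, 2, 11, 2, 1, 10] [24, 9],
    .close [8, 1, 10] [24, 3], .close [1, 4, 11, 2, 11, 2, 1, 10] [24, 4],
    .close [9, 2, 9, 2, 9, 2, 9, 10, 1, 10] [24, 23], .close [8] [24, 5],
    .close [8, 11, 2, 11, 2, 11, 2, 1, 10] [24, 1], .close [2] [24, 6],
    .close [1, 10, 1, 10] [24, 7], .close [8, 11, 2, 1, 10] [24, 8],
    .close [0, 11, 2, 11, 2, 1, 10] [24, 10], .close [2, 11, 2, 11, 2] [24, 2],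
    .close [9, 2, 9, 2, 9, 2, 9, 10] [24, 19], .close [1, 10] [24, 18],
    .close [5, 10, 1, 10] [22, 20], .close [5, 10, 1, 10] [21, 20], .close [1, 10] [20, 18],
    .close [10, 1, 10] [20, 16], .close [1, 10, 1, 10] [18, 7], .close [8] [17, 5],
    .close [2] [17, 6], .close [1, 10] [17, 15], .close [10] [16, 14], .close [10] [16, 13],
    .close [2] [16, 12], .close [1, 10] [16, 15], .close [2, 5, 10] [14, 5, 6, 13]])

/-- A lemma and its proof. -/
def c142_31 : List Lit × List (Cmd Rule) :=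
  ([.ord true [0] [4], .ord false [2, 11, 2, 11, 2, 1, 10] [8, 11, 2, 11, 2, 1, 10], .ord false [2, 11, 2, 11, 2, 1, 10] [8, 11, 2, 11, 2, 11, 2, 1, 10], .ord true [8, 11, 2, 11, 2, 1, 10] [2, 11, 2, 1, 10], .ord true [1, 4, 11, 2, 11, 2, 1, 10] [11, 4, 11, 2, 11, 2, 11, 2, 1, 10], .ord false [0, 11, 2, 11, 2, 1, 10] [4, 11, 2, 11, 2, 1, 10]], [
    .use (.W false 1 2 1 [11, 2, 11, 2, 11, 2, 1, 10]),
    .use (.W true 2 1 1 [11, 2, 11, 2, 11, 2, 1, 10]),
    .use (.N false 1 [11, 2, 11, 2, 11, 2, 1, 10]),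
    .close [2, 11, 2, 11, 2, 11, 2, 1, 10] [8, 2, 3, 1],
    .use (.W false 1 0 0 [11, 2, 11, 2, 11, 2, 1, 10]), .clash 8 9,
    .use (.W true 2 0 0 [11, 2, 11, 2, 11, 2, 1, 10]),
    .use (.N true 2 [11, 2, 11, 2, 11, 2, 1, 10]),
    .close [2, 11, 2, 11, 2, 1, 10] [11, 4, 5, 3, 1], .clash 11 10, .clash 11 7,
    .close [6, 11, 2, 11, 2, 11, 2, 1, 10] [10, 9], .clash 8 6,
    .close [2, 11, 2, 11, 2, 1, 10] [7, 2], .close [2, 11, 2, 11, 2, 1, 10] [6, 2]])

/-- A lemma and its proof. -/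
def c142_32 : List Lit × List (Cmd Rule) :=
  ([.ord true [0] [4], .ord false [2, 11, 2, 11, 2] [8, 11, 2, 11, 2], .ord true [8, 11, 2, 11, 2] [2, 11, 2], .ord false [2] [8], .ord true [8, 1, 10] [10, 1, 10], .ord false [0, 11, 2, 11, 2, 1, 10] [4, 11, 2, 11, 2, 1, 10], .ord true [1, 4, 11, 2, 11, 2, 1, 10] [11, 4, 11, 2, 11, 2, 11, 2, 1, 10], .ord true [8, 11, 2, 1, 10] [2, 1, 10], .ord true [8, 11, 2, 11, 2, 1, 10] [2, 11, 2, 1, 10], .ord true [8] [10], .ord true [1, 10, 1, 10] [11, 4, 11, 2, 5, 10, 1, 10]], [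
    .lem 12 [], .close [0] [11, 0], .lem 16 [], .close [0] [12, 0], .lem 11 [5, 10],
    .use (.F true 2 [10]), .close [5, 10] [14, 13], .close [5, 10] [14, 2, 1, 12], .lem 25 [],
    .close [0] [15, 0], .lem 30 [], .close [0] [16, 0], .lem 31 [], .close [0] [17, 0],
    .use (.W true 2 1 0 [1, 10]), .use (.N true 2 [1, 10]), .close [10, 1, 10] [19, 15],
    .use (.W true 2 0 0 [1, 10]), .clash 19 20, .use (.W true 2 0 1 [1, 10]), .clash 19 21,
    .use (.F false 0 [10]), .close [3, 10] [22, 16, 17, 16, 17, 21, 20, 2, 1],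
    .close [5, 10] [22, 13], .close [3, 10] [22, 15, 21, 16, 17, 16, 17, 21, 20, 2, 1],
    .clash 19 18, .close [8, 1, 10] [18, 16, 17, 4], .close [2, 11, 2, 11, 2, 1, 10] [17, 16],
    .close [8, 11, 2, 11, 2, 1, 10] [17, 8], .close [1, 4, 11, 2, 11, 2, 1, 10] [17, 6],
    .close [0, 11, 2, 11, 2, 1, 10] [17, 5], .close [2, 11, 2, 11, 2] [16, 1],
    .close [8, 1, 10] [16, 4], .close [1, 4, 11, 2, 11, 2, 1, 10] [16, 6], .close [8] [16, 9],
    .close [2] [16, 3], .close [1, 10, 1, 10] [16, 10], .close [8, 11, 2, 1, 10] [16, 7],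
    .close [8, 11, 2, 11, 2, 1, 10] [16, 8], .close [0, 11, 2, 11, 2, 1, 10] [16, 5],
    .close [8, 11, 2, 11, 2] [16, 2], .close [10] [15, 13], .close [10] [15, 12],
    .close [2] [15, 11], .close [1, 10] [15, 14], .close [2, 5, 10] [13, 2, 1, 12]])

/-- A lemma and its proof. -/
def c142_33 : List Lit × List (Cmd Rule) :=
  ([.ord true [0] [4], .ord false [0, 11, 2, 11, 2, 1, 10] [4, 11, 2, 11, 2, 1, 10], .ord true [9, 2, 9, 2, 9, 2, 9, 10, 1, 10] [5, 2, 1, 10, 1, 10], .ord true [1, 4, 11, 2, 11, 2, 1, 10] [11, 4, 11, 2, 11, 2, 11, 2, 1, 10], .ord true [8, 11, 2, 11, 2, 1, 10] [2, 11, 2, 1, 10], .ord true [8, 1, 10] [10, 1, 10], .ord true [8] [10], .ord false [2] [8], .ord true [8, 11, 2, 1, 10] [2, 1, 10], .ord true [1, 10, 1, 10] [11, 4, 11, 2, 5, 10, 1, 10], .ord false [2, 11, 2, 11, 2] [8, 11, 2, 11, 2]], [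
    .lem 16 [], .close [0] [11, 0], .lem 11 [5, 10], .use (.F true 2 [10]),
    .close [5, 10] [13, 12], .close [5, 10] [13, 6, 7, 11], .lem 32 [], .close [0] [14, 0],
    .close [2, 11, 2, 11, 2] [14, 10], .use (.W false 1 2 1 [11, 2, 11, 2]),
    .use (.W true 2 1 1 [11, 2, 11, 2]), .use (.N false 1 [11, 2, 11, 2]),
    .close [2, 11, 2, 11, 2] [17, 10], .use (.W false 1 0 0 [11, 2, 11, 2]), .clash 17 18,
    .use (.W true 2 0 0 [11, 2, 11, 2]), .use (.N true 2 [11, 2, 11, 2]), .use (.F true 2 [0]),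
    .close [5, 0] [21, 0], .close [5, 0] [21, 13, 12, 6, 7, 6, 7, 20, 20, 11, 13, 6, 7, 0],
    .close [11, 4, 11, 2, 5, 0] [21, 13, 12, 6, 7, 6, 7, 20, 20, 0], .clash 20 19, .clash 20 16,
    .close [6, 11, 2, 11, 2] [19, 18], .clash 17 15, .close [2, 11, 2] [16, 14],
    .close [2, 11, 2] [15, 14], .close [2] [14, 7], .close [8, 1, 10] [14, 5],
    .close [0, 11, 2, 11, 2, 1, 10] [14, 1], .close [1, 4, 11, 2, 11, 2, 1, 10] [14, 3],
    .close [8, 11, 2, 1, 10] [14, 8], .close [8, 11, 2, 11, 2, 1, 10] [14, 4], .close [8] [14, 6],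
    .close [1, 10, 1, 10] [14, 9], .close [2, 5, 10] [12, 6, 7, 11]])

/-- A lemma and its proof. -/
def c142_34 : List Lit × List (Cmd Rule) :=
  ([.ord true [0] [4], .ord true [8, 11, 2, 11, 2, 1, 10] [2, 11, 2, 11, 2, 1, 10], .ord false [5, 10, 1, 10] [1, 10, 1, 10], .ord true [1, 10, 1, 10] [11, 4, 11, 2, 5, 10, 1, 10], .ord true [8, 11, 2, 1, 10] [2, 1, 10], .ord false [2] [4, 11, 2], .ord true [9, 2, 9, 2, 9, 2, 9, 10, 1, 10] [5, 2, 1, 10, 1, 10], .ord true [8, 1, 10] [10, 1, 10], .ord false [1, 10, 1, 10] [3, 10, 1, 10], .ord true [8, 11, 2, 11, 2, 1, 10] [2, 11, 2, 1, 10]], [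
    .lem 16 [], .close [0] [10, 0], .lem 15 [], .close [0] [11, 0], .close [10] [11, 10],
    .lem 11 [5, 10], .use (.F true 2 [10]), .close [5, 10] [13, 12], .close [5, 10] [13, 11],
    .close [11, 2, 11, 2, 5, 10] [13, 3, 6, 7, 4, 9, 1, 12, 13, 3, 2, 8, 6, 7, 4, 9, 1, 13, 8, 6, 7, 4, 9, 1, 12, 13, 6, 7, 4, 9, 1, 12],
    .close [2, 5, 10] [12, 11]])

/-- A lemma and its proof. -/
def c142_35 : List Lit × List (Cmd Rule) :=
  ([.ord true [0] [4], .ord true [11, 2, 5, 10, 1, 10] [1, 10], .ord false [4, 11, 2, 11, 2, 1, 10] [2, 11, 2, 11, 2, 1, 10], .ord true [1, 10, 1, 10] [11, 4, 11, 2, 5, 10, 1, 10], .ord true [8, 11, 2, 1, 10] [2, 1, 10], .ord true [8, 11, 2, 11, 2, 1, 10] [2, 11, 2, 1, 10], .ord false [2] [8], .ord true [8] [10], .ord true [8, 1, 10] [10, 1, 10], .ord true [9, 2, 9, 2, 9, 2, 9, 10, 1, 10] [5, 2, 1, 10, 1, 10]], [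
    .lem 1 [10, 1, 10], .lem 6 [10, 1, 10], .lem 16 [], .close [0] [12, 0], .lem 11 [5, 10],
    .use (.F true 2 [10]), .close [5, 10] [14, 13], .close [5, 10] [14, 7, 6, 12],
    .close [3, 4, 11, 2, 11, 2, 1, 10] [13, 14, 3, 11, 8, 13, 7, 6, 7, 7, 6, 12, 14, 10, 9, 8, 4, 5, 2, 13, 14, 3, 9, 8, 4, 5, 2, 13, 14, 8, 13, 7, 6, 7, 7, 6, 12, 14, 10, 9, 8, 4, 5, 2, 13, 14, 3, 9, 8, 4, 5, 2, 2],
    .close [2, 5, 10] [13, 7, 6, 12], .close [5, 10, 1, 10] [11, 1], .close [5, 10, 1, 10] [10, 1]])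

/-- A lemma and its proof. -/
def c142_36 : List Lit × List (Cmd Rule) :=
  ([.ord true [0] [4], .ord false [1, 10] [11, 2, 5, 10, 1, 10], .ord false [2] [8], .ord true [8, 1, 10] [10, 1, 10], .ord true [8, 11, 2, 1, 10] [2, 1, 10]], [
    .lem 12 [], .close [0] [5, 0], .lem 16 [], .close [0] [6, 0], .lem 15 [], .close [0] [7, 0],
    .close [10] [7, 6], .lem 11 [5, 10], .use (.F true 2 [10]), .close [5, 10] [9, 8],
    .close [5, 10] [9, 7], .lem 25 [], .close [0] [10, 0], .use (.W true 2 1 0 [1, 10]),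
    .use (.N true 2 [1, 10]), .close [10, 1, 10] [12, 10], .use (.W true 2 0 0 [1, 10]),
    .clash 12 13, .use (.W true 2 0 1 [1, 10]), .clash 12 14, .use (.F false 0 [10]),
    .close [3, 10] [15, 10, 1, 14, 13], .close [5, 10] [15, 8],
    .close [3, 10] [15, 10, 14, 10, 1, 14, 13], .clash 12 11, .close [8, 1, 10] [11, 10, 1, 3],
    .close [10] [10, 8], .close [10] [10, 6], .close [2] [10, 5], .close [1, 10] [10, 9],
    .close [2, 5, 10] [8, 7]])

/-- A lemma and its proof. -/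
def c142_37 : List Lit × List (Cmd Rule) :=
  ([.ord true [0] [4], .ord true [8] [10], .ord true [8, 11, 2, 11, 2, 1, 10] [2, 11, 2, 1, 10], .ord false [2] [8], .ord true [8, 11, 2, 1, 10] [2, 1, 10], .ord true [8, 1, 10] [10, 1, 10]], [
    .lem 12 [], .close [0] [6, 0], .lem 16 [], .close [0] [7, 0], .lem 11 [5, 10],
    .use (.F true 2 [10]), .close [5, 10] [9, 8], .close [5, 10] [9, 1, 3, 7], .lem 36 [],
    .close [0] [10, 0], .lem 1 [10, 1, 10], .lem 6 [10, 1, 10], .use (.F true 2 [10, 1, 10]),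
    .close [5, 10, 1, 10] [13, 12], .close [5, 10, 1, 10] [13, 10],
    .use (.F false 1 [2, 1, 10, 1, 10]), .close [1, 2, 1, 10, 1, 10] [14, 11],
    .close [5, 2, 1, 10, 1, 10] [14, 12, 11], .lem 25 [], .close [0] [15, 0], .lem 17 [],
    .close [0] [16, 0], .close [10] [16, 8], .close [10] [16, 7], .lem 34 [], .close [0] [17, 0],
    .lem 35 [], .close [0] [18, 0], .close [11, 2, 5, 10, 1, 10] [18, 10],
    .lem 11 [11, 2, 11, 2, 1, 10], .use (.F true 2 [4, 11, 2, 11, 2, 1, 10]),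
    .close [11, 2, 11, 2, 1, 10] [20, 19], .close [11, 2, 11, 2, 1, 10] [20, 18], .lem 31 [],
    .close [0] [21, 0], .close [2, 11, 2, 11, 2, 1, 10] [21, 17], .use (.F false 1 [2, 1, 10]),
    .close [1, 2, 1, 10] [22, 9, 11, 14, 5, 4, 2, 21, 8, 9, 13, 14, 5, 4, 2, 21, 20, 19],
    .close [5, 2, 1, 10] [22, 15, 2, 17], .lem 33 [], .close [0] [23, 0],
    .close [0, 11, 2, 11, 2, 1, 10] [23, 19], .close [9, 2, 9, 2, 9, 2, 9, 10, 1, 10] [23, 14],
    .close [1, 4, 11, 2, 11, 2, 1, 10] [23, 20], .close [8, 11, 2, 11, 2, 1, 10] [23, 2],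
    .close [8, 1, 10] [23, 5], .close [8] [23, 1], .close [2] [23, 3],
    .close [8, 11, 2, 1, 10] [23, 4], .close [1, 10, 1, 10] [23, 13], .lem 29 [],
    .close [0] [24, 0], .use (.W true 2 1 1 [11, 2]), .use (.N true 2 [11, 2]),
    .close [2] [26, 16], .use (.W true 2 0 0 [11, 2]), .clash 26 27, .use (.W true 2 0 1 [11, 2]),
    .clash 26 28,
    .close [9, 2, 11, 2, 11, 2] [23, 9, 13, 1, 3, 28, 27, 28, 27, 9, 11, 14, 5, 4, 2, 21, 8, 9, 13, 14, 5, 4, 2, 21, 8, 9, 8, 9, 13, 1, 3, 28, 27, 28, 27, 9, 11, 14, 5, 4, 2, 21, 8, 9, 13, 14, 5, 4, 1, 3, 28, 27, 23],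
    .clash 26 25, .close [2] [25, 24], .close [8, 11, 2, 11, 2, 11, 2, 1, 10] [24, 21],
    .close [0, 11, 2, 11, 2, 1, 10] [24, 19], .close [8, 11, 2, 11, 2, 1, 10] [24, 2],
    .close [8, 1, 10] [24, 5], .close [1, 4, 11, 2, 11, 2, 1, 10] [24, 20],
    .close [8, 11, 2, 11, 2] [24, 1, 3, 23], .close [9, 2, 9, 2, 9, 2, 9, 10] [24, 22],
    .close [8] [24, 1], .close [9, 2, 9, 2, 9, 2, 9, 10, 1, 10] [24, 14],
    .close [1, 10, 1, 10] [24, 13], .close [8, 11, 2, 11, 2, 11, 2] [24, 23, 1, 3],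
    .close [8, 11, 2, 1, 10] [24, 4], .close [1, 10, 1, 10] [24, 11], .close [2] [24, 3],
    .close [8, 11, 2, 11, 2, 1, 10] [21, 2], .close [1, 4, 11, 2, 11, 2, 1, 10] [21, 20],
    .close [0, 11, 2, 11, 2, 1, 10] [21, 19], .close [2, 11, 2, 11, 2, 1, 10] [19, 18],
    .close [1, 10, 1, 10] [18, 13], .close [8, 11, 2, 1, 10] [18, 4],
    .close [8, 11, 2, 11, 2, 1, 10] [18, 2], .close [2] [18, 3], .close [8] [18, 1],
    .close [8, 1, 10] [18, 5], .close [9, 2, 9, 2, 9, 2, 9, 10, 1, 10] [18, 14],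
    .close [5, 10, 1, 10] [17, 12], .close [1, 10, 1, 10] [17, 13],
    .close [8, 11, 2, 1, 10] [17, 4], .close [2] [17, 16],
    .close [9, 2, 9, 2, 9, 2, 9, 10, 1, 10] [17, 14], .close [8, 1, 10] [17, 5],
    .close [1, 10, 1, 10] [17, 11], .close [8, 11, 2, 11, 2, 1, 10] [17, 2], .close [8] [16, 1],
    .close [2] [16, 3], .close [1, 10] [16, 9], .close [10] [15, 8], .close [10] [15, 7],
    .close [2] [15, 6], .close [1, 10] [15, 9], .close [5, 10, 1, 10] [12, 10],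
    .close [5, 10, 1, 10] [11, 10], .close [2] [10, 3], .close [8, 1, 10] [10, 5],
    .close [8, 11, 2, 1, 10] [10, 4], .close [2, 5, 10] [8, 1, 3, 7]])

/-- A lemma and its proof. -/
def c142_38 : List Lit × List (Cmd Rule) :=
  ([.ord true [0] [4], .ord true [8, 11, 2, 11, 2, 1, 10] [2, 11, 2, 1, 10], .ord false [2] [8], .ord true [8, 11, 2, 1, 10] [2, 1, 10], .ord true [8, 1, 10] [10, 1, 10]], [
    .lem 16 [], .close [0] [5, 0], .lem 15 [], .close [0] [6, 0], .close [10] [6, 5],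
    .lem 11 [5, 10], .use (.F true 2 [10]), .close [5, 10] [8, 7], .close [5, 10] [8, 6],
    .lem 36 [], .close [0] [9, 0], .lem 1 [10, 1, 10], .lem 6 [10, 1, 10],
    .use (.F true 2 [10, 1, 10]), .close [5, 10, 1, 10] [12, 11], .close [5, 10, 1, 10] [12, 9],
    .use (.F false 1 [2, 1, 10, 1, 10]), .close [1, 2, 1, 10, 1, 10] [13, 10],
    .close [5, 2, 1, 10, 1, 10] [13, 11, 10], .lem 37 [], .close [0] [14, 0],
    .use (.W true 2 1 1 []), .use (.N true 2 []), .close [10] [16, 5], .use (.W true 2 0 0 []),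
    .clash 16 17, .use (.W true 2 0 1 []), .clash 16 18, .use (.F true 2 [4, 11, 2, 11, 2, 1, 10]),
    .close [11, 2, 11, 2, 1, 10] [19, 7, 8, 12, 18, 17, 18, 17, 10, 18, 17, 10, 18, 17],
    .close [11, 2, 11, 2, 1, 10] [19, 7, 8, 12, 18, 17, 10, 18, 17, 10, 18, 17, 10, 18, 17],
    .lem 31 [], .close [0] [20, 0],
    .close [2, 11, 2, 11, 2, 1, 10] [20, 7, 8, 12, 18, 17, 10, 13, 4, 3, 1],
    .close [2, 11, 2, 11, 2, 1, 10] [20, 7, 8, 18, 17, 8, 12, 18, 17, 10, 13, 4, 3, 1],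
    .close [8, 11, 2, 11, 2, 1, 10] [20, 1], .close [1, 4, 11, 2, 11, 2, 1, 10] [20, 19],
    .close [0, 11, 2, 11, 2, 1, 10] [20, 7, 8, 12, 18, 17, 18, 17, 10, 18, 17, 10, 18, 17],
    .clash 16 15, .close [10] [15, 14], .close [8, 11, 2, 11, 2, 1, 10] [14, 1],
    .close [2] [14, 2], .close [8, 11, 2, 1, 10] [14, 3], .close [8, 1, 10] [14, 4],
    .close [5, 10, 1, 10] [11, 9], .close [5, 10, 1, 10] [10, 9], .close [2] [9, 2],
    .close [8, 1, 10] [9, 4], .close [8, 11, 2, 1, 10] [9, 3], .close [2, 5, 10] [7, 6]])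

/-- A lemma and its proof. -/
def c142_39 : List Lit × List (Cmd Rule) :=
  ([.ord true [0] [4], .ord true [3, 10] [1, 10], .ord false [5, 10, 1, 10] [1, 10, 1, 10], .ord true [1, 10, 1, 10] [11, 4, 11, 2, 5, 10, 1, 10], .ord true [8, 1, 10] [10, 1, 10], .ord true [8, 11, 2, 1, 10] [2, 1, 10], .ord false [2, 11, 2, 1, 10] [8, 11, 2, 11, 2, 1, 10], .ord false [10] [8]], [
    .use (.W true 2 1 1 []), .use (.W false 1 2 1 [11, 2, 11, 2, 1, 10]),
    .use (.W true 2 1 1 [11, 2, 11, 2, 1, 10]), .lem 16 [], .close [0] [11, 0],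
    .use (.N true 2 []), .close [10] [12, 11], .use (.W true 2 0 0 []), .clash 12 13,
    .use (.W true 2 0 1 []), .clash 12 14, .use (.F false 0 [10]), .close [3, 10] [15, 1],
    .close [5, 10] [15, 14, 13, 11], .use (.F true 2 [10]), .close [5, 10] [16, 14, 13, 11],
    .close [5, 10] [16, 15, 14, 13, 11, 14, 11], .lem 1 [10, 1, 10],
    .use (.N false 1 [11, 2, 11, 2, 1, 10]), .close [2, 11, 2, 11, 2, 1, 10] [18, 6, 17, 14, 13],
    .use (.W false 1 0 0 [11, 2, 11, 2, 1, 10]), .clash 18 19,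
    .use (.W true 2 0 0 [11, 2, 11, 2, 1, 10]), .use (.N true 2 [11, 2, 11, 2, 1, 10]),
    .close [2, 11, 2, 1, 10] [21, 5, 1, 7, 11, 16, 17, 14, 13, 17, 14, 13], .clash 21 20,
    .clash 21 10, .close [6, 11, 2, 11, 2, 1, 10] [20, 19], .clash 18 9,
    .close [5, 10, 1, 10] [17, 14, 13, 15, 14, 13, 11, 14, 15, 14, 13, 11, 14, 11, 16],
    .clash 12 8, .close [2, 11, 2, 1, 10] [10, 6], .close [2, 11, 2, 1, 10] [9, 6],
    .close [10] [8, 7]])

/-- A lemma and its proof. -/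
def c142_40 : List Lit × List (Cmd Rule) :=
  ([.ord true [0] [4], .ord false [10] [8], .ord false [2, 11, 2, 1, 10] [8, 11, 2, 11, 2, 1, 10], .ord true [8, 1, 10] [10, 1, 10], .ord true [1, 10, 1, 10] [11, 4, 11, 2, 5, 10, 1, 10], .ord true [8, 11, 2, 1, 10] [2, 1, 10]], [
    .lem 12 [], .close [0] [6, 0], .use (.W true 2 1 1 []),
    .use (.W false 1 2 1 [11, 2, 11, 2, 1, 10]), .use (.W true 2 1 1 [11, 2, 11, 2, 1, 10]),
    .lem 16 [], .close [0] [10, 0], .use (.N true 2 []), .close [10] [11, 10],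
    .use (.W true 2 0 0 []), .clash 11 12, .use (.W true 2 0 1 []), .clash 11 13, .lem 15 [],
    .close [0] [14, 0], .close [10] [14, 10], .use (.F true 2 [10]),
    .close [5, 10] [15, 13, 12, 10], .close [5, 10] [15, 14], .lem 25 [], .close [0] [16, 0],
    .lem 39 [], .close [0] [17, 0], .use (.N false 1 [11, 2, 11, 2, 1, 10]),
    .close [2, 11, 2, 11, 2, 1, 10] [18, 2, 13, 12, 17],
    .use (.W false 1 0 0 [11, 2, 11, 2, 1, 10]), .clash 18 19,
    .use (.W true 2 0 0 [11, 2, 11, 2, 1, 10]), .use (.N true 2 [11, 2, 11, 2, 1, 10]),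
    .close [2, 11, 2, 1, 10] [21, 13, 12, 10, 15, 4, 13, 12, 13, 12, 17, 13, 12, 17], .clash 21 20,
    .clash 21 9, .close [6, 11, 2, 11, 2, 1, 10] [20, 19], .clash 18 8,
    .close [5, 10, 1, 10] [17, 13, 12, 16], .close [1, 10, 1, 10] [17, 4],
    .close [8, 1, 10] [17, 3], .close [8, 11, 2, 1, 10] [17, 5], .close [2, 11, 2, 1, 10] [17, 2],
    .close [10] [17, 1], .close [10] [16, 13, 12, 10], .close [10] [16, 10], .close [2] [16, 6],
    .close [1, 10] [16, 15], .clash 11 7, .close [2, 11, 2, 1, 10] [9, 2],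
    .close [2, 11, 2, 1, 10] [8, 2], .close [10] [7, 1]])

/-- A lemma and its proof. -/
def c142_41 : List Lit × List (Cmd Rule) :=
  ([.ord true [0] [4], .ord true [3, 10] [1, 10], .ord false [2, 11, 2, 1, 10] [8, 11, 2, 11, 2, 1, 10], .ord true [1, 10, 1, 10] [11, 4, 11, 2, 5, 10, 1, 10], .ord true [8, 11, 2, 1, 10] [2, 1, 10], .ord true [8, 1, 10] [10, 1, 10]], [
    .lem 12 [], .close [0] [6, 0], .use (.W false 1 2 1 [11, 2, 11, 2, 1, 10]),
    .use (.W true 2 1 1 [11, 2, 11, 2, 1, 10]), .lem 16 [], .close [0] [9, 0], .lem 15 [],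
    .close [0] [10, 0], .close [10] [10, 9], .lem 11 [5, 10], .use (.F false 0 [10]),
    .close [3, 10] [12, 1], .close [5, 10] [12, 1, 10], .use (.F true 2 [10]),
    .close [5, 10] [13, 1, 10], .close [5, 10] [13, 10], .lem 25 [], .close [0] [14, 0],
    .use (.W true 2 0 1 [1, 10]), .use (.N true 2 [1, 10]), .close [10, 1, 10] [16, 14],
    .clash 16 15, .use (.W true 2 1 0 [1, 10]), .clash 16 17,
    .use (.N false 1 [11, 2, 11, 2, 1, 10]), .close [2, 11, 2, 11, 2, 1, 10] [18, 2, 5, 17],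
    .use (.W false 1 0 0 [11, 2, 11, 2, 1, 10]), .clash 18 19,
    .use (.W true 2 0 0 [11, 2, 11, 2, 1, 10]), .use (.N true 2 [11, 2, 11, 2, 1, 10]),
    .close [2, 11, 2, 1, 10] [21, 1, 9, 13, 5, 17, 5, 17], .clash 21 20, .clash 21 8,
    .close [6, 11, 2, 11, 2, 1, 10] [20, 19], .clash 18 7, .close [10, 1, 10] [15, 1, 12, 14],
    .close [10] [14, 11], .close [10] [14, 9], .close [2] [14, 6], .close [1, 10] [14, 13],
    .close [2, 5, 10] [11, 10], .close [2, 11, 2, 1, 10] [8, 2], .close [2, 11, 2, 1, 10] [7, 2]])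

/-- A lemma and its proof. -/
def c142_42 : List Lit × List (Cmd Rule) :=
  ([.ord true [0] [4], .ord false [2, 11, 2, 1, 10] [8, 11, 2, 11, 2, 1, 10], .ord true [1, 10, 1, 10] [11, 4, 11, 2, 5, 10, 1, 10], .ord true [8, 1, 10] [10, 1, 10], .ord true [8, 11, 2, 1, 10] [2, 1, 10]], [
    .lem 12 [], .close [0] [5, 0], .use (.W false 1 2 1 [11, 2, 11, 2, 1, 10]),
    .use (.W true 2 1 1 [11, 2, 11, 2, 1, 10]), .lem 16 [], .close [0] [8, 0], .lem 15 [],
    .close [0] [9, 0], .close [10] [9, 8], .lem 11 [5, 10], .use (.F true 2 [10]),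
    .close [5, 10] [11, 10], .close [5, 10] [11, 9], .lem 25 [], .close [0] [12, 0], .lem 40 [],
    .close [0] [13, 0], .lem 41 [], .close [0] [14, 0], .lem 22 [], .close [0] [15, 0],
    .lem 6 [10, 1, 10], .lem 24 [], .close [0] [17, 0], .close [2, 11, 2, 1, 10] [17, 1],
    .use (.W true 2 1 0 []), .use (.N true 2 []), .close [10] [19, 8], .use (.W true 2 0 0 []),
    .clash 19 20, .use (.W true 2 0 1 []), .clash 19 21, .use (.N false 1 [11, 2, 11, 2, 1, 10]),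
    .close [2, 11, 2, 11, 2, 1, 10] [22, 1, 21, 20, 14],
    .use (.W false 1 0 0 [11, 2, 11, 2, 1, 10]), .clash 22 23,
    .use (.W true 2 0 0 [11, 2, 11, 2, 1, 10]), .use (.N true 2 [11, 2, 11, 2, 1, 10]),
    .close [2, 11, 2, 1, 10] [25, 10, 11, 2, 21, 20, 21, 20, 14, 21, 20, 14], .clash 25 24,
    .clash 25 7, .close [6, 11, 2, 11, 2, 1, 10] [24, 23], .clash 22 6, .clash 19 18,
    .close [8] [18, 17], .close [8] [17, 13], .close [1, 10] [17, 14],
    .close [5, 10, 1, 10] [17, 16], .close [1, 10, 1, 10] [17, 2], .close [10, 1, 10] [17, 12],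
    .close [5, 10, 1, 10] [16, 15], .close [1, 10] [15, 14], .close [10, 1, 10] [15, 12],
    .close [2, 11, 2, 1, 10] [14, 1], .close [1, 10, 1, 10] [14, 2],
    .close [8, 11, 2, 1, 10] [14, 4], .close [8, 1, 10] [14, 3], .close [2, 11, 2, 1, 10] [13, 1],
    .close [8, 1, 10] [13, 3], .close [1, 10, 1, 10] [13, 2], .close [8, 11, 2, 1, 10] [13, 4],
    .close [10] [12, 10], .close [10] [12, 8], .close [2] [12, 5], .close [1, 10] [12, 11],
    .close [2, 5, 10] [10, 9], .close [2, 11, 2, 1, 10] [7, 1], .close [2, 11, 2, 1, 10] [6, 1]])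

/-- A lemma and its proof. -/
def c142_43 : List Lit × List (Cmd Rule) :=
  ([.ord true [0] [4], .ord false [1, 10] [3, 10], .ord true [1, 10, 1, 10] [11, 4, 11, 2, 5, 10, 1, 10], .ord false [0] [6], .ord true [6] [10], .ord true [8, 1, 10] [10, 1, 10], .ord true [8, 11, 2, 1, 10] [2, 1, 10]], [
    .lem 16 [], .close [0] [7, 0], .use (.F true 2 [10]), .close [5, 10] [8, 4, 3, 7],
    .close [5, 10] [8, 1, 4, 3, 7], .lem 1 [10, 1, 10], .use (.F false 1 [2, 1, 10, 1, 10]),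
    .close [1, 2, 1, 10, 1, 10] [10, 9],
    .close [5, 2, 1, 10, 1, 10] [10, 4, 3, 4, 3, 1, 4, 3, 1, 4, 3, 7, 8, 2, 4, 3, 9],
    .use (.F true 2 [4, 11, 2, 11, 2, 1, 10]),
    .close [11, 2, 11, 2, 1, 10] [11, 4, 3, 7, 8, 2, 4, 3, 4, 3, 4, 3, 1, 4, 3, 1],
    .close [11, 2, 11, 2, 1, 10] [11, 4, 3, 7, 8, 2, 4, 3, 4, 3, 1, 4, 3, 1, 4, 3, 1], .lem 42 [],
    .close [0] [12, 0], .lem 31 [], .close [0] [13, 0],
    .close [2, 11, 2, 11, 2, 1, 10] [13, 4, 3, 7, 8, 2, 4, 3, 9, 10, 5, 6, 12],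
    .close [2, 11, 2, 11, 2, 1, 10] [13, 4, 3, 7, 8, 2, 4, 3, 2, 4, 3, 9, 10, 5, 6, 12],
    .close [8, 11, 2, 11, 2, 1, 10] [13, 12], .close [1, 4, 11, 2, 11, 2, 1, 10] [13, 11],
    .close [0, 11, 2, 11, 2, 1, 10] [13, 4, 3, 7, 8, 2, 4, 3, 4, 3, 4, 3, 1, 4, 3, 1],
    .close [1, 10, 1, 10] [12, 2], .close [8, 1, 10] [12, 5], .close [8, 11, 2, 1, 10] [12, 6],
    .close [5, 10, 1, 10] [9, 4, 3, 1, 4, 3, 1, 4, 3, 7, 8]])

/-- A lemma and its proof. -/
def c142_44 : List Lit × List (Cmd Rule) :=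
  ([.ord true [0] [4], .ord true [1, 10, 1, 10] [11, 4, 11, 2, 5, 10, 1, 10], .ord true [8, 11, 2, 1, 10] [2, 1, 10], .ord true [8, 1, 10] [10, 1, 10]], [
    .lem 12 [], .close [0] [4, 0], .lem 16 [], .close [0] [5, 0], .lem 15 [], .close [0] [6, 0],
    .close [10] [6, 5], .lem 11 [5, 10], .use (.F true 2 [10]), .close [5, 10] [8, 7],
    .close [5, 10] [8, 6], .lem 42 [], .close [0] [9, 0], .lem 38 [], .close [0] [10, 0],
    .close [8, 11, 2, 11, 2, 1, 10] [10, 9], .use (.W true 2 1 0 []), .use (.N true 2 []),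
    .close [10] [12, 5], .use (.W true 2 0 0 []), .clash 12 13, .use (.W true 2 0 1 []),
    .clash 12 14, .lem 25 [], .close [0] [15, 0], .lem 43 [], .close [0] [16, 0],
    .use (.F false 0 [10]), .close [3, 10] [17, 16], .close [5, 10] [17, 7], .lem 1 [10, 1, 10],
    .use (.F false 1 [2, 1, 10, 1, 10]), .close [1, 2, 1, 10, 1, 10] [19, 18],
    .close [5, 2, 1, 10, 1, 10] [19, 14, 13, 15, 18], .use (.F true 2 [4, 11, 2, 11, 2, 1, 10]),
    .close [11, 2, 11, 2, 1, 10] [20, 7, 8, 1, 14, 13, 14, 13, 18, 14, 13, 18, 14, 13],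
    .close [11, 2, 11, 2, 1, 10] [20, 7, 8, 1, 14, 13, 18, 14, 13, 18, 14, 13, 18, 14, 13],
    .lem 31 [], .close [0] [21, 0],
    .close [2, 11, 2, 11, 2, 1, 10] [21, 7, 8, 1, 14, 13, 18, 19, 3, 2, 9],
    .close [2, 11, 2, 11, 2, 1, 10] [21, 7, 8, 14, 13, 8, 1, 14, 13, 18, 19, 3, 2, 9],
    .close [8, 11, 2, 11, 2, 1, 10] [21, 9], .close [1, 4, 11, 2, 11, 2, 1, 10] [21, 20],
    .close [0, 11, 2, 11, 2, 1, 10] [21, 7, 8, 1, 14, 13, 14, 13, 18, 14, 13, 18, 14, 13],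
    .close [5, 10, 1, 10] [18, 14, 13, 17, 7, 14, 17, 7, 14, 5, 8], .close [1, 10, 1, 10] [16, 1],
    .close [0] [16, 13], .close [6] [16, 14], .close [8, 1, 10] [16, 3],
    .close [8, 11, 2, 1, 10] [16, 2], .close [10] [15, 7], .close [10] [15, 5], .close [2] [15, 4],
    .close [1, 10] [15, 8], .clash 12 11, .close [8] [11, 10], .close [8, 11, 2, 1, 10] [10, 2],
    .close [8, 1, 10] [10, 3], .close [1, 10, 1, 10] [9, 1], .close [8, 1, 10] [9, 3],
    .close [8, 11, 2, 1, 10] [9, 2], .close [2, 5, 10] [7, 6]])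

/-- A lemma and its proof. -/
def c142_45 : List Lit × List (Cmd Rule) :=
  ([.ord true [0] [4], .ord true [8, 11, 2, 1, 10] [2, 1, 10], .ord true [8, 1, 10] [10, 1, 10]], [
    .lem 12 [], .close [0] [3, 0], .lem 16 [], .close [0] [4, 0], .lem 15 [], .close [0] [5, 0],
    .close [10] [5, 4], .lem 11 [5, 10], .use (.F true 2 [10]), .close [5, 10] [7, 6],
    .close [5, 10] [7, 5], .lem 44 [], .close [0] [8, 0], .lem 21 [], .close [0] [9, 0],
    .lem 36 [], .close [0] [10, 0], .close [1, 10] [10, 9], .use (.W true 2 1 0 []),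
    .use (.N true 2 []), .close [10] [12, 4], .use (.W true 2 0 0 []), .clash 12 13,
    .use (.W true 2 0 1 []), .clash 12 14, .lem 25 [], .close [0] [15, 0], .use (.F false 0 [10]),
    .close [3, 10] [16, 15, 9, 14, 13], .close [5, 10] [16, 6],
    .close [5, 10, 5, 10, 1, 10] [9, 14, 13, 16, 6, 14, 16, 6, 14, 4, 7], .close [10] [15, 6],
    .close [10] [15, 4], .close [2] [15, 3], .close [1, 10] [15, 7], .clash 12 11,
    .close [8] [11, 10], .close [8, 1, 10] [10, 2], .close [8, 11, 2, 1, 10] [10, 1],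
    .close [11, 4, 11, 2, 5, 10, 1, 10] [9, 8], .close [8, 11, 2, 1, 10] [8, 1],
    .close [8, 1, 10] [8, 2], .close [2, 5, 10] [6, 5]])

/-- A lemma and its proof. -/
def c142_46 : List Lit × List (Cmd Rule) :=
  ([.ord true [0] [4], .ord true [3, 10] [1, 10], .ord true [6, 1, 10] [10, 1, 10]], [
    .lem 12 [], .close [0] [3, 0], .lem 16 [], .close [0] [4, 0], .lem 15 [], .close [0] [5, 0],
    .close [10] [5, 4], .lem 11 [5, 10], .use (.F false 0 [10]), .close [3, 10] [7, 1],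
    .close [5, 10] [7, 1, 5], .use (.F true 2 [10]), .close [5, 10] [8, 1, 5],
    .close [5, 10] [8, 5], .close [11, 4, 11, 2, 5, 10] [8, 2, 1, 7, 2, 1, 7, 2, 1, 7, 6, 3, 4],
    .close [2, 5, 10] [6, 5]])

/-- A lemma and its proof. -/
def c142_47 : List Lit × List (Cmd Rule) :=
  ([.ord true [0] [4], .ord true [8, 1, 10] [10, 1, 10]], [
    .lem 45 [], .close [0] [2, 0], .use (.W false 1 2 1 [11, 2, 1, 10]),
    .use (.W true 2 1 1 [11, 2, 1, 10]), .lem 26 [], .close [0] [5, 0], .lem 46 [],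
    .close [0] [6, 0], .lem 18 [], .close [0] [7, 0], .use (.N true 2 [11, 2, 1, 10]),
    .close [2, 1, 10] [8, 7], .use (.W true 2 0 0 [11, 2, 1, 10]), .clash 8 9,
    .use (.W false 1 0 0 [11, 2, 1, 10]), .use (.W true 2 0 1 [11, 2, 1, 10]), .clash 8 11,
    .use (.N false 1 [11, 2, 1, 10]), .close [2, 11, 2, 1, 10] [12, 2, 6, 11, 9], .clash 12 10,
    .clash 12 3, .close [0, 11, 2, 1, 10] [10, 9], .clash 8 4, .close [8, 1, 10] [7, 1],
    .close [1, 10] [7, 6], .close [6, 1, 10] [6, 5], .close [2, 1, 10] [5, 2],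
    .close [8, 1, 10] [5, 1], .close [2, 1, 10] [4, 2], .close [2, 1, 10] [3, 2],
    .close [8, 1, 10] [2, 1]])

/-- A lemma and its proof. -/
def c142_48 : List Lit × List (Cmd Rule) :=
  ([.ord true [0] [4]], [
    .lem 12 [], .close [0] [1, 0], .lem 16 [], .close [0] [2, 0], .lem 47 [], .close [0] [3, 0],
    .use (.W false 1 2 1 [1, 10]), .use (.W true 2 1 1 [1, 10]), .lem 15 [], .close [0] [6, 0],
    .close [10] [6, 2], .lem 11 [5, 10], .use (.F true 2 [10]), .close [5, 10] [8, 7],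
    .close [5, 10] [8, 6], .lem 25 [], .close [0] [9, 0], .use (.N true 2 [1, 10]),
    .close [10, 1, 10] [10, 9], .use (.W true 2 0 0 [1, 10]), .clash 10 11,
    .use (.W false 1 0 0 [1, 10]), .use (.W true 2 0 1 [1, 10]), .clash 10 13,
    .use (.N false 1 [1, 10]), .use (.F false 0 [10]), .close [3, 10] [15, 14, 3, 13, 11],
    .close [5, 10] [15, 7], .close [3, 10] [15, 9, 13, 14, 3, 13, 11], .clash 14 12, .clash 14 4,
    .close [10] [12, 11], .clash 10 5, .close [10] [9, 7], .close [10] [9, 2], .close [2] [9, 1],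
    .close [1, 10] [9, 8], .close [2, 5, 10] [7, 6], .close [10, 1, 10] [5, 3],
    .close [10, 1, 10] [4, 3]])

/-- A lemma and its proof. -/
def c142_49 : List Lit × List (Cmd Rule) :=
  ([.ord true [4] [0], .ord false [8, 11, 2, 11, 2, 1, 10] [2, 11, 2, 1, 10], .ord true [10, 1, 10] [8, 1, 10], .ord false [8, 1, 10] [2, 1, 10]], [
    .lem 48 [11, 2, 11, 2, 1, 10], .use (.W true 1 2 1 [11, 2, 11, 2, 1, 10]),
    .use (.W false 2 1 1 [11, 2, 11, 2, 1, 10]), .use (.N true 1 [11, 2, 11, 2, 1, 10]),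
    .close [8, 11, 2, 11, 2, 1, 10] [7, 3, 2, 1], .use (.W true 1 0 0 [11, 2, 11, 2, 1, 10]),
    .clash 7 8, .use (.W true 1 0 1 [11, 2, 11, 2, 1, 10]), .clash 7 9,
    .use (.W false 2 0 0 [11, 2, 11, 2, 1, 10]), .use (.N false 2 [11, 2, 11, 2, 1, 10]),
    .close [4, 11, 2, 11, 2, 1, 10] [11, 1, 9, 8, 4], .clash 11 10, .clash 11 6,
    .close [0, 11, 2, 11, 2, 1, 10] [10, 8], .clash 7 5, .close [8, 11, 2, 11, 2, 1, 10] [6, 1],
    .close [8, 11, 2, 11, 2, 1, 10] [5, 1]])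

/-- A lemma and its proof. -/
def c142_50 : List Lit × List (Cmd Rule) :=
  ([.ord true [4] [0], .ord true [2] [8], .ord true [8, 11, 2] [2], .ord false [4] [10]], [
    .lem 48 [1, 10], .use (.W false 2 1 0 []), .lem 11 [1, 10], .close [4, 1, 10] [6, 4],
    .lem 10 [1, 10], .use (.N false 2 []), .close [4] [8, 3], .use (.W false 2 0 0 []), .clash 8 9,
    .use (.W false 2 0 1 []), .clash 8 10, .close [6] [10, 7, 1, 2, 9], .clash 8 5,
    .close [4, 1, 10] [7, 6], .close [2] [5, 1]])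

/-- A lemma and its proof. -/
def c142_51 : List Lit × List (Cmd Rule) :=
  ([.ord true [4] [0], .ord false [8, 11, 2] [2], .ord true [11, 4, 11, 2] [1, 4], .ord false [4] [0], .ord true [10] [8], .ord false [4] [10]], [
    .use (.W true 1 2 1 [11, 2]), .use (.W false 2 1 1 [11, 2]), .lem 50 [], .close [4] [8, 0],
    .use (.N true 1 [11, 2]), .close [8, 11, 2] [9, 8, 4, 1], .use (.W true 1 0 0 [11, 2]),
    .clash 9 10, .use (.W false 2 0 0 [11, 2]), .use (.N false 2 [11, 2]),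
    .close [4, 11, 2] [12, 8, 4, 3, 2], .clash 12 11, .clash 12 7, .close [0, 11, 2] [11, 10],
    .clash 9 6, .close [8, 11, 2] [8, 1], .close [4] [8, 5], .close [8, 11, 2] [7, 1],
    .close [8, 11, 2] [6, 1]])

/-- A lemma and its proof. -/
def c142_52 : List Lit × List (Cmd Rule) :=
  ([.ord true [4] [0], .ord false [8, 11, 2, 11, 2, 11, 2, 1, 10] [2, 11, 2, 11, 2, 1, 10], .ord false [8, 1, 10] [2, 1, 10], .ord true [10, 1, 10] [8, 1, 10], .ord false [4, 11, 2, 1, 10] [2, 1, 10]], [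
    .lem 48 [11, 2, 11, 2, 1, 10], .use (.W true 1 2 1 [11, 2, 11, 2, 11, 2, 1, 10]),
    .use (.W false 2 1 1 [11, 2, 11, 2, 11, 2, 1, 10]),
    .use (.N true 1 [11, 2, 11, 2, 11, 2, 1, 10]),
    .close [8, 11, 2, 11, 2, 11, 2, 1, 10] [8, 2, 3, 1],
    .use (.W true 1 0 0 [11, 2, 11, 2, 11, 2, 1, 10]), .clash 8 9,
    .use (.W true 1 0 1 [11, 2, 11, 2, 11, 2, 1, 10]), .clash 8 10,
    .use (.W false 2 0 0 [11, 2, 11, 2, 11, 2, 1, 10]), .use (.F false 2 [4, 11, 2, 11, 2, 1, 10]),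
    .close [1, 4, 11, 2, 11, 2, 1, 10] [12, 5],
    .close [3, 4, 11, 2, 11, 2, 1, 10] [12, 1, 10, 9, 2, 3, 5],
    .use (.N false 2 [11, 2, 11, 2, 11, 2, 1, 10]),
    .close [4, 11, 2, 11, 2, 11, 2, 1, 10] [13, 2, 3, 5, 12], .clash 13 11, .clash 13 7,
    .close [0, 11, 2, 11, 2, 11, 2, 1, 10] [11, 9], .clash 8 6,
    .close [8, 11, 2, 11, 2, 11, 2, 1, 10] [7, 1], .close [8, 11, 2, 11, 2, 11, 2, 1, 10] [6, 1]])

/-- A lemma and its proof. -/
def c142_53 : List Lit × List (Cmd Rule) :=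
  ([.ord true [4] [0], .ord false [8, 11, 2, 11, 2] [2, 11, 2], .ord false [6] [0], .ord true [10] [6], .ord false [4, 11, 2, 11, 2] [2, 11, 2]], [
    .lem 48 [1, 10], .lem 11 [1, 10], .close [4, 1, 10] [6, 5], .lem 10 [1, 10],
    .use (.W true 1 2 1 [11, 2, 11, 2]), .use (.W false 2 1 1 [11, 2, 11, 2]),
    .use (.N true 1 [11, 2, 11, 2]), .close [8, 11, 2, 11, 2] [10, 2, 3, 7, 1],
    .use (.W true 1 0 0 [11, 2, 11, 2]), .clash 10 11, .use (.W false 2 0 0 [11, 2, 11, 2]),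
    .use (.N false 2 [11, 2, 11, 2]), .close [4, 11, 2, 11, 2] [13, 4], .clash 13 12, .clash 13 9,
    .close [0, 11, 2, 11, 2] [12, 11], .clash 10 8, .close [8, 11, 2, 11, 2] [9, 1],
    .close [8, 11, 2, 11, 2] [8, 1], .close [4, 1, 10] [7, 6]])

/-- A lemma and its proof. -/
def c142_54 : List Lit × List (Cmd Rule) :=
  ([.ord true [4] [0], .ord false [2] [4], .ord true [4] [10], .ord true [10] [8]], [
    .lem 48 [1, 10], .use (.W false 2 1 0 []), .lem 11 [1, 10], .close [4, 1, 10] [6, 4],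
    .lem 10 [1, 10], .use (.N false 2 []), .close [4] [8, 7, 2, 1, 0], .use (.W false 2 0 0 []),
    .clash 8 9, .use (.W false 2 0 1 []), .clash 8 10, .close [6] [10, 7, 2, 1, 9], .clash 8 5,
    .close [4, 1, 10] [7, 6], .close [2] [5, 3, 2, 1]])

/-- A lemma and its proof. -/
def c142_55 : List Lit × List (Cmd Rule) :=
  ([.ord true [4] [0], .ord false [8, 11, 2, 11, 2] [2, 11, 2], .ord false [8] [2], .ord false [4] [0], .ord true [2] [8, 11, 2], .ord true [10] [8], .ord true [11, 4, 11, 2] [1, 4]], [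
    .lem 48 [1, 10], .use (.W true 1 2 1 [11, 2, 11, 2]), .use (.W false 2 1 1 [11, 2, 11, 2]),
    .use (.F false 2 [10]), .close [1, 10] [10, 7], .close [3, 10] [10, 3, 6, 4, 2, 4, 2],
    .use (.N true 1 [11, 2, 11, 2]), .close [8, 11, 2, 11, 2] [11, 4, 2, 1],
    .use (.W true 1 0 0 [11, 2, 11, 2]), .clash 11 12, .use (.W false 2 0 0 [11, 2, 11, 2]),
    .use (.N false 2 [11, 2, 11, 2]), .close [10, 1, 10] [10, 3, 6, 14, 14, 4, 2, 4, 2, 7],
    .clash 14 13, .clash 14 9, .close [0, 11, 2, 11, 2] [13, 12], .clash 11 8,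
    .close [8, 11, 2, 11, 2] [9, 1], .close [8, 11, 2, 11, 2] [8, 1]])

/-- A lemma and its proof. -/
def c142_56 : List Lit × List (Cmd Rule) :=
  ([.ord true [4] [0], .ord true [10, 1, 10] [4, 1, 10]], [
    .lem 48 [1, 10], .lem 11 [1, 10], .close [4, 1, 10] [3, 2], .lem 10 [1, 10],
    .use (.F false 2 [10]), .close [1, 10] [5, 2], .close [3, 10] [5, 2, 4],
    .close [1, 10] [5, 2, 3, 1, 1], .close [4, 1, 10] [4, 3]])

/-- A lemma and its proof. -/
def c142_57 : List Lit × List (Cmd Rule) :=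
  ([.ord true [4] [0], .ord false [2] [4], .ord false [8] [2], .ord true [10] [8]], [
    .lem 48 [1, 10], .lem 11 [1, 10], .close [4, 1, 10] [5, 4], .lem 10 [1, 10],
    .use (.F false 2 [10]), .close [1, 10] [7, 4], .close [3, 10] [7, 4, 6],
    .close [1, 10] [7, 4, 6, 1, 2, 3, 0, 1, 2, 3], .close [4, 1, 10] [6, 5]])

/-- A lemma and its proof. -/
def c142_58 : List Lit × List (Cmd Rule) :=
  ([.ord true [4] [0], .walk false false 2 0 [1, 10], .ord false [8] [2], .ord true [10] [8], .ord false [4] [0], .ord true [11, 4, 11, 2] [1, 4]], [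
    .lem 48 [1, 10], .lem 11 [1, 10], .close [4, 1, 10] [7, 6], .lem 10 [1, 10],
    .use (.W false 2 0 0 [1, 10]), .clash 1 9, .use (.W false 2 0 1 [1, 10]), .clash 1 10,
    .use (.F false 2 [10]), .close [1, 10] [11, 6], .close [3, 10] [11, 4, 5, 2, 3, 2, 3],
    .use (.F true 1 [2, 1, 10]), .close [1, 10] [12, 8], .close [1, 10] [12, 7], .lem 51 [],
    .close [4] [13, 0], .lem 55 [], .close [4] [14, 0], .use (.W true 1 2 1 [11, 2, 11, 2, 11, 2]),
    .use (.W false 2 1 1 [11, 2, 11, 2, 11, 2]), .use (.N true 1 [11, 2, 11, 2, 11, 2]),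
    .close [8, 11, 2, 11, 2, 11, 2] [17, 2, 3, 14, 13, 3, 12, 8, 9, 10, 11, 9, 10, 11, 4, 5],
    .use (.W true 1 0 0 [11, 2, 11, 2, 11, 2]), .clash 17 18,
    .use (.W false 2 0 0 [11, 2, 11, 2, 11, 2]), .use (.N false 2 [11, 2, 11, 2, 11, 2]),
    .close [4, 11, 2, 11, 2, 11, 2] [20, 2, 3, 2, 3, 2, 3, 9, 10, 11, 9, 10, 11, 4, 5],
    .clash 20 19, .clash 20 16, .close [0, 11, 2, 11, 2, 11, 2] [19, 18], .clash 17 15,
    .close [8, 11, 2, 11, 2, 11, 2] [16, 14, 13, 3, 12, 8, 9, 10, 11, 9, 10, 11, 4, 5],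
    .close [8, 11, 2, 11, 2, 11, 2] [15, 14, 13, 3, 12, 8, 9, 10, 11, 9, 10, 11, 4, 5],
    .close [8] [14, 2], .close [4] [14, 4], .close [2] [14, 13], .close [10] [14, 3],
    .close [11, 4, 11, 2] [14, 5], .close [11, 4, 11, 2] [13, 5], .close [4] [13, 4],
    .close [10] [13, 3], .close [4] [13, 4, 5, 2, 3], .close [4, 1, 10] [8, 7]])

/-- A lemma and its proof. -/
def c142_59 : List Lit × List (Cmd Rule) :=
  ([.ord true [4] [0], .ord true [2, 11, 2, 11, 2] [8, 11, 2, 11, 2, 11, 2], .ord true [2, 11, 2] [8, 11, 2, 11, 2], .ord true [10] [8], .ord false [1, 10, 1, 10] [5, 10, 1, 10], .ord false [4] [0], .ord true [2] [8, 11, 2], .ord true [11, 4, 11, 2] [1, 4], .ord true [11, 4, 11, 2, 11, 2, 11, 2, 1, 10] [1, 4, 11, 2, 11, 2, 1, 10], .ord true [10, 1, 10] [8, 1, 10], .ord false [8, 1, 10] [2, 1, 10]], [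
    .lem 48 [1, 10], .lem 48 [11, 2, 11, 2, 1, 10], .lem 11 [1, 10], .close [4, 1, 10] [13, 11],
    .lem 10 [1, 10], .use (.F false 2 [10]), .close [1, 10] [15, 11], .close [3, 10] [15, 11, 14],
    .use (.F true 1 [2, 1, 10]), .close [1, 10] [16, 14], .close [1, 10] [16, 13],
    .use (.F false 2 [10, 1, 10]), .close [1, 10, 1, 10] [17, 4],
    .close [3, 10, 1, 10] [17, 15, 11, 10, 9, 10, 9], .use (.F true 1 [2, 1, 10, 1, 10]),
    .close [1, 10, 1, 10] [18, 15, 5, 7, 1, 2, 6, 3, 16, 10, 9, 15, 10, 9],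
    .close [1, 10, 1, 10] [18, 15, 5, 7, 1, 2, 6, 3, 16, 10, 9, 15, 10, 9, 4], .lem 49 [],
    .close [4] [19, 0], .lem 52 [], .close [4] [20, 0], .use (.W false 2 1 1 [11, 2, 1, 10]),
    .use (.N false 2 [11, 2, 1, 10]), .close [4, 11, 2, 1, 10] [22, 10, 9, 15, 11],
    .use (.W false 2 0 0 [11, 2, 1, 10]), .clash 22 23, .use (.W false 2 0 1 [11, 2, 1, 10]),
    .clash 22 24, .close [6, 11, 2, 1, 10] [24, 10, 9, 17, 15, 5, 7, 1, 2, 6, 3, 16, 23],
    .clash 22 21,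
    .close [8, 11, 2, 1, 10] [21, 9, 18, 17, 15, 5, 7, 1, 2, 6, 3, 16, 12, 8, 20, 19],
    .close [8, 1, 10] [20, 10], .close [10, 1, 10] [20, 9],
    .close [4, 11, 2, 1, 10] [20, 10, 9, 15, 11], .close [10, 1, 10] [19, 9],
    .close [8, 1, 10] [19, 10], .close [4, 1, 10] [14, 13]])

/-- A lemma and its proof. -/
def c142_60 : List Lit × List (Cmd Rule) :=
  ([.ord true [4] [0], .ord true [2] [8, 11, 2], .ord false [8] [2], .ord true [10] [8], .ord false [1, 10, 1, 10] [5, 10, 1, 10], .ord false [4] [0], .ord true [11, 4, 11, 2] [1, 4], .ord true [11, 4, 11, 2, 11, 2, 11, 2, 1, 10] [1, 4, 11, 2, 11, 2, 1, 10], .ord true [10, 1, 10] [8, 1, 10], .ord false [8, 1, 10] [2, 1, 10]], [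
    .lem 48 [1, 10], .lem 48 [11, 2, 11, 2, 1, 10], .lem 11 [1, 10], .close [4, 1, 10] [12, 10],
    .lem 10 [1, 10], .use (.F false 2 [10]), .close [1, 10] [14, 10],
    .close [3, 10] [14, 5, 6, 1, 2, 1, 2], .use (.F true 1 [2, 1, 10]), .close [1, 10] [15, 13],
    .close [1, 10] [15, 12], .use (.F false 2 [10, 1, 10]), .close [1, 10, 1, 10] [16, 4],
    .close [3, 10, 1, 10] [16, 14, 10, 9, 8, 9, 8], .lem 49 [], .close [4] [17, 0], .lem 52 [],
    .close [4] [18, 0], .lem 55 [], .close [4] [19, 0], .lem 59 [], .close [4] [20, 0],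
    .use (.W true 1 2 1 [11, 2, 11, 2, 11, 2]), .use (.W false 2 1 1 [11, 2, 11, 2, 11, 2]),
    .use (.N true 1 [11, 2, 11, 2, 11, 2]), .close [8, 11, 2, 11, 2, 11, 2] [23, 1, 2, 20],
    .use (.W true 1 0 0 [11, 2, 11, 2, 11, 2]), .clash 23 24,
    .use (.W false 2 0 0 [11, 2, 11, 2, 11, 2]), .use (.N false 2 [11, 2, 11, 2, 11, 2]),
    .use (.F true 1 [2, 1, 10, 1, 10]),
    .close [1, 10, 1, 10] [27, 16, 14, 5, 6, 26, 19, 1, 3, 15, 12, 8, 9, 8],
    .close [1, 10, 1, 10] [27, 16, 14, 5, 6, 26, 19, 1, 3, 15, 12, 8, 9, 8, 4],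
    .use (.W false 2 1 1 [11, 2, 1, 10]), .use (.N false 2 [11, 2, 1, 10]),
    .close [4, 11, 2, 1, 10] [29, 9, 8, 14, 10], .use (.W false 2 0 0 [11, 2, 1, 10]),
    .clash 29 30, .use (.W false 2 0 1 [11, 2, 1, 10]), .clash 29 31,
    .close [6, 11, 2, 1, 10] [31, 9, 8, 16, 14, 5, 6, 26, 26, 19, 1, 3, 15, 12, 8, 14, 10, 30],
    .clash 29 28,
    .close [8, 11, 2, 1, 10] [28, 8, 27, 16, 14, 5, 6, 26, 26, 19, 1, 3, 15, 12, 8, 14, 10, 11, 7, 18, 17],
    .clash 26 25, .clash 26 22, .close [0, 11, 2, 11, 2, 11, 2] [25, 24], .clash 23 21,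
    .close [8, 11, 2, 11, 2, 11, 2] [22, 20], .close [8, 11, 2, 11, 2, 11, 2] [21, 20],
    .close [2, 11, 2] [20, 19], .close [10] [20, 3], .close [1, 10, 1, 10] [20, 4],
    .close [4] [20, 5], .close [2] [20, 1], .close [11, 4, 11, 2] [20, 6],
    .close [11, 4, 11, 2, 11, 2, 11, 2, 1, 10] [20, 7], .close [10, 1, 10] [20, 8],
    .close [8, 1, 10] [20, 9], .close [8] [19, 2], .close [4] [19, 5], .close [2] [19, 1],
    .close [10] [19, 3], .close [11, 4, 11, 2] [19, 6], .close [8, 1, 10] [18, 9],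
    .close [10, 1, 10] [18, 8], .close [4, 11, 2, 1, 10] [18, 9, 8, 14, 10],
    .close [10, 1, 10] [17, 8], .close [8, 1, 10] [17, 9], .close [4, 1, 10] [13, 12]])

/-- A lemma and its proof. -/
def c142_61 : List Lit × List (Cmd Rule) :=
  ([.ord true [4] [0], .ord false [8] [2], .ord true [10] [8]], [
    .lem 48 [1, 10], .lem 48 [11, 2, 11, 2, 1, 10], .lem 11 [1, 10], .close [4, 1, 10] [5, 3],
    .lem 10 [1, 10], .use (.F false 2 [10]), .close [1, 10] [7, 3], .close [3, 10] [7, 3, 6],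
    .lem 56 [], .close [4] [8, 0], .lem 57 [], .close [4] [9, 0], .lem 12 [],
    .use (.F false 2 [4]), .close [1, 4] [11, 0], .close [3, 4] [11, 9], .lem 51 [],
    .close [4] [12, 0], .lem 58 [], .close [4] [13, 0], .use (.N false 2 [1, 10]),
    .close [4, 1, 10] [14, 8], .clash 14 13, .use (.W false 2 1 0 [1, 10]), .clash 14 15,
    .use (.W false 2 1 1 [1, 10]), .clash 14 16, .lem 3 [10, 1, 10], .use (.F false 2 [10, 1, 10]),
    .close [1, 10, 1, 10] [18, 17], .close [3, 10, 1, 10] [18, 8, 15, 16], .lem 60 [],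
    .close [4] [19, 0], .close [2] [19, 12], .close [8] [19, 1], .close [10] [19, 2],
    .close [1, 10, 1, 10] [19, 17], .close [4] [19, 10], .close [11, 4, 11, 2] [19, 11],
    .use (.F false 2 [4, 11, 2, 11, 2, 1, 10]), .close [1, 4, 11, 2, 11, 2, 1, 10] [20, 4],
    .close [11, 2, 11, 2, 1, 10] [20, 15, 16, 20, 15, 16, 15, 16, 15, 16, 17, 18, 7, 3],
    .close [1, 4, 11, 2, 11, 2, 1, 10] [20, 19], .close [10, 1, 10] [19, 16],
    .close [8, 1, 10] [19, 15], .close [3, 10, 1, 10] [17, 8, 15, 16], .close [8] [13, 1],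
    .close [10] [13, 2], .close [4] [13, 10], .close [11, 4, 11, 2] [13, 11],
    .close [11, 4, 11, 2] [12, 11], .close [4] [12, 10], .close [10] [12, 2],
    .close [4] [12, 10, 11, 1, 2], .close [4] [10, 9], .close [8] [9, 1], .close [10] [9, 2],
    .close [4, 1, 10] [6, 5]])

/-- A lemma and its proof. -/
def c142_62 : List Lit × List (Cmd Rule) :=
  ([.ord true [4] [0], .ord true [10] [4], .ord false [4] [0], .ord true [11, 4, 11, 2] [1, 4]], [
    .lem 48 [1, 10], .lem 10 [1, 10], .close [2, 1, 10] [5, 1, 2, 3, 2, 1], .lem 11 [1, 10],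
    .close [4, 1, 10] [6, 4], .close [2, 1, 10] [6, 5]])

/-- A lemma and its proof. -/
def c142_63 : List Lit × List (Cmd Rule) :=
  ([.ord true [4] [0], .ord true [10] [8], .ord false [4] [0], .ord true [11, 4, 11, 2] [1, 4]], [
    .lem 48 [1, 10], .lem 11 [1, 10], .close [4, 1, 10] [5, 4], .lem 10 [1, 10],
    .use (.F false 2 [10]), .close [1, 10] [7, 4], .close [3, 10] [7, 4, 6],
    .use (.F true 1 [2, 1, 10]), .close [1, 10] [8, 6], .close [1, 10] [8, 5], .lem 61 [],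
    .close [4] [9, 0], .use (.W false 2 1 0 []), .lem 62 [], .close [4] [11, 0],
    .use (.N false 2 []), .close [4] [12, 11], .use (.W false 2 0 0 []), .clash 12 13,
    .use (.W false 2 0 1 []), .clash 12 14, .lem 53 [], .close [4] [15, 0],
    .use (.W true 1 2 1 [11, 2, 11, 2, 11, 2]), .use (.W false 2 1 1 [11, 2, 11, 2, 11, 2]),
    .use (.N true 1 [11, 2, 11, 2, 11, 2]),
    .close [8, 11, 2, 11, 2, 11, 2] [18, 13, 14, 6, 15, 13, 14, 6, 9, 1, 8, 6, 13, 14, 7, 13, 14, 7, 2, 3],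
    .use (.W true 1 0 0 [11, 2, 11, 2, 11, 2]), .clash 18 19,
    .use (.W false 2 0 0 [11, 2, 11, 2, 11, 2]), .use (.N false 2 [11, 2, 11, 2, 11, 2]),
    .close [4, 11, 2, 11, 2, 11, 2] [21, 13, 14, 6, 13, 14, 6, 13, 14, 6, 13, 14, 7, 13, 14, 7, 2, 3],
    .clash 21 20, .clash 21 17, .close [0, 11, 2, 11, 2, 11, 2] [20, 19], .clash 18 16,
    .close [8, 11, 2, 11, 2, 11, 2] [17, 15, 13, 14, 6, 9, 1, 8, 6, 13, 14, 7, 13, 14, 7, 2, 3],
    .close [8, 11, 2, 11, 2, 11, 2] [16, 15, 13, 14, 6, 9, 1, 8, 6, 13, 14, 7, 13, 14, 7, 2, 3],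
    .close [6] [15, 13], .close [10] [15, 14],
    .close [4, 11, 2, 11, 2] [15, 13, 14, 6, 13, 14, 6, 13, 14, 7, 2, 3], .clash 12 10,
    .close [4] [11, 2], .close [11, 4, 11, 2] [11, 3], .close [2] [10, 9], .close [10] [9, 1],
    .close [4, 1, 10] [6, 5]])

/-- A lemma and its proof. -/
def c142_64 : List Lit × List (Cmd Rule) :=
  ([.ord true [4] [0], .ord true [10] [4], .ord true [2] [4]], [
    .lem 48 [1, 10], .lem 11 [1, 10], .close [4, 1, 10] [4, 3], .lem 10 [1, 10],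
    .use (.F false 2 [10]), .close [1, 10] [6, 3], .close [3, 10] [6, 3, 5],
    .close [1, 10] [6, 3, 5, 1, 1, 3], .close [4, 1, 10] [5, 4]])

/-- A lemma and its proof. -/
def c142_65 : List Lit × List (Cmd Rule) :=
  ([.ord true [4] [0], .ord false [2] [4]], [
    .lem 48 [1, 10], .lem 11 [1, 10], .close [4, 1, 10] [3, 2], .lem 10 [1, 10], .lem 64 [],
    .close [4] [5, 0], .lem 54 [], .close [4] [6, 0], .close [2] [6, 1], .close [4] [6, 5],
    .use (.W false 2 1 1 []), .use (.N false 2 []), .close [4] [8, 5], .use (.W false 2 0 0 []),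
    .clash 8 9, .use (.W false 2 0 1 []), .clash 8 10, .close [6] [10, 4, 5, 1, 9], .clash 8 7,
    .close [8] [7, 6], .close [2] [5, 1], .close [4, 1, 10] [4, 3]])

/-- A lemma and its proof. -/
def c142_66 : List Lit × List (Cmd Rule) :=
  ([.ord true [4] [0]], [
    .lem 48 [1, 10], .lem 11 [1, 10], .close [4, 1, 10] [2, 1], .lem 10 [1, 10], .lem 65 [],
    .close [4] [4, 0], .lem 12 [], .use (.F false 2 [4]), .close [1, 4] [6, 0],
    .close [3, 4] [6, 4], .lem 62 [], .close [4] [7, 0], .lem 63 [], .close [4] [8, 0],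
    .use (.W true 1 2 1 []), .use (.W false 2 1 1 []), .use (.N false 2 []), .close [4] [11, 7],
    .use (.W false 2 0 0 []), .clash 11 12, .use (.W true 1 0 0 []), .use (.W false 2 0 1 []),
    .clash 11 14, .use (.N true 1 []), .close [8] [15, 12, 14, 3, 8], .clash 15 13, .clash 15 9,
    .close [6] [13, 12], .clash 11 10, .close [8] [10, 8], .close [8] [9, 8], .close [4] [8, 5],
    .close [11, 4, 11, 2] [8, 6], .close [4] [7, 5], .close [11, 4, 11, 2] [7, 6],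
    .close [4] [5, 4], .close [4, 1, 10] [3, 2]])

/-- A lemma and its proof. -/
def c142_67 : List Lit × List (Cmd Rule) :=
  ([], [
    .lem 48 [], .lem 66 [], .close [4] [1, 0]])

/-- The lemmas. -/
def c142 : List (List Lit × List (Cmd Rule)) := [
  c142_0, c142_1, c142_2, c142_3, c142_4, c142_5, c142_6, c142_7, c142_8, c142_9, c142_10, c142_11,
  c142_12, c142_13, c142_14, c142_15, c142_16, c142_17, c142_18, c142_19, c142_20, c142_21,
  c142_22, c142_23, c142_24, c142_25, c142_26, c142_27, c142_28, c142_29, c142_30, c142_31,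
  c142_32, c142_33, c142_34, c142_35, c142_36, c142_37, c142_38, c142_39, c142_40, c142_41,
  c142_42, c142_43, c142_44, c142_45, c142_46, c142_47, c142_48, c142_49, c142_50, c142_51,
  c142_52, c142_53, c142_54, c142_55, c142_56, c142_57, c142_58, c142_59, c142_60, c142_61,
  c142_62, c142_63, c142_64, c142_65, c142_66, c142_67]

theorem c142_check : checkAll (cl 3 (fun k => [1, 4, 2].getD k 0)) [] c142 = true := by
  decide +kernel

theorem c142_mem : ([] : List Lit) ∈ c142.map Prod.fst :=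
  List.mem_of_getElem? (i := 67) rfl

end Pool.Agent.Helper31.RING
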