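import Mathlib
import Pool.Agent.Helper31.RING.Ring

/-!
A certificate.
-/

set_option autoImplicit false

namespace Pool.Agent.Helper31.RING

/-- A lemma and its proof. -/
def c223_0 : List Lit × List (Cmd Rule) :=
  ([.ord true [4] [0], .ord true [2] [4], .ord true [0] [8]], [
    .use (.M true 1 []), .close [0] [3, 2], .close [2] [3, 2, 0, 1], .close [4] [3, 2, 0]])

/-- A lemma and its proof. -/
def c223_1 : List Lit × List (Cmd Rule) :=
  ([.ord true [4] [0], .ord true [2] [4], .walk false true 0 2 [7, 4], .ord true [6] [4]], [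
    .use (.W true 0 2 0 [7, 4]), .clash 2 4, .use (.W true 0 2 1 [7, 4]), .clash 2 5,
    .close [4] [5, 4, 3]])

/-- A lemma and its proof. -/
def c223_2 : List Lit × List (Cmd Rule) :=
  ([.ord true [4] [0], .ord true [2] [4], .ord true [4] [6], .ord true [6, 3, 0] [0, 7, 4]], [
    .use (.M true 0 []), .use (.F false 1 [4]), .close [1, 4] [5, 1, 0], .close [] [5, 1],
    .lem 0 [], .close [4] [6, 0], .close [2] [6, 1], .use (.W true 0 1 1 [3, 0]),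
    .use (.W false 1 0 1 [9, 0, 3, 4]), .use (.N true 0 [3, 0]),
    .close [6, 3, 0] [9, 4, 2, 1, 2, 3], .clash 9 7, .use (.W true 0 2 1 [3, 0]), .clash 9 10,
    .use (.W false 1 2 1 [9, 0, 3, 4]), .use (.N false 1 [9, 0, 3, 4]),
    .close [2, 9, 0, 3, 4] [12, 1, 6, 5], .clash 12 8, .clash 12 11,
    .close [10, 9, 0, 3, 4] [11, 1, 2, 3, 10, 6, 5], .close [6, 9, 0, 3, 4] [8, 1, 2, 3, 6, 5],
    .close [6, 3, 0] [7, 6, 5, 1, 2, 3], .close [2] [4, 2, 1], .close [4] [4, 2]])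

/-- A lemma and its proof. -/
def c223_3 : List Lit × List (Cmd Rule) :=
  ([.ord true [4] [0], .ord true [2] [4]], [
    .use (.F true 0 [0]), .close [] [2, 0, 1], .close [] [2, 0], .use (.F false 1 [4]),
    .close [1, 4] [3, 1, 0], .close [] [3, 1], .lem 0 [], .close [4] [4, 0], .close [2] [4, 1],
    .lem 2 [], .close [4] [5, 0], .close [2] [5, 1], .lem 1 [], .close [4] [6, 0],
    .close [2] [6, 1], .use (.N true 0 [7, 4]), .close [4] [7, 5, 0], .use (.W true 0 1 0 [7, 4]),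
    .clash 7 8, .use (.W true 0 1 1 [7, 4]), .clash 7 9, .use (.W true 0 1 1 [3, 0]),
    .use (.W false 1 0 1 [9, 0, 3, 4]), .use (.N true 0 [3, 0]),
    .close [6, 3, 0] [12, 4, 3, 1, 0, 9, 2], .clash 12 10, .use (.W true 0 2 1 [3, 0]),
    .clash 12 13, .use (.W false 1 2 1 [9, 0, 3, 4]), .use (.N false 1 [9, 0, 3, 4]),
    .close [2, 9, 0, 3, 4] [15, 1, 4, 3], .clash 15 11, .clash 15 14,
    .close [10, 9, 0, 3, 4] [14, 9, 8, 2, 13, 4, 3], .close [6, 9, 0, 3, 4] [11, 9, 8, 2, 4, 3],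
    .close [6, 3, 0] [10, 4, 3, 9, 8, 2], .clash 7 6, .close [6] [6, 5], .close [6, 3, 0] [5, 2]])

/-- A lemma and its proof. -/
def c223_4 : List Lit × List (Cmd Rule) :=
  ([.ord true [0] [4], .ord true [4] [2], .walk false false 0 2 [7, 4], .ord true [4] [6]], [
    .use (.W false 0 2 0 [7, 4]), .clash 2 4, .use (.W false 0 2 1 [7, 4]), .clash 2 5,
    .close [10, 7, 4] [5, 3, 4]])

/-- A lemma and its proof. -/
def c223_5 : List Lit × List (Cmd Rule) :=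
  ([.ord true [0] [4], .ord true [4] [2], .ord true [6] [4], .ord true [8] [2, 9, 0, 3, 4], .ord false [0] [8]], [
    .use (.F false 0 [0]), .close [3, 0] [5, 1, 0], .close [5, 0] [5, 0],
    .use (.W false 0 1 1 [7, 0, 7, 4]), .use (.W true 1 0 1 [9, 0, 3, 4]),
    .use (.N false 0 [7, 0, 7, 4]), .close [0, 7, 0, 7, 4] [8, 2, 4, 1, 3, 4, 5], .clash 8 6,
    .use (.W false 0 2 1 [7, 0, 7, 4]), .clash 8 9, .use (.W true 1 2 1 [9, 0, 3, 4]),
    .use (.N true 1 [9, 0, 3, 4]), .close [0, 3, 4] [11, 3, 4, 1], .clash 11 7, .clash 11 10,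
    .close [0, 3, 4] [10, 3, 4, 5, 9, 2, 1], .close [0, 3, 4] [7, 3, 4, 5, 2, 1],
    .close [8, 7, 0, 7, 4] [6, 2, 1, 3, 4, 5]])

/-- A lemma and its proof. -/
def c223_6 : List Lit × List (Cmd Rule) :=
  ([.ord true [0] [4], .ord true [4] [2], .ord true [8] [2, 9, 0, 3, 4], .ord false [0] [8]], [
    .use (.F false 0 [0]), .close [3, 0] [4, 1, 0], .close [5, 0] [4, 0], .lem 5 [],
    .close [0] [5, 0], .close [4] [5, 1], .lem 4 [], .close [0] [6, 0], .close [4] [6, 1],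
    .use (.N false 0 [7, 4]), .close [0, 7, 4] [7, 0, 5], .use (.W false 0 1 0 [7, 4]), .clash 7 8,
    .use (.W false 0 1 1 [7, 4]), .clash 7 9, .use (.W false 0 1 1 [7, 0, 7, 4]),
    .use (.W true 1 0 1 [9, 0, 3, 4]), .use (.N false 0 [7, 0, 7, 4]),
    .close [0, 7, 0, 7, 4] [12, 0, 5], .clash 12 10, .use (.W false 0 2 1 [7, 0, 7, 4]),
    .clash 12 13, .use (.W true 1 2 1 [9, 0, 3, 4]), .use (.N true 1 [9, 0, 3, 4]),
    .close [0, 3, 4] [15, 2, 3, 1], .clash 15 11, .clash 15 14,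
    .close [0, 3, 4] [14, 2, 3, 4, 13, 8, 9], .close [0, 3, 4] [11, 2, 3, 4, 8, 9],
    .close [8, 7, 0, 7, 4] [10, 8, 9, 2, 3, 4], .clash 7 6, .close [4] [6, 5], .close [8] [5, 2],
    .close [0] [5, 3]])

/-- A lemma and its proof. -/
def c223_7 : List Lit × List (Cmd Rule) :=
  ([.ord true [0] [4], .ord true [4] [2]], [
    .use (.F true 1 [4]), .close [3, 4] [2, 0, 1], .close [3, 4] [2, 1], .lem 6 [],
    .close [0] [3, 0], .close [4] [3, 1], .close [8] [3, 2], .use (.M false 1 []),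
    .close [8] [4, 3], .close [8] [4, 1, 0, 3], .close [8] [4, 0, 3]])

/-- A lemma and its proof. -/
def c223_8 : List Lit × List (Cmd Rule) :=
  ([.ord true [5] [1], .ord true [3] [5]], [
    .lem 7 [5], .close [0, 5] [2, 0], .close [] [2, 1]])

/-- A lemma and its proof. -/
def c223_9 : List Lit × List (Cmd Rule) :=
  ([.ord true [1] [5], .ord true [5] [3]], [
    .lem 3 [5], .close [] [2, 0], .close [2, 5] [2, 1]])

/-- A lemma and its proof. -/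
def c223_10 : List Lit × List (Cmd Rule) :=
  ([.ord true [5] [3], .walk false true 2 1 [11, 2, 5], .ord true [] [4, 11, 2, 5]], [
    .use (.W true 2 1 0 [11, 2, 5]), .clash 1 3, .use (.W true 2 1 1 [11, 2, 5]), .clash 1 4,
    .close [2, 5] [4, 3, 2]])

/-- A lemma and its proof. -/
def c223_11 : List Lit × List (Cmd Rule) :=
  ([.ord true [5] [3], .walk false false 1 2 [9, 2, 9, 0, 5], .ord false [8, 5] [0, 5], .ord true [4, 9, 2, 9, 0, 5] [2, 5]], [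
    .use (.W false 1 2 0 [9, 2, 9, 0, 5]), .clash 1 4, .use (.W false 1 2 1 [9, 2, 9, 0, 5]),
    .clash 1 5, .close [10, 9, 2, 9, 0, 5] [5, 2, 3, 4]])

/-- A lemma and its proof. -/
def c223_12 : List Lit × List (Cmd Rule) :=
  ([.ord true [5] [3], .ord false [8, 5] [0, 5], .ord true [4, 9, 2, 9, 0, 5] [2, 5], .ord false [5] [3]], [
    .lem 3 [5, 2, 5], .lem 11 [], .close [5] [5, 0], .use (.N false 1 [9, 2, 9, 0, 5]),
    .close [2, 9, 2, 9, 0, 5] [6, 1, 0, 2], .use (.W false 1 0 0 [9, 2, 9, 0, 5]), .clash 6 7,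
    .use (.W false 1 0 1 [9, 2, 9, 0, 5]), .clash 6 8, .close [6, 9, 2, 9, 0, 5] [8, 1, 4, 2, 7],
    .clash 6 5, .close [8, 5] [5, 1], .close [4, 9, 2, 9, 0, 5] [5, 2], .close [2, 5, 2, 5] [4, 0]])

/-- A lemma and its proof. -/
def c223_13 : List Lit × List (Cmd Rule) :=
  ([.ord true [5] [3], .ord true [7, 4, 1] [3, 0, 7, 4, 1], .ord false [5, 0, 7, 4, 1] [3, 0, 7, 4, 1], .ord true [2, 9, 0, 3, 0, 7, 4, 1] [8, 5, 0, 7, 4, 1], .ord true [8, 5, 0, 7, 4, 1] [2, 5, 0, 7, 4, 1]], [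
    .close [9, 2, 9, 0, 3, 0, 7, 4, 1] [1, 2, 4, 4, 3]])

/-- A lemma and its proof. -/
def c223_14 : List Lit × List (Cmd Rule) :=
  ([.ord true [5] [3], .ord true [3, 4, 11, 2, 5] [5], .ord false [] [4, 1], .ord true [10, 1] [4, 11, 4, 11, 2, 5], .ord false [4, 11, 2, 5] []], [
    .close [11, 4, 11, 4, 11, 2, 5] [3, 2, 0, 1, 1, 1]])

/-- A lemma and its proof. -/
def c223_15 : List Lit × List (Cmd Rule) :=
  ([.ord true [5] [3], .walk false false 1 0 [9, 0, 3], .ord true [4, 9, 2, 9, 0, 3] [], .ord false [8, 5] []], [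
    .use (.W false 1 0 0 [9, 0, 3]), .clash 1 4, .use (.W false 1 0 1 [9, 0, 3]), .clash 1 5,
    .close [6, 9, 0, 3] [5, 3, 2, 4]])

/-- A lemma and its proof. -/
def c223_16 : List Lit × List (Cmd Rule) :=
  ([.ord true [5] [3], .ord false [4, 11, 2, 5] [8, 11, 4, 11, 2, 5], .ord false [2, 11, 4, 11, 2, 5] [8, 11, 4, 11, 2, 5], .ord false [5] [3, 4, 11, 2, 5]], [
    .use (.W true 2 1 1 [11, 4, 11, 2, 5]), .use (.W false 1 2 1 [11, 4, 11, 2, 5]),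
    .use (.N true 2 [11, 4, 11, 2, 5]), .close [4, 11, 2, 5] [6, 3],
    .use (.W true 2 0 0 [11, 4, 11, 2, 5]), .clash 6 7, .use (.W false 1 0 0 [11, 4, 11, 2, 5]),
    .use (.N false 1 [11, 4, 11, 2, 5]), .close [2, 11, 4, 11, 2, 5] [9, 2], .clash 9 8,
    .clash 9 5, .close [0, 11, 4, 11, 2, 5] [8, 7], .clash 6 4, .close [4, 11, 2, 5] [5, 1],
    .close [4, 11, 2, 5] [4, 1]])

/-- A lemma and its proof. -/
def c223_17 : List Lit × List (Cmd Rule) :=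
  ([.ord true [5] [3], .ord true [6, 1] [10, 1], .ord false [6, 5, 0, 7, 4, 1] [0, 5, 0, 7, 4, 1], .ord false [10, 1] [4, 1], .ord false [0, 5, 0, 7, 4, 1] [], .ord true [0, 5] [2, 5], .ord true [7, 0, 7, 4, 1, 2, 5] [5]], [
    .close [6, 5] [6, 5, 4, 2, 2, 3, 1]])

/-- A lemma and its proof. -/
def c223_18 : List Lit × List (Cmd Rule) :=
  ([.ord true [5] [3], .ord false [2, 5] [8, 11, 2, 5], .ord false [5] [3, 4, 11, 2, 5], .ord false [4, 11, 2, 5] []], [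
    .use (.W true 2 1 1 [11, 2, 5]), .use (.W false 1 2 1 [11, 2, 5]), .use (.N true 2 [11, 2, 5]),
    .close [2, 5] [6, 2], .use (.W true 2 0 0 [11, 2, 5]), .clash 6 7,
    .use (.W false 1 0 0 [11, 2, 5]), .use (.N false 1 [11, 2, 5]), .close [2, 11, 2, 5] [9, 1, 3],
    .clash 9 8, .clash 9 5, .close [0, 11, 2, 5] [8, 7], .clash 6 4, .close [2, 5] [5, 1],
    .close [2, 5] [4, 1]])

/-- A lemma and its proof. -/
def c223_19 : List Lit × List (Cmd Rule) :=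
  ([.ord true [5] [3], .walk false false 0 1 [7, 4, 1], .ord false [6, 1, 4, 1] [4, 1, 4, 1], .ord false [0, 5, 0, 7, 4, 1] []], [
    .use (.W false 0 1 0 [7, 4, 1]), .clash 1 4, .use (.W false 0 1 1 [7, 4, 1]), .clash 1 5,
    .use (.F false 0 [4, 1]), .close [3, 4, 1] [6, 3, 4, 5], .close [1] [6, 2, 3],
    .close [3, 4, 1] [6, 2, 4, 5]])

/-- A lemma and its proof. -/
def c223_20 : List Lit × List (Cmd Rule) :=
  ([.ord true [5] [3], .ord true [4, 1, 4, 1] [6, 1, 4, 1], .ord true [0, 5, 0, 7, 4, 1] []], [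
    .lem 3 [5, 2, 5], .use (.M true 0 [1, 4, 1]), .close [4, 1] [4, 2], .lem 8 [4, 1, 4, 1],
    .close [1] [4, 2, 0, 3, 5, 5], .close [3, 4, 1, 4, 1] [5, 4, 1], .close [4, 1, 4, 1] [4, 1],
    .close [2, 5, 2, 5] [3, 0]])

/-- A lemma and its proof. -/
def c223_21 : List Lit × List (Cmd Rule) :=
  ([.ord true [5] [3], .ord true [4, 1, 4, 1] [10, 1, 4, 1], .ord true [4, 1] [10, 1, 4, 1]], [
    .lem 3 [5, 2, 5], .use (.M true 2 [1, 4, 1]), .close [4, 1] [4, 2], .lem 8 [4, 1, 4, 1],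
    .close [1] [4, 2, 0, 3, 5, 5], .close [3, 4, 1, 4, 1] [5, 4, 1], .close [4, 1, 4, 1] [4, 1],
    .close [2, 5, 2, 5] [3, 0]])

/-- A lemma and its proof. -/
def c223_22 : List Lit × List (Cmd Rule) :=
  ([.ord true [5] [3], .ord false [3, 4, 1] [1], .ord false [10, 1] [4, 1], .ord true [6, 1] [10, 1], .ord false [6, 1, 4, 1] [4, 1, 4, 1]], [
    .lem 3 [5, 2, 5], .use (.F false 0 [4, 1]), .close [3, 4, 1] [6, 1, 0, 5, 1],
    .close [1] [6, 1, 0, 5], .close [3, 4, 1] [6, 4, 2, 3, 1], .close [2, 5, 2, 5] [5, 0]])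

/-- A lemma and its proof. -/
def c223_23 : List Lit × List (Cmd Rule) :=
  ([.ord true [5] [3], .ord true [6, 1] [10, 1], .ord false [] [6, 1], .ord false [0, 3] [], .ord true [4, 7, 4, 1] [10, 7, 4, 7, 4, 1], .ord true [7, 0, 7, 4, 1] [3], .ord true [10, 1, 4, 1] [4, 11, 4, 11, 2, 1], .ord false [3, 0, 7, 4, 1] [7, 4, 1], .ord true [4, 1] [10, 7, 4, 1], .ord false [10, 1] [4, 11, 4, 11, 2, 5], .ord false [2, 11, 4, 11, 2, 5] [8, 11, 4, 11, 2, 5], .ord true [7, 0, 7, 4, 7, 4, 1] [3, 0, 7, 4, 1], .ord true [8, 11, 4, 11, 2, 5] [4, 11, 2, 5], .ord true [1, 4, 11, 4, 11, 2, 5] [11, 4, 11, 4, 11, 2, 11, 4, 11, 2, 5], .ord false [4, 11, 2, 5] []], [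
    .close [0, 3] [14, 12, 10, 13, 9, 1, 6, 7, 11, 4, 8, 1, 3, 5, 11, 4, 8, 1, 2]])

/-- A lemma and its proof. -/
def c223_24 : List Lit × List (Cmd Rule) :=
  ([.ord true [5] [3], .ord false [0, 3] [], .ord true [4, 1] [10, 7, 4, 1], .ord false [] [6, 1], .ord true [8, 11, 4, 11, 4, 11, 2, 1] [4, 11, 4, 11, 2, 1], .ord false [3, 0, 7, 4, 1] [7, 4, 1], .ord true [6, 1] [10, 1], .ord false [10, 1] [4, 11, 4, 11, 2, 5], .ord false [2, 11, 4, 11, 2, 5] [8, 11, 4, 11, 2, 5], .ord true [8, 11, 4, 11, 2, 5] [4, 11, 2, 5], .ord true [1, 4, 11, 4, 11, 2, 5] [11, 4, 11, 4, 11, 2, 11, 4, 11, 2, 5], .ord false [4, 11, 2, 5] []], [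
    .use (.F false 0 []), .close [3] [12, 1], .close [5] [12, 1, 0],
    .use (.F false 0 [0, 7, 4, 1]), .close [3, 0, 7, 4, 1] [13, 5],
    .close [5, 0, 7, 4, 1] [13, 2, 6, 3, 0, 7, 6, 1, 12], .lem 20 [], .close [5] [14, 0],
    .lem 22 [], .close [5] [15, 0], .use (.F true 2 [4, 1]), .close [1] [16, 1, 0],
    .close [1] [16, 15], .lem 23 [], .close [5] [17, 0], .close [6, 1] [17, 6], .close [] [17, 3],
    .close [0, 3] [17, 1], .use (.W false 0 2 1 [7, 4, 7, 4, 1]),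
    .use (.N false 0 [7, 4, 7, 4, 1]), .close [0, 7, 4, 7, 4, 1] [19, 6, 3, 11, 7, 6, 5, 13],
    .use (.W false 0 1 1 [7, 4, 7, 4, 1]), .clash 19 20,
    .use (.W true 2 0 1 [1, 4, 11, 4, 11, 2, 5]), .use (.W true 2 1 1 [1, 4, 11, 4, 11, 2, 5]),
    .use (.N true 2 [1, 4, 11, 4, 11, 2, 5]),
    .close [10, 1, 4, 11, 4, 11, 2, 5] [23, 7, 6, 1, 12, 2, 6, 3, 11, 9, 8, 10], .clash 23 21,
    .clash 23 22,
    .close [10, 1, 4, 11, 4, 11, 2, 5] [22, 7, 6, 4, 16, 5, 13, 20, 2, 6, 1, 12, 13, 20, 2, 6, 3, 11, 9, 8, 10],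
    .close [10, 1, 4, 11, 4, 11, 2, 5] [21, 7, 6, 4, 16, 5, 13, 20, 2, 6, 1, 12, 13, 2, 6, 3, 11, 9, 8, 10],
    .clash 19 18, .close [10, 7, 4, 7, 4, 1] [18, 17], .close [7, 0, 7, 4, 1] [17, 12],
    .close [10, 1, 4, 1] [17, 16], .close [3, 0, 7, 4, 1] [17, 5], .close [4, 1] [17, 2],
    .close [10, 1] [17, 7], .close [2, 11, 4, 11, 2, 5] [17, 8],
    .close [7, 0, 7, 4, 7, 4, 1] [17, 13], .close [8, 11, 4, 11, 2, 5] [17, 9],
    .close [1, 4, 11, 4, 11, 2, 5] [17, 10], .close [4, 11, 2, 5] [17, 11],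
    .close [10, 1] [15, 6, 3, 11, 7], .close [6, 1] [15, 6], .close [6, 1, 4, 1] [15, 14],
    .close [0, 5, 0, 7, 4, 1] [14, 6, 3, 11, 7, 6, 1, 12]])

/-- A lemma and its proof. -/
def c223_25 : List Lit × List (Cmd Rule) :=
  ([.ord true [5] [3], .ord false [3, 4, 11, 2, 5] [1, 4, 11, 2, 5], .ord true [4, 1, 2, 5] [], .ord false [2, 11, 4, 11, 2, 5] [8, 11, 4, 11, 2, 5], .ord true [8, 11, 4, 11, 2, 5] [4, 11, 2, 5], .ord false [4, 11, 2, 5] [], .ord false [5] [3, 4, 11, 2, 5], .ord true [2, 11, 2, 5] [4, 11, 2, 5]], [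
    .use (.F true 2 [4, 11, 2, 5]), .close [11, 2, 5] [8, 1, 4, 3, 6], .close [11, 2, 5] [8, 6, 5],
    .use (.F false 1 [2, 5]), .close [1, 2, 5] [9, 2], .close [5, 2, 5] [9, 0], .lem 18 [],
    .close [5] [10, 0], .use (.W false 1 2 1 [9, 2, 9, 0, 5]),
    .use (.W true 2 1 1 [11, 2, 11, 2, 5]), .use (.N false 1 [9, 2, 9, 0, 5]),
    .close [2, 9, 2, 9, 0, 5] [13, 2, 10, 6, 9], .use (.W false 1 0 1 [9, 2, 9, 0, 5]),
    .clash 13 14, .use (.W true 2 0 1 [11, 2, 11, 2, 5]), .use (.N true 2 [11, 2, 11, 2, 5]),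
    .close [2, 11, 2, 5] [16, 8, 1, 4, 3, 5], .clash 16 15, .clash 16 12,
    .close [2, 11, 2, 5] [15, 8, 1, 4, 3, 9, 14, 2, 10], .clash 13 11,
    .close [2, 11, 2, 5] [12, 8, 1, 4, 3, 9, 2, 10],
    .close [10, 9, 2, 9, 0, 5] [11, 2, 10, 8, 1, 4, 3, 9], .close [5] [10, 6],
    .close [4, 11, 2, 5] [10, 5]])

/-- A lemma and its proof. -/
def c223_26 : List Lit × List (Cmd Rule) :=
  ([.ord true [5] [3], .ord true [] [6, 5], .ord false [4, 11, 2, 5] []], [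
    .lem 3 [5, 2, 5], .use (.M true 0 [5]), .use (.F false 1 [2, 5]),
    .close [1, 2, 5] [5, 4, 1, 0], .close [5, 2, 5] [5, 0], .lem 12 [], .close [5] [6, 0],
    .use (.M true 1 [5]), .close [0, 5] [7, 6], .close [2, 5] [7, 6, 4, 1, 0],
    .close [] [7, 6, 4, 1], .close [4, 9, 2, 9, 0, 5] [6, 5], .close [5] [6, 4, 1, 0, 3],
    .close [2, 5] [4, 1, 0], .close [] [4, 1], .close [2, 5, 2, 5] [3, 0]])

/-- A lemma and its proof. -/
def c223_27 : List Lit × List (Cmd Rule) :=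
  ([.ord true [5] [3], .ord true [] [8, 5], .ord false [5] [3], .ord false [] [4, 1]], [
    .use (.M true 1 [5]), .close [0, 5] [4, 1, 3], .close [2, 5] [4, 1, 0], .close [] [4, 1]])

/-- A lemma and its proof. -/
def c223_28 : List Lit × List (Cmd Rule) :=
  ([.ord true [5] [3], .ord true [0, 3] [], .ord false [] [4, 1], .ord true [7, 0, 7, 4, 1] [3], .ord true [] [0, 5, 0, 7, 4, 1]], [
    .close [5] [1, 3, 4, 4, 2]])

/-- A lemma and its proof. -/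
def c223_29 : List Lit × List (Cmd Rule) :=
  ([.ord true [5] [3], .ord false [4, 11, 2, 5] [8, 11, 4, 11, 2, 5], .ord false [5] [3, 4, 11, 2, 5], .ord false [10, 1] [4, 11, 4, 11, 2, 5], .ord false [4, 11, 2, 5] [], .ord true [6, 1] [10, 1]], [
    .use (.W true 2 1 1 [11, 4, 11, 2, 5]), .use (.W false 1 2 1 [11, 4, 11, 2, 5]),
    .use (.N true 2 [11, 4, 11, 2, 5]), .close [4, 11, 2, 5] [8, 2],
    .use (.W true 2 0 0 [11, 4, 11, 2, 5]), .clash 8 9, .use (.W true 2 0 1 [11, 4, 11, 2, 5]),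
    .clash 8 10, .use (.W false 1 0 0 [11, 4, 11, 2, 5]), .use (.N false 1 [11, 4, 11, 2, 5]),
    .use (.F false 0 [4, 11, 2, 5]), .close [3, 4, 11, 2, 5] [13, 10, 9, 12, 1],
    .close [11, 2, 5] [13, 10, 9, 2], .close [3, 4, 11, 2, 5] [13, 10, 9, 3, 5, 4, 10, 12, 1],
    .clash 12 11, .clash 12 7, .close [0, 11, 4, 11, 2, 5] [11, 9], .clash 8 6,
    .close [4, 11, 2, 5] [7, 1], .close [4, 11, 2, 5] [6, 1]])

/-- A lemma and its proof. -/
def c223_30 : List Lit × List (Cmd Rule) :=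
  ([.ord true [5] [3], .ord true [8, 11, 4, 11, 4, 11, 2, 1] [4, 11, 4, 11, 2, 1], .ord true [4, 7, 4, 1] [8, 7, 4, 7, 4, 1], .ord true [6, 1] [10, 1], .ord false [] [6, 1], .ord false [0, 3] [], .ord true [7, 0, 7, 4, 1] [3], .ord true [10, 1, 4, 1] [4, 11, 4, 11, 2, 1], .ord false [3, 0, 7, 4, 1] [7, 4, 1], .ord true [4, 1] [10, 7, 4, 1], .ord false [10, 1, 4, 11, 4, 11, 2, 5] [4, 1, 4, 11, 4, 11, 2, 5], .ord false [10, 1] [4, 11, 4, 11, 2, 5], .ord true [7, 0, 7, 4, 7, 4, 1] [3, 0, 7, 4, 1], .ord true [1, 4, 11, 4, 11, 2, 5] [11, 4, 11, 4, 11, 2, 11, 4, 11, 2, 5], .ord false [4, 11, 2, 5] [], .ord true [6, 11, 4, 11, 2, 5] [4, 11, 2, 5], .ord false [10, 7, 4, 1] [4, 7, 4, 1]], [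
    .use (.W true 2 0 1 [1, 4, 11, 4, 11, 2, 5]), .use (.W true 2 1 1 [1, 4, 11, 4, 11, 2, 5]),
    .use (.N true 2 [1, 4, 11, 4, 11, 2, 5]), .close [10, 1, 4, 11, 4, 11, 2, 5] [19, 10],
    .clash 19 17, .clash 19 18,
    .close [10, 1, 4, 11, 4, 11, 2, 5] [18, 11, 3, 1, 7, 8, 12, 2, 9, 3, 5, 6, 12, 2, 9, 3, 4, 6, 9, 3, 4, 14, 11, 14, 15, 13],
    .close [10, 1, 4, 11, 4, 11, 2, 5] [17, 11, 3, 1, 7, 8, 12, 2, 9, 3, 5, 6, 12, 9, 3, 4, 6, 9, 3, 4, 14, 11, 14, 15, 13]])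

/-- A lemma and its proof. -/
def c223_31 : List Lit × List (Cmd Rule) :=
  ([.ord true [5] [3], .ord true [4, 11, 2, 1] [2, 1], .ord false [10, 1, 4, 1] [4, 1, 4, 1], .ord true [10, 1, 4, 1] [4, 11, 4, 11, 2, 1], .ord false [] [4, 1]], [
    .lem 8 [4, 1, 4, 1], .close [1, 4, 1] [5, 4], .close [3, 4, 1, 4, 1] [5, 4, 1, 1, 1, 1, 3, 2]])

/-- A lemma and its proof. -/
def c223_32 : List Lit × List (Cmd Rule) :=
  ([.ord true [5] [3], .ord true [4, 7, 4, 1] [8, 7, 4, 7, 4, 1], .ord false [3, 0, 7, 4, 1] [7, 4, 1], .ord true [6, 1] [10, 1], .ord false [] [6, 1], .ord false [0, 3] [], .ord true [7, 0, 7, 4, 1] [3], .ord true [10, 1, 4, 1] [4, 11, 4, 11, 2, 1], .ord false [2, 1] [4, 11, 2, 1], .ord true [4, 1] [10, 7, 4, 1], .ord false [10, 1] [4, 11, 4, 11, 2, 5], .ord true [7, 0, 7, 4, 7, 4, 1] [3, 0, 7, 4, 1], .ord false [10, 1, 4, 11, 4, 11, 2, 5] [4, 1, 4, 11, 4, 11, 2, 5], .ord true [1,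 4, 11, 4, 11, 2, 5] [11, 4, 11, 4, 11, 2, 11, 4, 11, 2, 5], .ord false [4, 11, 2, 5] [], .ord true [6, 11, 4, 11, 2, 5] [4, 11, 2, 5], .ord false [10, 7, 4, 1] [4, 7, 4, 1]], [
    .lem 30 [], .close [5] [17, 0], .use (.W true 2 1 1 [11, 4, 11, 4, 11, 2, 1]),
    .use (.N true 2 [11, 4, 11, 4, 11, 2, 1]), .close [4, 11, 4, 11, 2, 1] [19, 8],
    .use (.W true 2 0 1 [11, 4, 11, 4, 11, 2, 1]), .clash 19 20,
    .use (.W true 2 0 1 [1, 4, 11, 4, 11, 2, 5]), .use (.W true 2 1 1 [1, 4, 11, 4, 11, 2, 5]),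
    .use (.N true 2 [1, 4, 11, 4, 11, 2, 5]), .close [10, 1, 4, 11, 4, 11, 2, 5] [23, 12],
    .clash 23 21, .clash 23 22,
    .close [10, 1, 4, 11, 4, 11, 2, 5] [22, 10, 3, 20, 7, 2, 11, 9, 3, 5, 6, 11, 1, 9, 3, 4, 6, 9, 3, 4, 14, 10, 14, 15, 13],
    .close [10, 1, 4, 11, 4, 11, 2, 5] [21, 10, 3, 20, 7, 2, 11, 9, 3, 5, 6, 11, 9, 3, 4, 6, 9, 3, 4, 14, 10, 14, 15, 13],
    .clash 19 18, .close [4, 11, 4, 11, 2, 1] [18, 17], .close [4, 7, 4, 1] [17, 1],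
    .close [6, 1] [17, 3], .close [] [17, 4], .close [0, 3] [17, 5],
    .close [7, 0, 7, 4, 1] [17, 6], .close [10, 1, 4, 1] [17, 7], .close [3, 0, 7, 4, 1] [17, 2],
    .close [4, 1] [17, 9], .close [10, 1, 4, 11, 4, 11, 2, 5] [17, 12], .close [10, 1] [17, 10],
    .close [7, 0, 7, 4, 7, 4, 1] [17, 11], .close [1, 4, 11, 4, 11, 2, 5] [17, 13],
    .close [4, 11, 2, 5] [17, 14], .close [6, 11, 4, 11, 2, 5] [17, 15],
    .close [10, 7, 4, 1] [17, 9, 3, 4, 6, 9, 3, 4, 14, 10, 14, 15, 13, 10, 3, 5, 6]])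

/-- A lemma and its proof. -/
def c223_33 : List Lit × List (Cmd Rule) :=
  ([.ord true [5] [3], .ord false [] [6, 1], .ord true [7, 4, 1] [3, 0, 7, 4, 1], .ord false [0, 3] [], .ord true [4, 1] [10, 7, 4, 1], .ord false [10, 1] [4, 11, 4, 11, 2, 5], .ord false [4, 11, 2, 5] [], .ord true [6, 1] [10, 1]], [
    .lem 3 [5, 2, 5], .use (.F false 0 []), .close [3] [9, 3], .close [5] [9, 3, 0],
    .use (.F true 2 [4, 11, 4, 11, 2, 5]), .close [11, 4, 11, 2, 5] [10, 5, 7, 1, 7, 1, 6],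
    .close [11, 4, 11, 2, 5] [10, 5, 7, 3, 9, 2, 4, 3, 0, 6], .use (.F false 1 [0, 7, 4, 1]),
    .close [7, 4, 1] [11, 2], .close [5, 0, 7, 4, 1] [11, 2, 7, 1, 6, 5, 7, 7, 1, 6, 5, 7, 3, 9],
    .lem 18 [], .close [5] [12, 0], .lem 13 [], .close [5] [13, 0], .close [7, 4, 1] [13, 2],
    .close [5, 0, 7, 4, 1] [13, 2, 7, 1, 6, 5, 7, 7, 1, 6, 5, 7, 3, 9],
    .close [2, 9, 0, 3, 0, 7, 4, 1] [13, 11], .lem 29 [], .close [5] [14, 0],
    .use (.W false 1 2 1 [5, 0, 7, 4, 1]), .use (.N false 1 [5, 0, 7, 4, 1]),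
    .close [2, 5, 0, 7, 4, 1] [16, 13], .use (.W false 1 0 0 [5, 0, 7, 4, 1]), .clash 16 17,
    .use (.W false 1 0 1 [5, 0, 7, 4, 1]), .clash 16 18, .use (.F false 1 [4, 11, 2, 5]),
    .lem 25 [], .close [5] [20, 0], .close [3, 4, 11, 2, 5] [20, 19], .use (.F false 0 [2, 5]),
    .close [5] [21, 20], .close [5, 2, 5] [21, 8],
    .close [5] [21, 20, 7, 1, 6, 5, 7, 3, 9, 17, 17, 7, 1, 6, 5, 7],
    .close [2, 11, 4, 11, 2, 5] [20, 5, 7, 3, 9, 11, 2, 2, 7, 1, 6, 5, 7, 3, 6, 14],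
    .close [8, 11, 4, 11, 2, 5] [20, 14], .close [4, 11, 2, 5] [20, 6],
    .close [5] [20, 5, 7, 1, 6], .close [2, 11, 2, 5] [20, 5, 7, 1, 6, 6],
    .close [11, 2, 5] [19, 5, 7, 1, 6, 6],
    .close [11, 2, 5] [19, 14, 5, 7, 3, 9, 13, 17, 18, 7, 1, 6, 5, 7, 12], .clash 16 15,
    .close [10, 5, 0, 7, 4, 1] [15, 11, 2, 2, 7, 1, 6, 5, 7, 3, 6, 14, 10, 5, 7, 3, 9, 4, 7, 3, 9],
    .close [5] [14, 5, 7, 1, 6], .close [10, 1] [14, 5], .close [4, 11, 2, 5] [14, 6],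
    .close [6, 1] [14, 7], .close [5] [12, 5, 7, 1, 6], .close [4, 11, 2, 5] [12, 6],
    .close [2, 5, 2, 5] [8, 0]])

/-- A lemma and its proof. -/
def c223_34 : List Lit × List (Cmd Rule) :=
  ([.ord true [5] [3], .ord true [0, 5] [2, 5], .ord true [6, 1] [], .ord false [6, 5] []], [
    .use (.F false 0 [2, 5]), .close [5] [4, 1], .close [5, 2, 5] [4, 1, 0],
    .close [5] [4, 1, 2, 3]])

/-- A lemma and its proof. -/
def c223_35 : List Lit × List (Cmd Rule) :=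
  ([.ord true [5] [3], .ord false [2, 11, 4, 11, 2, 5] [8, 11, 4, 11, 2, 5], .ord true [10, 1, 4, 1] [4, 11, 4, 11, 2, 1], .ord false [0, 3] [], .ord false [] [6, 1], .ord true [7, 0, 7, 4, 1] [3], .ord true [6, 1] [10, 1], .ord true [4, 1] [10, 7, 4, 1], .ord false [10, 1] [4, 11, 4, 11, 2, 5], .ord true [7, 0, 7, 4, 7, 4, 1] [3, 0, 7, 4, 1], .ord false [4, 11, 2, 5] [], .ord false [0, 7, 4, 7, 4, 1] [4, 7, 4, 1], .ord false [2, 1] [4, 11, 2, 1], .ord false [4, 11, 2, 5] [10, 1, 4, 11, 4, 11, 2, 5], .ord false [5] [3, 4, 11, 2, 5]], [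
    .lem 16 [], .close [5] [15, 0], .use (.F true 2 [4, 11, 4, 11, 2, 5]),
    .close [11, 4, 11, 2, 5] [16, 8, 6, 3, 5, 7, 6, 4, 0],
    .close [11, 4, 11, 2, 5] [16, 8, 6, 4, 10, 15, 1], .lem 33 [], .close [5] [17, 0],
    .close [] [17, 4], .lem 24 [], .close [5] [18, 0], .close [0, 3] [18, 3],
    .close [4, 1] [18, 7], .close [] [18, 4], .use (.W true 2 1 1 [11, 4, 11, 4, 11, 2, 1]),
    .use (.N true 2 [11, 4, 11, 4, 11, 2, 1]), .close [4, 11, 4, 11, 2, 1] [20, 12],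
    .use (.W true 2 0 1 [11, 4, 11, 4, 11, 2, 1]), .clash 20 21,
    .use (.W true 2 0 1 [1, 4, 11, 4, 11, 2, 5]), .use (.W false 0 2 1 [7, 4, 7, 4, 1]),
    .use (.N true 2 [1, 4, 11, 4, 11, 2, 5]),
    .close [10, 1, 4, 11, 4, 11, 2, 5] [24, 8, 6, 3, 5, 7, 6, 4, 10, 15, 1, 16], .clash 24 22,
    .use (.W true 2 1 1 [1, 4, 11, 4, 11, 2, 5]), .clash 24 25,
    .use (.W false 0 1 1 [7, 4, 7, 4, 1]), .use (.N false 0 [7, 4, 7, 4, 1]),
    .close [0, 7, 4, 7, 4, 1] [27, 11], .clash 27 26, .clash 27 23,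
    .close [8, 7, 4, 7, 4, 1] [26, 7, 6, 4, 10, 15, 1, 16, 25, 8, 6, 21, 2, 17, 9, 7, 6, 3, 5, 9],
    .close [10, 7, 4, 7, 4, 1] [23, 7, 6, 4, 10, 15, 1, 16, 8, 6, 21, 2, 17, 9, 7, 6, 3, 5, 9],
    .close [10, 1, 4, 11, 4, 11, 2, 5] [22, 8, 6, 21, 2, 17, 9, 7, 6, 3, 5, 9, 7, 6, 4, 10, 15, 1, 16],
    .clash 20 19, .close [4, 11, 4, 11, 2, 1] [19, 18], .close [3, 0, 7, 4, 1] [18, 17],
    .close [6, 1] [18, 6], .close [10, 1] [18, 8], .close [2, 11, 4, 11, 2, 5] [18, 1],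
    .close [8, 11, 4, 11, 2, 5] [18, 15], .close [1, 4, 11, 4, 11, 2, 5] [18, 16],
    .close [4, 11, 2, 5] [18, 10], .close [0, 3] [17, 3], .close [4, 1] [17, 7],
    .close [10, 1] [17, 8], .close [4, 11, 2, 5] [17, 10], .close [6, 1] [17, 6],
    .close [2, 11, 4, 11, 2, 5] [15, 1], .close [5] [15, 8, 6, 4, 10]])

/-- A lemma and its proof. -/
def c223_36 : List Lit × List (Cmd Rule) :=
  ([.ord true [5] [3], .ord false [10, 1] [4, 11, 4, 11, 2, 5], .ord false [] [6, 1], .ord true [6, 1] [10, 1], .ord true [7, 0, 7, 4, 1] [3], .ord true [4, 1] [10, 7, 4, 1], .ord false [0, 3] [], .ord false [4, 11, 2, 5] [], .ord false [10, 7, 4, 1] [4, 7, 4, 1], .ord true [6, 5, 0, 7, 4, 1] [4, 1], .ord false [10, 1, 4, 1] [4, 1, 4, 1], .ord false [] [4, 1], .ord true [2, 11, 2, 5] [4, 11, 2, 5], .ord false [6, 1, 4, 1] [4, 1, 4, 1]], [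
    .lem 22 [], .close [5] [14, 0], .use (.F true 2 [4, 1]), .close [1] [15, 6, 0],
    .close [1] [15, 14], .lem 31 [], .close [5] [16, 0], .lem 33 [], .close [5] [17, 0],
    .close [] [17, 2], .use (.F false 0 [0, 7, 4, 1]), .close [3, 0, 7, 4, 1] [18, 17],
    .close [5, 0, 7, 4, 1] [18, 5, 3, 2, 0, 1, 3, 6, 4], .lem 35 [], .close [5] [19, 0],
    .use (.W true 2 1 0 [11, 4, 11, 2, 5]), .use (.N true 2 [11, 4, 11, 2, 5]),
    .close [4, 11, 2, 5] [21, 1, 3, 2, 7], .use (.W true 2 0 1 [11, 4, 11, 2, 5]), .clash 21 22,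
    .use (.F true 2 [4, 11, 4, 11, 2, 5]), .close [11, 4, 11, 2, 5] [23, 1, 3, 6, 4, 5, 3, 2, 0],
    .close [11, 4, 11, 2, 5] [23, 1, 3, 2, 4, 5, 3, 2, 7, 1, 7, 22], .lem 32 [],
    .close [5] [24, 0], .use (.W false 0 1 1 [7, 4, 7, 4, 1]), .use (.N false 0 [7, 4, 7, 4, 1]),
    .close [0, 7, 4, 7, 4, 1] [26, 3, 2, 7, 1, 3, 17, 18], .clash 26 25,
    .use (.W false 0 2 1 [7, 4, 7, 4, 1]), .clash 26 27,
    .close [0, 3, 0, 7, 4, 1] [18, 27, 5, 3, 2, 4, 5, 3, 2, 7, 1, 7, 22, 23, 1, 3, 15, 17, 18, 27, 5, 3, 6, 4],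
    .close [8, 7, 4, 7, 4, 1] [25, 24], .close [3, 0, 7, 4, 1] [24, 17], .close [6, 1] [24, 3],
    .close [] [24, 2], .close [0, 3] [24, 6], .close [7, 0, 7, 4, 1] [24, 4],
    .close [10, 1, 4, 1] [24, 15], .close [2, 1] [24, 16], .close [4, 1] [24, 5],
    .close [10, 1] [24, 1], .close [7, 0, 7, 4, 7, 4, 1] [24, 18],
    .close [10, 1, 4, 11, 4, 11, 2, 5] [24, 1, 3, 6, 4, 5, 3, 2, 4, 5, 3, 2, 7, 1, 7, 22, 23],
    .close [1, 4, 11, 4, 11, 2, 5] [24, 23], .close [4, 11, 2, 5] [24, 7],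
    .close [6, 11, 4, 11, 2, 5] [24, 22], .close [10, 7, 4, 1] [24, 8], .clash 21 20,
    .close [8, 11, 4, 11, 2, 5] [20, 19], .close [10, 1, 4, 1] [19, 15], .close [0, 3] [19, 6],
    .close [] [19, 2], .close [7, 0, 7, 4, 1] [19, 4], .close [6, 1] [19, 3],
    .close [4, 1] [19, 5], .close [10, 1] [19, 1], .close [7, 0, 7, 4, 7, 4, 1] [19, 18],
    .close [4, 11, 2, 5] [19, 7], .close [0, 7, 4, 7, 4, 1] [19, 3, 2, 7, 1, 3, 17, 18],
    .close [2, 1] [19, 16], .close [4, 11, 2, 5] [19, 1, 3, 6, 4, 5, 3, 2, 0],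
    .close [5] [19, 1, 3, 2, 7], .close [0, 3] [17, 6], .close [4, 1] [17, 5],
    .close [10, 1] [17, 1], .close [4, 11, 2, 5] [17, 7], .close [6, 1] [17, 3],
    .close [10, 1, 4, 1] [16, 10], .close [10, 1, 4, 1] [16, 15], .close [] [16, 6, 0],
    .close [10, 1] [14, 3, 2, 7, 1], .close [6, 1] [14, 3], .close [6, 1, 4, 1] [14, 13]])

/-- A lemma and its proof. -/
def c223_37 : List Lit × List (Cmd Rule) :=
  ([.ord true [5] [3], .ord false [4, 11, 2, 5] [0, 3, 4, 11, 2, 5], .ord true [8, 11, 4, 11, 2, 5] [4, 11, 2, 5], .ord true [6, 1] [10, 1], .ord false [] [6, 1], .ord true [8, 11, 2, 5] [2, 5], .ord true [2, 11, 2, 5] [4, 11, 2, 5]], [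
    .use (.F false 1 [4, 11, 2, 5]), .close [1, 4, 11, 2, 5] [7, 1], .close [11, 2, 5] [7, 6],
    .use (.F true 2 []), .lem 26 [], .close [5] [9, 0], .close [] [9, 8, 4],
    .close [4, 11, 2, 5] [9, 8, 3, 4, 0], .close [5] [8, 0],
    .close [11, 4, 11, 4, 11, 2, 5] [8, 3, 4, 5, 7, 1, 2]])

/-- A lemma and its proof. -/
def c223_38 : List Lit × List (Cmd Rule) :=
  ([.ord true [5] [3], .ord true [1, 4, 11, 2, 5] [3, 4, 11, 2, 5], .ord false [4, 11, 4, 11, 2, 5] [6, 1, 4, 11, 4, 11, 2, 5], .ord true [8, 11, 2, 5] [2, 5], .ord true [8, 11, 4, 11, 2, 5] [4, 11, 2, 5], .ord true [6, 1] [10, 1], .ord true [2, 11, 2, 5] [4, 11, 2, 5]], [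
    .lem 3 [5, 2, 5], .use (.F false 1 [4, 11, 2, 5]), .close [1, 4, 11, 2, 5] [8, 1],
    .close [11, 2, 5] [8, 6], .use (.F true 2 []), .use (.F false 1 [2, 5]),
    .close [1, 2, 5] [10, 9, 0], .close [5, 2, 5] [10, 0], .lem 12 [], .close [5] [11, 0],
    .use (.M true 1 [5]), .close [0, 5] [12, 11], .close [2, 5] [12, 11, 9, 0],
    .close [] [12, 11, 9], .close [4, 9, 2, 9, 0, 5] [11, 10], .close [5] [11, 9, 0, 7],
    .close [5] [9, 0], .close [11, 4, 11, 4, 11, 2, 5] [9, 5, 3, 8, 1, 4, 2],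
    .close [2, 5, 2, 5] [7, 0]])

/-- A lemma and its proof. -/
def c223_39 : List Lit × List (Cmd Rule) :=
  ([.ord true [5] [3], .ord true [8, 11, 4, 11, 2, 5] [4, 11, 2, 5], .ord true [1, 4, 11, 4, 11, 2, 5] [11, 4, 11, 4, 11, 2, 11, 4, 11, 2, 5], .ord false [0, 3] [], .ord true [7, 0, 7, 4, 1] [3], .ord true [4, 11, 4, 11, 2, 5] [10, 1], .ord true [4, 1] [10, 7, 4, 1], .ord false [4, 11, 2, 5] [], .ord true [6, 1] [10, 1], .ord true [6, 11, 4, 11, 2, 5] [4, 11, 2, 5], .ord false [2, 11, 2, 5] [4, 11, 2, 5], .ord false [4, 11, 4, 11, 2, 5] [6, 1, 4, 11, 4, 11, 2, 5], .ord false [5] [3, 4, 11, 2, 5], .ord false [] [6, 1]], [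
    .use (.F true 2 []), .close [5] [14, 3, 0], .close [5] [14, 0],
    .use (.W true 2 1 0 [11, 4, 11, 2, 5]), .use (.N true 2 [11, 4, 11, 2, 5]),
    .close [4, 11, 2, 5] [16, 12], .use (.W true 2 0 0 [11, 4, 11, 2, 5]), .clash 16 17,
    .use (.F false 0 [4, 11, 2, 5]), .close [3, 4, 11, 2, 5] [18, 9, 17, 2, 14, 8, 3, 4, 6, 5],
    .close [11, 2, 5] [18, 9, 17, 12],
    .close [3, 4, 11, 2, 5] [18, 9, 17, 14, 8, 7, 9, 2, 14, 8, 3, 4, 6, 5], .clash 16 15,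
    .close [8, 11, 4, 11, 2, 5] [15, 2, 14, 8, 3, 4, 6, 5, 1]])

/-- A lemma and its proof. -/
def c223_40 : List Lit × List (Cmd Rule) :=
  ([.ord true [5] [3], .ord true [6, 11, 4, 11, 2, 5] [4, 11, 2, 5], .ord false [5] [3, 4, 11, 2, 5], .ord true [6, 1] [10, 1], .ord false [4, 11, 2, 5] [], .ord false [2, 11, 2, 5] [4, 11, 2, 5], .ord false [] [6, 1], .ord false [0, 3] [], .ord true [7, 0, 7, 4, 1] [3], .ord true [4, 11, 4, 11, 2, 5] [10, 1], .ord true [4, 1] [10, 7, 4, 1], .ord false [4, 11, 4, 11, 2, 5] [6, 1, 4, 11, 4, 11, 2, 5]], [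
    .use (.F true 2 []), .close [5] [12, 7, 4, 2], .close [5] [12, 0],
    .use (.F true 2 [4, 11, 4, 11, 2, 5]), .close [11, 4, 11, 2, 5] [13, 11, 2, 1],
    .close [11, 4, 11, 2, 5] [13, 12, 3, 6, 8, 10, 6, 4, 1, 12, 4, 1], .lem 39 [],
    .close [5] [14, 0], .use (.W true 2 1 1 [11, 4, 11, 2, 5]), .use (.N true 2 [11, 4, 11, 2, 5]),
    .close [4, 11, 2, 5] [16, 2], .use (.W true 2 0 0 [11, 4, 11, 2, 5]), .clash 16 17,
    .use (.F false 0 [4, 11, 2, 5]), .close [3, 4, 11, 2, 5] [18, 1, 17, 13, 12, 3, 7, 8, 10, 9],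
    .close [11, 2, 5] [18, 1, 17, 2],
    .close [3, 4, 11, 2, 5] [18, 1, 17, 12, 3, 4, 1, 13, 12, 3, 7, 8, 10, 9], .clash 16 15,
    .close [4, 11, 2, 5] [15, 14], .close [1, 4, 11, 4, 11, 2, 5] [14, 13], .close [0, 3] [14, 7],
    .close [7, 0, 7, 4, 1] [14, 8], .close [4, 11, 4, 11, 2, 5] [14, 9], .close [4, 1] [14, 10],
    .close [4, 11, 2, 5] [14, 4], .close [6, 1] [14, 3], .close [6, 11, 4, 11, 2, 5] [14, 1],
    .close [2, 11, 2, 5] [14, 2, 4], .close [4, 11, 4, 11, 2, 5] [14, 11], .close [5] [14, 2],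
    .close [] [14, 6]])

/-- A lemma and its proof. -/
def c223_41 : List Lit × List (Cmd Rule) :=
  ([.ord true [5] [3], .ord false [0, 3] [], .ord false [4, 11, 2, 5] [], .ord true [6, 1] [10, 1]], [
    .use (.F false 0 []), .close [3] [4, 1], .close [5] [4, 1, 0], .use (.F true 2 []),
    .close [5] [5, 1, 0], .close [5] [5, 0], .lem 14 [], .close [5] [6, 0], .lem 28 [],
    .close [5] [7, 0], .close [0, 3] [7, 1], .close [] [7, 1, 0], .close [7, 0, 7, 4, 1] [7, 4],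
    .lem 20 [], .close [5] [8, 0], .lem 19 [], .close [5] [9, 0], .use (.N false 0 [7, 4, 1]),
    .close [0, 7, 4, 1] [10, 7], .clash 10 9, .use (.W false 0 2 0 [7, 4, 1]), .clash 10 11,
    .use (.W false 0 2 1 [7, 4, 1]), .clash 10 12, .lem 21 [], .close [5] [13, 0], .lem 36 [],
    .close [5] [14, 0], .lem 40 [], .close [5] [15, 0], .use (.W true 2 0 1 [11, 4, 11, 2, 5]),
    .use (.N true 2 [11, 4, 11, 2, 5]), .close [4, 11, 2, 5] [17, 6], .clash 17 16,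
    .use (.W true 2 1 0 [11, 4, 11, 2, 5]), .clash 17 18, .use (.W true 2 1 1 [11, 4, 11, 2, 5]),
    .clash 17 19, .use (.F true 2 [4, 11, 4, 11, 2, 5]),
    .close [11, 4, 11, 2, 5] [20, 5, 3, 1, 4, 12, 1, 0, 2],
    .close [11, 4, 11, 2, 5] [20, 6, 19, 18],
    .close [11, 4, 11, 4, 11, 2, 11, 4, 11, 2, 5] [20, 5, 3, 1, 4, 12, 14, 19, 18],
    .close [4, 11, 2, 5] [16, 15], .close [5] [15, 6], .close [6, 1] [15, 3],
    .close [4, 11, 2, 5] [15, 2], .close [2, 11, 2, 5] [15, 6, 2], .close [] [15, 1, 4, 11, 12],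
    .close [0, 3] [15, 1], .close [7, 0, 7, 4, 1] [15, 4], .close [4, 11, 4, 11, 2, 5] [15, 14],
    .close [4, 1] [15, 12], .close [4, 11, 4, 11, 2, 5] [15, 5, 3, 1, 4, 3, 1, 4, 11, 12, 2],
    .close [] [14, 1, 4, 11, 12], .close [6, 1] [14, 3], .close [7, 0, 7, 4, 1] [14, 4],
    .close [4, 1] [14, 12], .close [0, 3] [14, 1], .close [4, 11, 2, 5] [14, 2],
    .close [10, 7, 4, 1] [14, 11], .close [6, 5, 0, 7, 4, 1] [14, 12, 1, 0, 2, 5, 3, 1, 4],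
    .close [10, 1, 4, 1] [14, 13], .close [] [14, 1, 0], .close [2, 11, 2, 5] [14, 6, 2],
    .close [6, 1, 4, 1] [14, 8], .close [4, 1] [13, 7, 12], .close [6, 1, 4, 1] [9, 8],
    .close [0, 5, 0, 7, 4, 1] [9, 7], .close [0, 5, 0, 7, 4, 1] [8, 7], .close [] [6, 1, 0],
    .close [10, 1] [6, 5], .close [4, 11, 2, 5] [6, 2]])

/-- A lemma and its proof. -/
def c223_42 : List Lit × List (Cmd Rule) :=
  ([.ord true [5] [3], .walk false false 1 0 [9, 2, 9, 0, 3], .ord false [] [4, 1, 2, 5], .ord true [] [0, 3], .ord false [8, 5] [], .ord true [0, 5] [6, 5]], [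
    .use (.W false 1 0 0 [9, 2, 9, 0, 3]), .clash 1 6, .use (.W false 1 0 1 [9, 2, 9, 0, 3]),
    .clash 1 7, .use (.F false 1 []), .close [1] [8, 3], .close [5] [8, 0],
    .close [5] [8, 6, 7, 3, 4, 2]])

/-- A lemma and its proof. -/
def c223_43 : List Lit × List (Cmd Rule) :=
  ([.ord true [5] [3], .ord false [] [6, 1], .ord false [4, 11, 2, 5] [], .ord true [6, 1] [10, 1]], [
    .lem 3 [5, 2, 5], .lem 26 [], .close [5] [5, 0], .use (.F true 2 []), .close [5] [6, 1, 5],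
    .close [5] [6, 0], .lem 18 [], .close [5] [7, 0], .lem 27 [], .close [5] [8, 0], .lem 41 [],
    .close [5] [9, 0], .use (.F false 1 []), .close [1] [10, 9], .close [5] [10, 0],
    .use (.F true 2 [4, 11, 4, 11, 2, 5]), .close [11, 4, 11, 2, 5] [11, 6, 3, 1, 3, 1, 2],
    .close [11, 4, 11, 2, 5] [11, 6, 3, 1, 9, 3, 1, 2], .lem 15 [], .close [5] [12, 0],
    .use (.N false 1 [9, 0, 3]), .close [2, 9, 0, 3] [13, 9, 8, 10], .clash 13 12,
    .use (.W false 1 2 1 [9, 0, 3]), .clash 13 14, .lem 16 [], .close [5] [15, 0], .lem 37 [],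
    .close [5] [16, 0], .use (.F false 0 [4, 11, 2, 5]), .close [3, 4, 11, 2, 5] [17, 16],
    .close [11, 2, 5] [17, 16, 6, 3, 1, 2, 2], .lem 38 [], .close [5] [18, 0], .lem 25 [],
    .close [5] [19, 0], .close [3, 4, 11, 2, 5] [19, 18], .use (.F false 0 [2, 5]),
    .close [5] [20, 19], .close [5, 2, 5] [20, 4], .lem 42 [], .close [5] [21, 0],
    .use (.N false 1 [9, 2, 9, 0, 3]), .close [2, 9, 2, 9, 0, 3] [22, 9, 8, 10], .clash 22 21,
    .use (.W false 1 2 1 [9, 2, 9, 0, 3]), .clash 22 23,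
    .use (.W true 2 0 1 [1, 4, 11, 4, 11, 2, 5]), .use (.W false 0 2 1 [7, 4, 1, 4, 11, 2, 5]),
    .use (.N true 2 [1, 4, 11, 4, 11, 2, 5]),
    .close [10, 1, 4, 11, 4, 11, 2, 5] [26, 6, 3, 1, 3, 1, 10, 23, 14, 9, 2, 11], .clash 26 24,
    .use (.W true 2 1 1 [1, 4, 11, 4, 11, 2, 5]), .clash 26 27,
    .use (.W false 0 1 1 [7, 4, 1, 4, 11, 2, 5]), .use (.N false 0 [7, 4, 1, 4, 11, 2, 5]),
    .close [0, 7, 4, 1, 4, 11, 2, 5] [29, 16, 15, 6, 3, 1, 10, 14, 9, 2, 6, 3, 2, 16, 17],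
    .clash 29 28, .clash 29 25,
    .close [8, 7, 4, 1, 4, 11, 2, 5] [28, 16, 15, 6, 3, 1, 10, 14, 9, 10, 23, 14, 9, 2, 11, 27, 6, 3, 2, 16, 17],
    .close [10, 7, 4, 1, 4, 11, 2, 5] [25, 16, 15, 6, 3, 1, 10, 14, 9, 10, 23, 14, 9, 2, 11, 6, 3, 2, 16, 17],
    .close [10, 1, 4, 11, 4, 11, 2, 5] [24, 6, 3, 2, 16, 17, 16, 15, 6, 3, 1, 10, 14, 9, 10, 23, 14, 9, 2, 11],
    .close [] [21, 19], .close [] [21, 9], .close [8, 5] [21, 8], .close [0, 5] [21, 20, 19, 5],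
    .close [2, 11, 4, 11, 2, 5] [19, 6, 3, 1, 10, 14, 9, 2], .close [8, 11, 4, 11, 2, 5] [19, 15],
    .close [4, 11, 2, 5] [19, 2], .close [5] [19, 6, 3, 1, 2],
    .close [2, 11, 2, 5] [19, 6, 3, 1, 2, 2],
    .close [4, 11, 4, 11, 2, 5] [18, 6, 3, 2, 16, 17, 16, 15, 6, 3, 1, 10, 14, 9, 2],
    .close [8, 11, 2, 5] [18, 7], .close [8, 11, 4, 11, 2, 5] [18, 15], .close [6, 1] [18, 3],
    .close [2, 11, 2, 5] [18, 6, 3, 1, 2, 2], .close [8, 11, 4, 11, 2, 5] [16, 15],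
    .close [6, 1] [16, 3], .close [] [16, 1], .close [8, 11, 2, 5] [16, 7],
    .close [2, 11, 2, 5] [16, 6, 3, 1, 2, 2],
    .close [2, 11, 4, 11, 2, 5] [15, 6, 3, 1, 10, 14, 9, 2], .close [5] [15, 6, 3, 1, 2],
    .close [4, 9, 2, 9, 0, 3] [12, 10], .close [8, 5] [12, 8], .close [4, 11, 2, 5] [9, 2],
    .close [6, 1] [9, 3], .close [5] [8, 2, 6, 3, 1, 2], .close [] [8, 1, 5],
    .close [5] [7, 6, 3, 1, 2], .close [4, 11, 2, 5] [7, 2], .close [4, 11, 2, 5] [5, 2],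
    .close [2, 5, 2, 5] [4, 0]])

/-- A lemma and its proof. -/
def c223_44 : List Lit × List (Cmd Rule) :=
  ([.ord true [5] [3], .ord false [3, 4, 11, 2, 5] [1, 4, 11, 2, 5], .ord true [4, 1, 2, 5] [], .ord false [4, 11, 2, 5] [], .ord false [5] [3, 4, 11, 2, 5], .ord true [2, 11, 2, 5] [4, 11, 2, 5], .ord true [8, 11, 4, 11, 2, 5] [4, 11, 2, 5]], [
    .use (.F true 2 [4, 11, 2, 5]), .close [11, 2, 5] [7, 1, 4, 3], .close [11, 2, 5] [7, 4, 3],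
    .use (.F false 1 [2, 5]), .close [1, 2, 5] [8, 2], .close [5, 2, 5] [8, 0], .lem 18 [],
    .close [5] [9, 0], .lem 25 [], .close [5] [10, 0], .close [3, 4, 11, 2, 5] [10, 1],
    .close [4, 1, 2, 5] [10, 2], .use (.W true 2 1 0 [11, 4, 11, 2, 5]),
    .use (.N true 2 [11, 4, 11, 2, 5]), .close [4, 11, 2, 5] [12, 4],
    .use (.W true 2 0 0 [11, 4, 11, 2, 5]), .clash 12 13, .use (.W true 2 0 1 [11, 4, 11, 2, 5]),
    .clash 12 14, .use (.W false 1 2 1 [9, 2, 9, 0, 5]), .use (.W true 2 1 1 [11, 2, 11, 2, 5]),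
    .use (.N false 1 [9, 2, 9, 0, 5]), .close [2, 9, 2, 9, 0, 5] [17, 2, 9, 4, 8],
    .use (.W false 1 0 1 [9, 2, 9, 0, 5]), .clash 17 18, .use (.W true 2 0 1 [11, 2, 11, 2, 5]),
    .use (.N true 2 [11, 2, 11, 2, 5]), .close [2, 11, 2, 5] [20, 7, 14, 13, 3], .clash 20 19,
    .clash 20 16, .close [2, 11, 2, 5] [19, 7, 14, 13, 8, 18, 2, 9], .clash 17 15,
    .close [2, 11, 2, 5] [16, 7, 14, 13, 8, 2, 9],
    .close [10, 9, 2, 9, 0, 5] [15, 2, 9, 7, 14, 13, 8], .clash 12 11,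
    .close [8, 11, 4, 11, 2, 5] [11, 10], .close [8, 11, 4, 11, 2, 5] [10, 6],
    .close [4, 11, 2, 5] [10, 3], .close [5] [10, 4], .close [2, 11, 2, 5] [10, 4, 3],
    .close [5] [9, 4], .close [4, 11, 2, 5] [9, 3]])

/-- A lemma and its proof. -/
def c223_45 : List Lit × List (Cmd Rule) :=
  ([.ord true [5] [3], .ord true [6, 1] [10, 1], .ord false [4, 11, 2, 5] [], .ord true [8, 11, 4, 11, 2, 5] [4, 11, 2, 5]], [
    .lem 3 [5, 2, 5], .lem 26 [], .close [5] [5, 0], .lem 41 [], .close [5] [6, 0],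
    .use (.F false 1 []), .close [1] [7, 6], .close [5] [7, 0], .lem 43 [], .close [5] [8, 0],
    .use (.W true 2 0 0 [1]), .lem 34 [], .close [5] [10, 0], .use (.F false 1 [2, 5]),
    .close [1, 2, 5] [11, 10], .close [5, 2, 5] [11, 0], .lem 12 [], .close [5] [12, 0],
    .use (.M true 1 [5]), .close [0, 5] [13, 12], .close [2, 5] [13, 12, 10], .use (.F true 2 []),
    .close [5] [14, 13, 12], .close [5] [14, 0], .lem 15 [], .close [5] [15, 0],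
    .use (.N false 1 [9, 0, 3]), .close [2, 9, 0, 3] [16, 6, 13, 7], .clash 16 15,
    .use (.W false 1 2 1 [9, 0, 3]), .clash 16 17, .lem 14 [], .close [5] [18, 0], .lem 18 [],
    .close [5] [19, 0], .lem 44 [], .close [5] [20, 0], .use (.F false 1 [4, 11, 2, 5]),
    .close [1, 4, 11, 2, 5] [21, 20], .close [11, 2, 5] [21, 18, 2], .use (.N true 2 [1]),
    .close [10, 1] [22, 13, 12, 19, 21, 20, 3, 14], .clash 22 9, .use (.W true 2 1 1 [1]),
    .clash 22 23, .use (.F false 1 [4, 11, 4, 11, 2, 5]),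
    .close [1, 4, 11, 4, 11, 2, 5] [24, 14, 23, 13, 12, 7, 17, 6, 19, 21, 20, 3, 14, 19, 21, 20, 3],
    .close [11, 4, 11, 2, 5] [24, 18, 3, 18, 21, 20, 3],
    .close [11, 4, 11, 2, 5] [24, 14, 23, 13, 12, 7, 17, 6, 19, 21, 20, 3, 14, 7, 17, 6, 19, 21, 20, 3, 14, 13, 19, 21, 3, 14, 23, 13, 19, 21, 3],
    .close [4, 1, 2, 5] [20, 10], .close [4, 11, 2, 5] [20, 2], .close [5] [20, 18],
    .close [2, 11, 2, 5] [20, 18, 2], .close [8, 11, 4, 11, 2, 5] [20, 3], .close [5] [19, 18],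
    .close [4, 11, 2, 5] [19, 2], .close [] [18, 13, 12], .close [10, 1] [18, 14],
    .close [4, 11, 2, 5] [18, 2], .close [4, 9, 2, 9, 0, 3] [15, 7], .close [8, 5] [15, 13],
    .close [4, 9, 2, 9, 0, 5] [12, 11], .close [5] [12, 10, 4], .close [6, 1] [10, 8],
    .close [6, 5] [10, 5], .close [6, 1] [9, 8], .close [4, 11, 2, 5] [8, 2], .close [6, 1] [8, 1],
    .close [4, 11, 2, 5] [6, 2], .close [6, 1] [6, 1], .close [4, 11, 2, 5] [5, 2],
    .close [2, 5, 2, 5] [4, 0]])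

/-- A lemma and its proof. -/
def c223_46 : List Lit × List (Cmd Rule) :=
  ([.ord true [5] [3], .ord true [4, 1] [10, 1], .ord false [] [4, 1], .ord false [4, 11, 2, 5] []], [
    .use (.F true 2 []), .close [5] [4, 2], .close [5] [4, 0],
    .close [11, 4, 11, 4, 11, 2, 5] [4, 1, 1, 1, 2, 0]])

/-- A lemma and its proof. -/
def c223_47 : List Lit × List (Cmd Rule) :=
  ([.ord true [5] [3], .ord true [4, 1] [], .ord false [6, 5] []], [
    .lem 3 [5, 2, 5], .use (.F false 1 [2, 5]), .close [1, 2, 5] [4, 1, 0],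
    .close [5, 2, 5] [4, 0], .lem 12 [], .close [5] [5, 0], .use (.M true 1 [5]),
    .close [0, 5] [6, 5], .close [2, 5] [6, 5, 1, 1, 0, 3], .close [] [6, 5, 1],
    .close [4, 9, 2, 9, 0, 5] [5, 4], .close [5] [5, 1, 0, 3], .close [2, 5, 2, 5] [3, 0]])

/-- A lemma and its proof. -/
def c223_48 : List Lit × List (Cmd Rule) :=
  ([.ord true [5] [3], .ord false [4, 11, 2, 5] [], .ord true [8, 11, 2, 5] [2, 5], .ord true [8, 11, 4, 11, 2, 5] [4, 11, 2, 5]], [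
    .lem 26 [], .close [5] [4, 0], .lem 47 [], .close [5] [5, 0], .use (.F true 2 []),
    .close [5] [6, 5], .close [5] [6, 0], .lem 45 [], .close [5] [7, 0], .use (.W true 2 0 1 [1]),
    .use (.W false 0 2 1 [1]), .lem 46 [], .close [5] [10, 0], .use (.N true 2 [1]),
    .close [10, 1] [11, 10], .clash 11 8, .use (.W true 2 1 0 [1]), .clash 11 12,
    .use (.W true 2 1 1 [1]), .clash 11 13, .use (.W false 0 1 0 [1]), .use (.N false 0 [1]),
    .use (.F false 1 []), .close [1] [16, 15, 7, 13, 12], .close [5] [16, 0], .lem 34 [],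
    .close [5] [17, 0], .use (.F false 1 [2, 5]), .close [1, 2, 5] [18, 17],
    .close [5, 2, 5] [18, 0], .lem 14 [], .close [5] [19, 0], .lem 44 [], .close [5] [20, 0],
    .use (.F false 1 [4, 11, 2, 5]), .close [1, 4, 11, 2, 5] [21, 20],
    .close [11, 2, 5] [21, 3, 6, 5, 1, 18, 17, 2], .use (.F false 1 [4, 11, 4, 11, 2, 5]),
    .close [1, 4, 11, 4, 11, 2, 5] [22, 6, 13, 12, 16, 15, 7, 13, 12, 15, 7, 13, 15, 7, 13, 5, 2, 21, 3],
    .close [11, 4, 11, 2, 5] [22, 6, 13, 5, 16, 15, 7, 13, 12, 1, 3],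
    .close [11, 4, 11, 2, 5] [22, 6, 13, 5, 16, 15, 7, 13, 12, 15, 7, 13, 15, 7, 13, 15, 7, 13, 5, 2, 21, 3],
    .close [4, 1, 2, 5] [20, 17], .close [4, 11, 2, 5] [20, 1], .close [5] [20, 19],
    .close [2, 11, 2, 5] [20, 3, 6, 5, 1, 18, 17, 2], .close [8, 11, 4, 11, 2, 5] [20, 3],
    .close [] [19, 5], .close [10, 1] [19, 6], .close [4, 11, 2, 5] [19, 1],
    .close [6, 1] [17, 15], .close [6, 5] [17, 4], .clash 15 14, .clash 15 9,
    .close [2, 1] [14, 12], .close [] [10, 5], .close [4, 11, 2, 5] [10, 1], .close [10, 1] [9, 7],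
    .close [10, 1] [8, 7], .close [4, 11, 2, 5] [7, 1], .close [8, 11, 4, 11, 2, 5] [7, 3],
    .close [6, 5] [5, 4], .close [4, 11, 2, 5] [4, 1]])

/-- A lemma and its proof. -/
def c223_49 : List Lit × List (Cmd Rule) :=
  ([.ord true [5] [3], .ord true [] [4, 11, 2, 5], .ord false [] [0, 3], .ord false [] [4, 1], .ord false [2, 5] [8, 5], .ord true [4, 9, 2, 9, 0, 3] []], [
    .use (.W true 2 1 1 [11, 2, 5]), .use (.N true 2 [11, 2, 5]), .close [2, 5] [7, 1, 2, 3],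
    .use (.W true 2 0 0 [11, 2, 5]), .clash 7 8, .use (.W true 2 0 1 [11, 2, 5]), .clash 7 9,
    .use (.M true 1 [5]), .close [0, 5] [10, 4, 9, 8, 1], .close [2, 5] [10, 4],
    .use (.W false 1 0 1 [9, 2, 9, 0, 3]), .use (.W false 1 2 1 [9, 2, 9, 0, 3]),
    .use (.N false 1 [9, 2, 9, 0, 3]), .close [2, 9, 2, 9, 0, 3] [13, 2, 10, 5], .clash 13 11,
    .clash 13 12, .close [10, 9, 2, 9, 0, 3] [12, 2, 10, 1, 5],
    .close [6, 9, 2, 9, 0, 3] [11, 2, 10, 9, 1, 5], .clash 7 6, .close [2, 5] [6, 1, 4]])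

/-- A lemma and its proof. -/
def c223_50 : List Lit × List (Cmd Rule) :=
  ([.ord true [5] [3], .ord false [] [0, 3], .ord false [] [4, 1]], [
    .use (.F false 1 []), .close [1] [3, 1], .close [5] [3, 0], .use (.F true 2 []),
    .close [5] [4, 2], .close [5] [4, 0], .lem 27 [], .close [5] [5, 0], .lem 15 [],
    .close [5] [6, 0], .use (.N false 1 [9, 0, 3]), .close [2, 9, 0, 3] [7, 1, 5, 3], .clash 7 6,
    .use (.W false 1 2 1 [9, 0, 3]), .clash 7 8, .lem 49 [], .close [5] [9, 0], .lem 14 [],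
    .close [5] [10, 0], .lem 18 [], .close [5] [11, 0], .lem 48 [], .close [5] [12, 0],
    .close [4, 11, 2, 5] [12, 9], .close [8, 11, 2, 5] [12, 11],
    .use (.W true 2 1 1 [11, 4, 11, 2, 5]), .use (.W false 1 2 1 [11, 4, 11, 2, 5]),
    .use (.N true 2 [11, 4, 11, 2, 5]), .close [4, 11, 2, 5] [15, 10],
    .use (.W true 2 0 0 [11, 4, 11, 2, 5]), .clash 15 16, .use (.W false 1 0 0 [11, 4, 11, 2, 5]),
    .use (.N false 1 [11, 4, 11, 2, 5]), .close [2, 9, 2, 9, 0, 3] [8, 1, 9, 18, 18, 12, 10, 3],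
    .clash 18 17, .clash 18 14, .close [0, 11, 4, 11, 2, 5] [17, 16], .clash 15 13,
    .close [4, 11, 2, 5] [14, 12], .close [4, 11, 2, 5] [13, 12], .close [5] [11, 10],
    .close [4, 11, 2, 5] [11, 9], .close [] [10, 2], .close [10, 1] [10, 4],
    .close [4, 11, 2, 5] [10, 9], .close [] [9, 1], .close [] [9, 2], .close [2, 5] [9, 3, 1, 5],
    .close [4, 9, 2, 9, 0, 3] [9, 3], .close [4, 9, 2, 9, 0, 3] [6, 3], .close [8, 5] [6, 5],
    .close [5] [5, 1, 2], .close [] [5, 2]])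

/-- A lemma and its proof. -/
def c223_51 : List Lit × List (Cmd Rule) :=
  ([.ord true [5] [3], .ord false [10, 1] [6, 1], .ord true [0, 3] [], .ord true [4, 1] [10, 7, 4, 1], .ord false [10, 7, 4, 1] [4, 7, 4, 1]], [
    .use (.W true 2 0 1 [1]), .use (.W false 0 2 1 [1]), .use (.F false 0 []), .close [3] [7, 2],
    .close [5] [7, 2, 0], .use (.N true 2 [1]), .close [10, 1] [8, 4, 3, 1], .clash 8 5,
    .use (.W true 2 1 0 [1]), .clash 8 9, .use (.W false 0 1 0 [1]), .use (.N false 0 [1]),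
    .close [] [11, 2, 7, 4, 3], .clash 11 10, .clash 11 6, .close [2, 1] [10, 9],
    .close [10, 1] [6, 1], .close [10, 1] [5, 1]])

/-- A lemma and its proof. -/
def c223_52 : List Lit × List (Cmd Rule) :=
  ([.ord true [5] [3], .ord true [6, 1] [10, 1], .ord false [0, 3] [], .ord true [4, 7, 4, 1] [10, 7, 4, 7, 4, 1], .ord true [7, 0, 7, 4, 1] [3], .ord true [10, 1, 4, 1] [4, 11, 4, 11, 2, 1], .ord false [3, 0, 7, 4, 1] [7, 4, 1], .ord true [4, 1] [10, 7, 4, 1], .ord true [6, 11, 2, 5] [2, 5], .ord false [10, 1] [4, 11, 4, 11, 2, 5], .ord true [7, 0, 7, 4, 1, 2, 5] [5], .ord false [2, 11, 4, 11, 2, 5] [8, 11, 4, 11, 2, 5], .ord false [0, 11, 2, 5] [6, 11, 2, 5], .ord true [7, 0, 7, 4, 7, 4, 1] [3, 0, 7, 4, 1], .ord false [6, 5] [], .ord true [8, 11, 4, 11, 2, 5] [4, 11, 2, 5], .ord true [1, 4, 11, 4, 11, 2, 5] [11, 4, 11, 4, 11, 2, 11, 4, 11, 2, 5]], [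
    .close [11, 4, 11, 4, 11, 2, 11, 4, 11, 2, 5] [16, 9, 1, 5, 6, 13, 3, 7, 1, 2, 4, 13, 3, 7, 1, 14, 10, 8, 12, 15, 11]])

/-- A lemma and its proof. -/
def c223_53 : List Lit × List (Cmd Rule) :=
  ([.ord true [5] [3], .ord true [8, 1, 4, 11, 4, 11, 2, 5] [10, 1, 4, 11, 4, 11, 2, 5], .ord false [3, 0, 7, 4, 1] [7, 4, 1], .ord true [6, 1] [10, 1], .ord false [0, 3] [], .ord true [7, 0, 7, 4, 1] [3], .ord true [10, 1, 4, 1] [4, 11, 4, 11, 2, 1], .ord false [2, 1] [4, 11, 2, 1], .ord true [4, 1] [10, 7, 4, 1], .ord true [6, 11, 2, 5] [2, 5], .ord false [10, 1] [4, 11, 4, 11, 2, 5], .ord true [7, 0, 7, 4, 1, 2, 5] [5], .ord false [2, 11, 4, 11, 2, 5] [8, 11, 4, 11, 2, 5], .ord false [0, 11, 2, 5] [6, 11, 2, 5], .ord true [7, 0, 7, 4, 7, 4, 1] [3, 0, 7, 4, 1], .ord true [4, 7, 4, 1] [8, 7, 4, 7, 4, 1], .ord false [6, 5] [], .ord true [8, 11, 4, 11, 2, 5] [4, 11, 2, 5], .ord true [1, 4, 11,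 4, 11, 2, 5] [11, 4, 11, 4, 11, 2, 11, 4, 11, 2, 5]], [
    .use (.W true 2 0 1 [11, 4, 11, 4, 11, 2, 1]), .use (.W true 2 1 1 [11, 4, 11, 4, 11, 2, 1]),
    .use (.N true 2 [11, 4, 11, 4, 11, 2, 1]), .close [4, 11, 4, 11, 2, 1] [21, 7], .clash 21 19,
    .clash 21 20,
    .close [4, 11, 4, 11, 2, 1] [20, 6, 2, 14, 15, 8, 3, 4, 5, 14, 15, 8, 3, 16, 11, 9, 13, 17, 12, 18, 1, 10, 3],
    .close [4, 11, 4, 11, 2, 1] [19, 6, 2, 14, 8, 3, 4, 5, 14, 15, 8, 3, 16, 11, 9, 13, 17, 12, 18, 1, 10, 3]])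

/-- A lemma and its proof. -/
def c223_54 : List Lit × List (Cmd Rule) :=
  ([.ord true [5] [3], .ord false [3, 0, 7, 4, 1] [7, 4, 1], .ord false [2, 1] [4, 11, 2, 1], .ord true [6, 1] [10, 1], .ord true [7, 0, 7, 4, 1] [3], .ord false [0, 3] [], .ord true [4, 1] [10, 7, 4, 1], .ord true [6, 11, 2, 5] [2, 5], .ord true [10, 1, 4, 1] [4, 11, 4, 11, 2, 1], .ord false [10, 1] [4, 11, 4, 11, 2, 5], .ord true [7, 0, 7, 4, 1, 2, 5] [5], .ord false [2, 11, 4, 11, 2, 5] [8, 11, 4, 11, 2, 5], .ord false [0, 11, 2, 5] [6, 11, 2, 5], .ord false [6, 5] [], .ord true [8, 11, 4, 11, 2, 5] [4, 11, 2, 5], .ord true [1, 4, 11, 4, 11, 2, 5] [11, 4, 11, 4, 11, 2, 11, 4, 11, 2, 5], .ord false [10, 1, 4, 11, 4, 11, 2, 5] [4, 1, 4, 11, 4, 11, 2, 5], .ord false [10, 7, 4, 1] [4, 7, 4, 1], .ord true [6, 5, 0, 7, 4, 1] [4, 1]], [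
    .use (.F false 0 [0, 7, 4, 1]), .close [3, 0, 7, 4, 1] [19, 1],
    .close [5, 0, 7, 4, 1] [19, 6, 0, 7, 12, 9, 3, 5, 4], .lem 52 [], .close [5] [20, 0],
    .close [6, 1] [20, 3], .close [0, 3] [20, 5], .use (.W false 0 2 1 [7, 4, 7, 4, 1]),
    .use (.N false 0 [7, 4, 7, 4, 1]),
    .close [0, 7, 4, 7, 4, 1] [22, 3, 13, 10, 7, 12, 9, 3, 1, 19],
    .use (.W false 0 1 1 [7, 4, 7, 4, 1]), .clash 22 23, .lem 53 [], .close [5] [24, 0],
    .use (.W true 2 1 1 [1, 4, 11, 4, 11, 2, 5]), .use (.N true 2 [1, 4, 11, 4, 11, 2, 5]),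
    .close [10, 1, 4, 11, 4, 11, 2, 5] [26, 9, 3, 5, 4, 6, 3, 13, 10, 7, 12, 14, 11, 15],
    .use (.W true 2 0 1 [1, 4, 11, 4, 11, 2, 5]), .clash 26 27,
    .use (.W true 2 0 1 [11, 4, 11, 4, 11, 2, 1]), .use (.W true 2 1 1 [11, 4, 11, 4, 11, 2, 1]),
    .use (.N true 2 [11, 4, 11, 4, 11, 2, 1]), .close [4, 11, 4, 11, 2, 1] [30, 2], .clash 30 28,
    .clash 30 29,
    .close [4, 11, 4, 11, 2, 1] [29, 8, 1, 19, 23, 6, 3, 5, 4, 19, 6, 3, 13, 10, 7, 12, 14, 11, 15, 27, 9, 3],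
    .close [4, 11, 4, 11, 2, 1] [28, 8, 1, 19, 6, 3, 5, 4, 19, 6, 3, 13, 10, 7, 12, 14, 11, 15, 27, 9, 3],
    .clash 26 25, .close [10, 1, 4, 11, 4, 11, 2, 5] [25, 24], .close [3, 0, 7, 4, 1] [24, 1],
    .close [6, 1] [24, 3], .close [0, 3] [24, 5], .close [7, 0, 7, 4, 1] [24, 4],
    .close [10, 1, 4, 1] [24, 8], .close [2, 1] [24, 2], .close [4, 1] [24, 6],
    .close [6, 11, 2, 5] [24, 7], .close [10, 1] [24, 9], .close [7, 0, 7, 4, 1, 2, 5] [24, 10],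
    .close [2, 11, 4, 11, 2, 5] [24, 11], .close [0, 11, 2, 5] [24, 12],
    .close [7, 0, 7, 4, 7, 4, 1] [24, 19], .close [4, 7, 4, 1] [24, 23], .close [6, 5] [24, 13],
    .close [8, 11, 4, 11, 2, 5] [24, 14], .close [1, 4, 11, 4, 11, 2, 5] [24, 15], .clash 22 21,
    .close [10, 7, 4, 7, 4, 1] [21, 20], .close [7, 0, 7, 4, 1] [20, 4],
    .close [10, 1, 4, 1] [20, 8], .close [3, 0, 7, 4, 1] [20, 1], .close [4, 1] [20, 6],
    .close [6, 11, 2, 5] [20, 7], .close [10, 1] [20, 9], .close [7, 0, 7, 4, 1, 2, 5] [20, 10],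
    .close [2, 11, 4, 11, 2, 5] [20, 11], .close [0, 11, 2, 5] [20, 12],
    .close [7, 0, 7, 4, 7, 4, 1] [20, 19], .close [6, 5] [20, 13],
    .close [8, 11, 4, 11, 2, 5] [20, 14], .close [1, 4, 11, 4, 11, 2, 5] [20, 15]])

/-- A lemma and its proof. -/
def c223_55 : List Lit × List (Cmd Rule) :=
  ([.ord true [5] [3], .ord true [1, 4, 11, 4, 11, 2, 5] [11, 4, 11, 4, 11, 2, 11, 4, 11, 2, 5], .ord false [6, 5] [], .ord false [0, 3] [], .ord true [4, 1] [10, 7, 4, 1], .ord true [6, 11, 2, 5] [2, 5], .ord false [10, 1] [4, 11, 4, 11, 2, 5], .ord false [2, 11, 4, 11, 2, 5] [8, 11, 4, 11, 2, 5], .ord false [0, 11, 2, 5] [6, 11, 2, 5], .ord true [7, 0, 7, 4, 1] [3], .ord true [8, 11, 4, 11, 2, 5] [4, 11, 2, 5], .ord true [6, 1] [10, 1], .ord false [10, 7, 4, 1] [4, 7, 4, 1], .ord true [6, 5, 0, 7, 4, 1] [4, 1], .ord false [] [4, 1], .ord false [10, 1, 4, 1] [4, 1, 4, 1], .ord false [5] [3, 4,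 11, 2, 5], .ord false [0, 5, 0, 7, 4, 1] [], .ord true [0, 5] [2, 5], .ord false [6, 1, 4, 1] [4, 1, 4, 1]], [
    .use (.F false 0 [2, 5]), .close [5] [20, 18],
    .close [5, 2, 5] [20, 5, 8, 10, 7, 6, 11, 3, 9, 12, 4], .lem 27 [], .close [5] [21, 0],
    .lem 22 [], .close [5] [22, 0], .use (.F true 2 [4, 1]), .close [1] [23, 3, 0],
    .close [1] [23, 22], .lem 31 [], .close [5] [24, 0], .lem 17 [], .close [5] [25, 0],
    .close [6, 1] [25, 11], .use (.W false 1 0 0 [5, 0, 7, 4, 1]), .lem 54 [], .close [5] [27, 0],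
    .use (.F false 1 [0, 7, 4, 1]), .close [7, 4, 1] [28, 27],
    .close [5, 0, 7, 4, 1] [28, 27, 4, 0, 5, 8, 6, 11, 3, 9], .lem 13 [], .close [5] [29, 0],
    .close [7, 4, 1] [29, 27], .close [5, 0, 7, 4, 1] [29, 27, 4, 0, 5, 8, 6, 11, 3, 9],
    .close [2, 9, 0, 3, 0, 7, 4, 1] [29, 28], .use (.N false 1 [5, 0, 7, 4, 1]),
    .close [2, 5, 0, 7, 4, 1] [30, 29], .clash 30 26, .use (.W false 1 2 1 [5, 0, 7, 4, 1]),
    .clash 30 31,
    .close [0, 7, 4, 1] [31, 28, 27, 12, 4, 21, 10, 1, 6, 11, 3, 9, 4, 11, 3, 9, 31, 28, 27],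
    .close [2, 1] [27, 24], .close [6, 1] [27, 11], .close [7, 0, 7, 4, 1] [27, 9],
    .close [0, 3] [27, 3], .close [4, 1] [27, 4], .close [6, 11, 2, 5] [27, 5],
    .close [10, 1, 4, 1] [27, 23], .close [10, 1] [27, 6], .close [7, 0, 7, 4, 1, 2, 5] [27, 20],
    .close [2, 11, 4, 11, 2, 5] [27, 7], .close [0, 11, 2, 5] [27, 8], .close [6, 5] [27, 2],
    .close [8, 11, 4, 11, 2, 5] [27, 10], .close [1, 4, 11, 4, 11, 2, 5] [27, 1],
    .close [10, 1, 4, 11, 4, 11, 2, 5] [27, 6, 11, 3, 9, 4, 11, 2, 20, 5, 8, 10, 7, 1],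
    .close [10, 7, 4, 1] [27, 12], .close [6, 5, 0, 7, 4, 1] [27, 4, 0, 5, 8, 6, 11, 3, 9],
    .close [0, 5, 0, 7, 4, 1] [26, 25], .close [10, 1] [25, 11, 2, 20, 5, 8, 6],
    .close [0, 5, 0, 7, 4, 1] [25, 12, 4, 3, 9], .close [0, 5] [25, 18],
    .close [7, 0, 7, 4, 1, 2, 5] [25, 20], .close [10, 1, 4, 1] [24, 15],
    .close [10, 1, 4, 1] [24, 23], .close [] [24, 3, 0], .close [10, 1] [22, 11, 2, 20, 5, 8, 6],
    .close [6, 1] [22, 11], .close [6, 1, 4, 1] [22, 19], .close [5] [21, 9, 12, 4, 2],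
    .close [] [21, 3, 0]])

/-- A lemma and its proof. -/
def c223_56 : List Lit × List (Cmd Rule) :=
  ([.ord true [5] [3], .ord true [] [6, 5]], [
    .lem 3 [5, 2, 5], .use (.M true 0 [5]), .lem 26 [], .close [5] [4, 0], .close [] [4, 1],
    .use (.M false 2 [5]), .close [10, 5] [5, 3, 1, 0, 4], .close [10, 5] [5, 4],
    .close [10, 5] [5, 3, 1, 0, 2, 4], .close [2, 5] [3, 1, 0], .close [] [3, 1],
    .close [2, 5, 2, 5] [2, 0]])

/-- A lemma and its proof. -/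
def c223_57 : List Lit × List (Cmd Rule) :=
  ([.ord true [5] [3]], [
    .lem 3 [5, 2, 5], .lem 56 [], .close [5] [2, 0], .lem 47 [], .close [5] [3, 0],
    .use (.F true 2 []), .close [5] [4, 3], .close [5] [4, 0], .lem 50 [], .close [5] [5, 0],
    .use (.F false 0 []), .close [3] [6, 5], .close [5] [6, 3], .lem 28 [], .close [5] [7, 0],
    .close [0, 3] [7, 5], .close [] [7, 3], .close [7, 0, 7, 4, 1] [7, 6], .lem 20 [],
    .close [5] [8, 0], .lem 19 [], .close [5] [9, 0], .use (.N false 0 [7, 4, 1]),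
    .close [0, 7, 4, 1] [10, 7], .clash 10 9, .use (.W false 0 2 0 [7, 4, 1]), .clash 10 11,
    .use (.W false 0 2 1 [7, 4, 1]), .clash 10 12, .lem 21 [], .close [5] [13, 0], .lem 27 [],
    .close [5] [14, 0], .lem 51 [], .close [5] [15, 0], .lem 43 [], .close [5] [16, 0],
    .close [] [16, 5, 6, 11, 12], .use (.M false 2 [5]), .use (.F false 0 [2, 5]),
    .close [5] [18, 16, 17], .close [5, 2, 5] [18, 1], .lem 10 [], .close [5] [19, 0],
    .use (.N true 2 [11, 2, 5]), .close [2, 5] [20, 16, 6, 11, 12, 2],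
    .use (.W true 2 0 0 [11, 2, 5]), .clash 20 21, .use (.W true 2 0 1 [11, 2, 5]), .clash 20 22,
    .use (.W true 2 0 1 [11, 4, 11, 2, 5]), .use (.N true 2 [11, 4, 11, 2, 5]),
    .close [4, 11, 2, 5] [24, 16, 6, 11, 12, 2], .clash 24 23,
    .use (.W true 2 1 0 [11, 4, 11, 2, 5]), .clash 24 25, .use (.W true 2 1 1 [11, 4, 11, 2, 5]),
    .clash 24 26, .use (.F true 2 [4, 11, 4, 11, 2, 5]),
    .close [11, 4, 11, 2, 5] [27, 4, 15, 5, 6, 12, 15, 5, 6, 11, 12, 0],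
    .close [11, 4, 11, 2, 5] [27, 16, 6, 11, 12, 2, 26, 25], .lem 55 [], .close [5] [28, 0],
    .close [1, 4, 11, 4, 11, 2, 5] [28, 27], .close [6, 5] [28, 2], .use (.F false 1 []),
    .close [1] [29, 28], .close [5] [29, 0], .use (.W false 1 0 1 [9, 2, 9, 0, 3]),
    .use (.W false 1 2 1 [9, 2, 9, 0, 3]), .use (.N false 1 [9, 2, 9, 0, 3]),
    .close [2, 9, 2, 9, 0, 3] [32, 28, 14, 29], .clash 32 30, .clash 32 31,
    .close [10, 9, 2, 9, 0, 3] [31, 28, 14, 16, 29],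
    .close [6, 9, 2, 9, 0, 3] [30, 28, 14, 22, 16, 29], .close [4, 1] [28, 12],
    .close [6, 11, 2, 5] [28, 22], .close [10, 1] [28, 26, 25, 27, 4, 15, 5, 6, 12],
    .close [2, 11, 4, 11, 2, 5] [28, 25], .close [0, 11, 2, 5] [28, 21],
    .close [7, 0, 7, 4, 1] [28, 6], .close [8, 11, 4, 11, 2, 5] [28, 26], .close [6, 1] [28, 15],
    .close [10, 7, 4, 1] [28, 11], .close [6, 5, 0, 7, 4, 1] [28, 11, 12, 7], .close [] [28, 3],
    .close [10, 1, 4, 1] [28, 13], .close [5] [28, 16, 6, 11, 12, 2],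
    .close [0, 5, 0, 7, 4, 1] [28, 7], .close [0, 5] [28, 16, 17], .close [6, 1, 4, 1] [28, 8],
    .close [4, 11, 2, 5] [23, 4, 15, 2, 18, 22, 16, 18, 22, 21], .clash 20 19, .close [] [19, 16],
    .close [10, 5] [17, 16], .close [10, 5] [17, 6, 11, 12, 2, 16], .close [6, 1] [16, 15],
    .close [0, 3] [15, 5], .close [4, 1] [15, 12], .close [10, 7, 4, 1] [15, 11],
    .close [5] [14, 6, 11, 12, 2], .close [] [14, 3], .close [4, 1] [13, 7, 12],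
    .close [6, 1, 4, 1] [9, 8], .close [0, 5, 0, 7, 4, 1] [9, 7], .close [0, 5, 0, 7, 4, 1] [8, 7],
    .close [] [5, 3], .close [6, 5] [3, 2], .close [2, 5, 2, 5] [1, 0]])

/-- A lemma and its proof. -/
def c223_58 : List Lit × List (Cmd Rule) :=
  ([.ord true [1] [5], .walk false true 0 1 [7, 0, 7, 4, 1], .ord false [4, 11, 4, 11, 4, 11, 2, 5] [6, 11, 4, 11, 4, 11, 2, 5], .ord true [] [0, 11, 4, 11, 4, 11, 2, 5], .ord true [] [2, 7, 0, 7, 4, 1]], [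
    .lem 57 [2, 5, 2, 5], .use (.W true 0 1 0 [7, 0, 7, 4, 1]), .clash 1 6,
    .use (.W true 0 1 1 [7, 0, 7, 4, 1]), .clash 1 7, .use (.F false 2 []), .close [1] [8, 0],
    .close [3] [8, 5], .close [1] [8, 2, 3, 7, 6, 4]])

/-- A lemma and its proof. -/
def c223_59 : List Lit × List (Cmd Rule) :=
  ([.ord true [1] [5], .ord false [2, 1] [4, 1], .ord false [4, 1, 4, 1] [6, 1, 4, 1], .ord false [4, 11, 4, 11, 4, 11, 2, 5] [6, 11, 4, 11, 4, 11, 2, 5], .ord true [] [0, 11, 4, 11, 4, 11, 2, 5]], [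
    .lem 57 [2, 5, 2, 5], .use (.F false 2 []), .close [1] [6, 0], .close [3] [6, 5],
    .use (.F true 0 [4, 1]), .close [1, 4, 1] [7, 1, 0], .close [1, 4, 1] [7, 0],
    .close [7, 0, 7, 4, 1, 4, 1] [7, 1, 6, 3, 4, 2]])

/-- A lemma and its proof. -/
def c223_60 : List Lit × List (Cmd Rule) :=
  ([.ord true [1] [5], .ord false [8, 11, 4, 11, 2, 5] [4, 11, 2, 5], .ord false [4, 11, 2, 5] [2, 11, 4, 11, 2, 5], .ord false [4, 11, 2, 5] [2, 5]], [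
    .use (.W false 2 1 1 [11, 4, 11, 2, 5]), .use (.W true 1 2 1 [11, 4, 11, 2, 5]),
    .use (.N false 2 [11, 4, 11, 2, 5]), .close [4, 11, 4, 11, 2, 5] [6, 3],
    .use (.W false 2 0 0 [11, 4, 11, 2, 5]), .clash 6 7, .use (.W true 1 0 0 [11, 4, 11, 2, 5]),
    .use (.N true 1 [11, 4, 11, 2, 5]), .close [8, 11, 4, 11, 2, 5] [9, 2, 1], .clash 9 8,
    .clash 9 5, .close [6, 11, 4, 11, 2, 5] [8, 7], .clash 6 4, .close [8, 11, 4, 11, 2, 5] [5, 1],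
    .close [8, 11, 4, 11, 2, 5] [4, 1]])

/-- A lemma and its proof. -/
def c223_61 : List Lit × List (Cmd Rule) :=
  ([.ord true [1] [5], .ord true [4, 11, 2, 5] [], .ord true [5] [1, 2, 5]], [
    .use (.M true 2 [11, 2, 5]), .close [0, 11, 2, 5] [3, 2, 1], .close [2, 11, 2, 5] [3, 1],
    .close [4, 11, 2, 5] [3, 2, 0, 1]])

/-- A lemma and its proof. -/
def c223_62 : List Lit × List (Cmd Rule) :=
  ([.ord true [1] [5], .ord false [8, 11, 2, 5] [2, 5], .ord false [4, 11, 2, 5] [2, 5], .ord false [] [4, 11, 2, 5]], [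
    .use (.W false 2 1 1 [11, 2, 5]), .use (.W true 1 2 1 [11, 2, 5]),
    .use (.N false 2 [11, 2, 5]), .close [4, 11, 2, 5] [6, 2], .use (.W false 2 0 0 [11, 2, 5]),
    .clash 6 7, .use (.W true 1 0 0 [11, 2, 5]), .use (.N true 1 [11, 2, 5]),
    .close [8, 11, 2, 5] [9, 3, 1], .clash 9 8, .clash 9 5, .close [6, 11, 2, 5] [8, 7],
    .clash 6 4, .close [8, 11, 2, 5] [5, 1], .close [8, 11, 2, 5] [4, 1]])

/-- A lemma and its proof. -/
def c223_63 : List Lit × List (Cmd Rule) :=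
  ([.ord true [1] [5], .walk false true 1 0 [5], .ord true [11, 2, 5] [9, 2, 9, 0, 3, 4, 11, 2, 5], .ord true [2, 5] [8, 11, 2, 5], .ord false [4, 11, 2, 5] [2, 5]], [
    .use (.W true 1 0 0 [5]), .clash 1 5, .use (.W true 1 0 1 [5]), .clash 1 6,
    .close [8, 5] [6, 5, 4, 2, 3]])

/-- A lemma and its proof. -/
def c223_64 : List Lit × List (Cmd Rule) :=
  ([.ord true [1] [5], .ord true [0, 11, 4, 11, 2, 5] [4, 11, 2, 5], .ord false [4, 11, 2, 5] [2, 5], .ord true [] [0, 11, 4, 11, 4, 11, 2, 5]], [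
    .lem 57 [4, 11, 4, 11, 2, 5], .lem 7 [5], .use (.F false 2 []), .close [1] [6, 0],
    .close [3] [6, 2, 1, 2, 3], .use (.M true 2 [11, 4, 11, 2, 5]),
    .close [0, 11, 4, 11, 2, 5] [7, 1], .use (.F true 1 [4, 11, 2, 5]),
    .close [3, 4, 11, 2, 5] [8, 1, 7], .close [3, 4, 11, 2, 5] [8, 1, 2, 3, 2], .lem 60 [],
    .close [1] [9, 0], .lem 62 [], .close [1] [10, 0], .use (.M true 2 [11, 4, 11, 4, 11, 2, 5]),
    .close [0, 11, 4, 11, 4, 11, 2, 5] [11, 9, 1, 7, 8, 10, 6],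
    .use (.F true 1 [4, 11, 4, 11, 2, 5]),
    .close [3, 4, 11, 4, 11, 2, 5] [12, 9, 1, 7, 8, 10, 6, 11],
    .close [3, 4, 11, 4, 11, 2, 5] [12, 4], .lem 63 [], .close [1] [13, 0], .use (.N true 1 [5]),
    .close [8, 5] [14, 2, 1, 7, 8, 10], .clash 14 13, .use (.W true 1 2 1 [5]), .clash 14 15,
    .use (.W false 2 1 1 [1]), .use (.N false 2 [1]), .close [4, 1] [17, 6, 2, 3],
    .use (.W false 2 0 0 [1]), .clash 17 18, .use (.W false 2 0 1 [1]), .clash 17 19,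
    .close [6, 1] [19, 6, 9, 1, 7, 8, 10, 18], .clash 17 16,
    .close [8, 1] [16, 6, 9, 1, 7, 8, 10, 6, 11, 12, 9, 8, 10, 15, 5, 6, 9, 1, 7, 8, 10],
    .close [11, 2, 5] [13, 8], .close [2, 5] [13, 10], .close [4, 11, 2, 5] [13, 2],
    .close [4, 11, 4, 11, 4, 11, 2, 5] [11, 2], .close [4, 11, 2, 5] [10, 2],
    .close [] [10, 1, 2, 3], .close [4, 11, 2, 5] [9, 7], .close [4, 11, 2, 5] [9, 2],
    .close [4, 11, 4, 11, 2, 5] [7, 2], .close [] [5, 2, 1, 2, 3]])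

/-- A lemma and its proof. -/
def c223_65 : List Lit × List (Cmd Rule) :=
  ([.ord true [1] [5], .ord false [1, 2, 5] [5], .ord true [] [6, 1], .ord true [] [0, 11, 4, 11, 4, 11, 2, 5]], [
    .lem 57 [2, 5, 2, 5], .use (.F true 0 [2, 5]), .close [1, 2, 5] [5, 1],
    .close [1, 2, 5] [5, 4, 1], .close [7, 0, 7, 4, 1, 2, 5] [5, 0, 2, 2, 1]])

/-- A lemma and its proof. -/
def c223_66 : List Lit × List (Cmd Rule) :=
  ([.ord true [1] [5], .ord true [5] [1, 2, 5], .ord true [11, 4, 11, 4, 11, 2, 11, 2, 5] [1, 4, 11, 2, 5], .ord true [2, 5] [8, 11, 2, 5], .ord false [4, 11, 2, 5] [0, 11, 4, 11, 2, 5], .ord false [4, 11, 2, 11, 2, 5] [2, 11, 2, 5], .ord false [4, 11, 2, 5] [2, 5]], [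
    .use (.F true 1 [2, 5]), .close [5] [7, 1], .close [5] [7, 1, 0],
    .use (.W true 1 2 1 [5, 2, 5]), .use (.W false 2 1 1 [11, 2, 11, 2, 5]),
    .use (.N true 1 [5, 2, 5]), .close [8, 5, 2, 5] [10, 6, 3, 1, 7],
    .use (.W true 1 0 1 [5, 2, 5]), .clash 10 11, .use (.W false 2 0 1 [11, 2, 11, 2, 5]),
    .use (.N false 2 [11, 2, 11, 2, 5]), .close [4, 11, 2, 11, 2, 5] [13, 5], .clash 13 12,
    .clash 13 9, .close [6, 11, 2, 11, 2, 5] [12, 3, 1, 7, 11, 4, 2], .clash 10 8,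
    .close [8, 11, 2, 11, 2, 5] [9, 3, 1, 7, 4, 2], .close [8, 5, 2, 5] [8, 4, 2, 3, 1, 7]])

/-- A lemma and its proof. -/
def c223_67 : List Lit × List (Cmd Rule) :=
  ([.ord true [1] [5], .ord true [6, 1, 4, 1] [4, 1, 4, 1], .ord true [4, 1] [0, 7, 4, 1]], [
    .lem 3 [1, 4, 1], .close [4, 1, 4, 1] [3, 0], .use (.M false 0 [1, 4, 1]),
    .close [6, 1, 4, 1] [4, 0, 1], .close [6, 1, 4, 1] [4, 3, 1], .close [6, 1, 4, 1] [4, 1]])

/-- A lemma and its proof. -/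
def c223_68 : List Lit × List (Cmd Rule) :=
  ([.ord true [1] [5], .ord false [6, 1] [10, 1], .ord false [6, 1] [], .ord false [4, 1] [10, 1]], [
    .use (.W false 2 0 1 [1]), .use (.W true 0 2 1 [1]), .use (.N false 2 [1]),
    .close [4, 1] [6, 3], .clash 6 4, .use (.W false 2 1 0 [1]), .clash 6 7,
    .use (.W true 0 1 0 [1]), .use (.N true 0 [1]), .close [6, 1] [9, 2], .clash 9 8, .clash 9 5,
    .close [8, 1] [8, 7], .close [6, 1] [5, 1], .close [6, 1] [4, 1]])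

/-- A lemma and its proof. -/
def c223_69 : List Lit × List (Cmd Rule) :=
  ([.ord true [1] [5], .walk false true 0 1 [7, 4, 1], .ord false [4, 1, 4, 1] [6, 1, 4, 1], .ord false [] [0, 5, 0, 7, 4, 1]], [
    .use (.W true 0 1 0 [7, 4, 1]), .clash 1 4, .use (.W true 0 1 1 [7, 4, 1]), .clash 1 5,
    .use (.F true 0 [4, 1]), .close [1, 4, 1] [6, 5, 4, 3], .close [1, 4, 1] [6, 0],
    .close [7, 0, 7, 4, 1, 4, 1] [6, 5, 4, 2]])

/-- A lemma and its proof. -/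
def c223_70 : List Lit × List (Cmd Rule) :=
  ([.ord true [1] [5], .ord true [0, 3, 4, 11, 2, 5] [4, 11, 2, 5], .ord true [2, 5] [8, 11, 2, 5], .ord true [4, 11, 2, 5] [8, 11, 4, 11, 2, 5], .ord false [4, 11, 4, 11, 2, 5] [0, 11, 4, 11, 4, 11, 2, 5], .ord true [4, 11, 2, 5] [2, 11, 2, 5]], [
    .lem 57 [2, 5, 2, 5], .use (.F false 2 []), .close [1] [7, 0], .close [3] [7, 6],
    .use (.F true 1 [4, 11, 2, 5]), .close [3, 4, 11, 2, 5] [8, 1], .close [3, 4, 11, 2, 5] [8, 5],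
    .close [9, 2, 9, 0, 3, 4, 11, 2, 5] [8, 2, 7, 4, 3, 1]])

/-- A lemma and its proof. -/
def c223_71 : List Lit × List (Cmd Rule) :=
  ([.ord true [1] [5], .ord true [2, 5] [4, 11, 2, 5]], [
    .lem 57 [4, 11, 4, 11, 2, 5], .lem 57 [2, 5, 2, 5], .use (.F false 2 []), .close [1] [4, 0],
    .close [3] [4, 3], .close [1] [4, 1, 2, 1, 1, 0]])

/-- A lemma and its proof. -/
def c223_72 : List Lit × List (Cmd Rule) :=
  ([.ord true [1] [5], .ord false [8, 5] [10, 5], .ord false [] [4, 11, 2, 5]], [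
    .lem 57 [2, 5, 2, 5], .use (.W true 1 2 1 [5]), .use (.N true 1 [5]), .close [8, 5] [5, 2, 1],
    .use (.W true 1 0 0 [5]), .clash 5 6, .use (.W true 1 0 1 [5]), .clash 5 7,
    .use (.F true 1 [2, 5]), .close [5] [8, 2, 1, 7, 6], .close [5] [8, 3], .lem 71 [],
    .close [1] [9, 0], .lem 62 [], .close [1] [10, 0], .close [8, 11, 2, 5] [10, 7, 6, 8, 9],
    .close [4, 11, 2, 5] [10, 9], .close [] [10, 2], .clash 5 4, .close [8, 5] [4, 1]])

/-- A lemma and its proof. -/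
def c223_73 : List Lit × List (Cmd Rule) :=
  ([.ord true [1] [5], .ord false [3, 4, 11, 2, 5] [1, 4, 11, 2, 5], .ord true [11, 4, 11, 2, 5] [9, 2, 9, 0, 3, 4, 11, 4, 11, 2, 5], .ord true [4, 11, 2, 5] [8, 11, 4, 11, 2, 5], .ord true [2, 5] [8, 11, 2, 5], .ord false [4, 11, 4, 11, 2, 5] [2, 11, 4, 11, 4, 11, 2, 5], .ord true [4, 11, 2, 5] [2, 11, 2, 5]], [
    .lem 57 [2, 5, 2, 5], .lem 7 [5], .use (.F false 2 []), .close [1] [9, 0], .close [3] [9, 7],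
    .use (.F true 1 [4, 11, 2, 5]), .close [3, 4, 11, 2, 5] [10, 1],
    .close [3, 4, 11, 2, 5] [10, 6], .lem 72 [], .close [1] [11, 0], .use (.W false 2 1 1 [1]),
    .use (.N false 2 [1]), .close [4, 1] [13, 9, 3, 1, 10, 4, 8], .use (.W false 2 0 0 [1]),
    .clash 13 14, .use (.W false 2 0 1 [1]), .clash 13 15, .close [6, 1] [15, 9, 3, 1, 10, 4, 14],
    .clash 13 12, .close [8, 1] [12, 9, 3, 1, 10, 4, 9, 5, 2, 3, 10, 4, 11, 8, 9, 3, 1, 10, 4],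
    .close [] [11, 3, 1, 10, 4, 8, 9, 3, 1, 10, 4], .close [] [8, 7]])

/-- A lemma and its proof. -/
def c223_74 : List Lit × List (Cmd Rule) :=
  ([.ord true [1] [5], .ord true [0, 11, 4, 11, 4, 11, 2, 5] [4, 11, 4, 11, 2, 5], .ord true [4, 11, 2, 5] [8, 11, 4, 11, 2, 5], .ord true [2, 5] [8, 11, 2, 5], .ord true [4, 11, 2, 5] [2, 11, 2, 5]], [
    .lem 57 [4, 11, 4, 11, 2, 5], .lem 71 [], .close [1] [6, 0],
    .use (.M true 2 [11, 4, 11, 4, 11, 2, 5]), .close [0, 11, 4, 11, 4, 11, 2, 5] [7, 1],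
    .use (.F true 1 [4, 11, 4, 11, 2, 5]), .close [3, 4, 11, 4, 11, 2, 5] [8, 1, 7],
    .close [3, 4, 11, 4, 11, 2, 5] [8, 5], .lem 73 [], .close [1] [9, 0],
    .use (.W false 2 1 1 [11, 4, 11, 4, 11, 2, 5]), .use (.N false 2 [11, 4, 11, 4, 11, 2, 5]),
    .close [4, 11, 4, 11, 4, 11, 2, 5] [11, 6], .use (.W false 2 0 0 [11, 4, 11, 4, 11, 2, 5]),
    .clash 11 12, .use (.W false 2 0 1 [11, 4, 11, 4, 11, 2, 5]), .clash 11 13,
    .close [6, 11, 4, 11, 4, 11, 2, 5] [13, 1, 12], .clash 11 10,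
    .close [8, 11, 4, 11, 4, 11, 2, 5] [10, 1, 7, 8, 2, 9, 6, 1], .close [11, 4, 11, 2, 5] [9, 8],
    .close [4, 11, 2, 5] [9, 2], .close [2, 5] [9, 3], .close [4, 11, 4, 11, 2, 5] [9, 7],
    .close [4, 11, 2, 5] [9, 4], .close [4, 11, 4, 11, 4, 11, 2, 5] [7, 6]])

/-- A lemma and its proof. -/
def c223_75 : List Lit × List (Cmd Rule) :=
  ([.ord true [1] [5], .ord false [7, 4, 1] [3, 0, 7, 4, 1], .ord true [4, 7, 4, 1] [0, 7, 4, 1], .ord true [0, 11, 4, 11, 4, 11, 2, 1] [4, 1], .ord true [10, 7, 4, 1] [4, 1], .ord false [4, 7, 4, 1] [10, 7, 4, 1], .ord false [] [0, 11, 2, 1]], [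
    .use (.F true 0 [0, 7, 4, 1]), .close [7, 4, 1] [7, 1], .close [7, 4, 1] [7, 2],
    .use (.W false 2 0 1 [11, 4, 11, 4, 11, 2, 1]), .use (.W true 0 2 1 [7, 4, 7, 4, 1]),
    .use (.N false 2 [11, 4, 11, 4, 11, 2, 1]),
    .close [4, 11, 4, 11, 4, 11, 2, 1] [10, 6, 4, 4, 5, 7, 1, 3], .clash 10 8,
    .use (.W false 2 1 1 [11, 4, 11, 4, 11, 2, 1]), .clash 10 11,
    .use (.W true 0 1 1 [7, 4, 7, 4, 1]), .use (.N true 0 [7, 4, 7, 4, 1]),
    .close [4, 7, 4, 1] [13, 7, 1, 4, 5], .clash 13 12, .clash 13 9,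
    .close [4, 7, 4, 1] [12, 7, 1, 3, 11, 6, 4], .close [4, 7, 4, 1] [9, 7, 1, 3, 6, 4],
    .close [6, 11, 4, 11, 4, 11, 2, 1] [8, 6, 4, 7, 1, 3]])

/-- A lemma and its proof. -/
def c223_76 : List Lit × List (Cmd Rule) :=
  ([.ord true [1] [5], .ord true [] [6, 1], .ord false [1, 2, 5] [5], .ord true [5] [7, 0, 7, 4, 1, 2, 5], .ord false [] [0, 5]], [
    .close [7, 0, 7, 4, 1, 2, 5] [3, 0, 1, 1, 2]])

/-- A lemma and its proof. -/
def c223_77 : List Lit × List (Cmd Rule) :=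
  ([.ord true [1] [5], .ord true [4, 11, 4, 11, 2, 5] [2, 1, 4, 11, 4, 11, 2, 5], .ord false [4, 11, 4, 11, 2, 5] [0, 11, 4, 11, 4, 11, 2, 5], .ord true [4, 11, 2, 5] [8, 11, 4, 11, 2, 5], .ord false [] [4, 11, 2, 5], .ord false [4, 11, 2, 5] [0, 3, 4, 11, 2, 5]], [
    .lem 57 [4, 11, 4, 11, 2, 5], .lem 57 [2, 5, 2, 5], .use (.F false 2 []), .close [1] [8, 0],
    .close [3] [8, 7], .use (.F true 1 [4, 11, 4, 11, 2, 5]),
    .close [3, 4, 11, 4, 11, 2, 5] [9, 1], .close [3, 4, 11, 4, 11, 2, 5] [9, 6],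
    .use (.W false 2 1 1 [11, 4, 11, 4, 11, 2, 5]), .use (.W true 1 2 1 [11, 4, 11, 4, 11, 2, 5]),
    .use (.N false 2 [11, 4, 11, 4, 11, 2, 5]), .close [4, 11, 4, 11, 4, 11, 2, 5] [12, 4, 8, 2],
    .use (.W false 2 0 0 [11, 4, 11, 4, 11, 2, 5]), .clash 12 13,
    .use (.W true 1 0 0 [11, 4, 11, 4, 11, 2, 5]), .use (.N true 1 [11, 4, 11, 4, 11, 2, 5]),
    .close [8, 11, 4, 11, 4, 11, 2, 5] [15, 2, 1, 1, 9, 3, 5, 4, 8], .clash 15 14, .clash 15 11,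
    .close [6, 11, 4, 11, 4, 11, 2, 5] [14, 13], .clash 12 10,
    .close [8, 11, 4, 11, 4, 11, 2, 5] [11, 1, 9, 3, 5, 4, 8],
    .close [8, 11, 4, 11, 4, 11, 2, 5] [10, 1, 9, 3, 5, 4, 8]])

/-- A lemma and its proof. -/
def c223_78 : List Lit × List (Cmd Rule) :=
  ([.ord true [1] [5], .ord false [1, 2, 5] [5], .ord true [5] [7, 0, 7, 4, 1, 2, 5], .ord false [] [0, 5, 0, 7, 4, 1], .ord false [4, 1] [10, 1], .ord true [10, 1] [6, 1], .ord false [0, 5, 0, 7, 4, 1] [6, 5, 0, 7, 4, 1]], [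
    .close [4, 7, 4, 1, 2, 5] [2, 5, 4, 6, 6, 3, 1]])

/-- A lemma and its proof. -/
def c223_79 : List Lit × List (Cmd Rule) :=
  ([.ord true [1] [5], .ord false [8, 11, 4, 11, 2, 5] [4, 11, 2, 5], .ord false [] [2, 1], .ord false [] [4, 11, 2, 5], .ord true [5] [9, 2, 9, 0, 3]], [
    .use (.W false 2 1 1 [11, 4, 11, 2, 5]), .use (.W true 1 2 1 [11, 4, 11, 2, 5]), .lem 71 [],
    .close [1] [7, 0], .use (.N false 2 [11, 4, 11, 2, 5]), .close [4, 11, 4, 11, 2, 5] [8, 7],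
    .use (.W false 2 0 0 [11, 4, 11, 2, 5]), .clash 8 9, .use (.W false 2 0 1 [11, 4, 11, 2, 5]),
    .clash 8 10, .use (.W true 1 0 0 [11, 4, 11, 2, 5]), .use (.N true 1 [11, 4, 11, 2, 5]),
    .close [2, 9, 0, 3] [4, 7, 1, 12, 12, 12, 9, 10, 3, 2, 2], .clash 12 11, .clash 12 6,
    .close [6, 11, 4, 11, 2, 5] [11, 9], .clash 8 5, .close [8, 11, 4, 11, 2, 5] [6, 1],
    .close [8, 11, 4, 11, 2, 5] [5, 1]])

/-- A lemma and its proof. -/
def c223_80 : List Lit × List (Cmd Rule) :=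
  ([.ord true [1] [5], .ord false [] [2, 1], .ord false [] [4, 11, 2, 5], .ord false [] [0, 5, 0, 7, 4, 1], .ord true [10, 7, 4, 1] [4, 1], .ord true [11, 4, 11, 4, 11, 2, 11, 2, 5] [1, 4, 11, 2, 5], .ord false [4, 7, 4, 1] [10, 7, 4, 1], .ord false [4, 11, 2, 11, 2, 5] [2, 11, 2, 5]], [
    .lem 57 [4, 11, 4, 11, 2, 5], .use (.F true 1 []), .close [3] [9, 1], .close [3] [9, 0, 1],
    .use (.F false 2 []), .close [1] [10, 0], .close [3] [10, 0, 1], .use (.F false 2 [4, 1]),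
    .close [1, 4, 1] [11, 0], .close [3, 4, 1] [11, 1, 0], .use (.F false 2 [0, 7, 4, 1]),
    .close [7, 4, 1] [12, 3, 4, 6], .close [3, 0, 7, 4, 1] [12, 3, 1, 4, 6], .lem 71 [],
    .close [1] [13, 0], .lem 62 [], .close [1] [14, 0], .lem 79 [], .close [1] [15, 0], .lem 74 [],
    .close [1] [16, 0], .use (.F false 2 [4, 11, 4, 11, 2, 5]),
    .close [1, 4, 11, 4, 11, 2, 5] [17, 13, 16], .close [3, 4, 11, 4, 11, 2, 5] [17, 8],
    .lem 70 [], .close [1] [18, 0], .use (.W true 0 1 0 [1]), .lem 77 [], .close [1] [20, 0],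
    .use (.F true 0 [4, 11, 4, 11, 2, 5]), .close [1, 4, 11, 4, 11, 2, 5] [21, 20],
    .close [1, 4, 11, 4, 11, 2, 5] [21, 13, 16], .lem 66 [], .close [1] [22, 0],
    .use (.F true 0 [2, 5]), .close [1, 2, 5] [23, 22], .close [1, 2, 5] [23, 0, 1, 22],
    .lem 76 [], .close [1] [24, 0], .use (.N true 0 [1]), .close [6, 1] [25, 24], .clash 25 19,
    .use (.W true 0 2 1 [1]), .clash 25 26, .lem 75 [], .close [1] [27, 0],
    .use (.F true 1 [0, 7, 4, 1]), .close [3, 0, 7, 4, 1] [28, 27],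
    .close [3, 0, 7, 4, 1] [28, 3, 1, 4, 6], .lem 78 [], .close [1] [29, 0],
    .close [1, 2, 5] [29, 22], .close [5] [29, 23], .close [] [29, 3],
    .close [4, 1] [29, 10, 15, 2, 1, 9, 10, 16, 15, 18, 2], .close [10, 1] [29, 26],
    .use (.W true 1 0 0 [5, 0, 7, 4, 1]), .lem 72 [], .close [1] [31, 0],
    .use (.N true 1 [5, 0, 7, 4, 1]),
    .close [8, 5, 0, 7, 4, 1] [32, 3, 1, 1, 9, 31, 24, 26, 4, 12], .clash 32 30,
    .use (.W true 1 2 1 [5, 0, 7, 4, 1]), .clash 32 33,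
    .use (.W false 2 0 1 [1, 4, 11, 4, 11, 2, 5]), .use (.W false 2 1 1 [1, 4, 11, 4, 11, 2, 5]),
    .use (.N false 2 [1, 4, 11, 4, 11, 2, 5]),
    .close [4, 1, 4, 11, 4, 11, 2, 5] [36, 17, 15, 2, 1, 9, 10, 16, 15, 16], .clash 36 34,
    .clash 36 35,
    .close [8, 1, 4, 11, 4, 11, 2, 5] [35, 17, 15, 2, 1, 9, 31, 1, 9, 31, 24, 26, 4, 12, 33, 27, 28, 33, 3, 10, 20],
    .close [6, 1, 4, 11, 4, 11, 2, 5] [34, 17, 15, 2, 1, 9, 31, 1, 9, 31, 24, 26, 4, 12, 33, 10, 16, 21, 20],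
    .close [] [31, 2], .close [6, 5, 0, 7, 4, 1] [30, 29], .close [4, 7, 4, 1] [27, 3, 4, 6],
    .close [0, 11, 4, 11, 4, 11, 2, 1] [27, 11], .close [10, 7, 4, 1] [27, 4],
    .close [4, 7, 4, 1] [27, 6], .close [] [27, 1, 24, 26], .close [1, 2, 5] [24, 22],
    .close [5] [24, 23], .close [] [24, 4, 6, 3], .close [11, 4, 11, 4, 11, 2, 11, 2, 5] [22, 5],
    .close [2, 5] [22, 14], .close [4, 11, 2, 5] [22, 15, 2, 1, 9, 10, 16, 15, 18],
    .close [4, 11, 2, 11, 2, 5] [22, 7], .close [4, 11, 2, 5] [22, 13],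
    .close [4, 11, 4, 11, 2, 5] [20, 16], .close [4, 11, 2, 5] [20, 15], .close [] [20, 2],
    .close [4, 11, 2, 5] [20, 18], .close [8, 1] [19, 1, 1, 9, 10, 16, 15, 18, 2],
    .close [2, 5] [18, 14], .close [4, 11, 2, 5] [18, 15], .close [4, 11, 4, 11, 2, 5] [18, 16],
    .close [4, 11, 2, 5] [18, 7, 2], .close [4, 11, 2, 5] [16, 15], .close [2, 5] [16, 14],
    .close [4, 11, 2, 5] [16, 7, 2], .close [] [15, 1], .close [] [15, 2], .close [5] [15, 9],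
    .close [4, 11, 2, 5] [14, 13], .close [] [14, 2]])

/-- A lemma and its proof. -/
def c223_81 : List Lit × List (Cmd Rule) :=
  ([.ord true [1] [5], .ord true [3, 0, 7, 4, 1] [7, 4, 1], .ord true [2, 5, 0, 7, 4, 1] [8, 5, 0, 7, 4, 1], .ord false [4, 7, 4, 1] [0, 7, 4, 1]], [
    .use (.F true 1 [0, 7, 4, 1]), .close [3, 0, 7, 4, 1] [4, 1], .close [3, 0, 7, 4, 1] [4, 3, 1],
    .close [9, 2, 9, 0, 3, 0, 7, 4, 1] [4, 2, 2, 3, 1, 1]])

/-- A lemma and its proof. -/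
def c223_82 : List Lit × List (Cmd Rule) :=
  ([.ord true [1] [5], .ord true [0, 11, 4, 11, 2, 5] [4, 11, 2, 5], .ord true [4, 11, 2, 5] [2, 11, 2, 5], .ord true [2, 5] [8, 11, 2, 5]], [
    .lem 57 [4, 11, 4, 11, 2, 5], .lem 57 [2, 5, 2, 5], .lem 8 [4, 11, 2, 5], .use (.F false 2 []),
    .close [1] [7, 0], .close [3] [7, 5], .use (.M true 2 [11, 4, 11, 2, 5]),
    .close [0, 11, 4, 11, 2, 5] [8, 1], .use (.F true 1 [4, 11, 2, 5]),
    .close [3, 4, 11, 2, 5] [9, 1, 8], .close [3, 4, 11, 2, 5] [9, 2], .lem 72 [],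
    .close [1] [10, 0], .use (.M true 2 [11, 4, 11, 4, 11, 2, 5]),
    .close [0, 11, 4, 11, 4, 11, 2, 5] [11, 1, 8, 9, 3, 10, 7],
    .use (.F true 1 [4, 11, 4, 11, 2, 5]),
    .close [3, 4, 11, 4, 11, 2, 5] [12, 1, 8, 9, 3, 10, 7, 11],
    .close [3, 4, 11, 4, 11, 2, 5] [12, 4], .lem 60 [], .close [1] [13, 0], .lem 73 [],
    .close [1] [14, 0], .close [3, 4, 11, 2, 5] [14, 1, 8], .close [11, 4, 11, 2, 5] [14, 12],
    .close [4, 11, 2, 5] [14, 13], .close [2, 5] [14, 3], .close [4, 11, 4, 11, 2, 5] [14, 11],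
    .close [4, 11, 2, 5] [14, 2], .close [4, 11, 2, 5] [13, 8], .close [4, 11, 2, 5] [13, 6, 1],
    .close [4, 11, 4, 11, 4, 11, 2, 5] [11, 6, 1], .close [] [10, 3, 6, 1, 1, 8, 9, 3],
    .close [4, 11, 4, 11, 2, 5] [8, 6, 1], .close [3, 4, 11, 2, 5] [6, 2]])

/-- A lemma and its proof. -/
def c223_83 : List Lit × List (Cmd Rule) :=
  ([.ord true [1] [5], .ord true [0, 5, 0, 7, 4, 1] [], .ord true [] [2, 7, 0, 7, 4, 1], .ord false [4, 11, 2, 5] [0, 11, 4, 11, 2, 5], .ord false [] [4, 11, 2, 5]], [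
    .lem 7 [5], .use (.F true 1 []), .close [3] [6, 0, 1, 1, 2], .close [3] [6, 0, 0, 1, 1, 2],
    .use (.F false 2 []), .close [1] [7, 0], .close [3] [7, 0, 0, 1, 1, 2], .lem 62 [],
    .close [1] [8, 0], .lem 79 [], .close [1] [9, 0], .lem 74 [], .close [1] [10, 0], .lem 70 [],
    .close [1] [11, 0], .lem 77 [], .close [1] [12, 0],
    .close [4, 11, 4, 11, 2, 5] [12, 3, 4, 1, 1, 2, 7, 10], .close [4, 11, 4, 11, 2, 5] [12, 10],
    .close [4, 11, 2, 5] [12, 9], .close [] [12, 4], .close [4, 11, 2, 5] [12, 11],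
    .close [2, 5] [11, 8], .close [4, 11, 2, 5] [11, 9], .close [4, 11, 4, 11, 2, 5] [11, 10],
    .close [4, 11, 2, 5] [11, 4, 3, 4, 7], .close [4, 11, 2, 5] [10, 9], .close [2, 5] [10, 8],
    .close [4, 11, 2, 5] [10, 4, 3, 4, 7], .close [] [9, 5, 1, 1, 2], .close [] [9, 4],
    .close [5] [9, 6], .close [4, 11, 2, 5] [8, 3, 4, 7], .close [] [8, 4],
    .close [] [5, 0, 0, 1, 1, 2]])

/-- A lemma and its proof. -/
def c223_84 : List Lit × List (Cmd Rule) :=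
  ([.ord true [1] [5], .ord true [2, 1] [8, 1], .ord false [] [0, 5], .ord true [0, 3] [], .ord true [5] [9, 2, 9, 0, 3]], [
    .close [9, 2, 9, 0, 3] [4, 2, 1, 1, 3, 3]])

/-- A lemma and its proof. -/
def c223_85 : List Lit × List (Cmd Rule) :=
  ([.ord true [1] [5], .ord true [0, 3] [], .ord true [2, 1] [], .ord true [10, 7, 4, 1] [4, 1], .ord false [] [0, 5, 0, 7, 4, 1], .ord false [4, 7, 4, 1] [10, 7, 4, 1], .ord true [5] [7, 0, 7, 4, 1, 2, 5], .ord false [1, 2, 5] [5]], [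
    .use (.F true 0 []), .close [1] [8, 2], .close [1] [8, 0], .use (.F true 1 []),
    .close [3] [9, 1], .close [3] [9, 0, 1], .use (.F false 2 [4, 1]), .close [1, 4, 1] [10, 0],
    .close [3, 4, 1] [10, 1, 0], .use (.F false 2 [0, 7, 4, 1]), .close [7, 4, 1] [11, 4, 3, 5],
    .close [3, 0, 7, 4, 1] [11, 4, 1, 3, 5], .lem 84 [], .close [1] [12, 0],
    .use (.W true 0 1 0 [1]), .use (.N true 0 [1]), .close [6, 1] [14, 3, 5, 8, 2], .clash 14 13,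
    .use (.W true 0 2 1 [1]), .clash 14 15, .lem 75 [], .close [1] [16, 0], .lem 81 [],
    .close [1] [17, 0], .close [3, 0, 7, 4, 1] [17, 16], .use (.W true 1 2 1 [5, 0, 7, 4, 1]),
    .use (.N true 1 [5, 0, 7, 4, 1]), .close [8, 5, 0, 7, 4, 1] [19, 17],
    .use (.W true 1 0 0 [5, 0, 7, 4, 1]), .clash 19 20,
    .close [4, 7, 4, 1, 2, 5] [6, 3, 5, 20, 20, 4, 7], .clash 19 18,
    .close [8, 5, 0, 7, 4, 1] [18, 8, 2, 15, 3, 11, 17], .close [4, 7, 4, 1] [17, 4, 3, 5],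
    .close [4, 7, 4, 1] [16, 4, 3, 5], .close [0, 11, 4, 11, 4, 11, 2, 1] [16, 10],
    .close [10, 7, 4, 1] [16, 3], .close [4, 7, 4, 1] [16, 5], .close [] [16, 1, 3, 5, 8, 2, 15],
    .close [8, 1] [13, 12], .close [] [12, 3, 5, 4], .close [0, 3] [12, 1], .close [5] [12, 9]])

/-- A lemma and its proof. -/
def c223_86 : List Lit × List (Cmd Rule) :=
  ([.ord true [1] [5], .ord true [3, 0, 7, 4, 1] [7, 4, 1], .ord true [10, 1] [6, 1], .ord true [10, 7, 4, 1] [4, 1], .ord true [] [2, 7, 0, 7, 4, 1], .ord true [5] [7, 0, 7, 4, 1, 2, 5], .ord false [] [0, 5, 0, 7, 4, 1], .ord false [1, 2, 5] [5], .ord false [] [0, 3], .ord false [4, 11, 2, 5] [0, 11, 4, 11, 2, 5], .ord false [] [4, 11, 2, 5], .ord true [11, 4, 11, 4, 11, 2, 11, 2, 5] [1, 4, 11, 2, 5], .ord false [4, 11, 2, 11, 2, 5] [2, 11, 2, 5], .ord false [4, 7, 4, 1] [10, 7, 4, 1]], [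
    .use (.F false 2 [0, 7, 4, 1]), .close [7, 4, 1] [14, 6, 3, 13],
    .close [3, 0, 7, 4, 1] [14, 6, 3, 13, 1], .lem 81 [], .close [1] [15, 0],
    .close [3, 0, 7, 4, 1] [15, 1], .use (.W true 1 2 1 [5, 0, 7, 4, 1]),
    .use (.N true 1 [5, 0, 7, 4, 1]), .close [8, 5, 0, 7, 4, 1] [17, 15],
    .use (.W true 1 0 0 [5, 0, 7, 4, 1]), .clash 17 18,
    .close [4, 7, 4, 1, 2, 5] [5, 3, 13, 18, 18, 6, 7], .clash 17 16,
    .close [8, 5, 0, 7, 4, 1] [16, 4, 8, 2, 3, 14, 15], .close [4, 7, 4, 1] [15, 6, 3, 13]])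

/-- A lemma and its proof. -/
def c223_87 : List Lit × List (Cmd Rule) :=
  ([.ord true [1] [5], .ord true [0, 5, 0, 7, 4, 1] [], .ord true [] [2, 7, 0, 7, 4, 1], .ord true [] [0, 11, 4, 11, 4, 11, 2, 5]], [
    .lem 7 [5], .use (.F true 1 []), .close [3] [5, 0, 1, 1, 2], .close [3] [5, 0, 0, 1, 1, 2],
    .lem 71 [], .close [1] [6, 0], .lem 64 [], .close [1] [7, 0], .lem 83 [], .close [1] [8, 0],
    .close [0, 5, 0, 7, 4, 1] [8, 1], .close [] [8, 2], .close [4, 11, 2, 5] [8, 7],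
    .use (.M true 2 [11, 2, 5]), .use (.F true 0 [2, 5]), .close [1, 2, 5] [10, 8, 9],
    .close [1, 2, 5] [10, 6, 9], .lem 60 [], .close [1] [11, 0], .use (.W true 1 2 1 [5]),
    .use (.N true 1 [5]), .close [8, 5] [13, 8, 6, 11, 6, 6, 3, 1, 1, 2, 5],
    .use (.W true 1 0 0 [5]), .clash 13 14, .close [8, 7, 4, 1, 2, 5] [10, 14, 14, 8, 6, 7, 9],
    .clash 13 12, .close [8, 5] [12, 8, 8, 6, 11, 6, 6, 3, 1, 1, 2, 5],
    .close [4, 11, 2, 5] [11, 6, 3, 4, 1, 1, 2, 8], .close [4, 11, 2, 5] [11, 6],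
    .close [2, 11, 2, 5] [9, 8], .close [4, 11, 2, 5] [9, 6], .close [4, 11, 2, 5] [7, 6],
    .close [] [7, 3], .close [] [4, 0, 0, 1, 1, 2]])

/-- A lemma and its proof. -/
def c223_88 : List Lit × List (Cmd Rule) :=
  ([.ord true [1] [5], .ord true [4, 11, 2, 5] [], .ord false [8, 5] [2, 5]], [
    .lem 57 [2, 5, 2, 5], .use (.W true 1 2 1 [5]), .use (.N true 1 [5]), .close [8, 5] [5, 2],
    .use (.W true 1 0 0 [5]), .clash 5 6, .use (.W true 1 0 1 [5]), .clash 5 7,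
    .use (.M true 2 [11, 2, 5]), .close [0, 11, 2, 5] [8, 2, 7, 6, 1], .close [2, 11, 2, 5] [8, 1],
    .close [4, 11, 2, 5] [8, 3, 1], .clash 5 4, .close [8, 5] [4, 1, 2]])

/-- A lemma and its proof. -/
def c223_89 : List Lit × List (Cmd Rule) :=
  ([.ord true [1] [5], .ord false [] [4, 11, 2, 5], .ord true [0, 5, 0, 7, 4, 1] []], [
    .lem 57 [2, 5, 2, 5], .use (.F false 2 []), .close [1] [4, 0], .close [3] [4, 3], .lem 71 [],
    .close [1] [5, 0], .lem 62 [], .close [1] [6, 0], .lem 82 [], .close [1] [7, 0], .lem 83 [],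
    .close [1] [8, 0], .close [0, 5, 0, 7, 4, 1] [8, 2], .use (.F true 0 []), .use (.F true 1 []),
    .close [3] [10, 9], .close [3] [10, 3], .lem 79 [], .close [1] [11, 0], .lem 74 [],
    .close [1] [12, 0], .lem 70 [], .close [1] [13, 0], .lem 77 [], .close [1] [14, 0],
    .use (.F true 0 [4, 11, 4, 11, 2, 5]), .close [1, 4, 11, 4, 11, 2, 5] [15, 14],
    .close [1, 4, 11, 4, 11, 2, 5] [15, 7, 5],
    .close [7, 0, 7, 4, 1, 4, 11, 4, 11, 2, 5] [15, 14, 7, 1, 2, 2, 4, 12],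
    .close [4, 11, 4, 11, 2, 5] [14, 12], .close [4, 11, 2, 5] [14, 11], .close [] [14, 1],
    .close [4, 11, 2, 5] [14, 13], .close [2, 5] [13, 6], .close [4, 11, 2, 5] [13, 11],
    .close [4, 11, 4, 11, 2, 5] [13, 12], .close [4, 11, 2, 5] [13, 1, 5],
    .close [4, 11, 2, 5] [12, 11], .close [2, 5] [12, 6], .close [4, 11, 2, 5] [12, 1, 5],
    .close [] [11, 9], .close [] [11, 1], .close [5] [11, 10], .close [1] [9, 0],
    .close [7, 0, 7, 4, 1] [9, 8], .close [4, 11, 2, 5] [8, 7], .close [] [8, 1],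
    .close [4, 11, 2, 5] [7, 1, 5], .close [2, 5] [7, 6], .close [4, 11, 2, 5] [6, 5],
    .close [] [6, 1]])

/-- A lemma and its proof. -/
def c223_90 : List Lit × List (Cmd Rule) :=
  ([.ord true [1] [5], .ord false [] [2, 1], .ord true [2, 5] [8, 5]], [
    .use (.F true 1 []), .close [3] [3, 1], .close [3] [3, 0, 1],
    .close [9, 2, 9, 0, 3] [3, 2, 2, 0, 1, 1]])

/-- A lemma and its proof. -/
def c223_91 : List Lit × List (Cmd Rule) :=
  ([.ord true [1] [5], .walk false true 0 1 [7, 0, 7, 4, 1], .ord false [4, 1] [10, 1], .ord true [10, 1] [6, 1], .ord true [] [2, 7, 0, 7, 4, 1]], [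
    .use (.W true 0 1 0 [7, 0, 7, 4, 1]), .clash 1 5, .use (.W true 0 1 1 [7, 0, 7, 4, 1]),
    .clash 1 6, .close [0, 7, 4, 1] [6, 5, 4, 3, 2]])

/-- A lemma and its proof. -/
def c223_92 : List Lit × List (Cmd Rule) :=
  ([.ord true [1] [5], .walk false true 0 2 [7, 4, 1, 2, 5], .ord true [2, 5] [6, 11, 2, 5], .ord true [4, 11, 2, 5] [], .ord true [5] [7, 0, 7, 4, 1, 2, 5]], [
    .use (.W true 0 2 0 [7, 4, 1, 2, 5]), .clash 1 5, .use (.W true 0 2 1 [7, 4, 1, 2, 5]),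
    .clash 1 6, .close [4, 1, 2, 5] [6, 5, 4, 3, 2]])

/-- A lemma and its proof. -/
def c223_93 : List Lit × List (Cmd Rule) :=
  ([.ord true [1] [5], .walk false false 2 1 [11, 2, 5], .ord true [4, 11, 2, 5] []], [
    .use (.W false 2 1 0 [11, 2, 5]), .clash 1 3, .use (.W false 2 1 1 [11, 2, 5]), .clash 1 4,
    .close [8, 11, 2, 5] [4, 2, 3]])

/-- A lemma and its proof. -/
def c223_94 : List Lit × List (Cmd Rule) :=
  ([.ord true [1] [5], .ord true [2, 1] [4, 1], .ord false [4, 1] [10, 1], .ord true [10, 1] [6, 1]], [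
    .lem 3 [1, 4, 1], .close [4, 1, 4, 1] [4, 0], .use (.F true 0 []), .close [1] [5, 0, 1],
    .close [1] [5, 0], .use (.F true 0 [4, 1]), .close [1, 4, 1] [6, 1, 0],
    .close [1, 4, 1] [6, 0], .use (.M false 0 [1, 4, 1]), .close [6, 1, 4, 1] [7, 5, 0, 1, 3, 2],
    .close [6, 1, 4, 1] [7, 4, 6, 1, 3, 2], .close [6, 1, 4, 1] [7, 6, 1, 3, 2]])

/-- A lemma and its proof. -/
def c223_95 : List Lit × List (Cmd Rule) :=
  ([.ord true [1] [5], .ord false [4, 11, 2, 5] [], .ord true [10, 1] [6, 1], .ord true [5] [7, 0, 7, 4, 1, 2, 5], .ord false [1, 2, 5] [11, 2, 5], .ord true [2, 5] [6, 11, 2, 5], .ord true [8, 7, 4, 1, 2, 5] [4, 1, 2, 5]], [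
    .lem 57 [2, 5, 2, 5], .use (.F false 2 []), .close [1] [8, 0], .close [3] [8, 7],
    .use (.W false 2 0 1 [11, 4, 11, 2, 5]), .use (.W false 2 1 1 [11, 4, 11, 2, 5]),
    .use (.N false 2 [11, 4, 11, 2, 5]), .close [4, 11, 4, 11, 2, 5] [11, 7, 1], .clash 11 9,
    .clash 11 10, .close [8, 11, 4, 11, 2, 5] [10, 4, 6, 3, 1, 5, 3, 1, 5, 7, 2, 8],
    .close [6, 11, 4, 11, 2, 5] [9, 4, 3, 1, 5, 3, 1, 5, 7, 2, 8]])

/-- A lemma and its proof. -/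
def c223_96 : List Lit × List (Cmd Rule) :=
  ([.ord true [1] [5], .ord false [4, 11, 2, 5] [], .ord false [1, 2, 5] [11, 2, 5], .ord false [6, 1] [], .ord true [5] [7, 0, 7, 4, 1, 2, 5], .ord false [2, 7, 4, 1, 2, 5] [8, 7, 4, 1, 2, 5], .ord true [2, 5] [6, 11, 2, 5], .ord true [8, 7, 4, 1, 2, 5] [4, 1, 2, 5]], [
    .lem 57 [2, 5, 2, 5], .use (.F true 0 []), .close [1] [9, 1, 2, 7, 5, 4, 1, 6, 8],
    .close [1] [9, 0], .lem 67 [], .close [1] [10, 0], .lem 69 [], .close [1] [11, 0],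
    .use (.N true 0 [7, 4, 1]), .close [4, 1] [12, 9, 1, 2, 7, 5, 8], .clash 12 11,
    .use (.W true 0 2 0 [7, 4, 1]), .clash 12 13, .use (.W true 0 2 1 [7, 4, 1]), .clash 12 14,
    .lem 95 [], .close [1] [15, 0], .close [4, 11, 2, 5] [15, 1], .lem 68 [], .close [1] [16, 0],
    .close [6, 1] [16, 15], .close [6, 1] [16, 3], .close [4, 1] [16, 15, 14, 13],
    .close [5] [15, 4], .close [1, 2, 5] [15, 2], .close [2, 5] [15, 6],
    .close [8, 7, 4, 1, 2, 5] [15, 7], .close [4, 1, 4, 1] [11, 10],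
    .close [] [11, 9, 1, 2, 7, 5, 8], .close [4, 1] [10, 9, 1, 2, 7, 5, 8]])

/-- A lemma and its proof. -/
def c223_97 : List Lit × List (Cmd Rule) :=
  ([.ord true [1] [5], .ord true [4, 11, 2, 5] []], [
    .lem 57 [2, 5, 2, 5], .use (.F false 2 []), .close [1] [3, 0], .close [3] [3, 2],
    .use (.M true 2 [11, 2, 5]), .use (.F true 0 [2, 5]), .close [1, 2, 5] [5, 1, 4],
    .close [1, 2, 5] [5, 2, 1, 4], .lem 88 [], .close [1] [6, 0], .close [4, 11, 2, 5] [6, 1],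
    .lem 90 [], .close [1] [7, 0], .use (.F true 0 []), .close [1] [8, 7], .close [1] [8, 0],
    .lem 93 [], .close [1] [9, 0], .use (.N false 2 [11, 2, 5]), .close [4, 11, 2, 5] [10, 2, 1],
    .use (.W false 2 0 1 [11, 2, 5]), .clash 10 11, .lem 92 [], .close [1] [12, 0],
    .use (.N true 0 [7, 4, 1, 2, 5]), .close [4, 1, 2, 5] [13, 5, 1, 11, 2, 1, 4],
    .use (.W true 0 1 0 [7, 4, 1, 2, 5]), .clash 13 14, .use (.W true 0 1 1 [7, 4, 1, 2, 5]),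
    .clash 13 15, .lem 67 [], .close [1] [16, 0], .lem 69 [], .close [1] [17, 0],
    .use (.N true 0 [7, 4, 1]), .close [4, 1] [18, 8, 1, 4, 15, 14, 2], .clash 18 17,
    .use (.W true 0 2 0 [7, 4, 1]), .clash 18 19, .use (.W true 0 2 1 [7, 4, 1]), .clash 18 20,
    .lem 96 [], .close [1] [21, 0], .lem 82 [], .close [1] [22, 0], .lem 68 [], .close [1] [23, 0],
    .use (.W false 2 0 1 [11, 4, 11, 2, 5]), .use (.W false 2 1 1 [11, 4, 11, 2, 5]),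
    .use (.N false 2 [11, 4, 11, 2, 5]), .close [4, 11, 4, 11, 2, 5] [26, 2, 1], .clash 26 24,
    .clash 26 25, .close [8, 11, 4, 11, 2, 5] [25, 4, 15, 5, 1, 11, 5, 1, 11, 2, 23, 3],
    .close [6, 11, 4, 11, 2, 5] [24, 21, 20, 19, 8, 1, 4, 15, 14, 5, 1, 11, 5, 1, 11, 2, 23, 3],
    .close [6, 1] [23, 1, 4, 5, 1, 11, 2], .close [4, 1] [23, 3, 22, 21],
    .close [4, 11, 2, 5] [22, 11, 2, 20, 19, 8, 1], .close [2, 5] [22, 21, 6],
    .close [1, 2, 5] [21, 4], .close [6, 1] [21, 1, 4, 5, 1, 11, 2], .close [5] [21, 5],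
    .close [2, 7, 4, 1, 2, 5] [21, 14], .close [2, 5] [21, 11], .close [8, 7, 4, 1, 2, 5] [21, 15],
    .close [4, 1, 4, 1] [17, 16], .close [] [17, 8, 1, 4, 15, 14, 2],
    .close [4, 1] [16, 8, 1, 4, 15, 14, 2], .clash 13 12, .close [2, 5] [12, 11],
    .close [4, 11, 2, 5] [12, 1], .close [5] [12, 5], .clash 10 9, .close [4, 11, 2, 5] [9, 1],
    .close [2, 5] [7, 6], .close [2, 11, 2, 5] [4, 1], .close [4, 11, 2, 5] [4, 2, 1]])

/-- A lemma and its proof. -/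
def c223_98 : List Lit × List (Cmd Rule) :=
  ([.ord true [1] [5]], [
    .lem 57 [4, 11, 4, 11, 2, 5], .lem 57 [2, 5, 2, 5], .lem 7 [5], .use (.F false 2 []),
    .close [1] [4, 0], .close [3] [4, 2], .lem 71 [], .close [1] [5, 0], .lem 97 [],
    .close [1] [6, 0], .lem 8 [4, 11, 2, 5], .use (.F false 2 [4, 11, 2, 5]),
    .close [1, 4, 11, 2, 5] [8, 7], .close [3, 4, 11, 2, 5] [8, 6, 5], .lem 89 [],
    .close [1] [9, 0], .close [] [9, 6], .lem 67 [], .close [1] [10, 0], .lem 62 [],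
    .close [1] [11, 0], .lem 69 [], .close [1] [12, 0], .use (.N true 0 [7, 4, 1]),
    .close [4, 1] [13, 9], .clash 13 12, .use (.W true 0 2 0 [7, 4, 1]), .clash 13 14,
    .use (.W true 0 2 1 [7, 4, 1]), .clash 13 15, .lem 82 [], .close [1] [16, 0],
    .use (.F false 2 [4, 11, 4, 11, 2, 5]), .close [1, 4, 11, 4, 11, 2, 5] [17, 16, 5],
    .close [3, 4, 11, 4, 11, 2, 5] [17, 1], .lem 66 [], .close [1] [18, 0],
    .use (.F true 0 [2, 5]), .close [1, 2, 5] [19, 18], .close [1, 2, 5] [19, 2, 18], .lem 76 [],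
    .close [1] [20, 0], .lem 68 [], .close [1] [21, 0], .lem 94 [], .close [1] [22, 0],
    .use (.F false 2 [4, 1]), .close [1, 4, 1] [23, 0], .close [3, 4, 1] [23, 22], .lem 80 [],
    .close [1] [24, 0], .use (.F true 0 []), .close [1] [25, 24], .close [1] [25, 0], .lem 91 [],
    .close [1] [26, 0], .use (.N true 0 [7, 0, 7, 4, 1]), .close [0, 7, 4, 1] [27, 9],
    .clash 27 26, .use (.W true 0 2 1 [7, 0, 7, 4, 1]), .clash 27 28, .lem 85 [],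
    .close [1] [29, 0], .lem 86 [], .close [1] [30, 0], .use (.F true 0 [0, 7, 4, 1]),
    .close [7, 4, 1] [31, 30], .close [7, 4, 1] [31, 9, 15, 14], .lem 75 [], .close [1] [32, 0],
    .close [7, 4, 1] [32, 30], .close [4, 7, 4, 1] [32, 9, 15, 14],
    .close [0, 11, 4, 11, 4, 11, 2, 1] [32, 23], .close [10, 7, 4, 1] [32, 15],
    .close [4, 7, 4, 1] [32, 14], .use (.W false 2 0 1 [1, 4, 11, 4, 11, 2, 5]),
    .use (.W true 0 2 1 [7, 4, 7, 4, 1]), .use (.N false 2 [1, 4, 11, 4, 11, 2, 5]),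
    .close [4, 1, 4, 11, 4, 11, 2, 5] [35, 17, 6, 15, 14, 28, 25, 15, 14, 28, 25, 24, 15, 25, 24, 21, 4],
    .clash 35 33, .use (.W false 2 1 1 [1, 4, 11, 4, 11, 2, 5]), .clash 35 36,
    .use (.W true 0 1 1 [7, 4, 7, 4, 1]), .use (.N true 0 [7, 4, 7, 4, 1]),
    .close [4, 7, 4, 1] [38, 31, 30, 15, 14], .clash 38 37, .clash 38 34,
    .close [4, 7, 4, 1] [37, 31, 25, 29, 21, 32, 21, 4, 36, 17, 6, 15, 14, 28, 25, 15, 14, 28, 25, 24, 15],
    .close [4, 7, 4, 1] [34, 31, 25, 29, 21, 32, 21, 4, 17, 6, 15, 14, 28, 25, 15, 14, 28, 25, 24, 15],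
    .close [6, 1, 4, 11, 4, 11, 2, 5] [33, 17, 6, 15, 14, 28, 25, 15, 14, 28, 25, 24, 15, 31, 25, 29, 21, 32, 21, 4],
    .close [10, 1] [30, 21], .close [10, 7, 4, 1] [30, 15], .close [] [30, 25],
    .close [5] [30, 19], .close [] [30, 9], .close [1, 2, 5] [30, 18], .close [] [30, 29],
    .close [4, 11, 2, 5] [30, 16], .close [] [30, 6],
    .close [11, 4, 11, 4, 11, 2, 11, 2, 5] [30, 8], .close [4, 11, 2, 11, 2, 5] [30, 6, 16, 8],
    .close [4, 7, 4, 1] [30, 14], .close [2, 1] [29, 24], .close [10, 7, 4, 1] [29, 15],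
    .close [] [29, 9], .close [4, 7, 4, 1] [29, 14], .close [5] [29, 19],
    .close [1, 2, 5] [29, 18], .close [4, 1] [26, 4, 16, 6], .close [10, 1] [26, 21],
    .close [] [26, 25], .close [] [24, 6], .close [] [24, 9], .close [10, 7, 4, 1] [24, 15],
    .close [11, 4, 11, 4, 11, 2, 11, 2, 5] [24, 8], .close [4, 7, 4, 1] [24, 14],
    .close [4, 11, 2, 11, 2, 5] [24, 6, 16, 8], .close [4, 1] [22, 4, 16, 6],
    .close [10, 1] [22, 21], .close [6, 1] [21, 20], .close [4, 1] [21, 4, 16, 6],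
    .close [1, 2, 5] [20, 18], .close [5] [20, 19], .close [] [20, 3],
    .close [11, 4, 11, 4, 11, 2, 11, 2, 5] [18, 8], .close [2, 5] [18, 11],
    .close [4, 11, 2, 5] [18, 16], .close [4, 11, 2, 11, 2, 5] [18, 6, 16, 8],
    .close [4, 11, 2, 5] [18, 5], .close [4, 11, 2, 5] [16, 6, 5], .close [2, 5] [16, 11],
    .close [4, 1, 4, 1] [12, 10], .close [] [12, 9], .close [4, 11, 2, 5] [11, 5],
    .close [] [11, 6], .close [4, 1] [10, 9], .close [3, 4, 11, 2, 5] [7, 6, 5], .close [] [3, 2]])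

/-- A lemma and its proof. -/
def c223_99 : List Lit × List (Cmd Rule) :=
  ([], [
    .lem 57 [0], .lem 98 [0], .lem 8 [0], .close [5, 0] [2, 1], .close [3, 0] [2, 0]])

/-- The lemmas. -/
def c223 : List (List Lit × List (Cmd Rule)) := [
  c223_0, c223_1, c223_2, c223_3, c223_4, c223_5, c223_6, c223_7, c223_8, c223_9, c223_10, c223_11,
  c223_12, c223_13, c223_14, c223_15, c223_16, c223_17, c223_18, c223_19, c223_20, c223_21,
  c223_22, c223_23, c223_24, c223_25, c223_26, c223_27, c223_28, c223_29, c223_30, c223_31,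
  c223_32, c223_33, c223_34, c223_35, c223_36, c223_37, c223_38, c223_39, c223_40, c223_41,
  c223_42, c223_43, c223_44, c223_45, c223_46, c223_47, c223_48, c223_49, c223_50, c223_51,
  c223_52, c223_53, c223_54, c223_55, c223_56, c223_57, c223_58, c223_59, c223_60, c223_61,
  c223_62, c223_63, c223_64, c223_65, c223_66, c223_67, c223_68, c223_69, c223_70, c223_71,
  c223_72, c223_73, c223_74, c223_75, c223_76, c223_77, c223_78, c223_79, c223_80, c223_81,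
  c223_82, c223_83, c223_84, c223_85, c223_86, c223_87, c223_88, c223_89, c223_90, c223_91,
  c223_92, c223_93, c223_94, c223_95, c223_96, c223_97, c223_98, c223_99]

theorem c223_check : checkAll (cl 3 (fun k => [2, 2, 3].getD k 0)) [] c223 = true := by
  decide +kernel

theorem c223_mem : ([] : List Lit) ∈ c223.map Prod.fst :=
  List.mem_of_getElem? (i := 99) rfl

end Pool.Agent.Helper31.RING
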